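import Mathlib

/-!
# A skew adjoint square root of an integer on a finite abelian group with an alternating form
-/

set_option autoImplicit false

namespace Pool.Agent.XV

/-- in a finite cyclic group, the elements killed by `n` are the multiples of an element of
order `n` -/
lemma mem_range_of_cyclic {C : Type} [AddCommGroup C] [Finite C] [IsAddCyclic C] {n : ℕ}
    (hn : 0 < n) {a b : C} (ha : n • a = 0) (hb : addOrderOf b = n) :
    a ∈ AddSubgroup.zmultiples b := by
  classical
  have : Fintype C := Fintype.ofFinite C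
  have h1 := IsAddCyclic.card_nsmul_eq_zero_le (α := C) hn
  let S : Finset C := Finset.univ.filter fun x => n • x = 0
  let Tt : Finset C := Finset.univ.filter fun x => x ∈ AddSubgroup.zmultiples b
  have h2 : Tt ⊆ S := by
    intro x hx
    rw [Finset.mem_filter] at hx ⊢
    refine ⟨Finset.mem_univ _, ?_⟩
    obtain ⟨k, hk⟩ := hx.2
    have hk' : k • b = x := hk
    rw [← hk', smul_comm, ← hb, addOrderOf_nsmul_eq_zero, smul_zero]
  have h3 : Tt.card = n := by
    have h4 : Nat.card (AddSubgroup.zmultiples b) = n := by rw [Nat.card_zmultiples, hb]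
    rw [← h4, Nat.card_eq_fintype_card, Fintype.card_subtype]
  have h4 : Tt = S := Finset.eq_of_subset_of_card_le h2 (by
    rw [h3]
    exact h1)
  have h5 : a ∈ S := Finset.mem_filter.2 ⟨Finset.mem_univ _, ha⟩
  rw [← h4] at h5
  exact (Finset.mem_filter.1 h5).2

/-- ROW A3 (HYP) -/
theorem exists_skew_aux {p : ℕ} [Fact p.Prime] {k : ℕ} (d : ℤ) (n : ℕ) :
    ∀ (V : Type) [AddCommGroup V] [Finite V], Nat.card V = n →
    ∀ (B : V →+ V →+ ZMod (p ^ k)), (∀ v, B v v = 0) →
    (∀ v, (∀ w, B v w = 0) → v = 0) →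
    ∃ S : V →+ V, (∀ v, S (S v) = d • v) ∧ ∀ v w, B (S v) w = -B v (S w) := by
  have hp : p.Prime := Fact.out
  induction n using Nat.strong_induction_on with
  | _ n ih =>
  intro V _ _ hcard B halt hnd
  rcases subsingleton_or_nontrivial V with hs | hnt
  · exact ⟨0, fun v => Subsingleton.elim _ _, fun v w => by
      rw [Subsingleton.elim v 0]
      simp⟩
  have hsw : ∀ v w, B w v = - B v w := by
    intro v w
    have h := halt (v + w)
    rw [map_add, map_add, AddMonoidHom.add_apply, AddMonoidHom.add_apply, halt, halt, zero_add,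
      add_zero] at h
    exact eq_neg_of_add_eq_zero_left h
  -- the exponent
  have hpk : ∀ v : V, p ^ k • v = 0 := by
    intro v
    apply hnd
    intro w
    rw [map_nsmul, AddMonoidHom.nsmul_apply, nsmul_eq_mul, ZMod.natCast_self, zero_mul]
  obtain ⟨x, hx⟩ := AddMonoid.exists_addOrderOf_eq_exponent (G := V)
    AddMonoid.ExponentExists.of_finite
  have hdvd : AddMonoid.exponent V ∣ p ^ k := AddMonoid.exponent_dvd_of_forall_nsmul_eq_zero hpk
  obtain ⟨e, -, he⟩ := (Nat.dvd_prime_pow hp).1 hdvd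
  have hexp : ∀ v : V, p ^ e • v = 0 := by
    intro v
    rw [← he]
    exact AddMonoid.exponent_nsmul_eq_zero v
  have he0 : e ≠ 0 := by
    rintro rfl
    obtain ⟨v, hv⟩ := exists_ne (0 : V)
    apply hv
    have := hexp v
    rwa [pow_zero, one_smul] at this
  obtain ⟨e', rfl⟩ := Nat.exists_eq_succ_of_ne_zero he0
  have hxN : p ^ e' • x ≠ 0 := by
    intro h
    have h1 := addOrderOf_dvd_of_nsmul_eq_zero h
    rw [hx, he] at h1
    exact absurd (Nat.le_of_dvd (pow_pos hp.pos _) h1) (by
      push Not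
      exact Nat.pow_lt_pow_right hp.one_lt (Nat.lt_succ_self e'))
  obtain ⟨y, hy⟩ : ∃ y, p ^ e' • B x y ≠ 0 := by
    by_contra hcon
    push Not at hcon
    apply hxN
    apply hnd
    intro w
    rw [map_nsmul, AddMonoidHom.nsmul_apply]
    exact hcon w
  have hβ : addOrderOf (B x y) = p ^ (e' + 1) := by
    apply addOrderOf_eq_prime_pow hy
    rw [← AddMonoidHom.nsmul_apply, ← map_nsmul, hexp, map_zero, AddMonoidHom.zero_apply]
  set N := p ^ (e' + 1) with hN
  have hN0 : 0 < N := pow_pos hp.pos _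
  have hN1 : 1 < N := Nat.one_lt_pow (by omega) hp.one_lt
  -- the three maps from `ZMod N`
  have hNx : N • x = 0 := hexp x
  have hNy : N • y = 0 := hexp y
  have hNβ : N • B x y = 0 := by rw [← hβ]; exact addOrderOf_nsmul_eq_zero _
  let j : ZMod N →+ ZMod (p ^ k) := ZMod.lift N ⟨zmultiplesHom _ (B x y), by
    simpa using hNβ⟩
  let ex : ZMod N →+ V := ZMod.lift N ⟨zmultiplesHom _ x, by simpa using hNx⟩
  let ey : ZMod N →+ V := ZMod.lift N ⟨zmultiplesHom _ y, by simpa using hNy⟩
  have hj : ∀ m : ℤ, j (m : ZMod N) = m • B x y := fun m => ZMod.lift_coe _ _ _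
  have hex : ∀ m : ℤ, ex (m : ZMod N) = m • x := fun m => ZMod.lift_coe _ _ _
  have hey : ∀ m : ℤ, ey (m : ZMod N) = m • y := fun m => ZMod.lift_coe _ _ _
  have hjinj : Function.Injective j := by
    rw [injective_iff_map_eq_zero]
    intro a ha
    obtain ⟨m, rfl⟩ := ZMod.intCast_surjective a
    rw [hj] at ha
    have h1 := addOrderOf_dvd_iff_zsmul_eq_zero.2 ha
    rw [hβ] at h1
    exact (ZMod.intCast_zmod_eq_zero_iff_dvd m N).2 h1
  have hjr : ∀ v w, B v w ∈ j.range := by
    intro v w
    have h1 : N • B v w = 0 := by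
      rw [← AddMonoidHom.nsmul_apply, ← map_nsmul, hexp, map_zero, AddMonoidHom.zero_apply]
    have : NeZero (p ^ k) := ⟨pow_ne_zero _ hp.ne_zero⟩
    obtain ⟨m, hm⟩ := mem_range_of_cyclic hN0 h1 hβ
    exact ⟨(m : ZMod N), by rw [hj]; exact hm⟩
  obtain ⟨s, hs⟩ : ∃ s : V →+ ZMod N, ∀ v, j (s v) = B v y := by
    refine ⟨(AddMonoidHom.ofInjective hjinj).symm.toAddMonoidHom.comp
      ((B.flip y).codRestrict j.range (fun v => hjr v y)), fun v => ?_⟩
    exact congrArg Subtype.val ((AddMonoidHom.ofInjective hjinj).apply_symm_apply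
      ⟨B v y, hjr v y⟩)
  obtain ⟨t, ht⟩ : ∃ t : V →+ ZMod N, ∀ v, j (t v) = B x v := by
    refine ⟨(AddMonoidHom.ofInjective hjinj).symm.toAddMonoidHom.comp
      ((B x).codRestrict j.range (fun v => hjr x v)), fun v => ?_⟩
    exact congrArg Subtype.val ((AddMonoidHom.ofInjective hjinj).apply_symm_apply
      ⟨B x v, hjr x v⟩)
  -- the values of the form
  have b1 : ∀ a b, B (ex a) (ex b) = 0 := by
    intro a b
    obtain ⟨m, rfl⟩ := ZMod.intCast_surjective a
    obtain ⟨l, rfl⟩ := ZMod.intCast_surjective b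
    rw [hex, hex, map_zsmul, map_zsmul, AddMonoidHom.zsmul_apply, halt, smul_zero, smul_zero]
  have b2 : ∀ a b, B (ey a) (ey b) = 0 := by
    intro a b
    obtain ⟨m, rfl⟩ := ZMod.intCast_surjective a
    obtain ⟨l, rfl⟩ := ZMod.intCast_surjective b
    rw [hey, hey, map_zsmul, map_zsmul, AddMonoidHom.zsmul_apply, halt, smul_zero, smul_zero]
  have b3 : ∀ a b, B (ex a) (ey b) = j (a * b) := by
    intro a b
    obtain ⟨m, rfl⟩ := ZMod.intCast_surjective a
    obtain ⟨l, rfl⟩ := ZMod.intCast_surjective b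
    rw [hex, hey, map_zsmul, map_zsmul, AddMonoidHom.zsmul_apply, ← Int.cast_mul, hj, mul_comm,
      mul_smul]
  have b4 : ∀ a b, B (ey a) (ex b) = - j (a * b) := by
    intro a b
    rw [hsw, b3, mul_comm]
  have c1 : ∀ a, s (ex a) = a := by
    intro a
    apply hjinj
    rw [hs]
    have h := b3 a ((1 : ℤ) : ZMod N)
    rw [hey, one_smul, Int.cast_one, mul_one] at h
    exact h
  have c2 : ∀ a, s (ey a) = 0 := by
    intro a
    apply hjinj
    rw [hs, map_zero]
    have h := b2 a ((1 : ℤ) : ZMod N)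
    rw [hey 1, one_smul] at h
    exact h
  have c3 : ∀ a, t (ex a) = 0 := by
    intro a
    apply hjinj
    rw [ht, map_zero]
    have h := b1 ((1 : ℤ) : ZMod N) a
    rw [hex 1, one_smul] at h
    exact h
  have c4 : ∀ a, t (ey a) = a := by
    intro a
    apply hjinj
    rw [ht]
    have h := b3 ((1 : ℤ) : ZMod N) a
    rw [hex, one_smul, Int.cast_one, one_mul] at h
    exact h
  -- the orthogonal complement
  let V' : AddSubgroup V := s.ker ⊓ t.ker
  have hπ : ∀ v, v - ex (s v) - ey (t v) ∈ V' := by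
    intro v
    constructor
    · show s _ = 0
      rw [map_sub, map_sub, c1, c2, sub_self, sub_zero]
    · show t _ = 0
      rw [map_sub, map_sub, c3, c4, sub_zero, sub_self]
  let π : V →+ V' :=
    { toFun := fun v => ⟨v - ex (s v) - ey (t v), hπ v⟩
      map_zero' := by
        apply Subtype.ext
        show (0 : V) - ex (s 0) - ey (t 0) = 0
        simp
      map_add' := fun v w => by
        apply Subtype.ext
        show (v + w) - ex (s (v + w)) - ey (t (v + w)) = (v - ex (s v) - ey (t v)) +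
          (w - ex (s w) - ey (t w))
        rw [map_add, map_add, map_add, map_add]
        abel }
  have hπv : ∀ v, v = ex (s v) + ey (t v) + (π v : V) := by
    intro v
    show v = ex (s v) + ey (t v) + (v - ex (s v) - ey (t v))
    abel
  have d1 : ∀ (a : ZMod N) (w : V'), B (ex a) w = 0 := by
    intro a w
    obtain ⟨m, rfl⟩ := ZMod.intCast_surjective a
    have h1 : t (w : V) = 0 := w.2.2
    rw [hex, map_zsmul, AddMonoidHom.zsmul_apply, ← ht, h1, map_zero, smul_zero]
  have d2 : ∀ (a : ZMod N) (w : V'), B (ey a) w = 0 := by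
    intro a w
    obtain ⟨m, rfl⟩ := ZMod.intCast_surjective a
    have h1 : s (w : V) = 0 := w.2.1
    rw [hey, map_zsmul, AddMonoidHom.zsmul_apply, hsw, ← hs, h1, map_zero, neg_zero, smul_zero]
  have hF : ∀ v w, B v w = j (s v * t w - t v * s w) + B (π v : V) (π w : V) := by
    intro v w
    conv_lhs => rw [hπv v, hπv w]
    simp only [map_add, AddMonoidHom.add_apply, b1, b2, b3, b4, d1, d2, map_sub]
    rw [hsw (ex (s w)) (π v : V), hsw (ey (t w)) (π v : V), d1, d2]
    abel
  -- the restriction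
  let B' : V' →+ V' →+ ZMod (p ^ k) := (AddMonoidHom.compHom.flip V'.subtype).comp
    (B.comp V'.subtype)
  have hB' : ∀ v w : V', B' v w = B (v : V) (w : V) := fun v w => rfl
  have hcard' : Nat.card V' < n := by
    rw [← hcard]
    apply lt_of_le_of_ne (Nat.card_le_card_of_injective _ Subtype.val_injective)
    intro h
    have h1 : V' = ⊤ := AddSubgroup.eq_top_of_card_eq V' h
    have h2 : x ∈ V' := by rw [h1]; trivial
    have h3 : s x = 0 := h2.1
    have h4 := c1 ((1 : ℤ) : ZMod N)
    rw [hex, one_smul, h3, Int.cast_one] at h4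
    have : Fact (1 < N) := ⟨hN1⟩
    exact zero_ne_one h4
  obtain ⟨S', hS1, hS2⟩ := ih _ hcard' V' rfl B' (fun v => by rw [hB', halt]) (by
    intro v hv
    apply Subtype.ext
    apply hnd
    intro w
    rw [hF, show s (v : V) = 0 from v.2.1, show t (v : V) = 0 from v.2.2, zero_mul, zero_mul,
      sub_zero, map_zero, zero_add]
    have h1 : π (v : V) = v := by
      apply Subtype.ext
      show (v : V) - ex (s v) - ey (t v) = v
      rw [show s (v : V) = 0 from v.2.1, show t (v : V) = 0 from v.2.2, map_zero, map_zero,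
        sub_zero, sub_zero]
    rw [h1]
    exact hv (π w))
  let S : V →+ V := ey.comp s + d • ex.comp t + V'.subtype.comp (S'.comp π)
  have hS : ∀ v, S v = ey (s v) + d • ex (t v) + (S' (π v) : V) := fun v => rfl
  have hSs : ∀ v, s (S v) = d • t v := by
    intro v
    rw [hS, map_add, map_add, c2, map_zsmul, c1, show s (S' (π v) : V) = 0 from (S' (π v)).2.1,
      zero_add, add_zero]
  have hSt : ∀ v, t (S v) = s v := by
    intro v
    rw [hS, map_add, map_add, c4, map_zsmul, c3, show t (S' (π v) : V) = 0 from (S' (π v)).2.2,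
      smul_zero, add_zero, add_zero]
  have hSπ : ∀ v, π (S v) = S' (π v) := by
    intro v
    apply Subtype.ext
    show S v - ex (s (S v)) - ey (t (S v)) = _
    rw [hSs, hSt, hS, map_zsmul]
    abel
  refine ⟨S, ?_, ?_⟩
  · intro v
    rw [hS (S v), hSs, hSt, hSπ, hS1]
    conv_rhs => rw [hπv v]
    rw [smul_add, smul_add, map_zsmul]
    show d • ey (t v) + d • ex (s v) + ((d • (π v) : V') : V) = _
    rw [AddSubgroup.coe_zsmul]
    abel
  · intro v w
    have h1 := hS2 (π v) (π w)
    rw [hB', hB'] at h1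
    rw [hF (S v) w, hF v (S w), hSs, hSt, hSs, hSt, hSπ, hSπ, h1]
    have h2 : d • t v * t w - s v * s w = -(s v * s w - t v * d • t w) := by
      rw [smul_mul_assoc, mul_smul_comm]
      abel
    rw [h2, map_neg]
    abel

/-- ROW A3 (HYP) -/
theorem exists_skew {p : ℕ} [Fact p.Prime] {k : ℕ} {V : Type} [AddCommGroup V] [Finite V]
    (B : V →+ V →+ ZMod (p ^ k)) (halt : ∀ v, B v v = 0)
    (hnd : ∀ v, (∀ w, B v w = 0) → v = 0) (d : ℤ) :
    ∃ S : V →+ V, (∀ v, S (S v) = d • v) ∧ ∀ v w, B (S v) w = -B v (S w) :=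
  exists_skew_aux d _ V rfl B halt hnd

end Pool.Agent.XV
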