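import Pool.Agent.XV.Cyc
import Pool.Agent.XV.Skew
import Pool.Agent.Helper19.PCPHeis

/-!
# Groups of class two with cyclic centre: the lower bound
-/

set_option autoImplicit false

open Module

namespace Pool.Agent.XV

open Pool.Agent.APG Pool.Agent.Helper19.PCP
open scoped commutatorElement

section Baer

variable {P : Type} [Group P]

lemma br_mul_left (hc : ∀ x y z : P, Commute ⁅x, y⁆ z) (x x' y : P) :
    ⁅x * x', y⁆ = ⁅x, y⁆ * ⁅x', y⁆ := congrArg Subtype.val (cz_mul_left hc x x' y)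

lemma br_mul_right (hc : ∀ x y z : P, Commute ⁅x, y⁆ z) (x y y' : P) :
    ⁅x, y * y'⁆ = ⁅x, y⁆ * ⁅x, y'⁆ := congrArg Subtype.val (cz_mul_right hc x y y')

lemma br_central {z : P} (hz : z ∈ Subgroup.center P) (y : P) : ⁅z, y⁆ = 1 := by
  rw [commutatorElement_eq_one_iff_mul_comm]
  exact (Subgroup.mem_center_iff.1 hz y).symm

lemma br_central' {z : P} (hz : z ∈ Subgroup.center P) (y : P) : ⁅y, z⁆ = 1 := by
  rw [commutatorElement_eq_one_iff_mul_comm]
  exact Subgroup.mem_center_iff.1 hz y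

lemma br_mem (hc : ∀ x y z : P, Commute ⁅x, y⁆ z) (x y : P) : ⁅x, y⁆ ∈ Subgroup.center P :=
  (cz hc x y).2

/-- the Baer group structure -/
@[reducible] def baer (hc : ∀ x y z : P, Commute ⁅x, y⁆ z) (h : ℕ)
    (hh : ∀ x y : P, ⁅x, y⁆ ^ (2 * h) = ⁅x, y⁆) : AddCommGroup P :=
  letI : Add P := ⟨fun x y => x * y * (⁅x, y⁆ ^ h)⁻¹⟩
  letI : Zero P := ⟨1⟩
  letI : Neg P := ⟨fun x => x⁻¹⟩
  { AddGroup.ofLeftAxioms (G := P)
      (by
        intro x y z
        show (x * y * (⁅x, y⁆ ^ h)⁻¹) * z * (⁅x * y * (⁅x, y⁆ ^ h)⁻¹, z⁆ ^ h)⁻¹ =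
          x * (y * z * (⁅y, z⁆ ^ h)⁻¹) * (⁅x, y * z * (⁅y, z⁆ ^ h)⁻¹⁆ ^ h)⁻¹
        have h1 : ∀ a b : P, (⁅a, b⁆ ^ h)⁻¹ ∈ Subgroup.center P := fun a b =>
          Subgroup.inv_mem _ (Subgroup.pow_mem _ (br_mem hc a b) h)
        have c1 : ∀ a b g : P, Commute (⁅a, b⁆ ^ h)⁻¹ g := fun a b g =>
          (Subgroup.mem_center_iff.1 (h1 a b) g).symm
        have c2 : ∀ a b c d : P, Commute (⁅a, b⁆) (⁅c, d⁆) := fun a b c d => hc a b _
        rw [br_mul_left hc (x * y), br_central (h1 x y), mul_one, br_mul_left hc,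
          br_mul_right hc x (y * z), br_central' (h1 y z), mul_one, br_mul_right hc,
          (c2 x z y z).mul_pow, (c2 x y x z).mul_pow, mul_inv_rev, mul_inv_rev]
        have e1 := (c1 x y z).eq
        have e2 := (c1 y z ((⁅x, z⁆ ^ h)⁻¹ * (⁅x, y⁆ ^ h)⁻¹)).eq
        have e3 := (c1 x y ((⁅y, z⁆ ^ h)⁻¹ * (⁅x, z⁆ ^ h)⁻¹)).eq
        calc x * y * (⁅x, y⁆ ^ h)⁻¹ * z * ((⁅y, z⁆ ^ h)⁻¹ * (⁅x, z⁆ ^ h)⁻¹)
            = x * y * z * ((⁅x, y⁆ ^ h)⁻¹ * ((⁅y, z⁆ ^ h)⁻¹ * (⁅x, z⁆ ^ h)⁻¹)) := by
              rw [mul_assoc (x * y), e1]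
              simp only [mul_assoc]
          _ = x * y * z * ((⁅y, z⁆ ^ h)⁻¹ * ((⁅x, z⁆ ^ h)⁻¹ * (⁅x, y⁆ ^ h)⁻¹)) := by
              rw [e3]
              simp only [mul_assoc]
          _ = _ := by
              simp only [mul_assoc])
      (by
        intro x
        show 1 * x * (⁅(1 : P), x⁆ ^ h)⁻¹ = x
        rw [br_central (Subgroup.one_mem _), one_pow, inv_one, mul_one, one_mul])
      (by
        intro x
        show x⁻¹ * x * (⁅x⁻¹, x⁆ ^ h)⁻¹ = 1
        have h1 : ⁅x⁻¹, x⁆ = 1 := by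
          rw [commutatorElement_eq_one_iff_mul_comm, inv_mul_cancel, mul_inv_cancel]
        rw [h1, one_pow, inv_one, mul_one, inv_mul_cancel]) with
    add_comm := by
      intro x y
      show x * y * (⁅x, y⁆ ^ h)⁻¹ = y * x * (⁅y, x⁆ ^ h)⁻¹
      have h1 : x * y = ⁅x, y⁆ * (y * x) := by
        rw [commutatorElement_def]
        group
      have h2 : (⁅y, x⁆ ^ h)⁻¹ = ⁅x, y⁆ ^ h := by
        rw [← commutatorElement_inv x y, inv_pow, inv_inv]
      have h3 : ⁅x, y⁆ * (⁅x, y⁆ ^ h)⁻¹ = ⁅x, y⁆ ^ h := by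
        rw [mul_inv_eq_iff_eq_mul, ← pow_add, ← two_mul, hh]
      rw [h1, h2, (hc x y (y * x)).eq, mul_assoc, h3] }

/-- a retraction onto a cyclic subgroup whose order is a multiple of the exponent -/
theorem exists_retraction {A : Type} [AddCommGroup A] [Finite A] (Z : AddSubgroup A)
    [IsAddCyclic Z] (hexp : ∀ a : A, Nat.card Z • a = 0) :
    ∃ r : A →+ Z, ∀ z : Z, r z = z := by
  classical
  -- a faithful character of `Z`
  have hq : 0 < Nat.card Z := Nat.card_pos
  have : NeZero (Nat.card Z) := ⟨hq.ne'⟩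
  obtain ⟨chi, hchi⟩ : ∃ chi : Multiplicative Z →* ℂˣ, Function.Injective chi := by
    have h1 : IsCyclic (Multiplicative Z) := inferInstance
    have : NeZero (Nat.card (Multiplicative Z)) := ⟨hq.ne'⟩
    refine ⟨(Circle.toUnits.comp (ZMod.toCircle (N := Nat.card (Multiplicative Z))).toMonoidHom).comp
      (zmodCyclicMulEquiv h1).symm.toMonoidHom, ?_⟩
    intro a b hab
    have h2 := ZMod.injective_toCircle (unitSphereToUnits_injective hab)
    exact (zmodCyclicMulEquiv h1).symm.injective h2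
  have hrange : chi.range = rootsOfUnity (Nat.card Z) ℂ := by
    apply Subgroup.eq_of_le_of_card_ge
    · rintro _ ⟨z, rfl⟩
      rw [mem_rootsOfUnity, ← map_pow]
      have h1 : z ^ Nat.card Z = 1 := pow_card_eq_one' (G := Multiplicative Z)
      rw [h1, map_one]
    · rw [Complex.card_rootsOfUnity]
      exact (Nat.card_congr (MonoidHom.ofInjective hchi).toEquiv).le
  -- extension to `A`
  let H : Subgroup (Multiplicative A) := AddSubgroup.toSubgroup Z
  obtain ⟨X, hX⟩ := MonoidHom.domRestrict_surjective (G := Multiplicative A) (M := ℂ) H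
    ({ toFun := fun h => chi (Multiplicative.ofAdd ⟨h.1.toAdd, h.2⟩)
       map_one' := by
        rw [← map_one chi]
        rfl
       map_mul' := fun x y => by
        rw [← map_mul]
        rfl } : H →* ℂˣ)
  have hX' : ∀ z : Z, X (Multiplicative.ofAdd (z : A)) = chi (Multiplicative.ofAdd z) := by
    intro z
    exact DFunLike.congr_fun hX ⟨Multiplicative.ofAdd (z : A), z.2⟩
  have hXr : ∀ a : A, X (Multiplicative.ofAdd a) ∈ chi.range := by
    intro a
    rw [hrange, mem_rootsOfUnity, ← map_pow, ← ofAdd_nsmul, hexp]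
    exact map_one X
  let e : Multiplicative Z ≃* chi.range := MonoidHom.ofInjective hchi
  let r : A →+ Z := AddMonoidHom.mk' (fun a => (e.symm ⟨X (Multiplicative.ofAdd a), hXr a⟩).toAdd)
    (by
      intro a b
      rw [← toAdd_mul, ← map_mul]
      congr 2
      apply Subtype.ext
      show X (Multiplicative.ofAdd (a + b)) = _
      rw [ofAdd_add, map_mul]
      rfl)
  refine ⟨r, fun z => ?_⟩
  show (e.symm ⟨X (Multiplicative.ofAdd (z : A)), hXr z⟩).toAdd = z
  have h1 : (⟨X (Multiplicative.ofAdd (z : A)), hXr z⟩ : chi.range) =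
      e (Multiplicative.ofAdd z) := Subtype.ext (hX' z)
  rw [h1, MulEquiv.symm_apply_apply]
  rfl

/-- the form `a ^ 2 - d b ^ 2` is anisotropic modulo `p` -/
lemma aniso {p : ℕ} [Fact p.Prime] {d : ZMod p} (hd : ¬ IsSquare d) {a b : ZMod p}
    (h : a ^ 2 - d * b ^ 2 = 0) : a = 0 ∧ b = 0 := by
  have hb : b = 0 := by
    by_contra hb
    apply hd
    refine ⟨a / b, ?_⟩
    field_simp
    linear_combination -h
  subst hb
  have ha : a ^ 2 = 0 := by linear_combination h
  exact ⟨pow_eq_zero_iff (two_ne_zero) |>.1 ha, rfl⟩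

/-- ROW A4 + A5 -/
theorem cyc_ge {p : ℕ} [Fact p.Prime] [Finite P] [Nontrivial P] (hp2 : p ≠ 2)
    (hP : IsPGroup p P) (hc : ∀ x y z : P, Commute ⁅x, y⁆ z)
    (hZ : IsCyclic (Subgroup.center P))
    (hx : ∀ x : P, x ^ Nat.card (Subgroup.center P) = 1) : p + 1 ≤ T (P × P) := by
  classical
  have hp : p.Prime := Fact.out
  obtain ⟨k, hk⟩ := IsPGroup.iff_card.1 (hP.to_subgroup (Subgroup.center P))
  have hzq : ∀ z : Subgroup.center P, z ^ (p ^ k) = 1 := fun z => by
    rw [← hk]
    exact pow_card_eq_one'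
  have hodd : p ^ k % 2 = 1 := by
    rw [← Nat.odd_iff]
    exact (hp.odd_of_ne_two hp2).pow
  obtain ⟨h, hh2⟩ : ∃ h, 2 * h = p ^ k + 1 := ⟨(p ^ k + 1) / 2, by omega⟩
  have hh : ∀ x y : P, ⁅x, y⁆ ^ (2 * h) = ⁅x, y⁆ := by
    intro x y
    have h1 : (⁅x, y⁆ : P) ^ (p ^ k) = 1 := congrArg Subtype.val (hzq (cz hc x y))
    rw [hh2, pow_succ, h1, one_mul]
  let _ : AddCommGroup P := baer hc h hh
  have hadd : ∀ x y : P, x + y = x * y * (⁅x, y⁆ ^ h)⁻¹ := fun x y => rfl
  have hzero : (0 : P) = 1 := rfl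
  have haddc : ∀ x : P, ∀ z ∈ Subgroup.center P, x + z = x * z := by
    intro x z hz
    rw [hadd, br_central' hz, one_pow, inv_one, mul_one]
  have hneg : ∀ x : P, -x = x⁻¹ := fun x => rfl
  have hmul : ∀ x y : P, x * y = x + y + ⁅x, y⁆ ^ h := by
    intro x y
    rw [haddc _ _ (Subgroup.pow_mem _ (br_mem hc x y) h), hadd, inv_mul_cancel_right]
  have hnsmul : ∀ (n : ℕ) (x : P), n • x = x ^ n := by
    intro n x
    induction n with
    | zero => rw [zero_smul, pow_zero, hzero]
    | succ n ih =>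
      rw [succ_nsmul, ih, hadd, pow_succ]
      have h1 : ⁅x ^ n, x⁆ = 1 := by
        rw [commutatorElement_eq_one_iff_mul_comm]
        exact ((Commute.refl x).pow_left n).eq
      rw [h1, one_pow, inv_one, mul_one]
  -- the centre
  let Z : AddSubgroup P :=
    { carrier := {z | z ∈ Subgroup.center P}
      zero_mem' := (Subgroup.center P).one_mem
      add_mem' := by
        intro a b ha hb
        show a + b ∈ Subgroup.center P
        rw [haddc a b hb]
        exact Subgroup.mul_mem _ ha hb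
      neg_mem' := by
        intro a ha
        exact (Subgroup.center P).inv_mem ha }
  have hZmem : ∀ z : P, z ∈ Z ↔ z ∈ Subgroup.center P := fun z => Iff.rfl
  let e0 : Multiplicative Z ≃* Subgroup.center P :=
    { toFun := fun z => ⟨(z.toAdd : P), z.toAdd.2⟩
      invFun := fun z => Multiplicative.ofAdd ⟨(z : P), z.2⟩
      left_inv := fun z => rfl
      right_inv := fun z => rfl
      map_mul' := fun a b => by
        apply Subtype.ext
        show ((a.toAdd + b.toAdd : Z) : P) = (a.toAdd : P) * (b.toAdd : P)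
        rw [AddSubgroup.coe_add]
        exact haddc _ _ b.toAdd.2 }
  have hcardZ : Nat.card Z = p ^ k := by
    rw [← hk]
    exact Nat.card_congr e0.toEquiv
  have hcyc : IsAddCyclic Z := by
    have h1 : IsCyclic (Multiplicative Z) := isCyclic_of_surjective e0.symm e0.symm.surjective
    exact isCyclic_multiplicative_iff.1 h1
  have hexp : ∀ a : P, p ^ k • a = 0 := by
    intro a
    rw [hnsmul, hzero, ← hk]
    exact hx a
  obtain ⟨r, hr⟩ := exists_retraction Z (fun a => by rw [hcardZ]; exact hexp a)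
  -- the commutator form with values in `ZMod (p ^ k)`
  let e1 : Multiplicative (ZMod (p ^ k)) ≃* Subgroup.center P := by
    rw [← hk]
    exact zmodCyclicMulEquiv hZ
  let e : Subgroup.center P →* Multiplicative (ZMod (p ^ k)) := e1.symm.toMonoidHom
  have he : Function.Injective e := e1.symm.injective
  let B0 : P →+ P →+ ZMod (p ^ k) := AddMonoidHom.mk' (fun x => AddMonoidHom.mk'
      (fun y => (e (cz hc x y)).toAdd) (by
        intro y y'
        rw [← toAdd_mul, ← map_mul]
        congr 2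
        rw [hadd, cz_mul_right, cz_mul_right]
        have h1 : cz hc x (⁅y, y'⁆ ^ h)⁻¹ = 1 := by
          apply Subtype.ext
          exact br_central' (Subgroup.inv_mem _ (Subgroup.pow_mem _ (br_mem hc _ _) h)) x
        rw [h1, mul_one])) (by
    intro x x'
    ext y
    show (e (cz hc (x + x') y)).toAdd = (e (cz hc x y)).toAdd + (e (cz hc x' y)).toAdd
    rw [← toAdd_mul, ← map_mul]
    congr 2
    rw [hadd, cz_mul_left, cz_mul_left]
    have h1 : cz hc (⁅x, x'⁆ ^ h)⁻¹ y = 1 :=
      cz_central hc (Subgroup.inv_mem _ (Subgroup.pow_mem _ (br_mem hc _ _) h)) y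
    rw [h1, mul_one])
  have hB0 : ∀ x y, B0 x y = (e (cz hc x y)).toAdd := fun x y => rfl
  have hB0z : ∀ x y, y ∈ Subgroup.center P → B0 x y = 0 := by
    intro x y hy
    have h1 : cz hc x y = 1 := Subtype.ext (br_central' hy x)
    rw [hB0, h1, map_one, toAdd_one]
  have hB0z' : ∀ x y, x ∈ Subgroup.center P → B0 x y = 0 := by
    intro x y hx'
    rw [hB0, cz_central hc hx', map_one, toAdd_one]
  let V := P ⧸ Z
  let B : V →+ V →+ ZMod (p ^ k) := QuotientAddGroup.lift Z
    (AddMonoidHom.mk' (fun x => QuotientAddGroup.lift Z (B0 x) (fun y hy => hB0z x y hy)) (by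
      intro x x'
      ext y
      show B0 (x + x') y = B0 x y + B0 x' y
      rw [map_add, AddMonoidHom.add_apply])) (by
    intro x hx'
    ext y
    show B0 x y = 0
    exact hB0z' x y hx')
  have hB : ∀ x y : P, B (QuotientAddGroup.mk x) (QuotientAddGroup.mk y) = B0 x y :=
    fun x y => rfl
  have halt : ∀ v, B v v = 0 := by
    intro v
    obtain ⟨x, rfl⟩ := QuotientAddGroup.mk_surjective v
    rw [hB, hB0]
    have h1 : cz hc x x = 1 := Subtype.ext (commutatorElement_self x)
    rw [h1, map_one, toAdd_one]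
  have hnd : ∀ v, (∀ w, B v w = 0) → v = 0 := by
    intro v hv
    obtain ⟨x, rfl⟩ := QuotientAddGroup.mk_surjective v
    rw [QuotientAddGroup.eq_zero_iff, hZmem, Subgroup.mem_center_iff]
    intro y
    have h1 := hv (QuotientAddGroup.mk y)
    rw [hB, hB0] at h1
    have h2 : cz hc x y = 1 := he (by rw [map_one]; exact Multiplicative.toAdd.injective h1)
    have h3 : ⁅x, y⁆ = 1 := congrArg Subtype.val h2
    exact (commutatorElement_eq_one_iff_mul_comm.1 h3).symm
  -- a nonsquare modulo `p`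
  obtain ⟨d0, hd0⟩ := FiniteField.exists_nonsquare (F := ZMod p) (by
    rw [ZMod.ringChar_zmod_n]
    exact hp2)
  let d : ℤ := (d0.val : ℤ)
  have hd : ((d : ℤ) : ZMod p) = d0 := by
    show (((d0.val : ℕ) : ℤ) : ZMod p) = d0
    rw [Int.cast_natCast, ZMod.natCast_zmod_val]
  obtain ⟨S, hSS, hSB⟩ := exists_skew B halt hnd d
  -- lifting to `P`
  let sg : V →+ P := QuotientAddGroup.lift Z (AddMonoidHom.id P - Z.subtype.comp r) (by
    intro z hz
    show z - (r z : P) = 0
    rw [hr ⟨z, hz⟩]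
    exact sub_self z)
  have hsg : ∀ v : V, (QuotientAddGroup.mk (sg v) : V) = v := by
    intro v
    obtain ⟨x, rfl⟩ := QuotientAddGroup.mk_surjective v
    show (QuotientAddGroup.mk (x - (r x : P)) : V) = QuotientAddGroup.mk x
    rw [QuotientAddGroup.eq]
    have h1 : -(x - (r x : P)) + x = (r x : P) := by abel
    rw [h1]
    exact (r x).2
  let St : P →+ P := sg.comp (S.comp (QuotientAddGroup.mk' Z))
  have hSt : ∀ x : P, (QuotientAddGroup.mk (St x) : V) = S (QuotientAddGroup.mk x) :=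
    fun x => hsg _
  have hStz : ∀ z ∈ Subgroup.center P, St z = 0 := by
    intro z hz
    show sg (S (QuotientAddGroup.mk z)) = 0
    have h1 : (QuotientAddGroup.mk z : V) = 0 := (QuotientAddGroup.eq_zero_iff z).2 hz
    rw [h1, map_zero, map_zero]
  -- the endomorphisms
  let al : ℤ → ℤ → (P →+ P) := fun a b =>
    a • AddMonoidHom.id P + b • St + (a ^ 2 - d * b ^ 2 - a) • Z.subtype.comp r
  have hal : ∀ a b x, al a b x = a • x + b • St x + (a ^ 2 - d * b ^ 2 - a) • (r x : P) :=
    fun a b x => rfl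
  have halz : ∀ a b, ∀ z ∈ Subgroup.center P, al a b z = (a ^ 2 - d * b ^ 2) • z := by
    intro a b z hz
    rw [hal, hStz z hz, smul_zero, add_zero, hr ⟨z, hz⟩, ← add_smul]
    congr 1
    ring
  have halV : ∀ a b x, (QuotientAddGroup.mk (al a b x) : V) =
      a • (QuotientAddGroup.mk x : V) + b • S (QuotientAddGroup.mk x) := by
    intro a b x
    have h1 : (QuotientAddGroup.mk (r x : P) : V) = 0 :=
      (QuotientAddGroup.eq_zero_iff _).2 (r x).2
    rw [hal, QuotientAddGroup.mk_add, QuotientAddGroup.mk_add, QuotientAddGroup.mk_zsmul,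
      QuotientAddGroup.mk_zsmul, QuotientAddGroup.mk_zsmul, h1, smul_zero, add_zero, hSt]
  have hBS : ∀ a b v w, B (a • v + b • S v) (a • w + b • S w) = (a ^ 2 - d * b ^ 2) • B v w := by
    intro a b v w
    have h1 : B (S v) (S w) = -(d • B v w) := by
      rw [hSB, hSS, map_zsmul]
    simp only [map_add, AddMonoidHom.add_apply, map_zsmul, AddMonoidHom.zsmul_apply, hSB v w, h1]
    simp only [zsmul_eq_mul]
    push_cast
    ring
  have halcomm : ∀ a b x y, ⁅al a b x, al a b y⁆ = (a ^ 2 - d * b ^ 2) • (⁅x, y⁆ : P) := by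
    intro a b x y
    have h1 : (e (cz hc (al a b x) (al a b y))).toAdd = (a ^ 2 - d * b ^ 2) •
        (e (cz hc x y)).toAdd := by
      rw [← hB0, ← hB0, ← hB, ← hB, halV, halV, hBS]
    have h2 : cz hc (al a b x) (al a b y) = (cz hc x y) ^ (a ^ 2 - d * b ^ 2) := by
      apply he
      rw [map_zpow]
      apply Multiplicative.toAdd.injective
      rw [toAdd_zpow]
      exact h1
    have h3 : ∀ (n : ℤ) (z : P), z ∈ Subgroup.center P → n • z = z ^ n := by
      intro n z hz
      rcases n with n | n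
      · rw [Int.ofNat_eq_natCast, natCast_zsmul, zpow_natCast, hnsmul]
      · rw [negSucc_zsmul, zpow_negSucc, hneg, hnsmul]
    rw [h3 _ _ (br_mem hc x y)]
    exact congrArg Subtype.val h2
  let f : ℤ → ℤ → (P →* P) := fun a b =>
    { toFun := al a b
      map_one' := map_zero (al a b)
      map_mul' := by
        intro x y
        rw [hmul x y, map_add, map_add, halz a b _ (Subgroup.pow_mem _ (br_mem hc x y) h), hmul,
          halcomm, ← hnsmul, ← hnsmul, smul_comm] }
  -- comparison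
  have hnorm : ∀ c : ZMod p, ∃ a b : ℤ, ((a ^ 2 - d * b ^ 2 : ℤ) : ZMod p) = c := by
    intro c
    have hd00 : d0 ≠ 0 := by
      rintro rfl
      exact hd0 ⟨0, by simp⟩
    obtain ⟨a, b, hab⟩ := Heis.exists_norm (F := ZMod p) (by
      rw [ZMod.ringChar_zmod_n]
      exact hp2) hd00 c
    refine ⟨(a.val : ℤ), (b.val : ℤ), ?_⟩
    push_cast
    rw [ZMod.natCast_zmod_val, ZMod.natCast_zmod_val, hd]
    exact hab
  choose av bv hav using hnorm
  have hkill : ∀ (A : Type) [AddCommGroup A] (v : A) (n : ℤ), (p ^ k : ℕ) • v = 0 →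
      n • v = 0 → ((n : ℤ) : ZMod p) ≠ 0 → v = 0 := by
    intro A _ v n h1 h2 h3
    have h4 : IsCoprime n ((p ^ k : ℕ) : ℤ) := by
      rw [Nat.cast_pow]
      apply IsCoprime.pow_right
      rw [isCoprime_comm]
      refine (Prime.coprime_iff_not_dvd (Nat.prime_iff_prime_int.1 hp)).2 ?_
      intro h4
      exact h3 ((ZMod.intCast_zmod_eq_zero_iff_dvd n p).2 h4)
    obtain ⟨s, t, hst⟩ := h4
    have h5 : v = (s * n + t * ((p ^ k : ℕ) : ℤ)) • v := by rw [hst, one_smul]
    rw [h5, add_smul, mul_smul, mul_smul, h2, smul_zero, natCast_zsmul, h1, smul_zero, add_zero]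
  have hagree : ∀ c c' : ZMod p, c ≠ c' → ∀ x : P, f (av c) (bv c) x = f (av c') (bv c') x →
      x = 1 := by
    intro c c' hcc x hfx
    have h1 : al (av c) (bv c) x = al (av c') (bv c') x := hfx
    have h2 := congrArg (fun y : P => (QuotientAddGroup.mk y : V)) h1
    simp only [halV] at h2
    set v : V := QuotientAddGroup.mk x with hv
    have h3 : (av c - av c') • v + (bv c - bv c') • S v = 0 := by
      rw [sub_smul, sub_smul]
      have h4 : av c • v - av c' • v + (bv c • S v - bv c' • S v) =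
          (av c • v + bv c • S v) - (av c' • v + bv c' • S v) := by abel
      rw [h4, h2, sub_self]
    have h4 : ((av c - av c') ^ 2 - d * (bv c - bv c') ^ 2) • v = 0 := by
      have h5 := congrArg S h3
      rw [map_add, map_zsmul, map_zsmul, hSS, map_zero] at h5
      have h6 : ((av c - av c') ^ 2 - d * (bv c - bv c') ^ 2) • v =
          (av c - av c') • ((av c - av c') • v + (bv c - bv c') • S v) -
          (bv c - bv c') • ((av c - av c') • S v + (bv c - bv c') • d • v) := by
        module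
      rw [h6, h3, h5, smul_zero, smul_zero, sub_zero]
    have hvk : (p ^ k : ℕ) • v = 0 := by
      rw [hv, ← QuotientAddGroup.mk_nsmul, hexp]
      rfl
    have h5 : v = 0 := by
      apply hkill V v _ hvk h4
      intro h6
      push_cast at h6
      rw [hd] at h6
      obtain ⟨h7, h8⟩ := aniso hd0 h6
      apply hcc
      rw [← hav c, ← hav c']
      push_cast
      rw [sub_eq_zero.1 h7, sub_eq_zero.1 h8]
    have hxZ : x ∈ Subgroup.center P := (QuotientAddGroup.eq_zero_iff x).1 h5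
    rw [halz _ _ x hxZ, halz _ _ x hxZ, ← sub_eq_zero, ← sub_smul] at h1
    have h6 : x = 0 := by
      apply hkill P x _ (hexp x) h1
      rw [Int.cast_sub, hav, hav, sub_ne_zero]
      exact hcc
    exact h6
  have hfin := card_add_one_le_T (fun c : ZMod p => f (av c) (bv c)) hagree
  rwa [ZMod.card] at hfin

end Baer

end Pool.Agent.XV
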