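import Pool.Agent.XV.Sym

/-!
# The group is isomorphic to the model
-/

set_option autoImplicit false

open Module

namespace Pool.Agent.XV

open Pool.Agent.APG Pool.Agent.Helper19.PCP

variable {p : ℕ} [Fact p.Prime]

/-- transport of an extension to other vector spaces -/
def Ext.transport {V W V' W' : Type} [AddCommGroup V] [AddCommGroup W] [Module (ZMod p) V]
    [Module (ZMod p) W] [AddCommGroup V'] [AddCommGroup W'] [Module (ZMod p) V']
    [Module (ZMod p) W'] {q : Dat p V W} {q' : Dat p V' W'} {P : Type} [Group P] (E : Ext q P)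
    (e : V ≃ₗ[ZMod p] V') (f : W ≃ₗ[ZMod p] W') (hbe : ∀ x y, q'.be (e x) (e y) = f (q.be x y))
    (hpw : ∀ x, q'.pw (e x) = f (q.pw x)) : Ext q' P where
  pr := (AddMonoidHom.toMultiplicative e.toLinearMap.toAddMonoidHom).comp E.pr
  inc := E.inc.comp (AddMonoidHom.toMultiplicative f.symm.toLinearMap.toAddMonoidHom)
  surj := by
    intro v
    obtain ⟨x, hx⟩ := E.surj (Multiplicative.ofAdd (e.symm v.toAdd))
    refine ⟨x, ?_⟩
    show Multiplicative.ofAdd (e (E.pr x).toAdd) = v
    rw [hx, toAdd_ofAdd, LinearEquiv.apply_symm_apply, ofAdd_toAdd]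
  inj := by
    intro w w' h
    have h1 := E.inj h
    have h2 : f.symm w.toAdd = f.symm w'.toAdd := h1
    exact Multiplicative.toAdd.injective (f.symm.injective h2)
  exact := by
    ext x
    rw [MonoidHom.mem_ker]
    constructor
    · intro h
      have h1 : e (E.pr x).toAdd = 0 := h
      have h2 : (E.pr x).toAdd = 0 := e.map_eq_zero_iff.1 h1
      obtain ⟨w, hw⟩ := E.exists_inc (x := x) h2
      refine ⟨Multiplicative.ofAdd (f w.toAdd), ?_⟩
      show E.inc (Multiplicative.ofAdd (f.symm (f w.toAdd))) = x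
      rw [LinearEquiv.symm_apply_apply, ofAdd_toAdd, hw]
    · rintro ⟨w, rfl⟩
      show Multiplicative.ofAdd (e (E.pr (E.inc (Multiplicative.ofAdd
        (f.symm w.toAdd)))).toAdd) = 1
      rw [E.pr_inc, toAdd_one, map_zero, ofAdd_zero]
  comm := by
    intro x y
    rw [E.comm]
    show _ = E.inc (Multiplicative.ofAdd (f.symm (q'.be (e (E.pr x).toAdd) (e (E.pr y).toAdd))))
    rw [hbe, LinearEquiv.symm_apply_apply]
  pow := by
    intro x
    rw [E.pow]
    show _ = E.inc (Multiplicative.ofAdd (f.symm (q'.pw (e (E.pr x).toAdd))))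
    rw [hpw, LinearEquiv.symm_apply_apply]

/-- ROW M2: the group is isomorphic to the model -/
theorem iso_model {V W : Type} [AddCommGroup V] [AddCommGroup W] [Module (ZMod p) V]
    [Module (ZMod p) W] {F K : Type} [Field F] [Field K] [Algebra (ZMod p) F]
    [Algebra (ZMod p) K] [Finite F] [Finite K] [Finite V] [Finite W] {P : Type} [Group P]
    (hp2 : p ≠ 2) {q : Dat p V W} (E : Ext q P) {om : V →ₗ[ZMod p] V →ₗ[ZMod p] ZMod p}
    {w0 : W} (h : One q om 0 w0) (hnd : Nd om)
    (hV : finrank (ZMod p) V = 2 * finrank (ZMod p) F)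
    (hW : finrank (ZMod p) W = finrank (ZMod p) K) :
    Nonempty (P ≃* BGrp (mdat hp2 (tf p F) (tf_alt p F) (1 : K))) := by
  obtain ⟨e, he⟩ := exists_isometry (V := V) (V' := F × F) (om := om) (om' := tf p F) h.alt hnd
    (tf_alt p F) (tf_nd p F) (by rw [finrank_prod]; omega)
  let g : W ≃ₗ[ZMod p] K := LinearEquiv.ofFinrankEq W K hW
  have hg : g w0 ≠ 0 := fun h0 => h.w0 (g.map_eq_zero_iff.1 h0)
  let m : K ≃ₗ[ZMod p] K := LinearEquiv.ofLinearMap
    (LinearMap.mulLeft (ZMod p) (g w0)⁻¹) (LinearMap.mulLeft (ZMod p) (g w0))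
    (by
      apply LinearMap.ext
      intro x
      show (g w0)⁻¹ * (g w0 * x) = x
      rw [← mul_assoc, inv_mul_cancel₀ hg, one_mul])
    (by
      apply LinearMap.ext
      intro x
      show g w0 * ((g w0)⁻¹ * x) = x
      rw [← mul_assoc, mul_inv_cancel₀ hg, one_mul])
  have hm : ∀ c : ZMod p, (g.trans m) (c • w0) = c • (1 : K) := by
    intro c
    rw [map_smul]
    congr 1
    show (g w0)⁻¹ * g w0 = 1
    exact inv_mul_cancel₀ hg
  let E' : Ext (mdat hp2 (tf p F) (tf_alt p F) (1 : K)) P :=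
    Ext.transport E e (g.trans m)
      (by
        intro x y
        rw [mdat_be, he, h.be, hm])
      (by
        intro x
        rw [h.pw, LinearMap.zero_apply, zero_smul, map_zero]
        rfl)
  exact Ext.iso E' (BGrp.toExt hp2 (fun _ => rfl))

end Pool.Agent.XV
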