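import Pool.Agent.XV.M1
import Pool.Agent.XV.M2

/-!
# `|Φ(P)| = 2` (MP_47f3f4_co): groups given by a bilinear cocycle, row MOD
-/

set_option autoImplicit false

open Module

namespace Pool.Agent.XV

open Pool.Agent.APG Pool.Agent.Helper19.PCP

variable {p : ℕ} {V W : Type} [AddCommGroup V] [AddCommGroup W]
  [Module (ZMod p) V] [Module (ZMod p) W]

/-- the group with a bilinear cocycle: `(v, w) (v', w') = (v + v', w + w' + ph(v, v'))` -/
@[ext] structure CG (ph : V →ₗ[ZMod p] V →ₗ[ZMod p] W) where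
  /-- the first component -/
  v : V
  /-- the second component -/
  w : W

namespace CG

variable {ph : V →ₗ[ZMod p] V →ₗ[ZMod p] W}

instance : Mul (CG ph) := ⟨fun x y => ⟨x.v + y.v, x.w + y.w + ph x.v y.v⟩⟩
instance : _root_.One (CG ph) := ⟨⟨0, 0⟩⟩
instance : Inv (CG ph) := ⟨fun x => ⟨-x.v, -x.w + ph x.v x.v⟩⟩

lemma mul_v (x y : CG ph) : (x * y).v = x.v + y.v := rfl
lemma mul_w (x y : CG ph) : (x * y).w = x.w + y.w + ph x.v y.v := rfl
lemma one_v : (1 : CG ph).v = 0 := rfl
lemma one_w : (1 : CG ph).w = 0 := rfl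
lemma inv_v (x : CG ph) : (x⁻¹).v = -x.v := rfl
lemma inv_w (x : CG ph) : (x⁻¹).w = -x.w + ph x.v x.v := rfl

instance : Group (CG ph) := Group.ofLeftAxioms
  (by
    intro x y z
    apply CG.ext
    · rw [mul_v, mul_v, mul_v, mul_v, add_assoc]
    · rw [mul_w, mul_w, mul_w, mul_w, mul_v, mul_v, map_add, map_add, LinearMap.add_apply]
      abel)
  (by
    intro x
    apply CG.ext
    · rw [mul_v, one_v, zero_add]
    · rw [mul_w, one_v, one_w, map_zero, LinearMap.zero_apply, zero_add, add_zero])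
  (by
    intro x
    apply CG.ext
    · rw [mul_v, inv_v, one_v, neg_add_cancel]
    · rw [mul_w, inv_v, inv_w, one_w, map_neg, LinearMap.neg_apply]
      abel)

end CG

lemma card_CG (ph : V →ₗ[ZMod p] V →ₗ[ZMod p] W) :
    Nat.card (CG ph) = Nat.card V * Nat.card W := by
  rw [← Nat.card_prod]
  exact Nat.card_congr
    { toFun := fun g => (g.v, g.w)
      invFun := fun z => ⟨z.1, z.2⟩
      left_inv := fun _ => rfl
      right_inv := fun _ => rfl }

instance [Finite V] [Finite W] (ph : V →ₗ[ZMod p] V →ₗ[ZMod p] W) : Finite (CG ph) :=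
  Finite.of_injective (fun g : CG ph => (g.v, g.w)) (fun _ _ h =>
    CG.ext (congrArg Prod.fst h) (congrArg Prod.snd h))

section two

variable {V W : Type} [AddCommGroup V] [AddCommGroup W] [Module (ZMod 2) V] [Module (ZMod 2) W]

/-- the data of a group with a bilinear cocycle, for `p = 2` -/
def cdat (ph : V →ₗ[ZMod 2] V →ₗ[ZMod 2] W) : Dat 2 V W where
  be := ph - ph.flip
  alt := fun v => by
    rw [LinearMap.sub_apply, LinearMap.sub_apply, LinearMap.flip_apply, sub_self]
  pw := fun v => ph v v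
  pw_add := fun v v' => by
    have h2 : ph v' v + ph v' v = 0 := by
      rw [← two_smul (ZMod 2) (ph v' v)]
      have : (2 : ZMod 2) = 0 := rfl
      rw [this, zero_smul]
    rw [map_add, map_add, LinearMap.add_apply, LinearMap.add_apply, LinearMap.sub_apply,
      LinearMap.sub_apply, LinearMap.flip_apply, Nat.choose_self, one_smul]
    have h3 : ph v' v = - ph v' v := eq_neg_of_add_eq_zero_left h2
    rw [sub_eq_add_neg, ← h3]
    abel

/-- the group with the cocycle `ph` is an extension with these data -/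
def CG.toExt (ph : V →ₗ[ZMod 2] V →ₗ[ZMod 2] W) : Ext (cdat ph) (CG ph) where
  pr :=
    { toFun := fun x => Multiplicative.ofAdd x.v
      map_one' := rfl
      map_mul' := fun x y => rfl }
  inc :=
    { toFun := fun w => ⟨0, w.toAdd⟩
      map_one' := rfl
      map_mul' := fun x y => by
        apply CG.ext
        · rw [mul_v, add_zero]
        · rw [mul_w, map_zero, add_zero]
          rfl }
  surj := fun v => ⟨⟨v.toAdd, 0⟩, rfl⟩
  inj := fun x y h => congrArg CG.w h
  exact := by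
    ext x
    rw [MonoidHom.mem_ker, MonoidHom.mem_range]
    constructor
    · intro h
      refine ⟨Multiplicative.ofAdd x.w, ?_⟩
      apply CG.ext
      · exact (show (0 : V) = x.v from (Multiplicative.ofAdd.injective h).symm)
      · rfl
    · rintro ⟨w, rfl⟩
      rfl
  comm := fun x y => by
    apply CG.ext
    · change x.v + y.v + -x.v + -y.v = 0
      abel
    · change x.w + y.w + ph x.v y.v + (-x.w + ph x.v x.v) +
        ph (x.v + y.v) (-x.v) + (-y.w + ph y.v y.v) +
        ph (x.v + y.v + -x.v) (-y.v) = ph x.v y.v - ph y.v x.v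
      have e1 : ph (x.v + y.v) (-x.v) = -ph x.v x.v - ph y.v x.v := by
        rw [map_neg, map_add, LinearMap.add_apply]
        abel
      have e2 : ph (x.v + y.v + -x.v) (-y.v) = -ph y.v y.v := by
        rw [map_neg, show x.v + y.v + -x.v = y.v by abel]
      rw [e1, e2]
      abel
  pow := fun x => by
    rw [pow_two]
    apply CG.ext
    · change x.v + x.v = 0
      rw [← two_smul (ZMod 2) x.v]
      have : (2 : ZMod 2) = 0 := rfl
      rw [this, zero_smul]
    · change x.w + x.w + ph x.v x.v = ph x.v x.v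
      rw [← two_smul (ZMod 2) x.w]
      have : (2 : ZMod 2) = 0 := rfl
      rw [this, zero_smul, zero_add]

variable {T : Type} [AddCommGroup T] [Module (ZMod 2) T]

/-- the cocycle `((t, u), (t', u')) ↦ d(t, u') w0` -/
def mph (d : T →ₗ[ZMod 2] T →ₗ[ZMod 2] ZMod 2) (w0 : W) :
    (T × T) →ₗ[ZMod 2] (T × T) →ₗ[ZMod 2] W :=
  (d.compl₁₂ (LinearMap.fst (ZMod 2) T T) (LinearMap.snd (ZMod 2) T T)).compr₂
    ((LinearMap.id : ZMod 2 →ₗ[ZMod 2] ZMod 2).smulRight w0)

lemma mph_apply (d : T →ₗ[ZMod 2] T →ₗ[ZMod 2] ZMod 2) (w0 : W) (v v' : T × T) :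
    mph d w0 v v' = d v.1 v'.2 • w0 := rfl

/-- ROW MOD: the group is isomorphic to the model -/
theorem iso_cg [Finite T] [Finite W] {V' W' : Type} [AddCommGroup V'] [AddCommGroup W']
    [Module (ZMod 2) V'] [Module (ZMod 2) W'] {q : Dat 2 V' W'} {P : Type} [Group P]
    (E : Ext q P) {Q : V' → ZMod 2} {w0' : W'} (hpw : ∀ v, q.pw v = Q v • w0')
    (d : T →ₗ[ZMod 2] T →ₗ[ZMod 2] ZMod 2) (e : V' ≃ₗ[ZMod 2] T × T)
    (he : ∀ v, Q v = d (e v).1 (e v).2) (f : W' ≃ₗ[ZMod 2] W) {w0 : W} (hf : f w0' = w0) :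
    Nonempty (P ≃* CG (mph d w0)) := by
  have h1 : ∀ x, (cdat (mph d w0)).pw (e x) = f (q.pw x) := by
    intro x
    rw [hpw, map_smul, hf, he]
    rfl
  have h2 : ∀ x y, (cdat (mph d w0)).be (e x) (e y) = f (q.be x y) := by
    intro x y
    have h3 := (cdat (mph d w0)).pw_add (e x) (e y)
    have h4 := congrArg f (q.pw_add x y)
    rw [← map_add, h1, h1, h1, Nat.choose_self, one_smul] at h3
    rw [Nat.choose_self, one_smul, map_add, map_add] at h4
    rw [h4] at h3
    exact (add_left_cancel h3).symm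
  exact Ext.iso (Ext.transport E e f h2 h1) (CG.toExt (mph d w0))

end two

section mb

variable (p V W)

/-- the data of a member: the section `s` need not be linear -/
structure Mc where
  /-- the image -/
  X : Submodule (ZMod p) (V × V)
  /-- the trace -/
  Y : Submodule (ZMod p) (W × W)
  /-- the section -/
  s : V × V → W × W

end mb

/-- the two members meet trivially -/
def GQ (A B : Mc p V W) : Prop :=
  (∀ y ∈ A.Y, y ∈ B.Y → y = 0) ∧
    ∀ x ∈ A.X, x ∈ B.X → ∀ y ∈ A.Y, ∀ z ∈ B.Y, A.s x - B.s x = y + z → x = 0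

lemma GQ.symm {A B : Mc p V W} (h : GQ A B) : GQ B A := by
  refine ⟨fun y h1 h2 => h.1 y h2 h1, fun x h1 h2 y hy z hz he => ?_⟩
  refine h.2 x h2 h1 (-z) (A.Y.neg_mem hz) (-y) (B.Y.neg_mem hy) ?_
  rw [← neg_sub, he]
  abel

/-- the member is a subgroup -/
def Clo (ph : V →ₗ[ZMod p] V →ₗ[ZMod p] W) (Th : (W × W) ≃ₗ[ZMod p] (W × W)) (A : Mc p V W) :
    Prop :=
  ∀ x ∈ A.X, ∀ x' ∈ A.X, A.s (x + x') - A.s x - A.s x' - Th (ph x.1 x'.1, ph x.2 x'.2) ∈ A.Y

section sub

variable {ph : V →ₗ[ZMod p] V →ₗ[ZMod p] W} {Th : (W × W) ≃ₗ[ZMod p] (W × W)} {A : Mc p V W}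

/-- the subgroup given by the subspaces `X` and `Y` and the map `s` -/
def csub (ph : V →ₗ[ZMod p] V →ₗ[ZMod p] W) (Th : (W × W) ≃ₗ[ZMod p] (W × W)) (A : Mc p V W)
    (hcl : Clo ph Th A) : Subgroup (CG ph × CG ph) where
  carrier := {g | (g.1.v, g.2.v) ∈ A.X ∧ Th (g.1.w, g.2.w) - A.s (g.1.v, g.2.v) ∈ A.Y}
  one_mem' := by
    constructor
    · exact A.X.zero_mem
    · have h := hcl 0 A.X.zero_mem 0 A.X.zero_mem
      have e : A.s (0 + 0) - A.s 0 - A.s 0 - Th (ph (0 : V × V).1 (0 : V × V).1,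
          ph (0 : V × V).2 (0 : V × V).2) = Th ((0 : W), (0 : W)) - A.s (0, 0) := by
        have e1 : ((ph (0 : V × V).1 (0 : V × V).1, ph (0 : V × V).2 (0 : V × V).2) : W × W) =
          ((0 : W), (0 : W)) := by
          show (((ph 0) 0, (ph 0) 0) : W × W) = (0, 0)
          simp
        have e2 : Th ((0 : W), (0 : W)) = 0 := map_zero Th
        rw [e1, e2, add_zero, sub_self]
        show 0 - A.s (0, 0) - 0 = 0 - A.s (0, 0)
        abel
      rw [e] at h
      exact h
  mul_mem' := by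
    rintro g g' ⟨h1, h2⟩ ⟨h1', h2'⟩
    constructor
    · exact A.X.add_mem h1 h1'
    · have h := hcl _ h1 _ h1'
      have e : Th ((g * g').1.w, (g * g').2.w) - A.s ((g * g').1.v, (g * g').2.v) =
          (Th (g.1.w, g.2.w) - A.s (g.1.v, g.2.v)) + (Th (g'.1.w, g'.2.w) - A.s (g'.1.v, g'.2.v)) -
          (A.s ((g.1.v, g.2.v) + (g'.1.v, g'.2.v)) - A.s (g.1.v, g.2.v) - A.s (g'.1.v, g'.2.v) -
            Th (ph g.1.v g'.1.v, ph g.2.v g'.2.v)) := by
        have e1 : (((g * g').1.v, (g * g').2.v) : V × V) = (g.1.v, g.2.v) + (g'.1.v, g'.2.v) := rfl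
        have e2 : (((g * g').1.w, (g * g').2.w) : W × W) = (g.1.w, g.2.w) + (g'.1.w, g'.2.w) +
          (ph g.1.v g'.1.v, ph g.2.v g'.2.v) := rfl
        rw [e1, e2, map_add, map_add]
        abel
      show Th ((g * g').1.w, (g * g').2.w) - A.s ((g * g').1.v, (g * g').2.v) ∈ A.Y
      rw [e]
      exact A.Y.sub_mem (A.Y.add_mem h2 h2') h
  inv_mem' := by
    rintro g ⟨h1, h2⟩
    constructor
    · exact A.X.neg_mem h1
    · have h := hcl _ h1 _ (A.X.neg_mem h1)
      have h0 := hcl 0 A.X.zero_mem 0 A.X.zero_mem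
      have e : Th ((g⁻¹).1.w, (g⁻¹).2.w) - A.s ((g⁻¹).1.v, (g⁻¹).2.v) =
          -(Th (g.1.w, g.2.w) - A.s (g.1.v, g.2.v)) + (A.s ((g.1.v, g.2.v) + -(g.1.v, g.2.v)) -
            A.s (g.1.v, g.2.v) - A.s (-(g.1.v, g.2.v)) -
            Th (ph g.1.v (-g.1.v), ph g.2.v (-g.2.v))) + (A.s (0 + 0) - A.s 0 - A.s 0 -
            Th (ph (0 : V × V).1 (0 : V × V).1, ph (0 : V × V).2 (0 : V × V).2)) := by
        have e1 : (((g⁻¹).1.v, (g⁻¹).2.v) : V × V) = -(g.1.v, g.2.v) := rfl
        have e2 : (((g⁻¹).1.w, (g⁻¹).2.w) : W × W) = -(g.1.w, g.2.w) +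
          (ph g.1.v g.1.v, ph g.2.v g.2.v) := rfl
        have e3 : ((ph g.1.v (-g.1.v), ph g.2.v (-g.2.v)) : W × W) =
          -(ph g.1.v g.1.v, ph g.2.v g.2.v) := by
          rw [map_neg, map_neg]
          rfl
        have e4 : ((ph (0 : V × V).1 (0 : V × V).1, ph (0 : V × V).2 (0 : V × V).2) : W × W) =
          0 := by
          show (((ph 0) 0, (ph 0) 0) : W × W) = 0
          simp
        rw [e1, e2, e3, e4, map_add, map_neg, map_neg, map_zero, add_zero, add_neg_cancel]
        abel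
      show Th ((g⁻¹).1.w, (g⁻¹).2.w) - A.s ((g⁻¹).1.v, (g⁻¹).2.v) ∈ A.Y
      rw [e]
      exact A.Y.add_mem (A.Y.add_mem (A.Y.neg_mem h2) h) h0

variable {hcl : Clo ph Th A}

/-- the order of the subgroup -/
lemma card_csub : Nat.card (csub ph Th A hcl) = Nat.card A.X * Nat.card A.Y := by
  rw [← Nat.card_prod]
  refine Nat.card_congr
    { toFun := fun g => (⟨(g.1.1.v, g.1.2.v), g.2.1⟩, ⟨_, g.2.2⟩)
      invFun := fun z => ⟨(⟨z.1.1.1, (Th.symm (z.2.1 + A.s z.1.1)).1⟩,
        ⟨z.1.1.2, (Th.symm (z.2.1 + A.s z.1.1)).2⟩), ?_⟩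
      left_inv := ?_
      right_inv := ?_ }
  · constructor
    · exact z.1.2
    · show Th (Th.symm (z.2.1 + A.s z.1.1)) - A.s z.1.1 ∈ A.Y
      rw [LinearEquiv.apply_symm_apply, add_sub_cancel_right]
      exact z.2.2
  · rintro ⟨⟨⟨v, w⟩, ⟨v', w'⟩⟩, h1, h2⟩
    apply Subtype.ext
    have h : Th.symm (Th (w, w') - A.s (v, v') + A.s (v, v')) = (w, w') := by
      rw [sub_add_cancel, LinearEquiv.symm_apply_apply]
    apply Prod.ext
    · apply CG.ext
      · rfl
      · exact congrArg Prod.fst h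
    · apply CG.ext
      · rfl
      · exact congrArg Prod.snd h
  · rintro ⟨⟨x, hx⟩, ⟨y, hy⟩⟩
    apply Prod.ext
    · rfl
    · apply Subtype.ext
      show Th (Th.symm (y + A.s x)) - A.s x = y
      rw [LinearEquiv.apply_symm_apply, add_sub_cancel_right]

end sub

/-- ROW MOD: partial congruence partitions from families of members -/
theorem le_T_of_mc [Fact p.Prime] [Finite V] [Finite W] [Nontrivial W]
    (ph : V →ₗ[ZMod p] V →ₗ[ZMod p] W)
    (Th : (W × W) ≃ₗ[ZMod p] (W × W)) {ι : Type} [Fintype ι] (m : ι → Mc p V W)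
    (hcl : ∀ i, Clo ph Th (m i))
    (hdim : ∀ i, finrank (ZMod p) (m i).X + finrank (ZMod p) (m i).Y =
      finrank (ZMod p) V + finrank (ZMod p) W)
    (hGQ : ∀ i j, i ≠ j → GQ (m i) (m j)) : Fintype.card ι ≤ T (CG ph × CG ph) := by
  classical
  have hVf : FiniteDimensional (ZMod p) V := Module.Finite.of_finite
  have hWf : FiniteDimensional (ZMod p) W := Module.Finite.of_finite
  let U : ι → Subgroup (CG ph × CG ph) := fun i => csub ph Th (m i) (hcl i)
  have hcard : ∀ i, Nat.card (U i) = Nat.card (CG ph) := by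
    intro i
    show Nat.card (csub ph Th (m i) (hcl i)) = _
    rw [card_csub, card_CG, Module.natCard_eq_pow_finrank (K := ZMod p) (V := (m i).X),
      Module.natCard_eq_pow_finrank (K := ZMod p) (V := (m i).Y),
      Module.natCard_eq_pow_finrank (K := ZMod p) (V := V),
      Module.natCard_eq_pow_finrank (K := ZMod p) (V := W), ← pow_add, ← pow_add, hdim]
  have hmeet : ∀ i j, i ≠ j → U i ⊓ U j = ⊥ := by
    intro i j hij
    rw [eq_bot_iff]
    rintro g hg
    rw [Subgroup.mem_inf] at hg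
    obtain ⟨⟨h1, h2⟩, ⟨h3, h4⟩⟩ := hg
    have h5 : ((g.1.v, g.2.v) : V × V) = 0 := by
      apply (hGQ i j hij).2 _ h1 h3 _ ((m i).Y.neg_mem h2) _ h4
      abel
    have h6 : ((g.1.w, g.2.w) : W × W) = 0 := by
      have s0 : ∀ k, (m k).s 0 ∈ (m k).Y := by
        intro k
        have h := hcl k 0 (m k).X.zero_mem 0 (m k).X.zero_mem
        have e4 : ((ph (0 : V × V).1 (0 : V × V).1, ph (0 : V × V).2 (0 : V × V).2) : W × W) =
          0 := by
          show (((ph 0) 0, (ph 0) 0) : W × W) = 0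
          simp
        rw [e4, map_zero, add_zero, sub_self, zero_sub, sub_zero] at h
        exact (Submodule.neg_mem_iff _).1 h
      rw [h5] at h2 h4
      have h7 : Th (g.1.w, g.2.w) ∈ (m i).Y := by
        have := (m i).Y.add_mem h2 (s0 i)
        rwa [sub_add_cancel] at this
      have h8 : Th (g.1.w, g.2.w) ∈ (m j).Y := by
        have := (m j).Y.add_mem h4 (s0 j)
        rwa [sub_add_cancel] at this
      exact (LinearEquiv.map_eq_zero_iff Th).1 ((hGQ i j hij).1 _ h7 h8)
    rw [Subgroup.mem_bot]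
    apply Prod.ext
    · apply CG.ext
      · exact congrArg Prod.fst h5
      · exact congrArg Prod.fst h6
    · apply CG.ext
      · exact congrArg Prod.snd h5
      · exact congrArg Prod.snd h6
  have hone : 1 < Nat.card (CG ph) := by
    obtain ⟨w, hw⟩ := exists_ne (0 : W)
    have : Nontrivial (CG ph) := ⟨⟨0, w⟩, 1, fun h => hw (congrArg CG.w h)⟩
    exact Finite.one_lt_card
  have hinj : Function.Injective U := by
    intro i j h
    by_contra hij
    have h1 := hmeet i j hij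
    rw [h, inf_idem] at h1
    have h2 := hcard j
    rw [h1, Subgroup.card_bot] at h2
    omega
  have h := le_T_prod (Finset.univ.image U) (by
    constructor
    · intro A hA
      rw [Finset.mem_image] at hA
      obtain ⟨i, -, rfl⟩ := hA
      exact hcard i
    · intro A hA B hB hAB
      rw [Finset.mem_image] at hA hB
      obtain ⟨i, -, rfl⟩ := hA
      obtain ⟨j, -, rfl⟩ := hB
      exact hmeet i j (fun h => hAB (by rw [h])))
  rwa [Finset.card_image_of_injective _ hinj, Finset.card_univ] at h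

section two

variable {S W : Type} [AddCommGroup S] [AddCommGroup W] [Module (ZMod 2) S] [Module (ZMod 2) W]

/-- the data of a member of the model group on `(S × S) × W` -/
abbrev Mb2 (S W : Type) [AddCommGroup S] [AddCommGroup W] [Module (ZMod 2) S]
    [Module (ZMod 2) W] : Type := Mc 2 (S × S) W

/-- the two members meet trivially -/
abbrev GP2 (A B : Mb2 S W) : Prop := GQ A B

/-- the member is a subgroup of the model group -/
def Clo2 (d : S →ₗ[ZMod 2] S →ₗ[ZMod 2] ZMod 2) (w0 : W) (A : Mb2 S W) : Prop :=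
  ∀ x ∈ A.X, ∀ x' ∈ A.X, A.s (x + x') - A.s x - A.s x' -
    ((d x.1.1 x'.1.2 • w0, d x.2.1 x'.2.2 • w0) : W × W) ∈ A.Y

/-- ROW MOD: partial congruence partitions of the square of the model group -/
theorem le_T_of_mb2 [Finite S] [Finite W] [Nontrivial W]
    (d : S →ₗ[ZMod 2] S →ₗ[ZMod 2] ZMod 2) (w0 : W) {ι : Type} [Fintype ι] (m : ι → Mb2 S W)
    (hcl : ∀ i, Clo2 d w0 (m i))
    (hdim : ∀ i, finrank (ZMod 2) (m i).X + finrank (ZMod 2) (m i).Y =
      2 * finrank (ZMod 2) S + finrank (ZMod 2) W)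
    (hGP : ∀ i j, i ≠ j → GP2 (m i) (m j)) :
    Fintype.card ι ≤ T (CG (mph d w0) × CG (mph d w0)) := by
  have hTf : FiniteDimensional (ZMod 2) S := Module.Finite.of_finite
  refine le_T_of_mc (mph d w0) (LinearEquiv.refl _ _) m hcl ?_ hGP
  intro i
  rw [hdim, Module.finrank_prod]
  ring

end two

end Pool.Agent.XV
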