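import Pool.Agent.XV.Perp
import Pool.Agent.Helper19.PCPBound

/-!
# Groups of class two with cyclic centre: the upper bounds
-/

set_option autoImplicit false

open Module

namespace Pool.Agent.XV

open Pool.Agent.APG Pool.Agent.Helper19.PCP
open scoped commutatorElement

/-- two elements of order `p` of a cyclic group generate the same subgroup -/
lemma mem_powers_of_cyclic {C : Type} [Group C] [Finite C] [IsCyclic C] {p : ℕ} (hp : p.Prime)
    {a b : C} (ha : a ^ p = 1) (hb : orderOf b = p) : a ∈ Submonoid.powers b := by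
  classical
  have : Fintype C := Fintype.ofFinite C
  rw [mem_powers_iff_mem_zpowers]
  have h1 := IsCyclic.card_pow_eq_one_le (α := C) hp.pos
  let S : Finset C := Finset.univ.filter fun x => x ^ p = 1
  let Tt : Finset C := Finset.univ.filter fun x => x ∈ Subgroup.zpowers b
  have h2 : Tt ⊆ S := by
    intro x hx
    rw [Finset.mem_filter] at hx ⊢
    refine ⟨Finset.mem_univ _, ?_⟩
    obtain ⟨k, hk⟩ := hx.2
    have hk' : b ^ k = x := hk
    rw [← hk', ← zpow_natCast, ← zpow_mul, mul_comm, zpow_mul, zpow_natCast, ← hb,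
      pow_orderOf_eq_one, one_zpow]
  have h3 : Tt.card = p := by
    have h4 : Nat.card (Subgroup.zpowers b) = p := by rw [Nat.card_zpowers, hb]
    rw [← h4, Nat.card_eq_fintype_card, Fintype.card_subtype]
  have h4 : Tt = S := Finset.eq_of_subset_of_card_le h2 (by
    rw [h3]
    exact h1)
  have h5 : a ∈ S := Finset.mem_filter.2 ⟨Finset.mem_univ _, ha⟩
  rw [← h4] at h5
  exact (Finset.mem_filter.1 h5).2

/-- a generator of the subgroup of order `p` of the cyclic centre -/
theorem exists_z0 {p : ℕ} [Fact p.Prime] {P : Type} [Group P] [Finite P] [Nontrivial P]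
    (hP : IsPGroup p P) (hZ : IsCyclic (Subgroup.center P)) :
    ∃ z0 ∈ Subgroup.center P, z0 ≠ 1 ∧ z0 ^ p = 1 ∧
      (∀ z ∈ Subgroup.center P, z ≠ 1 → ∃ k : ℕ, z ^ k = z0) ∧
      ∀ z ∈ Subgroup.center P, z ^ p = 1 → ∃ k : ℕ, z0 ^ k = z := by
  have hp : p.Prime := Fact.out
  have hnt : Nontrivial (Subgroup.center P) := hP.center_nontrivial
  have hPZ : IsPGroup p (Subgroup.center P) := hP.to_subgroup _
  have hdvd : p ∣ Nat.card (Subgroup.center P) := by
    obtain ⟨n, hn, h⟩ := hPZ.nontrivial_iff_card.1 hnt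
    rw [h]
    exact dvd_pow_self p (by omega)
  obtain ⟨z, hz⟩ := exists_prime_orderOf_dvd_card' p hdvd
  refine ⟨z, z.2, ?_, ?_, ?_, ?_⟩
  · intro h
    have h1 : z = 1 := Subtype.ext h
    rw [h1, orderOf_one] at hz
    exact hp.one_lt.ne hz
  · have h1 : z ^ p = 1 := by rw [← hz, pow_orderOf_eq_one]
    exact congrArg Subtype.val h1
  · intro y hy hy1
    -- `y` has order `p ^ (s + 1)`
    obtain ⟨s, hs⟩ := (IsPGroup.iff_orderOf.1 hPZ) ⟨y, hy⟩
    have hs0 : s ≠ 0 := by
      rintro rfl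
      rw [pow_zero, orderOf_eq_one_iff] at hs
      exact hy1 (congrArg Subtype.val hs)
    obtain ⟨t, rfl⟩ := Nat.exists_eq_succ_of_ne_zero hs0
    have h2 : orderOf ((⟨y, hy⟩ : Subgroup.center P) ^ (p ^ t)) = p := by
      rw [orderOf_pow, hs, Nat.succ_eq_add_one, pow_succ, Nat.gcd_mul_right_left,
        Nat.mul_div_cancel_left _ (pow_pos hp.pos t)]
    obtain ⟨k, hk⟩ := mem_powers_of_cyclic hp (a := z) (by rw [← hz, pow_orderOf_eq_one]) h2
    refine ⟨p ^ t * k, ?_⟩
    have hk' : ((⟨y, hy⟩ : Subgroup.center P) ^ (p ^ t)) ^ k = z := hk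
    rw [← pow_mul] at hk'
    exact congrArg Subtype.val hk'
  · intro y hy hyp
    obtain ⟨k, hk⟩ := mem_powers_of_cyclic hp (a := (⟨y, hy⟩ : Subgroup.center P))
      (Subtype.ext hyp) hz
    exact ⟨k, congrArg Subtype.val hk⟩

/-- characters which are nontrivial at two given elements outside a subgroup -/
theorem exists_char2 {C : Type} [CommGroup C] [Finite C] (K : Subgroup C) {a b : C} (ha : a ∉ K)
    (hb : b ∉ K) : ∃ lam : C →* ℂˣ, (∀ k ∈ K, lam k = 1) ∧ lam a ≠ 1 ∧ lam b ≠ 1 := by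
  have key : ∀ x : C, x ∉ K → ∃ lam : C →* ℂˣ, (∀ k ∈ K, lam k = 1) ∧ lam x ≠ 1 := by
    intro x hx
    have hx' : (QuotientGroup.mk x : C ⧸ K) ≠ 1 := by
      rwa [ne_eq, QuotientGroup.eq_one_iff]
    obtain ⟨mu, hmu⟩ :=
      CommGroup.exists_apply_ne_one_of_hasEnoughRootsOfUnity (C ⧸ K) ℂ hx'
    refine ⟨mu.comp (QuotientGroup.mk' K), ?_, hmu⟩
    intro k hk
    have : (QuotientGroup.mk' K) k = 1 := by
      rw [QuotientGroup.mk'_apply, QuotientGroup.eq_one_iff]; exact hk
    rw [MonoidHom.comp_apply, this, map_one]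
  obtain ⟨l, hlK, hl⟩ := key _ ha
  obtain ⟨m, hmK, hm⟩ := key _ hb
  by_cases h1 : l b = 1
  swap
  · exact ⟨l, hlK, hl, h1⟩
  by_cases h2 : m a = 1
  swap
  · exact ⟨m, hmK, h2, hm⟩
  refine ⟨l * m, ?_, ?_, ?_⟩
  · intro k hk
    rw [MonoidHom.mul_apply, hlK k hk, hmK k hk, one_mul]
  · rw [MonoidHom.mul_apply, h2, mul_one]
    exact hl
  · rw [MonoidHom.mul_apply, h1, one_mul]
    exact hm

section

variable {p : ℕ} [Fact p.Prime] {P : Type} [Group P] [Finite P]

omit [Finite P] in
lemma comm_prod (hc : ∀ x y z : P, Commute ⁅x, y⁆ z) (x y z : P × P) : Commute ⁅x, y⁆ z :=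
  Prod.ext (hc x.1 y.1 z.1) (hc x.2 y.2 z.2)

lemma mem_center_prod {P : Type} [Group P] (g : P × P) : g ∈ Subgroup.center (P × P) ↔
    g.1 ∈ Subgroup.center P ∧ g.2 ∈ Subgroup.center P := by
  rw [Subgroup.center_prod, Subgroup.mem_prod]

omit [Finite P] in
lemma card_center_prod : Nat.card (Subgroup.center (P × P)) =
    Nat.card (Subgroup.center P) * Nat.card (Subgroup.center P) := by
  rw [Subgroup.center_prod, ← Nat.card_prod]
  exact Nat.card_congr (Subgroup.prodEquiv _ _).toEquiv

lemma card_mul_relIndex' {G : Type} [Group G] {H K : Subgroup G} (h : H ≤ K) :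
    Nat.card H * H.relIndex K = Nat.card K := by
  have h1 := Subgroup.relIndex_mul_relIndex ⊥ H K bot_le h
  rwa [Subgroup.relIndex_bot_left, Subgroup.relIndex_bot_left] at h1

/-- `|U C| |U ∩ C| = |U| |C|` for a normal subgroup `C` -/
lemma card_sup_mul {G : Type} [Group G] [Finite G] (U C : Subgroup G) [C.Normal] :
    Nat.card (U ⊔ C : Subgroup G) * Nat.card (U ⊓ C : Subgroup G) = Nat.card U * Nat.card C := by
  have h1 := card_mul_relIndex' (le_sup_right : C ≤ U ⊔ C)
  rw [Subgroup.relIndex_sup_right] at h1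
  have h2 := card_mul_relIndex' (inf_le_left : U ⊓ C ≤ U)
  rw [Subgroup.inf_relIndex_left] at h2
  rw [← h1, ← h2]
  ring

open scoped IsMulCommutative in
/-- the data of a non-axis member of order `|P|` -/
theorem nonaxis [Nontrivial P] (hc : ∀ x y z : P, Commute ⁅x, y⁆ z)
    {z0 : P} (hz0 : z0 ∈ Subgroup.center P)
    (hz2 : ∀ z ∈ Subgroup.center P, z ≠ 1 → ∃ k : ℕ, z ^ k = z0)
    (U : Subgroup (P × P)) (hU : Nat.card U = Nat.card P) (h1 : (z0, (1 : P)) ∉ U)
    (h2 : ((1 : P), z0) ∉ U) :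
    Nat.card (U ⊓ Subgroup.center (P × P) : Subgroup (P × P)) = Nat.card (Subgroup.center P) ∧
    ∃ lam : Subgroup.center (P × P) →* ℂˣ,
      (∀ z : Subgroup.center (P × P), (z : P × P) ∈ U → lam z = 1) ∧
      perp (comm_prod hc) lam U = U ⊔ Subgroup.center (P × P) := by
  classical
  let a : Subgroup.center (P × P) := ⟨(z0, 1), (mem_center_prod _).2 ⟨hz0, Subgroup.one_mem _⟩⟩
  let b : Subgroup.center (P × P) := ⟨(1, z0), (mem_center_prod _).2 ⟨Subgroup.one_mem _, hz0⟩⟩
  obtain ⟨lam, hlamK, hla, hlb⟩ := exists_char2 (U.subgroupOf (Subgroup.center (P × P)))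
    (a := a) (b := b) h1 h2
  have hlamU : ∀ z : Subgroup.center (P × P), (z : P × P) ∈ U → lam z = 1 := fun z hz =>
    hlamK z hz
  have hex : ∀ g : P, g ∉ Subgroup.center P → ∃ y : P, ∃ k : ℕ, ⁅g, y⁆ ^ k = z0 := by
    intro g hg
    rw [Subgroup.mem_center_iff] at hg
    push Not at hg
    obtain ⟨y, hy⟩ := hg
    have h3 : ⁅g, y⁆ ≠ 1 := by
      rw [ne_eq, commutatorElement_eq_one_iff_mul_comm]
      exact fun h => hy h.symm
    obtain ⟨k, hk⟩ := hz2 _ (cz hc g y).2 h3
    exact ⟨y, k, hk⟩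
  have hnd : ∀ g : P × P, (∀ x : P × P, lam (cz (comm_prod hc) g x) = 1) →
      g ∈ Subgroup.center (P × P) := by
    intro g hg
    rw [mem_center_prod]
    constructor
    · by_contra hg1
      obtain ⟨y, k, hk⟩ := hex _ hg1
      apply hla
      have h3 : (cz (comm_prod hc) g (y, 1)) ^ k = a := by
        apply Subtype.ext
        show ⁅g, (y, 1)⁆ ^ k = (z0, 1)
        apply Prod.ext
        · exact hk
        · show ⁅g.2, (1 : P)⁆ ^ k = 1
          simp
      rw [← h3, map_pow, hg, one_pow]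
    · by_contra hg1
      obtain ⟨y, k, hk⟩ := hex _ hg1
      apply hlb
      have h3 : (cz (comm_prod hc) g (1, y)) ^ k = b := by
        apply Subtype.ext
        show ⁅g, (1, y)⁆ ^ k = (1, z0)
        apply Prod.ext
        · show ⁅g.1, (1 : P)⁆ ^ k = 1
          simp
        · exact hk
      rw [← h3, map_pow, hg, one_pow]
  have hperp := perp_card (comm_prod hc) lam hnd U
  have hle : U ⊔ Subgroup.center (P × P) ≤ perp (comm_prod hc) lam U := by
    rw [sup_le_iff]
    constructor
    · intro g hg u hu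
      apply hlamU
      show ⁅g, u⁆ ∈ U
      rw [commutatorElement_def]
      exact U.mul_mem (U.mul_mem (U.mul_mem hg hu) (U.inv_mem hg)) (U.inv_mem hu)
    · intro g hg u hu
      rw [cz_central _ hg, map_one]
  have hsup := card_sup_mul U (Subgroup.center (P × P))
  rw [card_center_prod, hU] at hsup
  rw [hU, Nat.card_prod] at hperp
  have hcard := Subgroup.card_le_of_le hle
  have hn : 0 < Nat.card P := Nat.card_pos
  have hκ : 0 < Nat.card (U ⊓ Subgroup.center (P × P) : Subgroup (P × P)) := Nat.card_pos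
  have hz : 0 < Nat.card (Subgroup.center P) := Nat.card_pos
  -- the second projection of `U ∩ Z(P × P)` is injective
  have hκz : Nat.card (U ⊓ Subgroup.center (P × P) : Subgroup (P × P)) ≤
      Nat.card (Subgroup.center P) := by
    refine Nat.card_le_card_of_injective
      (fun u : (U ⊓ Subgroup.center (P × P) : Subgroup (P × P)) =>
        (⟨u.1.2, ((mem_center_prod _).1 u.2.2).2⟩ : Subgroup.center P)) ?_
    intro u v huv
    have h3 : u.1.2 = v.1.2 := congrArg Subtype.val huv
    have h4 : u.1 * v.1⁻¹ ∈ U := U.mul_mem u.2.1 (U.inv_mem v.2.1)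
    have h5 : (u.1 * v.1⁻¹).2 = 1 := by
      rw [Prod.snd_mul, Prod.snd_inv, h3, mul_inv_cancel]
    have h6 : (u.1 * v.1⁻¹).1 ∈ Subgroup.center P :=
      ((mem_center_prod _).1 (Subgroup.mul_mem _ u.2.2 (Subgroup.inv_mem _ v.2.2))).1
    by_contra hne
    have h7 : (u.1 * v.1⁻¹).1 ≠ 1 := by
      intro h8
      apply hne
      have h9 : u.1 * v.1⁻¹ = 1 := Prod.ext h8 h5
      exact Subtype.ext (mul_inv_eq_one.1 h9)
    obtain ⟨k, hk⟩ := hz2 _ h6 h7
    apply h1
    have h8 := U.pow_mem h4 k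
    have h9 : (u.1 * v.1⁻¹) ^ k = (z0, 1) := by
      apply Prod.ext
      · rw [Prod.pow_fst]
        exact hk
      · rw [Prod.pow_snd, h5, one_pow]
    rwa [h9] at h8
  generalize hκd : Nat.card (U ⊓ Subgroup.center (P × P) : Subgroup (P × P)) = κ at *
  generalize hzd : Nat.card (Subgroup.center P) = z at *
  generalize hnd' : Nat.card P = n at *
  have hp1 : Nat.card (perp (comm_prod hc) lam U) ≤ n * κ := by
    have h3 : Nat.card (perp (comm_prod hc) lam U) * n ≤ (n * κ) * n := by
      calc Nat.card (perp (comm_prod hc) lam U) * n ≤ n * n * κ := hperp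
        _ = (n * κ) * n := by ring
    exact Nat.le_of_mul_le_mul_right h3 hn
  have hzκ : z ≤ κ := by
    by_contra hlt
    push Not at hlt
    have h3 : n * (z * z) ≤ n * κ * κ := by
      rw [← hsup]
      exact Nat.mul_le_mul_right _ (hcard.trans hp1)
    have h4 : z * z ≤ κ * κ := by
      rw [mul_assoc] at h3
      exact Nat.le_of_mul_le_mul_left h3 hn
    exact absurd h4 (by
      push Not
      exact Nat.mul_lt_mul'' hlt hlt)
  have hκz' : κ = z := le_antisymm hκz hzκ
  refine ⟨hκz', lam, hlamU, ?_⟩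
  refine (Subgroup.eq_of_le_of_card_ge hle ?_).symm
  subst hκz'
  have h3 : Nat.card (U ⊔ Subgroup.center (P × P) : Subgroup (P × P)) = n * κ := by
    have h4 : Nat.card (U ⊔ Subgroup.center (P × P) : Subgroup (P × P)) * κ = (n * κ) * κ := by
      rw [hsup]
      ring
    exact Nat.eq_of_mul_eq_mul_right hκ h4
  rw [h3]
  exact hp1

/-- ROW A1 -/
theorem cyc_le [Nontrivial P] (hP : IsPGroup p P) (hc : ∀ x y z : P, Commute ⁅x, y⁆ z)
    (hZ : IsCyclic (Subgroup.center P)) : T (P × P) ≤ p + 1 := by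
  classical
  have hp : p.Prime := Fact.out
  obtain ⟨z0, hz0, hz1, hzp, hz2, hz3⟩ := exists_z0 hP hZ
  apply T_prod_le
  intro 𝒰 h𝒰
  have hord : orderOf z0 = p := orderOf_eq_prime hzp hz1
  have hmem : ∀ U ∈ 𝒰, p ≤ Nat.card (U ⊓ (Subgroup.zpowers z0).prod (Subgroup.zpowers z0) :
      Subgroup (P × P)) := by
    intro U hU
    have hne : Nat.card (U ⊓ Subgroup.center (P × P) : Subgroup (P × P)) ≠ 1 := by
      intro h1
      rw [Subgroup.card_eq_one] at h1
      by_cases ha : (z0, (1 : P)) ∈ U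
      · have h3 : (z0, (1 : P)) ∈ U ⊓ Subgroup.center (P × P) :=
          ⟨ha, (mem_center_prod _).2 ⟨hz0, Subgroup.one_mem _⟩⟩
        rw [h1, Subgroup.mem_bot] at h3
        exact hz1 (congrArg Prod.fst h3)
      · by_cases hb : ((1 : P), z0) ∈ U
        · have h3 : ((1 : P), z0) ∈ U ⊓ Subgroup.center (P × P) :=
            ⟨hb, (mem_center_prod _).2 ⟨Subgroup.one_mem _, hz0⟩⟩
          rw [h1, Subgroup.mem_bot] at h3
          exact hz1 (congrArg Prod.snd h3)
        · have h3 := (nonaxis hc hz0 hz2 U (h𝒰.1 U hU) ha hb).1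
          rw [h1, Subgroup.card_bot] at h3
          have h4 : Subgroup.center P = ⊥ := Subgroup.card_eq_one.1 h3.symm
          rw [h4, Subgroup.mem_bot] at hz0
          exact hz1 hz0
    have hPG : IsPGroup p (U ⊓ Subgroup.center (P × P) : Subgroup (P × P)) := by
      have h1 : IsPGroup p (P × P) := by
        intro x
        obtain ⟨k, hk⟩ := hP x.1
        obtain ⟨l, hl⟩ := hP x.2
        refine ⟨k + l, ?_⟩
        apply Prod.ext
        · rw [Prod.pow_fst, pow_add, pow_mul, hk, one_pow]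
          rfl
        · rw [Prod.pow_snd, add_comm, pow_add, pow_mul, hl, one_pow]
          rfl
      exact h1.to_subgroup _
    have hdvd : p ∣ Nat.card (U ⊓ Subgroup.center (P × P) : Subgroup (P × P)) := by
      obtain ⟨n, hn⟩ := IsPGroup.iff_card.1 hPG
      rw [hn]
      apply dvd_pow_self
      rintro rfl
      rw [pow_zero] at hn
      exact hne hn
    obtain ⟨x, hx⟩ := exists_prime_orderOf_dvd_card' p hdvd
    have hxp : x ^ p = 1 := by rw [← hx, pow_orderOf_eq_one]
    have hxp' : (x : P × P) ^ p = 1 := congrArg Subtype.val hxp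
    have hxC := (mem_center_prod _).1 x.2.2
    have hle : Subgroup.zpowers (x : P × P) ≤
        U ⊓ (Subgroup.zpowers z0).prod (Subgroup.zpowers z0) := by
      rw [Subgroup.zpowers_le]
      refine ⟨x.2.1, Subgroup.mem_prod.2 ⟨?_, ?_⟩⟩
      · obtain ⟨k, hk⟩ := hz3 _ hxC.1 (congrArg Prod.fst hxp')
        rw [← hk]
        exact Subgroup.pow_mem _ (Subgroup.mem_zpowers z0) k
      · obtain ⟨k, hk⟩ := hz3 _ hxC.2 (congrArg Prod.snd hxp')
        rw [← hk]
        exact Subgroup.pow_mem _ (Subgroup.mem_zpowers z0) k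
    have h3 := Subgroup.card_le_of_le hle
    have h4 : orderOf (x : P × P) = p := by rw [Subgroup.orderOf_coe, hx]
    rw [Nat.card_zpowers, h4] at h3
    exact h3
  have h1 := card_mul_le 𝒰 h𝒰.2 _ p hmem
  have h2 : Nat.card ((Subgroup.zpowers z0).prod (Subgroup.zpowers z0) : Subgroup (P × P)) =
      p * p := by
    rw [Nat.card_congr (Subgroup.prodEquiv _ _).toEquiv, Nat.card_prod, Nat.card_zpowers, hord]
  rw [h2] at h1
  have h3 := hp.one_lt
  have h5 : p * p - 1 = (p + 1) * (p - 1) := by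
    obtain ⟨m, rfl⟩ : ∃ m, p = m + 1 := ⟨p - 1, by omega⟩
    simp only [Nat.add_sub_cancel]
    have : (m + 1) * (m + 1) = (m + 1 + 1) * m + 1 := by ring
    omega
  rw [h5] at h1
  exact Nat.le_of_mul_le_mul_right h1 (by omega)

open scoped IsMulCommutative in
/-- ROW A2a: the power map is given by a commutator -/
theorem exists_pow_comm (hp2 : p ≠ 2) (hP : IsPGroup p P) (hc : ∀ x y z : P, Commute ⁅x, y⁆ z)
    (hZ : IsCyclic (Subgroup.center P)) :
    ∃ b : P, ∀ x : P, x ^ Nat.card (Subgroup.center P) = ⁅x, b⁆ := by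
  classical
  have hp : p.Prime := Fact.out
  rcases subsingleton_or_nontrivial P with hs | hn
  · exact ⟨1, fun x => Subsingleton.elim _ _⟩
  obtain ⟨z0, hz0, hz1, hzp, hz2, hz3⟩ := exists_z0 hP hZ
  set q := Nat.card (Subgroup.center P) with hq
  have hodd : ¬ 2 ∣ q := by
    obtain ⟨n, hn⟩ := IsPGroup.iff_card.1 (hP.to_subgroup (Subgroup.center P))
    rw [← hq] at hn
    rw [hn]
    intro h
    exact hp2 ((Nat.prime_dvd_prime_iff_eq Nat.prime_two hp).1 (Nat.prime_two.dvd_of_dvd_pow h)).symm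
  have hzq : ∀ z : Subgroup.center P, z ^ q = 1 := fun z => pow_card_eq_one'
  -- the power map
  have hcen : ∀ x : P, x ^ q ∈ Subgroup.center P := by
    intro x
    rw [Subgroup.mem_center_iff]
    intro y
    have h1 : cz hc (x ^ q) y = 1 := by rw [cz_pow_left, hzq]
    have h2 : ⁅x ^ q, y⁆ = 1 := congrArg Subtype.val h1
    rw [commutatorElement_eq_one_iff_mul_comm] at h2
    exact h2.symm
  have hmul : ∀ x y : P, (x * y) ^ q = x ^ q * y ^ q := by
    intro x y
    have h1 := Pool.Agent.APG.mul_pow_class_two x y ⁅y, x⁆ (by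
      rw [commutatorElement_def]; group) (hc y x x).eq (hc y x y).eq q
    rw [h1]
    have h2 : (⁅y, x⁆ : P) ^ (q.choose 2) = 1 := by
      have h3 : q ∣ q.choose 2 := by
        obtain ⟨k, hk⟩ : ∃ k, q - 1 = 2 * k := by
          have : 0 < q := Nat.card_pos
          exact ⟨(q - 1) / 2, by omega⟩
        rw [Nat.choose_two_right, hk, mul_comm 2 k, ← mul_assoc, Nat.mul_div_cancel _ two_pos]
        exact dvd_mul_right _ _
      obtain ⟨k, hk⟩ := h3
      have h4 : (cz hc y x) ^ (q.choose 2) = 1 := by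
        rw [hk, pow_mul, hzq, one_pow]
      exact congrArg Subtype.val h4
    rw [h2, mul_one]
  -- a faithful character of the centre
  obtain ⟨chi, -, hchi, -⟩ := exists_char2 (⊥ : Subgroup (Subgroup.center P))
    (a := ⟨z0, hz0⟩) (b := ⟨z0, hz0⟩) (by
      rw [Subgroup.mem_bot]; exact fun h => hz1 (congrArg Subtype.val h)) (by
      rw [Subgroup.mem_bot]; exact fun h => hz1 (congrArg Subtype.val h))
  have hinj : ∀ z w : Subgroup.center P, chi z = chi w → z = w := by
    intro z w h
    by_contra hne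
    have h1 : ((z * w⁻¹ : Subgroup.center P) : P) ≠ 1 := by
      intro h2
      apply hne
      have h3 : z * w⁻¹ = 1 := Subtype.ext h2
      exact mul_inv_eq_one.1 h3
    obtain ⟨k, hk⟩ := hz2 _ (z * w⁻¹).2 h1
    apply hchi
    have h2 : (z * w⁻¹) ^ k = (⟨z0, hz0⟩ : Subgroup.center P) := Subtype.ext hk
    rw [← h2, map_pow, map_mul, map_inv, h, mul_inv_cancel, one_pow]
  let D : P →* ((P ⧸ Subgroup.center P) →* ℂˣ) :=
    { toFun := fun b => QuotientGroup.lift (Subgroup.center P)
        { toFun := fun x => chi (cz hc x b)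
          map_one' := by rw [cz_one_left, map_one]
          map_mul' := fun x y => by rw [cz_mul_left, map_mul] }
        (fun x hx => by
          show chi (cz hc x b) = 1
          rw [cz_central hc hx, map_one])
      map_one' := by
        ext g
        show ((chi (cz hc g (1 : P)) : ℂˣ) : ℂ) = _
        rw [cz_one_right, map_one]
        rfl
      map_mul' := fun a b => by
        ext g
        show ((chi (cz hc g (a * b : P)) : ℂˣ) : ℂ) = _
        rw [cz_mul_right, map_mul]
        rfl }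
  have hD : ∀ b x : P, D b (QuotientGroup.mk x) = chi (cz hc x b) := fun b x => rfl
  have hker : D.ker ≤ Subgroup.center P := by
    intro b hb
    rw [MonoidHom.mem_ker] at hb
    rw [Subgroup.mem_center_iff]
    intro x
    have h1 : chi (cz hc x b) = chi 1 := by
      rw [← hD, hb, map_one]
      rfl
    have h2 : ⁅x, b⁆ = 1 := congrArg Subtype.val (hinj _ _ h1)
    exact commutatorElement_eq_one_iff_mul_comm.1 h2
  obtain ⟨hfin, hcard⟩ := card_char_le (P ⧸ Subgroup.center P)
  have hrange : D.range = ⊤ := by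
    apply Subgroup.eq_top_of_le_card
    have h1 : Nat.card D.ker * Nat.card D.range = Nat.card P := by
      rw [← Subgroup.index_ker]
      exact Subgroup.card_mul_index _
    have h2 : Nat.card (P ⧸ Subgroup.center P) * Nat.card (Subgroup.center P) = Nat.card P :=
      (Subgroup.card_eq_card_quotient_mul_card_subgroup _).symm
    have h3 : Nat.card D.ker ≤ Nat.card (Subgroup.center P) := Subgroup.card_le_of_le hker
    have h4 : 0 < Nat.card (Subgroup.center P) := Nat.card_pos
    have h5 : Nat.card (P ⧸ Subgroup.center P) * Nat.card (Subgroup.center P) ≤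
        Nat.card D.range * Nat.card (Subgroup.center P) := by
      rw [h2, ← h1, mul_comm]
      exact Nat.mul_le_mul_left _ h3
    exact hcard.trans (Nat.le_of_mul_le_mul_right h5 h4)
  let Fb : (P ⧸ Subgroup.center P) →* ℂˣ := QuotientGroup.lift (Subgroup.center P)
    { toFun := fun x => chi ⟨x ^ q, hcen x⟩
      map_one' := by
        rw [← map_one chi]
        congr 1
        exact Subtype.ext (one_pow q)
      map_mul' := fun x y => by
        rw [← map_mul]
        congr 1
        exact Subtype.ext (hmul x y) }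
    (fun x hx => by
      show chi ⟨x ^ q, hcen x⟩ = 1
      rw [← map_one chi]
      congr 1
      exact hzq ⟨x, hx⟩)
  have h1 : Fb ∈ D.range := by
    rw [hrange]
    trivial
  obtain ⟨b, hb⟩ := h1
  refine ⟨b, fun x => ?_⟩
  have h2 : chi ⟨x ^ q, hcen x⟩ = chi (cz hc x b) := by
    rw [← hD, hb]
    rfl
  exact congrArg Subtype.val (hinj _ _ h2)

/-- a subgroup which contains the centre is normal (class two) -/
lemma normal_of_center_le {G : Type} [Group G] (hc : ∀ x y z : G, Commute ⁅x, y⁆ z)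
    {H : Subgroup G} (h : Subgroup.center G ≤ H) : H.Normal := by
  constructor
  intro n hn g
  have h1 : g * n * g⁻¹ = ⁅g, n⁆ * n := by
    rw [commutatorElement_def]
    group
  rw [h1]
  exact H.mul_mem (h (cz hc g n).2) hn

/-- ROW A2 -/
theorem cyc_three (hp2 : p ≠ 2) (hP : IsPGroup p P) (hc : ∀ x y z : P, Commute ⁅x, y⁆ z)
    (hZ : IsCyclic (Subgroup.center P)) (hx : ∃ x : P, x ^ Nat.card (Subgroup.center P) ≠ 1) :
    T (P × P) ≤ 3 := by
  classical
  obtain ⟨x0, hx0⟩ := hx
  have hnt : Nontrivial P := ⟨⟨x0, 1, by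
    rintro rfl
    exact hx0 (one_pow _)⟩⟩
  obtain ⟨z0, hz0, hz1, hzp, hz2, hz3⟩ := exists_z0 hP hZ
  obtain ⟨b, hb⟩ := exists_pow_comm hp2 hP hc hZ
  have hbc : b ∉ Subgroup.center P := by
    intro h
    apply hx0
    rw [hb, commutatorElement_eq_one_iff_mul_comm]
    exact Subgroup.mem_center_iff.1 h x0
  apply T_prod_le
  intro 𝒰 h𝒰
  -- the non-axis members
  let N := 𝒰.filter fun U => (z0, (1 : P)) ∉ U ∧ ((1 : P), z0) ∉ U
  have key : ∀ U ∈ N, ((b, b) : P × P) ∈ U ⊔ Subgroup.center (P × P) ∧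
      Nat.card (U ⊔ Subgroup.center (P × P) : Subgroup (P × P)) =
        Nat.card P * Nat.card (Subgroup.center P) := by
    intro U hU
    obtain ⟨hU1, hU2, hU3⟩ := Finset.mem_filter.1 hU
    obtain ⟨h1, lam, h2, h3⟩ := nonaxis hc hz0 hz2 U (h𝒰.1 U hU1) hU2 hU3
    constructor
    · rw [← h3]
      intro u hu
      rw [cz_swap, map_inv, inv_eq_one]
      apply h2
      have h4 : ((cz (comm_prod hc) u (b, b) : Subgroup.center (P × P)) : P × P) =
          u ^ Nat.card (Subgroup.center P) := by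
        show ⁅u, (b, b)⁆ = _
        apply Prod.ext
        · rw [Prod.pow_fst, hb]
          rfl
        · rw [Prod.pow_snd, hb]
          rfl
      rw [h4]
      exact U.pow_mem hu _
    · have h4 := card_sup_mul U (Subgroup.center (P × P))
      rw [card_center_prod, h𝒰.1 U hU1, h1, ← mul_assoc] at h4
      exact Nat.eq_of_mul_eq_mul_right Nat.card_pos h4
  have hN : N.card ≤ 1 := by
    rw [Finset.card_le_one]
    intro U hU U' hU'
    by_contra hne
    obtain ⟨k1, k2⟩ := key U hU
    obtain ⟨k3, k4⟩ := key U' hU'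
    have hU1 := (Finset.mem_filter.1 hU).1
    have hU2 := (Finset.mem_filter.1 hU').1
    have hcompl : Subgroup.IsComplement' U U' :=
      isComplement_of_mem (by rw [Nat.card_prod]) h𝒰 hU1 hU2 hne
    have htop : (U ⊔ Subgroup.center (P × P)) ⊔ (U' ⊔ Subgroup.center (P × P)) = ⊤ := by
      rw [eq_top_iff, ← hcompl.sup_eq_top]
      exact sup_le (le_sup_left.trans le_sup_left) (le_sup_left.trans le_sup_right)
    have hnor : (U' ⊔ Subgroup.center (P × P)).Normal :=
      normal_of_center_le (comm_prod hc) le_sup_right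
    have h1 := card_sup_mul (U ⊔ Subgroup.center (P × P)) (U' ⊔ Subgroup.center (P × P))
    rw [htop, Subgroup.card_top, k2, k4, Nat.card_prod] at h1
    have h2 : Nat.card ((U ⊔ Subgroup.center (P × P)) ⊓ (U' ⊔ Subgroup.center (P × P)) :
        Subgroup (P × P)) = Nat.card (Subgroup.center (P × P)) := by
      rw [card_center_prod]
      have h3 : Nat.card P * Nat.card P * Nat.card ((U ⊔ Subgroup.center (P × P)) ⊓
          (U' ⊔ Subgroup.center (P × P)) : Subgroup (P × P)) = Nat.card P * Nat.card P *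
          (Nat.card (Subgroup.center P) * Nat.card (Subgroup.center P)) := by
        rw [h1]
        ring
      exact Nat.eq_of_mul_eq_mul_left (Nat.mul_pos Nat.card_pos Nat.card_pos) h3
    have h3 : Subgroup.center (P × P) = (U ⊔ Subgroup.center (P × P)) ⊓
        (U' ⊔ Subgroup.center (P × P)) :=
      Subgroup.eq_of_le_of_card_ge (le_inf le_sup_right le_sup_right) h2.le
    have h4 : ((b, b) : P × P) ∈ Subgroup.center (P × P) := by
      rw [h3]
      exact ⟨k1, k3⟩
    exact hbc ((mem_center_prod _).1 h4).1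
  have hone : ∀ g : P × P, g ≠ 1 → (𝒰.filter fun U => g ∈ U).card ≤ 1 := by
    intro g hg
    rw [Finset.card_le_one]
    intro U hU U' hU'
    by_contra hne
    obtain ⟨hU1, hU2⟩ := Finset.mem_filter.1 hU
    obtain ⟨hU3, hU4⟩ := Finset.mem_filter.1 hU'
    have h1 : g ∈ U ⊓ U' := ⟨hU2, hU4⟩
    rw [h𝒰.2 U hU1 U' hU3 hne, Subgroup.mem_bot] at h1
    exact hg h1
  have hcov : 𝒰 ⊆ N ∪ ((𝒰.filter fun U => (z0, (1 : P)) ∈ U) ∪
      (𝒰.filter fun U => ((1 : P), z0) ∈ U)) := by
    intro U hU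
    rw [Finset.mem_union, Finset.mem_union, Finset.mem_filter, Finset.mem_filter,
      Finset.mem_filter]
    by_cases h1 : (z0, (1 : P)) ∈ U
    · exact Or.inr (Or.inl ⟨hU, h1⟩)
    · by_cases h2 : ((1 : P), z0) ∈ U
      · exact Or.inr (Or.inr ⟨hU, h2⟩)
      · exact Or.inl ⟨hU, h1, h2⟩
  have h1 := Finset.card_le_card hcov
  have h2 := Finset.card_union_le N ((𝒰.filter fun U => (z0, (1 : P)) ∈ U) ∪
      (𝒰.filter fun U => ((1 : P), z0) ∈ U))
  have h3 := Finset.card_union_le (𝒰.filter fun U => (z0, (1 : P)) ∈ U)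
      (𝒰.filter fun U => ((1 : P), z0) ∈ U)
  have h4 := hone (z0, 1) (fun h => hz1 (congrArg Prod.fst h))
  have h5 := hone (1, z0) (fun h => hz1 (congrArg Prod.snd h))
  omega

end

end Pool.Agent.XV
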