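import Pool.Agent.XV.Baer

/-!
# Groups of class two with cyclic centre: the exact value
-/

set_option autoImplicit false

namespace Pool.Agent.XV

open Pool.Agent.Helper19.PCP
open scoped commutatorElement Classical

/-- the exact value for the groups of class two with cyclic centre -/
theorem cyclic_exact {p : ℕ} [Fact p.Prime] {P : Type} [Group P] [Finite P] [Nontrivial P]
    (hP : IsPGroup p P) (hc : ∀ x y z : P, Commute ⁅x, y⁆ z)
    (hZ : IsCyclic (Subgroup.center P)) :
    T (P × P) = if p = 2 ∨ ∀ x : P, x ^ Nat.card (Subgroup.center P) = 1 then p + 1 else 3 := by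
  have h3 := three_le_T (P := P)
  have h1 := cyc_le hP hc hZ
  by_cases h2 : p = 2
  · rw [if_pos (Or.inl h2)]
    omega
  · by_cases h4 : ∀ x : P, x ^ Nat.card (Subgroup.center P) = 1
    · rw [if_pos (Or.inr h4)]
      exact le_antisymm h1 (cyc_ge h2 hP hc hZ h4)
    · rw [if_neg (by tauto)]
      push Not at h4
      exact le_antisymm (cyc_three h2 hP hc hZ h4) h3

end Pool.Agent.XV
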