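import Pool.Agent.XV.CycMain

/-!
# MP_47f3f4_co : the exact value of `T(P × P)` for the non-abelian `p`-groups of class two with
cyclic centre

Let `P` be a non-abelian `p`-group of class two with cyclic centre `Z`. Then `T(P × P) = p + 1` if
`p = 2` or `x ^ |Z| = 1` for all `x` in `P`, and `T(P × P) = 3` otherwise.

**Proof.** `Z(P × P) = Z × Z`. Let `U` be a member of a partial congruence partition of `P × P`,
`K = U ∩ (Z × Z)`, and suppose that `U` contains neither `(z, 1)` nor `(1, z)` for `z` of order `p`
(a non-axis member; at most two members are not of this kind). There is a character `λ` of `Z × Z`,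
trivial on `K` and faithful on both factors, so the pairing `λ([g, h])` on `P × P` has radical
`Z × Z`. The elements orthogonal to `U` form a subgroup of order at most `|P| |K|` which contains
`U (Z × Z)`; so `|K| ≥ |Z|`, hence `|K| = |Z|`, and `U (Z × Z)` is its own orthogonal subgroup. So
all members meet the subgroup of order `p ^ 2` of the elements of `Z × Z` of order dividing `p`, and
there are at most `p + 1`. If `p` is odd and `q = |Z|`, the map `x ↦ x ^ q` is a homomorphism
`P → Z`, so `x ^ q = [x, b]` for some `b`, and `(b, b)` is orthogonal to every non-axis member; if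
there are two, `(b, b)` is in the product of both with `Z × Z`, which forces `b` to be central, so
`x ^ q = 1` for all `x`. Conversely, if `x ^ q = 1` for all `x`, the addition of Baer makes `P` an
abelian group in which `Z` is a direct summand, and the symplectic `Z / q`-module `P / Z` has an
endomorphism `S` with `S ^ 2 = d` (`d` a non-square modulo `p`) and `B (S x, y) = - B (x, S y)`. The
maps `a + b S` on `P / Z`, extended by `a ^ 2 - d b ^ 2` on `Z`, are endomorphisms of `P`, and give
`p - 1` automorphisms whose quotients fix no element other than `1`.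
-/

set_option autoImplicit false

namespace Pool.Agent.XV.CyclicCentreKept

open Pool.Agent.Helper19.PCP
open scoped commutatorElement

/-- Let `p` be a prime and `P` a finite non-abelian `p`-group of nilpotency class two whose centre
`Z(P)` is cyclic. Then `T(P × P) = p + 1` if `p = 2` or `x ^ |Z(P)| = 1` for all `x` in `P`, and
`T(P × P) = 3` otherwise. -/
theorem result (p : ℕ) (hp : p.Prime) (P : Type) [Group P] [Finite P] (hP : IsPGroup p P)
    (hna : ∃ a b : P, a * b ≠ b * a) (hc : commutator P ≤ Subgroup.center P)
    (hZ : IsCyclic (Subgroup.center P)) :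
    ((p = 2 ∨ ∀ x : P, x ^ Nat.card (Subgroup.center P) = 1) → T (P × P) = p + 1) ∧
    (¬ (p = 2 ∨ ∀ x : P, x ^ Nat.card (Subgroup.center P) = 1) → T (P × P) = 3) := by
  have : Fact p.Prime := ⟨hp⟩
  have hnt : Nontrivial P := by
    obtain ⟨a, b, hab⟩ := hna
    exact ⟨⟨a * b, b * a, hab⟩⟩
  have hc' : ∀ x y z : P, Commute ⁅x, y⁆ z := by
    intro x y z
    have h : ⁅x, y⁆ ∈ Subgroup.center P :=
      hc (Subgroup.commutator_mem_commutator (Subgroup.mem_top x) (Subgroup.mem_top y))
    exact (Subgroup.mem_center_iff.1 h z).symm
  have h := Pool.Agent.XV.cyclic_exact hP hc' hZ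
  exact ⟨fun h1 => by rw [h, if_pos h1], fun h1 => by rw [h, if_neg h1]⟩

end Pool.Agent.XV.CyclicCentreKept
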