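import Pool.Agent.APG.PcpCore44
import Pool.Agent.APG.Frat
import Pool.Agent.APG.Iso
import Pool.Agent.APG.BModel
import Pool.Agent.APG.DefsB

/-!
# Exact values of `T (P × P)` (MP_47f3f4_co): definitions
-/

set_option autoImplicit false

open Module

namespace Pool.Agent.XV

open Pool.Agent.APG Pool.Agent.Helper19.PCP
open scoped commutatorElement

section A

variable {G : Type} [Group G]

/-- the commutator as an element of the centre (groups of class two) -/
def cz (hc : ∀ x y z : G, Commute ⁅x, y⁆ z) (x y : G) : Subgroup.center G :=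
  ⟨⁅x, y⁆, by
    rw [Subgroup.mem_center_iff]
    intro g
    exact ((hc x y g).eq).symm⟩

lemma coe_cz (hc : ∀ x y z : G, Commute ⁅x, y⁆ z) (x y : G) : (cz hc x y : G) = ⁅x, y⁆ := rfl

lemma cz_mul_left (hc : ∀ x y z : G, Commute ⁅x, y⁆ z) (x x' y : G) :
    cz hc (x * x') y = cz hc x y * cz hc x' y := by
  apply Subtype.ext
  show ⁅x * x', y⁆ = ⁅x, y⁆ * ⁅x', y⁆
  have h : ⁅x * x', y⁆ = x * ⁅x', y⁆ * x⁻¹ * ⁅x, y⁆ := by
    simp only [commutatorElement_def]
    group
  rw [h, ← (hc x' y x).eq, mul_assoc ⁅x', y⁆, mul_inv_cancel, mul_one, (hc x' y _).eq]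

/-- the centre is commutative -/
lemma cen_comm (a b : Subgroup.center G) : a * b = b * a :=
  Subtype.ext (Subgroup.mem_center_iff.1 b.2 a.1)

lemma cz_swap (hc : ∀ x y z : G, Commute ⁅x, y⁆ z) (x y : G) : cz hc y x = (cz hc x y)⁻¹ := by
  apply Subtype.ext
  show ⁅y, x⁆ = ⁅x, y⁆⁻¹
  rw [commutatorElement_inv]

lemma cz_mul_right (hc : ∀ x y z : G, Commute ⁅x, y⁆ z) (x y y' : G) :
    cz hc x (y * y') = cz hc x y * cz hc x y' := by
  rw [cz_swap hc (y * y') x, cz_mul_left, mul_inv_rev, ← cz_swap, ← cz_swap]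
  exact cen_comm _ _

lemma cz_one_left (hc : ∀ x y z : G, Commute ⁅x, y⁆ z) (y : G) : cz hc 1 y = 1 := by
  apply Subtype.ext
  show ⁅(1 : G), y⁆ = 1
  simp

lemma cz_one_right (hc : ∀ x y z : G, Commute ⁅x, y⁆ z) (y : G) : cz hc y 1 = 1 := by
  apply Subtype.ext
  show ⁅y, (1 : G)⁆ = 1
  simp

lemma cz_inv_left (hc : ∀ x y z : G, Commute ⁅x, y⁆ z) (x y : G) :
    cz hc x⁻¹ y = (cz hc x y)⁻¹ := by
  apply eq_inv_of_mul_eq_one_left
  rw [← cz_mul_left, inv_mul_cancel, cz_one_left]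

lemma cz_inv_right (hc : ∀ x y z : G, Commute ⁅x, y⁆ z) (x y : G) :
    cz hc x y⁻¹ = (cz hc x y)⁻¹ := by
  apply eq_inv_of_mul_eq_one_left
  rw [← cz_mul_right, inv_mul_cancel, cz_one_right]

lemma cz_pow_left (hc : ∀ x y z : G, Commute ⁅x, y⁆ z) (x y : G) (n : ℕ) :
    cz hc (x ^ n) y = (cz hc x y) ^ n := by
  induction n with
  | zero => rw [pow_zero, pow_zero, cz_one_left]
  | succ n ih => rw [pow_succ, cz_mul_left, ih, pow_succ]

lemma cz_central (hc : ∀ x y z : G, Commute ⁅x, y⁆ z) {x : G} (hx : x ∈ Subgroup.center G)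
    (y : G) : cz hc x y = 1 := by
  apply Subtype.ext
  show ⁅x, y⁆ = 1
  rw [commutatorElement_eq_one_iff_mul_comm]
  exact ((Subgroup.mem_center_iff.1 hx) y).symm

/-- the elements whose commutators with `U` are killed by `lam` -/
def perp (hc : ∀ x y z : G, Commute ⁅x, y⁆ z) (lam : Subgroup.center G →* ℂˣ) (U : Subgroup G) :
    Subgroup G where
  carrier := {g | ∀ u ∈ U, lam (cz hc g u) = 1}
  one_mem' := fun u _ => by rw [cz_one_left, map_one]
  mul_mem' := by
    intro a b ha hb u hu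
    rw [cz_mul_left, map_mul, ha u hu, hb u hu, mul_one]
  inv_mem' := by
    intro a ha u hu
    rw [cz_inv_left, map_inv, ha u hu, inv_one]

lemma mem_perp (hc : ∀ x y z : G, Commute ⁅x, y⁆ z) (lam : Subgroup.center G →* ℂˣ)
    (U : Subgroup G) (g : G) : g ∈ perp hc lam U ↔ ∀ u ∈ U, lam (cz hc g u) = 1 := Iff.rfl

end A

section B

variable {p : ℕ} [Fact p.Prime] {V W : Type} [AddCommGroup V] [AddCommGroup W]
  [Module (ZMod p) V] [Module (ZMod p) W]

/-- the normal form of a group with Frattini subgroup of order `p` -/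
structure One (q : Dat p V W) (om : V →ₗ[ZMod p] V →ₗ[ZMod p] ZMod p) (F : V →ₗ[ZMod p] ZMod p)
    (w0 : W) : Prop where
  be : ∀ v v', q.be v v' = om v v' • w0
  pw : ∀ v, q.pw v = F v • w0
  w0 : w0 ≠ 0
  alt : ∀ v, om v v = 0

/-- `om` is nondegenerate -/
def Nd (om : V →ₗ[ZMod p] V →ₗ[ZMod p] ZMod p) : Prop := ∀ v, (∀ v', om v v' = 0) → v = 0

/-- the data of the model groups -/
def mdat (hp2 : p ≠ 2) (om : V →ₗ[ZMod p] V →ₗ[ZMod p] ZMod p) (halt : ∀ v, om v v = 0) (w0 : W) :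
    Dat p V W where
  be := om.compr₂ ((LinearMap.id : ZMod p →ₗ[ZMod p] ZMod p).smulRight w0)
  alt := fun v => by
    rw [LinearMap.compr₂_apply, halt, map_zero]
  pw := fun _ => 0
  pw_add := fun v v' => by
    rw [choose_two_smul hp2, add_zero, add_zero]

lemma mdat_be (hp2 : p ≠ 2) (om : V →ₗ[ZMod p] V →ₗ[ZMod p] ZMod p) (halt : ∀ v, om v v = 0)
    (w0 : W) (v v' : V) : (mdat hp2 om halt w0).be v v' = om v v' • w0 := rfl

section tf
variable (p) (F : Type) [Field F] [Algebra (ZMod p) F]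

/-- the trace form on `F × F` -/
noncomputable def tf : (F × F) →ₗ[ZMod p] (F × F) →ₗ[ZMod p] ZMod p :=
  LinearMap.mk₂ (ZMod p) (fun a b => Algebra.trace (ZMod p) F (a.1 * b.2 - a.2 * b.1))
    (fun a a' b => by
      rw [← map_add]
      congr 1
      show (a.1 + a'.1) * b.2 - (a.2 + a'.2) * b.1 = _
      ring)
    (fun c a b => by
      rw [← map_smul]
      congr 1
      show (c • a.1) * b.2 - (c • a.2) * b.1 = _
      rw [smul_mul_assoc, smul_mul_assoc, smul_sub])
    (fun a b b' => by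
      rw [← map_add]
      congr 1
      show a.1 * (b.2 + b'.2) - a.2 * (b.1 + b'.1) = _
      ring)
    (fun c a b => by
      rw [← map_smul]
      congr 1
      show a.1 * (c • b.2) - a.2 * (c • b.1) = _
      rw [mul_smul_comm, mul_smul_comm, smul_sub])

lemma tf_apply (a b : F × F) :
    tf p F a b = Algebra.trace (ZMod p) F (a.1 * b.2 - a.2 * b.1) := rfl

lemma tf_alt (a : F × F) : tf p F a a = 0 := by
  rw [tf_apply, mul_comm a.2 a.1, sub_self, map_zero]

end tf

end B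

end Pool.Agent.XV
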