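import Pool.Agent.XV.L1

/-!
# Exact values of `T (P × P)` (MP_47f3f4_co): row L2
-/

set_option autoImplicit false

open Module

namespace Pool.Agent.XV

open Pool.Agent.APG Pool.Agent.Helper19.PCP

variable {p : ℕ} {F K : Type} [Field F] [Field K] [Algebra (ZMod p) F] [Algebra (ZMod p) K]

/-- `t' = 0` and `t - u'` in the image of `X2` -/
def cL2 (i : K →ₗ[ZMod p] F) (X2 : Submodule (ZMod p) K) :
    ((F × F) × X2) →ₗ[ZMod p] ((F × F) × (F × F)) where
  toFun x := ((x.1.2 + i x.2, x.1.1), (0, x.1.2))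
  map_add' x y := by
    ext <;> simp
    ring
  map_smul' c x := by
    ext <;> simp [smul_add]

/-- `t = 0` and `t' - u` in the image of `X1` -/
def dL2 (i : K →ₗ[ZMod p] F) (X1 : Submodule (ZMod p) K) :
    ((F × F) × X1) →ₗ[ZMod p] ((F × F) × (F × F)) where
  toFun x := ((0, x.1.1), (x.1.1 + i x.2, x.1.2))
  map_add' x y := by
    ext <;> simp
    ring
  map_smul' c x := by
    ext <;> simp [smul_add]

lemma cL2_inj {i : K →ₗ[ZMod p] F} (hi : Function.Injective i) (X2 : Submodule (ZMod p) K) :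
    Function.Injective (cL2 i X2) := by
  intro x y h
  have h1 : x.1.1 = y.1.1 := congrArg (fun z => z.1.2) h
  have h2 : x.1.2 = y.1.2 := congrArg (fun z => z.2.2) h
  have h3 : x.1.2 + i x.2 = y.1.2 + i y.2 := congrArg (fun z => z.1.1) h
  rw [h2] at h3
  exact Prod.ext (Prod.ext h1 h2) (Subtype.ext (hi (add_left_cancel h3)))

lemma dL2_inj {i : K →ₗ[ZMod p] F} (hi : Function.Injective i) (X1 : Submodule (ZMod p) K) :
    Function.Injective (dL2 i X1) := by
  intro x y h
  have h1 : x.1.1 = y.1.1 := congrArg (fun z => z.1.2) h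
  have h2 : x.1.2 = y.1.2 := congrArg (fun z => z.2.2) h
  have h3 : x.1.1 + i x.2 = y.1.1 + i y.2 := congrArg (fun z => z.2.1) h
  rw [h1] at h3
  exact Prod.ext (Prod.ext h1 h2) (Subtype.ext (hi (add_left_cancel h3)))

/-- the section of the third member -/
def scL2 (r : F →ₗ[ZMod p] K) : ((F × F) × (F × F)) →ₗ[ZMod p] (K × K) where
  toFun x := (r x.2.2, r (x.1.1 - x.2.2))
  map_add' x y := by
    ext <;> simp
    ring
  map_smul' c x := by
    ext <;> simp [smul_sub]

/-- the section of the fourth member -/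
def sdL2 (r : F →ₗ[ZMod p] K) : ((F × F) × (F × F)) →ₗ[ZMod p] (K × K) where
  toFun x := (r x.1.2, r (x.2.1 - x.1.2))
  map_add' x y := by
    ext <;> simp
    ring
  map_smul' c x := by
    ext <;> simp [smul_sub]

/-- the third member -/
def memC2 (i : K →ₗ[ZMod p] F) (r : F →ₗ[ZMod p] K) (X1 X2 : Submodule (ZMod p) K) :
    Mb p (F × F) K where
  X := LinearMap.range (cL2 i X2)
  Y := LinearMap.range ((LinearMap.inr (ZMod p) K K).comp X1.subtype)
  s := scL2 r

/-- the fourth member -/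
def memD2 (i : K →ₗ[ZMod p] F) (r : F →ₗ[ZMod p] K) (X1 X2 : Submodule (ZMod p) K) :
    Mb p (F × F) K where
  X := LinearMap.range (dL2 i X1)
  Y := LinearMap.range ((LinearMap.inr (ZMod p) K K).comp X2.subtype)
  s := sdL2 r

variable {i : K →ₗ[ZMod p] F} {r : F →ₗ[ZMod p] K} {X1 X2 : Submodule (ZMod p) K}

/-- first and third kind -/
lemma GP_AC2 (hri : ∀ x, r (i x) = x) (hX : ∀ x ∈ X1, x ∈ X2 → x = 0) {lam : F} {kap : K} :
    GP (memA p lam kap) (memC2 i r X1 X2) := by
  constructor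
  · rintro _ ⟨x, rfl⟩ ⟨y, hy⟩
    rw [grL_apply, inr_apply, Prod.mk.injEq] at hy
    rw [← hy.1, map_zero]
  · rintro _ ⟨x, rfl⟩ ⟨x', hx'⟩ _ ⟨y, rfl⟩ _ ⟨z, rfl⟩ hs
    have h1 : 0 = x.2 := congrArg (fun z => z.2.1) hx'
    have h2 : x'.1.2 = lam * x.2 := congrArg (fun z => z.2.2) hx'
    have h3 : x'.1.2 + i x'.2 = x.1 := congrArg (fun z => z.1.1) hx'
    rw [← h1, mul_zero] at h2
    rw [h2, zero_add] at h3
    have h4 : (0 : K) - r (lam * x.2) = y + 0 := congrArg Prod.fst hs
    have h5 : (0 : K) - r (x.1 - lam * x.2) = kap * y + z := congrArg Prod.snd hs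
    rw [← h1, mul_zero, map_zero, sub_zero, add_zero] at h4
    rw [← h1, mul_zero, sub_zero, ← h4, mul_zero, zero_add, zero_sub, ← h3, hri] at h5
    have h6 : (x'.2 : K) = 0 := by
      apply hX _ _ x'.2.2
      rw [← neg_neg (x'.2 : K), h5]
      exact X1.neg_mem z.2
    have h7 : x.1 = 0 := by rw [← h3, h6, map_zero]
    have h8 : x = 0 := Prod.ext h7 h1.symm
    rw [h8, map_zero]

/-- first and fourth kind -/
lemma GP_AD2 (hri : ∀ x, r (i x) = x) (hX : ∀ x ∈ X1, x ∈ X2 → x = 0) {lam : F} {kap : K} :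
    GP (memA p lam kap) (memD2 i r X1 X2) := by
  constructor
  · rintro _ ⟨x, rfl⟩ ⟨y, hy⟩
    rw [grL_apply, inr_apply, Prod.mk.injEq] at hy
    rw [← hy.1, map_zero]
  · rintro _ ⟨x, rfl⟩ ⟨x', hx'⟩ _ ⟨y, rfl⟩ _ ⟨z, rfl⟩ hs
    have h1 : 0 = x.1 := congrArg (fun z => z.1.1) hx'
    have h2 : x'.1.1 = lam * x.1 := congrArg (fun z => z.1.2) hx'
    have h3 : x'.1.1 + i x'.2 = x.2 := congrArg (fun z => z.2.1) hx'
    rw [← h1, mul_zero] at h2
    rw [h2, zero_add] at h3
    have h4 : (0 : K) - r (lam * x.1) = y + 0 := congrArg Prod.fst hs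
    have h5 : (0 : K) - r (x.2 - lam * x.1) = kap * y + z := congrArg Prod.snd hs
    rw [← h1, mul_zero, map_zero, sub_zero, add_zero] at h4
    rw [← h1, mul_zero, sub_zero, ← h4, mul_zero, zero_add, zero_sub, ← h3, hri] at h5
    have h6 : (x'.2 : K) = 0 := by
      apply hX _ x'.2.2
      rw [← neg_neg (x'.2 : K), h5]
      exact X2.neg_mem z.2
    have h7 : x.2 = 0 := by rw [← h3, h6, map_zero]
    have h8 : x = 0 := Prod.ext h1.symm h7
    rw [h8, map_zero]

/-- third and fourth kind -/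
lemma GP_CD2 (hri : ∀ x, r (i x) = x) (hX : ∀ x ∈ X1, x ∈ X2 → x = 0) :
    GP (memC2 i r X1 X2) (memD2 i r X1 X2) := by
  constructor
  · rintro _ ⟨x, rfl⟩ ⟨y, hy⟩
    have h1 : (y : K) = x := congrArg Prod.snd hy
    have h2 : (x : K) = 0 := hX _ x.2 (h1 ▸ y.2)
    rw [inr_apply, h2]
    rfl
  · rintro _ ⟨x, rfl⟩ ⟨x', hx'⟩ _ ⟨y, rfl⟩ _ ⟨z, rfl⟩ hs
    have h1 : 0 = x.1.2 + i x.2 := congrArg (fun z => z.1.1) hx'
    have h2 : x'.1.1 = x.1.1 := congrArg (fun z => z.1.2) hx'
    have h3 : x'.1.1 + i x'.2 = 0 := congrArg (fun z => z.2.1) hx'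
    have h4 : r x.1.2 - r x.1.1 = 0 + 0 := congrArg Prod.fst hs
    have h5 : x.1.2 = - i x.2 := eq_neg_of_add_eq_zero_left h1.symm
    have h6 : x.1.1 = - i x'.2 := by
      rw [← h2]
      exact eq_neg_of_add_eq_zero_left h3
    rw [h5, h6, map_neg, map_neg, hri, hri, add_zero] at h4
    have h7 : (x'.2 : K) = x.2 := by linear_combination h4
    have h8 : (x'.2 : K) = 0 := hX _ x'.2.2 (h7 ▸ x.2.2)
    have h9 : (x.2 : K) = 0 := by rw [← h7, h8]
    have h10 : x.2 = 0 := Subtype.ext h9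
    rw [h9, map_zero, neg_zero] at h5
    rw [h8, map_zero, neg_zero] at h6
    have h11 : x = 0 := Prod.ext (Prod.ext h6 h5) h10
    rw [h11, map_zero]

/-- the linear map `(x, y) ↦ (x ^ p - x + eps (y ^ p - y), x + eps y)` -/
noncomputable def thL (p : ℕ) [Fact p.Prime] [Algebra (ZMod p) K] (eps : K) :
    (K × K) →ₗ[ZMod p] (K × K) where
  toFun x := (FiniteField.frobeniusAlgHom (ZMod p) K x.1 - x.1 +
    eps * (FiniteField.frobeniusAlgHom (ZMod p) K x.2 - x.2), x.1 + eps * x.2)
  map_add' x y := by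
    apply Prod.ext
    · show FiniteField.frobeniusAlgHom (ZMod p) K (x.1 + y.1) - (x.1 + y.1) +
        eps * (FiniteField.frobeniusAlgHom (ZMod p) K (x.2 + y.2) - (x.2 + y.2)) =
        (FiniteField.frobeniusAlgHom (ZMod p) K x.1 - x.1 +
          eps * (FiniteField.frobeniusAlgHom (ZMod p) K x.2 - x.2)) +
        (FiniteField.frobeniusAlgHom (ZMod p) K y.1 - y.1 +
          eps * (FiniteField.frobeniusAlgHom (ZMod p) K y.2 - y.2))
      rw [map_add, map_add]
      ring
    · show x.1 + y.1 + eps * (x.2 + y.2) = (x.1 + eps * x.2) + (y.1 + eps * y.2)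
      ring
  map_smul' c x := by
    apply Prod.ext
    · show FiniteField.frobeniusAlgHom (ZMod p) K (c • x.1) - (c • x.1) +
        eps * (FiniteField.frobeniusAlgHom (ZMod p) K (c • x.2) - (c • x.2)) =
        c • (FiniteField.frobeniusAlgHom (ZMod p) K x.1 - x.1 +
          eps * (FiniteField.frobeniusAlgHom (ZMod p) K x.2 - x.2))
      rw [map_smul, map_smul, smul_add, smul_sub, ← smul_sub c _ x.2, mul_smul_comm]
    · show c • x.1 + eps * (c • x.2) = c • (x.1 + eps * x.2)
      rw [smul_add, mul_smul_comm]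

lemma thL_apply [Fact p.Prime] (eps : K) (x : K × K) :
    thL p eps x = (x.1 ^ p - x.1 + eps * (x.2 ^ p - x.2), x.1 + eps * x.2) := by
  show (FiniteField.frobeniusAlgHom (ZMod p) K x.1 - x.1 +
    eps * (FiniteField.frobeniusAlgHom (ZMod p) K x.2 - x.2), x.1 + eps * x.2) = _
  rw [FiniteField.coe_frobeniusAlgHom, ZMod.card]

/-- the elements with `x ^ p = x` -/
lemma mem_prime [Fact p.Prime] {x : K} (h : x ^ p = x) : x ∈ Set.range (algebraMap (ZMod p) K) := by
  classical
  by_contra hx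
  -- the polynomial `X ^ p - X` has at most `p` roots
  let P : Polynomial K := Polynomial.X ^ p - Polynomial.X
  have hp1 : 1 < p := (Fact.out : p.Prime).one_lt
  have hP : P ≠ 0 := FiniteField.X_pow_card_sub_X_ne_zero K hp1
  have hdeg : P.natDegree = p := FiniteField.X_pow_card_sub_X_natDegree_eq K hp1
  let S : Finset K := (Finset.univ : Finset (ZMod p)).image (algebraMap (ZMod p) K)
  have hS : S.card = p := by
    rw [Finset.card_image_of_injective _ (algebraMap (ZMod p) K).injective, Finset.card_univ,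
      ZMod.card]
  have hxS : x ∉ S := by
    intro hh
    rw [Finset.mem_image] at hh
    obtain ⟨c, -, hc⟩ := hh
    exact hx ⟨c, hc⟩
  have hroot : ∀ y ∈ insert x S, y ∈ P.roots.toFinset := by
    intro y hy
    rw [Multiset.mem_toFinset, Polynomial.mem_roots hP]
    show Polynomial.eval y (Polynomial.X ^ p - Polynomial.X) = 0
    rw [Polynomial.eval_sub, Polynomial.eval_pow, Polynomial.eval_X, sub_eq_zero]
    rw [Finset.mem_insert] at hy
    rcases hy with rfl | hy
    · exact h
    · rw [Finset.mem_image] at hy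
      obtain ⟨c, -, rfl⟩ := hy
      rw [← map_pow, ZMod.pow_card]
  have h1 : (insert x S).card ≤ P.roots.toFinset.card := Finset.card_le_card hroot
  have h2 : P.roots.toFinset.card ≤ P.natDegree :=
    (Multiset.toFinset_card_le _).trans (Polynomial.card_roots' P)
  rw [Finset.card_insert_of_notMem hxS, hS] at h1
  omega

lemma thL_inj [Fact p.Prime] (hp2 : p ≠ 2) {eps : K}
    (h : eps ∉ Set.range (algebraMap (ZMod p) K)) : Function.Injective (thL p eps) := by
  have hodd : Odd p := (Fact.out : p.Prime).odd_of_ne_two hp2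
  rw [← LinearMap.ker_eq_bot, LinearMap.ker_eq_bot']
  intro x hx
  rw [thL_apply] at hx
  have h1 : x.1 ^ p - x.1 + eps * (x.2 ^ p - x.2) = 0 := congrArg Prod.fst hx
  have h2 : x.1 + eps * x.2 = 0 := congrArg Prod.snd hx
  have h3 : x.1 = - (eps * x.2) := eq_neg_of_add_eq_zero_left h2
  rw [h3, hodd.neg_pow, mul_pow] at h1
  have h4 : (eps - eps ^ p) * x.2 ^ p = 0 := by linear_combination h1
  have h5 : eps - eps ^ p ≠ 0 := by
    intro h6
    exact h (mem_prime (sub_eq_zero.1 h6).symm)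
  have h7 : x.2 = 0 := pow_eq_zero_iff (Fact.out : p.Prime).ne_zero |>.1
    ((mul_eq_zero.1 h4).resolve_left h5)
  rw [h7, mul_zero, neg_zero] at h3
  exact Prod.ext h3 h7

/-- ROW L2 -/
theorem lower_L2 [Fact p.Prime] [Finite F] [Finite K] (hp2 : p ≠ 2)
    (h2 : 2 ≤ finrank (ZMod p) K) (h : finrank (ZMod p) K ≤ finrank (ZMod p) F) :
    Nat.card K + 2 ≤ T (BGrp (mdat hp2 (tf p F) (tf_alt p F) (1 : K)) ×
      BGrp (mdat hp2 (tf p F) (tf_alt p F) (1 : K))) := by
  classical
  have hFf : FiniteDimensional (ZMod p) F := Module.Finite.of_finite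
  have hKf : FiniteDimensional (ZMod p) K := Module.Finite.of_finite
  have : Fintype K := Fintype.ofFinite K
  obtain ⟨i, hi⟩ := exists_inj (p := p) (V := K) (W := F) h
  obtain ⟨r, hr⟩ := LinearMap.exists_leftInverse_of_injective i (LinearMap.ker_eq_bot.2 hi)
  have hri : ∀ x, r (i x) = x := fun x => LinearMap.congr_fun hr x
  -- an element outside the prime field
  have heps : ∃ eps : K, eps ∉ Set.range (algebraMap (ZMod p) K) := by
    by_contra hc
    push Not at hc
    have h3 : Function.Surjective (algebraMap (ZMod p) K) := hc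
    have h4 := Nat.card_le_card_of_surjective _ h3
    rw [Module.natCard_eq_pow_finrank (K := ZMod p) (V := K), Nat.card_zmod] at h4
    have hp : 2 ≤ p := (Fact.out : p.Prime).two_le
    have h5 : p ^ 2 ≤ p ^ finrank (ZMod p) K := Nat.pow_le_pow_right (by omega) h2
    nlinarith
  obtain ⟨eps, heps⟩ := heps
  have hd : Disjoint (Submodule.span (ZMod p) {(1 : K)}) (Submodule.span (ZMod p) {eps}) := by
    rw [Submodule.disjoint_def]
    intro x h1 h3
    rw [Submodule.mem_span_singleton] at h1 h3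
    obtain ⟨c, rfl⟩ := h1
    obtain ⟨d, hd⟩ := h3
    by_cases hd0 : d = 0
    · rw [← hd, hd0, zero_smul]
    · exfalso
      apply heps
      refine ⟨c / d, ?_⟩
      have hd1 : algebraMap (ZMod p) K d ≠ 0 := by
        intro h4
        rw [map_eq_zero] at h4
        exact hd0 h4
      rw [map_div₀, div_eq_iff hd1]
      rw [Algebra.smul_def, Algebra.smul_def, mul_one] at hd
      rw [← hd, mul_comm]
  obtain ⟨X1, h1X, hX⟩ := hd.exists_isCompl
  set X2 : Submodule (ZMod p) K := Submodule.span (ZMod p) {eps} with hX2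
  have h11 : (1 : K) ∈ X1 := h1X (Submodule.mem_span_singleton_self 1)
  have he2 : eps ∈ X2 := Submodule.mem_span_singleton_self eps
  have hXX : ∀ x ∈ X1, x ∈ X2 → x = 0 := by
    intro x h3 h4
    have h5 : x ∈ X1 ⊓ X2 := ⟨h3, h4⟩
    rw [hX.inf_eq_bot] at h5
    exact h5
  have hdim : finrank (ZMod p) X1 + finrank (ZMod p) X2 = finrank (ZMod p) K :=
    Submodule.finrank_add_eq_of_isCompl hX
  let Th : (K × K) ≃ₗ[ZMod p] (K × K) := LinearEquiv.ofInjectiveEndo (thL p eps) (thL_inj hp2 heps)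
  have hTh : ∀ x, Th x = (x.1 ^ p - x.1 + eps * (x.2 ^ p - x.2), x.1 + eps * x.2) := fun x =>
    thL_apply eps x
  have hpc : ∀ c : ZMod p, ((c • (1 : K)) ^ p) = c • (1 : K) := by
    intro c
    rw [Algebra.smul_def, mul_one, ← map_pow, ZMod.pow_card]
  have hp0 : (0 : K) ^ p = 0 := zero_pow (Fact.out : p.Prime).ne_zero
  let m : K ⊕ Bool → Mb p (F × F) K := fun j => match j with
    | Sum.inl k => memA p (i k) k
    | Sum.inr true => memC2 i r X1 X2
    | Sum.inr false => memD2 i r X1 X2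
  have hcard : Fintype.card (K ⊕ Bool) = Nat.card K + 2 := by
    rw [Fintype.card_sum, Fintype.card_bool, Nat.card_eq_fintype_card]
  rw [← hcard]
  refine le_T_of_mb _ Th m ?_ ?_ ?_
  · -- closure
    rintro (k | b)
    · rintro _ ⟨x, rfl⟩ _ ⟨x', rfl⟩
      refine ⟨0, ?_⟩
      obtain ⟨h3, h4⟩ := tf_axL (p := p) (i k) x x'
      have h5 : ((mdat hp2 (tf p F) (tf_alt p F) (1 : K)).be (axL p (i k) x).1 (axL p (i k) x').1,
          (mdat hp2 (tf p F) (tf_alt p F) (1 : K)).be (axL p (i k) x).2 (axL p (i k) x').2) =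
          (0 : K × K) := by
        rw [mdat_be, mdat_be, h3, h4, zero_smul]
        rfl
      rw [h5, map_zero, map_zero]
    · rcases b with _ | _
      · rintro _ ⟨x, rfl⟩ _ ⟨x', rfl⟩
        refine ⟨⟨tf p F (x.1.1 + i x.2, x.1.2) (x'.1.1 + i x'.2, x'.1.2) • eps,
          X2.smul_mem _ he2⟩, ?_⟩
        have h1 : tf p F (0, x.1.1) (0, x'.1.1) = 0 := by
          rw [tf_apply]
          have : ((0 : F) * x'.1.1 - x.1.1 * 0) = 0 := by ring
          show Algebra.trace (ZMod p) F ((0 : F) * x'.1.1 - x.1.1 * 0) = 0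
          rw [this, map_zero]
        have h5 : ((mdat hp2 (tf p F) (tf_alt p F) (1 : K)).be (dL2 i X1 x).1 (dL2 i X1 x').1,
            (mdat hp2 (tf p F) (tf_alt p F) (1 : K)).be (dL2 i X1 x).2 (dL2 i X1 x').2) =
            ((0 : K), tf p F (x.1.1 + i x.2, x.1.2) (x'.1.1 + i x'.2, x'.1.2) • (1 : K)) := by
          rw [mdat_be, mdat_be]
          show (tf p F (0, x.1.1) (0, x'.1.1) • (1 : K), _) = _
          rw [h1, zero_smul]
          rfl
        rw [h5, hTh]
        show ((0 : K), tf p F (x.1.1 + i x.2, x.1.2) (x'.1.1 + i x'.2, x'.1.2) • eps) = _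
        apply Prod.ext
        · show (0 : K) = (0 : K) ^ p - 0 + eps * ((_ • (1 : K)) ^ p - _ • (1 : K))
          rw [hpc, hp0]
          ring
        · show _ • eps = 0 + eps * (_ • (1 : K))
          rw [mul_smul_comm, mul_one, zero_add]
      · rintro _ ⟨x, rfl⟩ _ ⟨x', rfl⟩
        refine ⟨⟨tf p F (x.1.2 + i x.2, x.1.1) (x'.1.2 + i x'.2, x'.1.1) • (1 : K),
          X1.smul_mem _ h11⟩, ?_⟩
        have h1 : tf p F (0, x.1.2) (0, x'.1.2) = 0 := by
          rw [tf_apply]
          have : ((0 : F) * x'.1.2 - x.1.2 * 0) = 0 := by ring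
          show Algebra.trace (ZMod p) F ((0 : F) * x'.1.2 - x.1.2 * 0) = 0
          rw [this, map_zero]
        have h5 : ((mdat hp2 (tf p F) (tf_alt p F) (1 : K)).be (cL2 i X2 x).1 (cL2 i X2 x').1,
            (mdat hp2 (tf p F) (tf_alt p F) (1 : K)).be (cL2 i X2 x).2 (cL2 i X2 x').2) =
            (tf p F (x.1.2 + i x.2, x.1.1) (x'.1.2 + i x'.2, x'.1.1) • (1 : K), (0 : K)) := by
          rw [mdat_be, mdat_be]
          show (_, tf p F (0, x.1.2) (0, x'.1.2) • (1 : K)) = _
          rw [h1, zero_smul]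
          rfl
        rw [h5, hTh]
        show ((0 : K), tf p F (x.1.2 + i x.2, x.1.1) (x'.1.2 + i x'.2, x'.1.1) • (1 : K)) = _
        apply Prod.ext
        · show (0 : K) = (_ • (1 : K)) ^ p - _ • (1 : K) + eps * ((0 : K) ^ p - 0)
          rw [hpc, hp0]
          ring
        · show _ • (1 : K) = _ • (1 : K) + eps * 0
          rw [mul_zero, add_zero]
  · -- dimensions
    rintro (k | b)
    · exact dim_A (i k) k
    · rcases b with _ | _
      · show finrank (ZMod p) (LinearMap.range (dL2 i X1)) +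
          finrank (ZMod p) (LinearMap.range ((LinearMap.inr (ZMod p) K K).comp X2.subtype)) = _
        rw [LinearMap.finrank_range_of_inj (dL2_inj hi X1),
          LinearMap.finrank_range_of_inj (inr_inj X2), Module.finrank_prod]
        omega
      · show finrank (ZMod p) (LinearMap.range (cL2 i X2)) +
          finrank (ZMod p) (LinearMap.range ((LinearMap.inr (ZMod p) K K).comp X1.subtype)) = _
        rw [LinearMap.finrank_range_of_inj (cL2_inj hi X2),
          LinearMap.finrank_range_of_inj (inr_inj X1), Module.finrank_prod]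
        omega
  · -- trivial intersections
    have hAC : ∀ k, GP (m (Sum.inl k)) (m (Sum.inr true)) := fun k => GP_AC2 hri hXX
    have hAD : ∀ k, GP (m (Sum.inl k)) (m (Sum.inr false)) := fun k => GP_AD2 hri hXX
    have hCD : GP (m (Sum.inr true)) (m (Sum.inr false)) := GP_CD2 hri hXX
    rintro (k | b) (k' | b') hij
    · have h1 : k ≠ k' := fun hh => hij (by rw [hh])
      exact GP_AA (fun hh => h1 (hi hh)) h1
    · rcases b' with _ | _
      · exact hAD k
      · exact hAC k
    · rcases b with _ | _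
      · exact (hAD k').symm
      · exact (hAC k').symm
    · rcases b with _ | _ <;> rcases b' with _ | _
      · exact absurd rfl hij
      · exact hCD.symm
      · exact hCD
      · exact absurd rfl hij

end Pool.Agent.XV
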