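import Pool.Agent.XV.Defs
import Pool.Agent.Helper60.PCP.Frat

/-!
# Row N1: the normal form of a `p`-group whose Frattini subgroup has order `p`
-/

set_option autoImplicit false

open Module

namespace Pool.Agent.XV

open Pool.Agent.APG Pool.Agent.Helper19.PCP

variable {p : ℕ} [Fact p.Prime]

/-- the data from the two homomorphisms, without generation -/
theorem exists_ext_of_hom {V W P : Type} [AddCommGroup V] [AddCommGroup W] [Module (ZMod p) V]
    [Module (ZMod p) W] [Group P] (pr : P →* Multiplicative V) (inc : Multiplicative W →* P)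
    (hs : Function.Surjective pr) (hi : Function.Injective inc) (he : pr.ker = inc.range)
    (hc : ∀ w x, x * inc w = inc w * x) :
    ∃ q : Dat p V W, ∃ E : Ext q P, E.pr = pr ∧ E.inc = inc := by
  classical
  -- commutators
  have h1 : ∀ x y : P, ∃ w : W, x * y * x⁻¹ * y⁻¹ = inc (Multiplicative.ofAdd w) := by
    intro x y
    have : x * y * x⁻¹ * y⁻¹ ∈ inc.range := by
      rw [← he, MonoidHom.mem_ker]
      simp only [map_mul, map_inv]
      rw [mul_inv_eq_one, mul_inv_eq_iff_eq_mul, mul_comm]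
    obtain ⟨w, hw⟩ := this
    exact ⟨w.toAdd, hw.symm⟩
  choose c hcc using h1
  have h2 : ∀ x : P, ∃ w : W, x ^ p = inc (Multiplicative.ofAdd w) := by
    intro x
    have : x ^ p ∈ inc.range := by
      rw [← he, MonoidHom.mem_ker, map_pow]
      apply Multiplicative.toAdd.injective
      rw [toAdd_pow, toAdd_one]
      exact p_smul _
    obtain ⟨w, hw⟩ := this
    exact ⟨w.toAdd, hw.symm⟩
  choose f hf using h2
  have hinj : ∀ a b : W, inc (Multiplicative.ofAdd a) = inc (Multiplicative.ofAdd b) → a = b := by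
    intro a b h
    exact Multiplicative.ofAdd.injective (hi h)
  have hadd : ∀ a b : W, inc (Multiplicative.ofAdd (a + b)) =
      inc (Multiplicative.ofAdd a) * inc (Multiplicative.ofAdd b) := by
    intro a b
    rw [ofAdd_add, map_mul]
  have hcomm : ∀ x y, x * y = inc (Multiplicative.ofAdd (c x y)) * (y * x) := by
    intro x y
    rw [← hcc x y]
    group
  have hcr : ∀ w : W, ∀ x : P, Commute (inc (Multiplicative.ofAdd w)) x :=
    fun w x => (hc (Multiplicative.ofAdd w) x).symm
  -- additivity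
  have hc1 : ∀ x x' y, c (x * x') y = c x y + c x' y := by
    intro x x' y
    apply hinj
    rw [hadd]
    have e1 : x * x' * y = inc (Multiplicative.ofAdd (c (x * x') y)) * (y * (x * x')) :=
      hcomm (x * x') y
    have e2 : x * x' * y = inc (Multiplicative.ofAdd (c x y)) *
        inc (Multiplicative.ofAdd (c x' y)) * (y * (x * x')) := by
      rw [mul_assoc, hcomm x' y, ← mul_assoc x, ← (hcr (c x' y) x).eq, mul_assoc, ← mul_assoc x,
        hcomm x y]
      rw [mul_assoc (inc (Multiplicative.ofAdd (c x y))), ← mul_assoc (inc _) (inc _),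
        (hcr (c x' y) (inc (Multiplicative.ofAdd (c x y)))).eq, mul_assoc y]
    exact mul_right_cancel (e1.symm.trans e2)
  have hc2 : ∀ x y, c y x = - c x y := by
    intro x y
    apply hinj
    rw [ofAdd_neg, map_inv, ← hcc, ← hcc]
    group
  have hc3 : ∀ x y y', c x (y * y') = c x y + c x y' := by
    intro x y y'
    rw [hc2 (y * y') x, hc1, neg_add, ← hc2, ← hc2]
  have hc4 : ∀ (w : W) (y : P), c (inc (Multiplicative.ofAdd w)) y = 0 := by
    intro w y
    apply hinj
    rw [ofAdd_zero, map_one, ← hcc, (hcr w y).eq]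
    group
  have hc5 : ∀ x x' y y', pr x = pr x' → pr y = pr y' → c x y = c x' y' := by
    have key : ∀ x x' y, pr x = pr x' → c x y = c x' y := by
      intro x x' y h
      have h3 : x * x'⁻¹ ∈ inc.range := by
        rw [← he, MonoidHom.mem_ker, map_mul, map_inv, h, mul_inv_cancel]
      obtain ⟨w, hw⟩ := h3
      have h4 : x = inc w * x' := by rw [hw]; group
      rw [h4, hc1]
      have h5 := hc4 w.toAdd y
      rw [ofAdd_toAdd] at h5
      rw [h5, zero_add]
    intro x x' y y' h h'
    rw [key x x' y h, hc2 y x', key y y' x' h', ← hc2]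
  -- powers
  have hf1 : ∀ (w : W) (x : P), f (inc (Multiplicative.ofAdd w) * x) = f x := by
    intro w x
    apply hinj
    rw [← hf, ← hf, (hcr w x).mul_pow]
    have : (inc (Multiplicative.ofAdd w)) ^ p = 1 := by
      rw [← map_pow, ← ofAdd_nsmul, p_smul, ofAdd_zero, map_one]
    rw [this, one_mul]
  have hf2 : ∀ x x', pr x = pr x' → f x = f x' := by
    intro x x' h
    have h3 : x * x'⁻¹ ∈ inc.range := by
      rw [← he, MonoidHom.mem_ker, map_mul, map_inv, h, mul_inv_cancel]
    obtain ⟨w, hw⟩ := h3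
    have h4 : x = inc w * x' := by rw [hw]; group
    rw [h4]
    have h5 := hf1 w.toAdd x'
    rw [ofAdd_toAdd] at h5
    exact h5
  have hf3 : ∀ x y, f (x * y) = f x + f y + (p.choose 2) • c x y := by
    intro x y
    apply hinj
    rw [hadd, hadd, ← hf, ← hf, ← hf, ← choose_smul_neg (p := p), ← hc2, ofAdd_nsmul, map_pow]
    apply mul_pow_class_two
    · exact hcomm y x
    · exact (hcr _ x).eq
    · exact (hcr _ y).eq
  -- the section
  choose s hs' using hs
  let sv : V → P := fun v => s (Multiplicative.ofAdd v)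
  have hsv : ∀ v, pr (sv v) = Multiplicative.ofAdd v := fun v => hs' _
  have hsadd : ∀ v v', pr (sv (v + v')) = pr (sv v * sv v') := by
    intro v v'
    rw [map_mul, hsv, hsv, hsv, ofAdd_add]
  let be0 : V →+ V →+ W := AddMonoidHom.mk' (fun v => AddMonoidHom.mk' (fun v' => c (sv v) (sv v'))
      (by
        intro a b
        show c (sv v) (sv (a + b)) = c (sv v) (sv a) + c (sv v) (sv b)
        rw [hc5 _ _ _ _ rfl (hsadd a b), hc3]))
      (by
        intro a b
        ext v'
        show c (sv (a + b)) (sv v') = c (sv a) (sv v') + c (sv b) (sv v')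
        rw [hc5 _ _ _ _ (hsadd a b) rfl, hc1])
  have hbe0 : ∀ v v', be0 v v' = c (sv v) (sv v') := fun v v' => rfl
  let be : V →ₗ[ZMod p] V →ₗ[ZMod p] W := LinearMap.mk₂ (ZMod p) (fun v v' => be0 v v')
    (by intro a b v'; simp only [map_add, AddMonoidHom.add_apply])
    (by
      intro r a v'
      exact ZMod.map_smul (be0.flip v') r a)
    (by intro a b v'; simp only [map_add])
    (by
      intro r a v'
      exact ZMod.map_smul (be0 a) r v')
  have hbe : ∀ v v', be v v' = c (sv v) (sv v') := fun v v' => rfl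
  have hcpr : ∀ x y, c x y = be (pr x).toAdd (pr y).toAdd := by
    intro x y
    rw [hbe]
    apply hc5
    · rw [hsv, ofAdd_toAdd]
    · rw [hsv, ofAdd_toAdd]
  have hfpr : ∀ x, f x = f (sv (pr x).toAdd) := by
    intro x
    apply hf2
    rw [hsv, ofAdd_toAdd]
  let q : Dat p V W :=
    { be := be
      alt := by
        intro v
        rw [hbe]
        apply hinj
        rw [ofAdd_zero, map_one, ← hcc]
        group
      pw := fun v => f (sv v)
      pw_add := by
        intro v v'
        show f (sv (v + v')) = f (sv v) + f (sv v') + (p.choose 2) • be v v'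
        rw [hf2 _ _ (hsadd v v'), hf3, hbe] }
  refine ⟨q, ⟨pr, inc, fun m => ⟨s m, hs' m⟩, hi, he, ?_, ?_⟩, rfl, rfl⟩
  · intro x y
    rw [hcc x y, hcpr x y]
  · intro x
    rw [hf x, hfpr x]

/-- a normal subgroup of order `p` of a finite `p`-group is central -/
lemma le_center_of_card {P : Type} [Group P] [Finite P] (hP : IsPGroup p P) (N : Subgroup P)
    [N.Normal] (hN : Nat.card N = p) : N ≤ Subgroup.center P := by
  classical
  have hp := (Fact.out : p.Prime)
  have h1 : Nat.card N ≡ Nat.card (MulAction.fixedPoints (ConjAct P) N) [MOD p] := by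
    have hP' : IsPGroup p (ConjAct P) := hP
    exact hP'.card_modEq_card_fixedPoints N
  have h2 : p ∣ Nat.card (MulAction.fixedPoints (ConjAct P) N) := by
    rw [hN] at h1
    have h3 : (0 : ℕ) ≡ Nat.card (MulAction.fixedPoints (ConjAct P) N) [MOD p] :=
      (Nat.modEq_zero_iff_dvd.2 dvd_rfl).symm.trans h1
    exact (Nat.modEq_zero_iff_dvd.1 h3.symm)
  have h4 : (1 : N) ∈ MulAction.fixedPoints (ConjAct P) N := by
    intro g
    exact smul_one g
  have h5 : 0 < Nat.card (MulAction.fixedPoints (ConjAct P) N) :=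
    Nat.card_pos_iff.2 ⟨⟨⟨1, h4⟩⟩, inferInstance⟩
  have h6 : p ≤ Nat.card (MulAction.fixedPoints (ConjAct P) N) := Nat.le_of_dvd h5 h2
  have h7 : MulAction.fixedPoints (ConjAct P) N = Set.univ := by
    apply Set.eq_univ_of_forall
    by_contra hcon
    simp only [not_forall] at hcon
    obtain ⟨x, hx⟩ := hcon
    have h8 : (MulAction.fixedPoints (ConjAct P) N).ncard < (Set.univ : Set N).ncard :=
      Set.ncard_lt_ncard ⟨Set.subset_univ _, fun h => hx (h (Set.mem_univ x))⟩ (Set.toFinite _)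
    rw [Set.ncard_univ, hN] at h8
    rw [← Nat.card_coe_set_eq] at h8
    omega
  intro x hx
  rw [Subgroup.mem_center_iff]
  intro g
  have h8 : (⟨x, hx⟩ : N) ∈ MulAction.fixedPoints (ConjAct P) N := by
    rw [h7]
    exact Set.mem_univ _
  have h9 := h8 (ConjAct.toConjAct g)
  have h10 : g * x * g⁻¹ = x := by
    have h11 := congrArg (Subtype.val) h9
    exact h11
  exact mul_inv_eq_iff_eq_mul.1 h10

/-- the elements `z` of the centre with `z ^ p = 1` -/
def Wsub (p : ℕ) (P : Type) [Group P] : Subgroup P where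
  carrier := {z | z ∈ Subgroup.center P ∧ z ^ p = 1}
  one_mem' := ⟨Subgroup.one_mem _, one_pow _⟩
  mul_mem' := by
    rintro a b ⟨ha, ha'⟩ ⟨hb, hb'⟩
    refine ⟨Subgroup.mul_mem _ ha hb, ?_⟩
    have h : Commute a b := (Subgroup.mem_center_iff.1 hb a)
    rw [h.mul_pow, ha', hb', one_mul]
  inv_mem' := by
    rintro a ⟨ha, ha'⟩
    exact ⟨Subgroup.inv_mem _ ha, by rw [inv_pow, ha', inv_one]⟩

instance Wsub_normal (P : Type) [Group P] : (Wsub p P).Normal := by
  constructor
  rintro z ⟨hz, hz'⟩ g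
  have h : g * z * g⁻¹ = z := by
    rw [Subgroup.mem_center_iff.1 hz g, mul_inv_cancel_right]
  rw [h]
  exact ⟨hz, hz'⟩

/-- ROW N1 -/
theorem exists_one (hp2 : p ≠ 2) (P : Type) [Group P] [Finite P] (hP : IsPGroup p P)
    (hna : ∃ a b : P, a * b ≠ b * a) (hF : Nat.card (frattini P) = p) :
    ∃ (d c : ℕ) (q : Dat p (Fin d → ZMod p) (Fin c → ZMod p))
      (om : (Fin d → ZMod p) →ₗ[ZMod p] (Fin d → ZMod p) →ₗ[ZMod p] ZMod p)
      (F : (Fin d → ZMod p) →ₗ[ZMod p] ZMod p) (w0 : Fin c → ZMod p),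
      One q om F w0 ∧ (∀ v, (∀ v', om v v' = 0) → F v = 0 → v = 0) ∧ Nonempty (Ext q P) := by
  classical
  have hp := (Fact.out : p.Prime)
  have hcen : frattini P ≤ Subgroup.center P := le_center_of_card hP _ hF
  have hfp : ∀ x ∈ frattini P, x ^ p = 1 := by
    intro x hx
    have h := pow_card_eq_one' (x := (⟨x, hx⟩ : frattini P))
    rw [hF] at h
    exact congrArg Subtype.val h
  have hfW : frattini P ≤ Wsub p P := fun x hx => ⟨hcen hx, hfp x hx⟩
  obtain ⟨d, ⟨e⟩⟩ := exists_equiv_fin (p := p) (P ⧸ Wsub p P) (by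
      intro a b
      obtain ⟨x, rfl⟩ := QuotientGroup.mk_surjective a
      obtain ⟨y, rfl⟩ := QuotientGroup.mk_surjective b
      exact (Helper60.PCP.comm_mem_iff (Wsub p P) x y).mp
        (hfW (Helper60.PCP.comm_mem_frattini hP x y))) (by
      intro a
      obtain ⟨x, rfl⟩ := QuotientGroup.mk_surjective a
      rw [← QuotientGroup.mk_pow, QuotientGroup.eq_one_iff]
      exact hfW (Helper60.PCP.pow_mem_frattini hP x))
  obtain ⟨c, ⟨e'⟩⟩ := exists_equiv_fin (p := p) (Wsub p P) (by
      rintro ⟨a, ha⟩ ⟨b, hb⟩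
      apply Subtype.ext
      exact (Subgroup.mem_center_iff.mp hb.1 a)) (by
      rintro ⟨a, ha⟩
      apply Subtype.ext
      exact ha.2)
  let pr : P →* Multiplicative (Fin d → ZMod p) := e.toMonoidHom.comp (QuotientGroup.mk' _)
  let inc : Multiplicative (Fin c → ZMod p) →* P :=
    (Wsub p P).subtype.comp e'.symm.toMonoidHom
  have hrange : inc.range = Wsub p P := by
    ext x
    constructor
    · rintro ⟨w, rfl⟩
      exact (e'.symm w).2
    · intro hx
      exact ⟨e' ⟨x, hx⟩, by
        show ((e'.symm (e' ⟨x, hx⟩) : Wsub p P) : P) = x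
        rw [MulEquiv.symm_apply_apply]⟩
  have hker : pr.ker = Wsub p P := by
    ext x
    rw [MonoidHom.mem_ker]
    show e (x : P ⧸ Wsub p P) = 1 ↔ _
    rw [← QuotientGroup.eq_one_iff]
    exact map_eq_one_iff e e.injective
  obtain ⟨q, E, hEpr, hEinc⟩ := exists_ext_of_hom (p := p) pr inc
    (e.surjective.comp (QuotientGroup.mk'_surjective _))
    (fun a b hab => e'.symm.injective (Subtype.ext hab)) (by rw [hker, hrange])
    (by
      intro w x
      have h1 : inc w ∈ Wsub p P := by
        rw [← hrange]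
        exact ⟨w, rfl⟩
      exact Subgroup.mem_center_iff.mp h1.1 x)
  -- the generator of the Frattini subgroup
  have hcyc : IsCyclic (frattini P) := isCyclic_of_prime_card hF
  obtain ⟨g, hg⟩ := hcyc.exists_generator
  obtain ⟨w0', hw0'⟩ : ∃ w, inc w = (g : P) := by
    have h1 : (g : P) ∈ inc.range := by
      rw [hrange]
      exact hfW g.2
    exact h1
  let w0 : Fin c → ZMod p := w0'.toAdd
  have hfr : ∀ x ∈ frattini P, ∃ t : ZMod p, x = E.inc (Multiplicative.ofAdd (t • w0)) := by
    intro x hx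
    obtain ⟨n, hn⟩ := Subgroup.mem_zpowers_iff.1 (hg ⟨x, hx⟩)
    refine ⟨(n : ZMod p), ?_⟩
    have h1 : x = (g : P) ^ n := by
      have h2 := congrArg Subtype.val hn
      exact h2.symm
    rw [h1, ← hw0', ← map_zpow, hEinc]
    congr 1
    apply Multiplicative.toAdd.injective
    rw [toAdd_zpow, toAdd_ofAdd, ← Int.cast_smul_eq_zsmul (ZMod p)]
  have hw0ne : w0 ≠ 0 := by
    intro h0
    have h1 : (g : P) = 1 := by
      rw [← hw0']
      have h2 : w0' = 1 := Multiplicative.toAdd.injective h0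
      rw [h2, map_one]
    have h3 : g = 1 := Subtype.ext h1
    have h4 : ∀ x : frattini P, x = 1 := by
      intro x
      obtain ⟨n, hn⟩ := Subgroup.mem_zpowers_iff.1 (hg x)
      rw [← hn, h3, one_zpow]
    have h5 : Nat.card (frattini P) = 1 :=
      Nat.card_eq_one_iff_unique.2 ⟨⟨fun a b => by rw [h4 a, h4 b]⟩, ⟨1⟩⟩
    rw [hF] at h5
    exact hp.one_lt.ne' h5
  have hinj : ∀ a b : Fin c → ZMod p, E.inc (Multiplicative.ofAdd a) =
      E.inc (Multiplicative.ofAdd b) → a = b := by
    intro a b h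
    exact Multiplicative.ofAdd.injective (E.inj h)
  have hbe : ∀ v v', ∃ t : ZMod p, q.be v v' = t • w0 := by
    intro v v'
    obtain ⟨x, hx⟩ := E.surj (Multiplicative.ofAdd v)
    obtain ⟨y, hy⟩ := E.surj (Multiplicative.ofAdd v')
    have h1 := E.comm x y
    rw [hx, hy, toAdd_ofAdd, toAdd_ofAdd] at h1
    obtain ⟨t, ht⟩ := hfr _ (Helper60.PCP.comm_mem_frattini hP x y)
    exact ⟨t, hinj _ _ (h1.symm.trans ht)⟩
  have hpw : ∀ v, ∃ t : ZMod p, q.pw v = t • w0 := by
    intro v
    obtain ⟨x, hx⟩ := E.surj (Multiplicative.ofAdd v)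
    have h1 := E.pow x
    rw [hx, toAdd_ofAdd] at h1
    obtain ⟨t, ht⟩ := hfr _ (Helper60.PCP.pow_mem_frattini hP x)
    exact ⟨t, hinj _ _ (h1.symm.trans ht)⟩
  obtain ⟨ell, hell⟩ : ∃ ell : (Fin c → ZMod p) →ₗ[ZMod p] ZMod p, ell w0 = 1 := by
    obtain ⟨i, hi⟩ : ∃ i, w0 i ≠ 0 := by
      by_contra hcon
      apply hw0ne
      funext i
      by_contra h
      exact hcon ⟨i, h⟩
    refine ⟨(w0 i)⁻¹ • LinearMap.proj i, ?_⟩
    show (w0 i)⁻¹ • w0 i = 1
    rw [smul_eq_mul, inv_mul_cancel₀ hi]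
  have hellt : ∀ (w : Fin c → ZMod p), (∃ t : ZMod p, w = t • w0) → w = ell w • w0 := by
    rintro w ⟨t, rfl⟩
    rw [map_smul, hell, smul_eq_mul, mul_one]
  let F0 : (Fin d → ZMod p) →+ ZMod p := AddMonoidHom.mk' (fun v => ell (q.pw v)) (by
    intro v v'
    show ell (q.pw (v + v')) = ell (q.pw v) + ell (q.pw v')
    rw [q.pw_add, choose_two_smul hp2, add_zero, map_add])
  let F : (Fin d → ZMod p) →ₗ[ZMod p] ZMod p :=
    { toFun := F0
      map_add' := map_add F0
      map_smul' := fun r v => ZMod.map_smul F0 r v }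
  have hFv : ∀ v, F v = ell (q.pw v) := fun v => rfl
  refine ⟨d, c, q, q.be.compr₂ ell, F, w0, ⟨?_, ?_, hw0ne, ?_⟩, ?_, ⟨E⟩⟩
  · intro v v'
    rw [LinearMap.compr₂_apply]
    exact hellt _ (hbe v v')
  · intro v
    rw [hFv]
    exact hellt _ (hpw v)
  · intro v
    rw [LinearMap.compr₂_apply, q.alt, map_zero]
  · intro v h1 h2
    obtain ⟨x, hx⟩ := E.surj (Multiplicative.ofAdd v)
    have hxW : x ∈ Wsub p P := by
      refine ⟨?_, ?_⟩
      · rw [Subgroup.mem_center_iff]
        intro y
        have h3 := E.comm x y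
        have h4 : q.be (E.pr x).toAdd (E.pr y).toAdd = 0 := by
          rw [hx, toAdd_ofAdd, hellt _ (hbe v _)]
          have h5 := h1 (E.pr y).toAdd
          rw [LinearMap.compr₂_apply] at h5
          rw [h5, zero_smul]
        rw [h4, ofAdd_zero, map_one] at h3
        have h6 : x * y * x⁻¹ = y := mul_inv_eq_one.mp h3
        exact (mul_inv_eq_iff_eq_mul.mp h6).symm
      · rw [E.pow x, hx, toAdd_ofAdd, hellt _ (hpw v), ← hFv, h2, zero_smul, ofAdd_zero, map_one]
    have h7 : x ∈ E.pr.ker := by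
      rw [hEpr, hker]
      exact hxW
    rw [MonoidHom.mem_ker, hx] at h7
    exact h7

end Pool.Agent.XV
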