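import Pool.Agent.XV.Mem

/-!
# Upper bounds for the groups of exponent `p`
-/

set_option autoImplicit false

open Module

namespace Pool.Agent.XV

open Pool.Agent.APG Pool.Agent.Helper19.PCP

variable {p : ℕ} [Fact p.Prime]

section count

variable {E : Type} [AddCommGroup E] [Module (ZMod p) E] [Finite E]

/-- subspaces with pairwise trivial intersection -/
lemma card_mul_le_set {ι : Type} (I : Finset ι) (Y : ι → Submodule (ZMod p) E)
    (hd : ∀ i ∈ I, ∀ j ∈ I, i ≠ j → Y i ⊓ Y j = ⊥) (k : ℕ)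
    (hk : ∀ i ∈ I, k ≤ Nat.card (Y i)) (S : Finset E)
    (hS : ∀ i ∈ I, ∀ y ∈ Y i, y ≠ 0 → y ∈ S) : I.card * (k - 1) ≤ S.card := by
  classical
  have : Fintype E := Fintype.ofFinite E
  let s : ι → Finset E := fun i => (Finset.univ.filter (fun g => g ∈ Y i)).erase 0
  have hs : ∀ i : ι, (s i).card = Nat.card (Y i) - 1 := by
    intro i
    simp only [s]
    rw [Finset.card_erase_of_mem (by simp)]
    congr 1
    rw [Nat.card_eq_fintype_card, Fintype.card_subtype]
  have hdj : (I : Set ι).PairwiseDisjoint s := by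
    intro i hi j hj hne
    rw [Function.onFun, Finset.disjoint_left]
    intro g hgU hgV
    simp only [s, Finset.mem_erase, Finset.mem_filter, Finset.mem_univ, true_and] at hgU hgV
    have h1 : g ∈ Y i ⊓ Y j := ⟨hgU.2, hgV.2⟩
    rw [hd i hi j hj hne, Submodule.mem_bot] at h1
    exact hgU.1 h1
  have h1 : (I.biUnion s).card = ∑ i ∈ I, (s i).card := Finset.card_biUnion hdj
  have h2 : I.biUnion s ⊆ S := by
    intro g hg
    rw [Finset.mem_biUnion] at hg
    obtain ⟨i, hi, hgU⟩ := hg
    simp only [s, Finset.mem_erase, Finset.mem_filter, Finset.mem_univ, true_and] at hgU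
    exact hS i hi g hgU.2 hgU.1
  calc I.card * (k - 1) = ∑ i ∈ I, (k - 1) := by rw [Finset.sum_const, smul_eq_mul]
    _ ≤ ∑ i ∈ I, (s i).card := by
        apply Finset.sum_le_sum
        intro i hi
        rw [hs i]
        exact Nat.sub_le_sub_right (hk i hi) 1
    _ = (I.biUnion s).card := h1.symm
    _ ≤ _ := Finset.card_le_card h2

lemma card_sub (Y : Submodule (ZMod p) E) : Nat.card Y = p ^ finrank (ZMod p) Y := by
  rw [Module.natCard_eq_pow_finrank (K := ZMod p), Nat.card_zmod]

lemma card_space (p : ℕ) [Fact p.Prime] (E : Type) [AddCommGroup E] [Module (ZMod p) E]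
    [Finite E] : Nat.card E = p ^ finrank (ZMod p) E := by
  rw [Module.natCard_eq_pow_finrank (K := ZMod p), Nat.card_zmod]

/-- `r (k - 1) ≤ k ^ 2 - 1` -/
lemma le_of_mul_le {r k : ℕ} (hk : 2 ≤ k) (h : r * (k - 1) ≤ k * k - 1) : r ≤ k + 1 := by
  obtain ⟨j, rfl⟩ : ∃ j, k = j + 1 := ⟨k - 1, by omega⟩
  have h1 : (j + 1) * (j + 1) - 1 = (j + 1 + 1) * j := by
    have : (j + 1) * (j + 1) = (j + 1 + 1) * j + 1 := by ring
    omega
  rw [h1, Nat.add_sub_cancel] at h
  exact Nat.le_of_mul_le_mul_right h (by omega)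

/-- `r (k - 1) ≤ k ^ 2 - 2` -/
lemma le_of_mul_le' {r k : ℕ} (hk : 2 ≤ k) (h : r * (k - 1) ≤ k * k - 2) : r ≤ k := by
  obtain ⟨j, rfl⟩ : ∃ j, k = j + 1 := ⟨k - 1, by omega⟩
  rw [Nat.add_sub_cancel] at h
  by_contra hr
  have h2 : (j + 1 + 1) * j ≤ r * j := Nat.mul_le_mul_right _ (by omega)
  have h3 : (j + 1) * (j + 1) = (j + 1 + 1) * j + 1 := by ring
  have h4 : 0 < (j + 1 + 1) * j := Nat.mul_pos (by omega) (by omega)
  rw [h3] at h
  generalize (j + 1 + 1) * j = x at h h2 h4
  generalize r * j = y at h h2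
  omega

end count

variable {V W : Type} [AddCommGroup V] [AddCommGroup W] [Module (ZMod p) V] [Module (ZMod p) W]

section mem
variable [Finite V] [Finite W] {q : Dat p V W} {P : Type} [Group P]

/-- the traces of the axis members -/
lemma one_axis (E : Ext q P) {𝒰 : Finset (Subgroup (P × P))} (hU : IsPCP (Nat.card P) 𝒰)
    {w : W × W} (hw : w ≠ 0) [DecidablePred fun U => w ∈ trU E U] :
    (𝒰.filter fun U => w ∈ trU E U).card ≤ 1 := by
  rw [Finset.card_le_one]
  intro U hU1 U' hU2
  rw [Finset.mem_filter] at hU1 hU2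
  by_contra hne
  have h1 : w ∈ trU E U ⊓ trU E U' := ⟨hU1.2, hU2.2⟩
  rw [trU_inf E hU hU1.1 hU2.1 hne, Submodule.mem_bot] at h1
  exact hw h1

/-- the trace of a member which is not axis has dimension at least `dim W` -/
lemma le_trU (E : Ext q P) {om : V →ₗ[ZMod p] V →ₗ[ZMod p] ZMod p}
    {F : V →ₗ[ZMod p] ZMod p} {w0 : W}
    (h : One q om F w0) (hnd : Nd om) {𝒰 : Finset (Subgroup (P × P))}
    (hU : IsPCP (Nat.card P) 𝒰) {U : Subgroup (P × P)} (h1 : U ∈ 𝒰)
    (ha : ((w0, 0) : W × W) ∉ trU E U) (hb : ((0, w0) : W × W) ∉ trU E U) :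
    finrank (ZMod p) W ≤ finrank (ZMod p) (trU E U) := by
  obtain ⟨l1, l2, hl1, hl2, hl⟩ := exists_lam (trU E U) w0 ha hb
  have h3 := (iso_le hnd hl1 hl2 (imU E U) (fun x hx y hy => by
    have h4 := be_mem E U hx hy
    rw [h.be, h.be] at h4
    exact hl _ _ h4)).1
  have h4 := dim_add E hU h1
  omega

/-- ROW U1 -/
theorem upper_U1 (E : Ext q P) {om : V →ₗ[ZMod p] V →ₗ[ZMod p] ZMod p} {w0 : W}
    (h : One q om 0 w0) (hnd : Nd om) :
    T (P × P) ≤ p ^ finrank (ZMod p) W + 2 ∧
      (finrank (ZMod p) W = 1 → T (P × P) ≤ p + 1) := by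
  classical
  have hp : p.Prime := Fact.out
  have hp1 : 1 < p := hp.one_lt
  have hfP : Finite P := Nat.finite_of_card_ne_zero (by
    rw [card_P E]
    exact pow_ne_zero _ (by omega))
  have hfW : Fintype (W × W) := Fintype.ofFinite _
  have hw0 := h.w0
  have hWf : Module.Finite (ZMod p) W := Module.Finite.of_finite
  have hc1 : 1 ≤ finrank (ZMod p) W := by
    have : Nontrivial W := ⟨w0, 0, hw0⟩
    exact Module.finrank_pos
  -- the members which are not axis
  have key : ∀ 𝒰 : Finset (Subgroup (P × P)), IsPCP (Nat.card P) 𝒰 →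
      ∃ I : Finset (Subgroup (P × P)), I ⊆ 𝒰 ∧ 𝒰.card ≤ I.card + 2 ∧
        ∀ U ∈ I, ((w0, 0) : W × W) ∉ trU E U ∧ ((0, w0) : W × W) ∉ trU E U := by
    intro 𝒰 hU
    refine ⟨𝒰.filter fun U => ((w0, 0) : W × W) ∉ trU E U ∧ ((0, w0) : W × W) ∉ trU E U,
      Finset.filter_subset _ _, ?_, fun U hU1 => (Finset.mem_filter.1 hU1).2⟩
    have h1 := one_axis E hU (w := ((w0, 0) : W × W)) (by
      intro h0
      exact hw0 (congrArg Prod.fst h0))
    have h2 := one_axis E hU (w := ((0, w0) : W × W)) (by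
      intro h0
      exact hw0 (congrArg Prod.snd h0))
    have h3 : 𝒰 ⊆ (𝒰.filter fun U => ((w0, 0) : W × W) ∉ trU E U ∧ ((0, w0) : W × W) ∉ trU E U) ∪
        ((𝒰.filter fun U => ((w0, 0) : W × W) ∈ trU E U) ∪
          (𝒰.filter fun U => ((0, w0) : W × W) ∈ trU E U)) := by
      intro U hU1
      simp only [Finset.mem_union, Finset.mem_filter]
      tauto
    have h4 := (Finset.card_le_card h3).trans (Finset.card_union_le _ _)
    have h5 := Finset.card_union_le (𝒰.filter fun U => ((w0, 0) : W × W) ∈ trU E U)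
      (𝒰.filter fun U => ((0, w0) : W × W) ∈ trU E U)
    omega
  have hcardW : Fintype.card (W × W) = p ^ finrank (ZMod p) W * p ^ finrank (ZMod p) W := by
    rw [← Nat.card_eq_fintype_card, Nat.card_prod, card_space p W]
  refine ⟨?_, fun hc => ?_⟩
  · apply T_prod_le
    intro 𝒰 hU
    obtain ⟨I, hI, hcard, hax⟩ := key 𝒰 hU
    have h1 := card_mul_le_set I (fun U => trU E U)
      (fun U hU1 U' hU2 hne => trU_inf E hU (hI hU1) (hI hU2) hne) (p ^ finrank (ZMod p) W)
      (fun U hU1 => by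
        rw [card_sub]
        exact Nat.pow_le_pow_right (by omega) (le_trU E h hnd hU (hI hU1) (hax U hU1).1
          (hax U hU1).2)) ((Finset.univ.erase 0).erase ((w0, 0) : W × W)) (by
        intro U hU1 y hy hy0
        rw [Finset.mem_erase, Finset.mem_erase]
        refine ⟨?_, hy0, Finset.mem_univ _⟩
        rintro rfl
        exact (hax U hU1).1 hy)
    have hne : ((w0, 0) : W × W) ∈ (Finset.univ.erase 0 : Finset (W × W)) := by
      rw [Finset.mem_erase]
      exact ⟨fun h0 => hw0 (congrArg Prod.fst h0), Finset.mem_univ _⟩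
    rw [Finset.card_erase_of_mem hne, Finset.card_erase_of_mem (Finset.mem_univ _),
      Finset.card_univ, hcardW, Nat.sub_sub] at h1
    have h2 : 2 ≤ p ^ finrank (ZMod p) W := by
      calc 2 ≤ p ^ 1 := by rw [pow_one]; omega
        _ ≤ _ := Nat.pow_le_pow_right (by omega) hc1
    have h3 := le_of_mul_le' h2 h1
    omega
  · apply T_prod_le
    intro 𝒰 hU
    obtain ⟨I, hI, hcard, hax⟩ := key 𝒰 hU
    have hfW1 : Fintype W := Fintype.ofFinite _
    have hspan : ∀ w : W, w ≠ 0 → ∃ a : ZMod p, a • w = w0 := fun w hw =>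
      exists_smul_eq_of_finrank_eq_one hc hw w0
    have h1 := card_mul_le_set I (fun U => trU E U)
      (fun U hU1 U' hU2 hne => trU_inf E hU (hI hU1) (hI hU2) hne) (p ^ finrank (ZMod p) W)
      (fun U hU1 => by
        rw [card_sub]
        exact Nat.pow_le_pow_right (by omega) (le_trU E h hnd hU (hI hU1) (hax U hU1).1
          (hax U hU1).2)) ((Finset.univ.erase (0 : W)) ×ˢ (Finset.univ.erase (0 : W))) (by
        rintro U hU1 ⟨y1, y2⟩ hy hy0
        rw [Finset.mem_product, Finset.mem_erase, Finset.mem_erase]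
        refine ⟨⟨?_, Finset.mem_univ _⟩, ?_, Finset.mem_univ _⟩
        · rintro (rfl : y1 = 0)
          have h3 : y2 ≠ 0 := by
            rintro rfl
            exact hy0 rfl
          obtain ⟨a, ha⟩ := hspan y2 h3
          have h4 := (trU E U).smul_mem a hy
          rw [Prod.smul_mk, smul_zero, ha] at h4
          exact (hax U hU1).2 h4
        · rintro (rfl : y2 = 0)
          have h3 : y1 ≠ 0 := by
            rintro rfl
            exact hy0 rfl
          obtain ⟨a, ha⟩ := hspan y1 h3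
          have h4 := (trU E U).smul_mem a hy
          rw [Prod.smul_mk, smul_zero, ha] at h4
          exact (hax U hU1).1 h4)
    rw [Finset.card_product, Finset.card_erase_of_mem (Finset.mem_univ _), Finset.card_univ,
      ← Nat.card_eq_fintype_card, card_space p W, hc, pow_one] at h1
    have h3 : I.card ≤ p - 1 := Nat.le_of_mul_le_mul_right h1 (by omega)
    omega

/-- isotropic subspaces of `V` -/
lemma iso_le_half {om : V →ₗ[ZMod p] V →ₗ[ZMod p] ZMod p} (hnd : Nd om)
    (A : Submodule (ZMod p) V) (hA : ∀ x ∈ A, ∀ y ∈ A, om x y = 0) :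
    2 * finrank (ZMod p) A ≤ finrank (ZMod p) V := by
  have hfin : Module.Finite (ZMod p) V := Module.Finite.of_finite
  have h1 := (iso_le hnd (l1 := 1) (l2 := 1) one_ne_zero one_ne_zero (A.prod A)
    (fun x hx y hy => by
      rw [hA _ hx.1 _ hy.1, hA _ hx.2 _ hy.2]
      ring)).1
  have h2 : finrank (ZMod p) (A.prod A) = 2 * finrank (ZMod p) A := by
    have h3 := card_sub (p := p) (A.prod A)
    have h4 : Nat.card (A.prod A) = Nat.card (A × A) := Nat.card_congr
      { toFun := fun x => (⟨x.1.1, x.2.1⟩, ⟨x.1.2, x.2.2⟩)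
        invFun := fun x => ⟨(x.1.1, x.2.1), x.1.2, x.2.2⟩
        left_inv := fun x => rfl
        right_inv := fun x => rfl }
    rw [h4, Nat.card_prod, card_sub, ← pow_add] at h3
    have h5 := Nat.pow_right_injective (Fact.out : p.Prime).one_lt h3
    omega
  omega

/-- members of which the images under a projection are isotropic -/
lemma iso_family (E : Ext q P) {om : V →ₗ[ZMod p] V →ₗ[ZMod p] ZMod p} (hnd : Nd om) {m : ℕ}
    (hm : finrank (ZMod p) V = 2 * m) (hm1 : 1 ≤ m) {𝒰 : Finset (Subgroup (P × P))}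
    (hU : IsPCP (Nat.card P) 𝒰) (π : (V × V) →ₗ[ZMod p] V) (hπ : Function.Surjective π)
    (K : Finset (Subgroup (P × P))) (hK : K ⊆ 𝒰)
    (hiso : ∀ U ∈ K, ∀ x ∈ imU E U, ∀ x' ∈ imU E U, om (π x) (π x') = 0) :
    K.card ≤ p ^ m + 1 := by
  classical
  have hp1 : 1 < p := (Fact.out : p.Prime).one_lt
  have hfin : Module.Finite (ZMod p) V := Module.Finite.of_finite
  have hfV : Fintype V := Fintype.ofFinite _
  have hle : ∀ U ∈ K, finrank (ZMod p) ((imU E U).map π) ≤ m := by
    intro U hU1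
    have h1 := iso_le_half hnd ((imU E U).map π) (by
      rintro _ ⟨x, hx, rfl⟩ _ ⟨y, hy, rfl⟩
      exact hiso U hU1 x hx y hy)
    omega
  have hsup : ∀ U ∈ K, ∀ U' ∈ K, U ≠ U' → (imU E U).map π ⊔ (imU E U').map π = ⊤ := by
    intro U hU1 U' hU2 hne
    rw [← Submodule.map_sup, imU_sup E hU (hK hU1) (hK hU2) hne, Submodule.map_top,
      LinearMap.range_eq_top.2 hπ]
  rcases Nat.lt_or_ge K.card 2 with h2 | h2
  · have : 1 ≤ p ^ m := Nat.one_le_pow _ _ (by omega)
    omega
  · have hge : ∀ U ∈ K, m ≤ finrank (ZMod p) ((imU E U).map π) := by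
      intro U hU1
      obtain ⟨U', hU2, hne⟩ := Finset.exists_mem_ne (show 1 < K.card by omega) U
      have h3 := finrank_sup_le _ _ (hsup U hU1 U' hU2 hne.symm)
      have h4 := hle U' hU2
      omega
    have h3 := card_mul_le_set K (fun U => (imU E U).map π) (by
        intro U hU1 U' hU2 hne
        have h4 := Submodule.finrank_sup_add_finrank_inf_eq ((imU E U).map π)
          ((imU E U').map π)
        rw [hsup U hU1 U' hU2 hne, finrank_top] at h4
        have h5 := hle U hU1
        have h6 := hle U' hU2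
        exact Submodule.finrank_eq_zero.1 (by omega)) (p ^ m) (by
        intro U hU1
        rw [card_sub]
        exact Nat.pow_le_pow_right (by omega) (hge U hU1)) (Finset.univ.erase (0 : V)) (by
        intro U _ y _ hy0
        rw [Finset.mem_erase]
        exact ⟨hy0, Finset.mem_univ _⟩)
    rw [Finset.card_erase_of_mem (Finset.mem_univ _), Finset.card_univ,
      ← Nat.card_eq_fintype_card, card_space p V, hm, two_mul, pow_add] at h3
    refine le_of_mul_le ?_ h3
    calc 2 ≤ p ^ 1 := by rw [pow_one]; omega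
      _ ≤ _ := Nat.pow_le_pow_right (by omega) hm1

/-- the lines spanned by `w0` in the two factors -/
def line (w0 : W) : (ZMod p × ZMod p) →ₗ[ZMod p] (W × W) :=
  LinearMap.prodMap (LinearMap.toSpanSingleton (ZMod p) W w0)
    (LinearMap.toSpanSingleton (ZMod p) W w0)

omit [Finite W] in
lemma line_apply (w0 : W) (a b : ZMod p) : line w0 (a, b) = (a • w0, b • w0) := rfl

lemma line_ker {w0 : W} (hw : w0 ≠ 0) : LinearMap.ker (line (p := p) w0) = ⊥ := by
  rw [LinearMap.ker_eq_bot']
  rintro ⟨a, b⟩ h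
  rw [line_apply] at h
  have h1 : a • w0 = 0 := congrArg Prod.fst h
  have h2 : b • w0 = 0 := congrArg Prod.snd h
  rw [smul_eq_zero] at h1 h2
  rw [h1.resolve_right hw, h2.resolve_right hw]
  rfl

/-- ROW U2 -/
theorem upper_U2 (_hp2 : p ≠ 2) (E : Ext q P) {om : V →ₗ[ZMod p] V →ₗ[ZMod p] ZMod p} {w0 : W}
    (h : One q om 0 w0) (hnd : Nd om) {m : ℕ} (hm : finrank (ZMod p) V = 2 * m) (hm1 : 1 ≤ m) :
    T (P × P) ≤ p ^ m + p + 1 := by
  classical
  have hp : p.Prime := Fact.out
  have hp1 : 1 < p := hp.one_lt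
  have hfP : Finite P := Nat.finite_of_card_ne_zero (by
    rw [card_P E]
    exact pow_ne_zero _ (by omega))
  have hw0 := h.w0
  apply T_prod_le
  intro 𝒰 hU
  -- the traces on the plane of the multiples of `w0`
  let Y : Subgroup (P × P) → Submodule (ZMod p) (ZMod p × ZMod p) := fun U =>
    (trU E U).comap (line w0)
  have hY : ∀ (U : Subgroup (P × P)) (a b : ZMod p), (a, b) ∈ Y U ↔
      ((a • w0, b • w0) : W × W) ∈ trU E U := fun U a b => Iff.rfl
  have hYd : ∀ U ∈ 𝒰, ∀ U' ∈ 𝒰, U ≠ U' → Y U ⊓ Y U' = ⊥ := by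
    intro U hU1 U' hU2 hne
    show (trU E U).comap (line w0) ⊓ (trU E U').comap (line w0) = ⊥
    rw [← Submodule.comap_inf, trU_inf E hU hU1 hU2 hne]
    exact line_ker hw0
  have hbe : ∀ (U : Subgroup (P × P)), ∀ x ∈ imU E U, ∀ x' ∈ imU E U,
      (om x.1 x'.1, om x.2 x'.2) ∈ Y U := by
    intro U x hx x' hx'
    rw [hY, ← h.be, ← h.be]
    exact be_mem E U hx hx'
  set I := 𝒰.filter fun U => Y U = ⊥ with hI
  set J := 𝒰.filter fun U => Y U ≠ ⊥ with hJ
  have hIJ : I.card + J.card = 𝒰.card := Finset.card_filter_add_card_filter_not _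
  have hJ𝒰 : J ⊆ 𝒰 := Finset.filter_subset _ _
  have hI𝒰 : I ⊆ 𝒰 := Finset.filter_subset _ _
  -- the images of the members of `I` are isotropic
  have hIiso : ∀ U ∈ I, ∀ x ∈ imU E U, ∀ x' ∈ imU E U, om x.1 x'.1 = 0 ∧ om x.2 x'.2 = 0 := by
    intro U hU1 x hx x' hx'
    have h1 := hbe U x hx x' hx'
    rw [(Finset.mem_filter.1 hU1).2, Submodule.mem_bot] at h1
    exact ⟨congrArg Prod.fst h1, congrArg Prod.snd h1⟩
  have hYk : ∀ U ∈ J, p ≤ Nat.card (Y U) := by
    intro U hU1
    have h1 := (Finset.mem_filter.1 hU1).2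
    rw [card_sub]
    have h2 : 1 ≤ finrank (ZMod p) (Y U) := by
      rw [Nat.one_le_iff_ne_zero]
      intro h3
      exact h1 (Submodule.finrank_eq_zero.1 h3)
    calc p = p ^ 1 := (pow_one p).symm
      _ ≤ _ := Nat.pow_le_pow_right (by omega) h2
  have hJd : ∀ U ∈ J, ∀ U' ∈ J, U ≠ U' → Y U ⊓ Y U' = ⊥ := fun U hU1 U' hU2 =>
    hYd U (hJ𝒰 hU1) U' (hJ𝒰 hU2)
  have hJ1 : J.card ≤ p + 1 := by
    have h1 := card_mul_le_set J Y hJd p hYk (Finset.univ.erase (0 : ZMod p × ZMod p)) (by
      intro U _ y _ hy0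
      rw [Finset.mem_erase]
      exact ⟨hy0, Finset.mem_univ _⟩)
    rw [Finset.card_erase_of_mem (Finset.mem_univ _), Finset.card_univ, Fintype.card_prod,
      ZMod.card] at h1
    exact le_of_mul_le (by omega) h1
  rcases Nat.lt_or_ge I.card (p ^ m + 1) with hlt | hge
  · omega
  -- now `I` has at least `p ^ m + 1` members
  have hno1 : ∀ U ∈ J, ((1 : ZMod p), (0 : ZMod p)) ∈ Y U → ((0 : ZMod p), (1 : ZMod p)) ∈ Y U := by
    intro U hU1 h10
    by_contra h01
    have hUI : U ∉ I := fun h2 => (Finset.mem_filter.1 hU1).2 (Finset.mem_filter.1 h2).2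
    have h1 := iso_family E hnd hm hm1 hU (LinearMap.snd (ZMod p) V V)
      (fun v => ⟨(0, v), rfl⟩) (insert U I) (by
        intro U' hU'
        rw [Finset.mem_insert] at hU'
        rcases hU' with rfl | hU'
        · exact hJ𝒰 hU1
        · exact hI𝒰 hU') (by
        intro U' hU' x hx x' hx'
        rw [Finset.mem_insert] at hU'
        rcases hU' with rfl | hU'
        · by_contra hne
          have hne' : om x.2 x'.2 ≠ 0 := hne
          apply h01
          have h2 := (Y U').sub_mem (hbe U' x hx x' hx') ((Y U').smul_mem (om x.1 x'.1) h10)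
          have h3 := (Y U').smul_mem (om x.2 x'.2)⁻¹ h2
          have h4 : (om x.2 x'.2)⁻¹ • (((om x.1 x'.1, om x.2 x'.2) : ZMod p × ZMod p) -
              om x.1 x'.1 • ((1 : ZMod p), (0 : ZMod p))) = (0, 1) := by
            rw [Prod.smul_mk, Prod.mk_sub_mk, Prod.smul_mk, smul_eq_mul, smul_eq_mul, smul_eq_mul,
              smul_eq_mul, mul_one, mul_zero, sub_self, sub_zero, mul_zero,
              inv_mul_cancel₀ hne']
          rwa [h4] at h3
        · exact (hIiso U' hU' x hx x' hx').2)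
    rw [Finset.card_insert_of_notMem hUI] at h1
    omega
  have hno2 : ∀ U ∈ J, ((0 : ZMod p), (1 : ZMod p)) ∈ Y U → ((1 : ZMod p), (0 : ZMod p)) ∈ Y U := by
    intro U hU1 h01
    by_contra h10
    have hUI : U ∉ I := fun h2 => (Finset.mem_filter.1 hU1).2 (Finset.mem_filter.1 h2).2
    have h1 := iso_family E hnd hm hm1 hU (LinearMap.fst (ZMod p) V V)
      (fun v => ⟨(v, 0), rfl⟩) (insert U I) (by
        intro U' hU'
        rw [Finset.mem_insert] at hU'
        rcases hU' with rfl | hU'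
        · exact hJ𝒰 hU1
        · exact hI𝒰 hU') (by
        intro U' hU' x hx x' hx'
        rw [Finset.mem_insert] at hU'
        rcases hU' with rfl | hU'
        · by_contra hne
          have hne' : om x.1 x'.1 ≠ 0 := hne
          apply h10
          have h2 := (Y U').sub_mem (hbe U' x hx x' hx') ((Y U').smul_mem (om x.2 x'.2) h01)
          have h3 := (Y U').smul_mem (om x.1 x'.1)⁻¹ h2
          have h4 : (om x.1 x'.1)⁻¹ • (((om x.1 x'.1, om x.2 x'.2) : ZMod p × ZMod p) -
              om x.2 x'.2 • ((0 : ZMod p), (1 : ZMod p))) = (1, 0) := by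
            rw [Prod.smul_mk, Prod.mk_sub_mk, Prod.smul_mk, smul_eq_mul, smul_eq_mul, smul_eq_mul,
              smul_eq_mul, mul_one, mul_zero, sub_self, sub_zero, mul_zero,
              inv_mul_cancel₀ hne']
          rwa [h4] at h3
        · exact (hIiso U' hU' x hx x' hx').1)
    rw [Finset.card_insert_of_notMem hUI] at h1
    omega
  have hI1 : I.card ≤ p ^ m + 1 := iso_family E hnd hm hm1 hU (LinearMap.fst (ZMod p) V V)
    (fun v => ⟨(v, 0), rfl⟩) I hI𝒰 (fun U hU1 x hx x' hx' => (hIiso U hU1 x hx x' hx').1)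
  have hJ2 : J.card ≤ p := by
    by_cases hax : ∃ U ∈ J, ((1 : ZMod p), (0 : ZMod p)) ∈ Y U ∨ ((0 : ZMod p), (1 : ZMod p)) ∈ Y U
    · obtain ⟨U, hU1, h1⟩ := hax
      have h10 : ((1 : ZMod p), (0 : ZMod p)) ∈ Y U := h1.elim id (hno2 U hU1)
      have h01 := hno1 U hU1 h10
      have htop : Y U = ⊤ := by
        rw [eq_top_iff]
        rintro ⟨a, b⟩ -
        have h2 := (Y U).add_mem ((Y U).smul_mem a h10) ((Y U).smul_mem b h01)
        simpa using h2
      have h3 : J ⊆ {U} := by
        intro U' hU'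
        rw [Finset.mem_singleton]
        by_contra hne
        have h4 := hJd U hU1 U' hU' (Ne.symm hne)
        rw [htop, top_inf_eq] at h4
        exact (Finset.mem_filter.1 hU').2 h4
      have h4 := Finset.card_le_card h3
      rw [Finset.card_singleton] at h4
      omega
    · push Not at hax
      have h1 := card_mul_le_set J Y hJd p hYk
        ((Finset.univ.erase (0 : ZMod p)) ×ˢ (Finset.univ.erase (0 : ZMod p))) (by
          rintro U hU1 ⟨a, b⟩ hy hy0
          rw [Finset.mem_product, Finset.mem_erase, Finset.mem_erase]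
          refine ⟨⟨?_, Finset.mem_univ _⟩, ?_, Finset.mem_univ _⟩
          · rintro (rfl : a = 0)
            have hb : b ≠ 0 := by
              rintro rfl
              exact hy0 rfl
            have h2 := (Y U).smul_mem b⁻¹ hy
            rw [Prod.smul_mk, smul_zero, smul_eq_mul, inv_mul_cancel₀ hb] at h2
            exact (hax U hU1).2 h2
          · rintro (rfl : b = 0)
            have ha : a ≠ 0 := by
              rintro rfl
              exact hy0 rfl
            have h2 := (Y U).smul_mem a⁻¹ hy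
            rw [Prod.smul_mk, smul_zero, smul_eq_mul, inv_mul_cancel₀ ha] at h2
            exact (hax U hU1).1 h2)
      rw [Finset.card_product, Finset.card_erase_of_mem (Finset.mem_univ _), Finset.card_univ,
        ZMod.card] at h1
      have h3 : J.card ≤ p - 1 := Nat.le_of_mul_le_mul_right h1 (by omega)
      omega
  omega

end mem

end Pool.Agent.XV
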