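import Pool.Agent.XV.Mem

/-!
# Upper bounds U3 and U4
-/

set_option autoImplicit false

open Module

namespace Pool.Agent.XV

open Pool.Agent.APG Pool.Agent.Helper19.PCP

/-- counting: at most two members beyond those which satisfy neither `A1` nor `A2` -/
lemma card_le_filter_add_two {α : Type} (s : Finset α) (A1 A2 : α → Prop) [DecidablePred A1]
    [DecidablePred A2] (h1 : ∀ U ∈ s, ∀ U' ∈ s, A1 U → A1 U' → U = U')
    (h2 : ∀ U ∈ s, ∀ U' ∈ s, A2 U → A2 U' → U = U') :
    s.card ≤ (s.filter (fun U => ¬ A1 U ∧ ¬ A2 U)).card + 2 := by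
  classical
  have e1 : (s.filter A1).card ≤ 1 := Finset.card_le_one.2 (fun a ha b hb =>
    h1 a (Finset.mem_filter.1 ha).1 b (Finset.mem_filter.1 hb).1 (Finset.mem_filter.1 ha).2
      (Finset.mem_filter.1 hb).2)
  have e2 : (s.filter A2).card ≤ 1 := Finset.card_le_one.2 (fun a ha b hb =>
    h2 a (Finset.mem_filter.1 ha).1 b (Finset.mem_filter.1 hb).1 (Finset.mem_filter.1 ha).2
      (Finset.mem_filter.1 hb).2)
  have e3 : s ⊆ s.filter (fun U => ¬ A1 U ∧ ¬ A2 U) ∪ (s.filter A1 ∪ s.filter A2) := by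
    intro U hU
    simp only [Finset.mem_union, Finset.mem_filter]
    tauto
  have e4 := Finset.card_le_card e3
  have e5 := Finset.card_union_le (s.filter (fun U => ¬ A1 U ∧ ¬ A2 U))
    (s.filter A1 ∪ s.filter A2)
  have e6 := Finset.card_union_le (s.filter A1) (s.filter A2)
  omega

variable {p : ℕ} [Fact p.Prime] {V W : Type} [AddCommGroup V] [AddCommGroup W]
  [Module (ZMod p) V] [Module (ZMod p) W]

section mem
variable [Finite V] [Finite W] {q : Dat p V W} {P : Type} [Group P]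

/-- two distinct members do not share a nonzero trace vector -/
lemma eq_of_mem_trU (E : Ext q P) {𝒰 : Finset (Subgroup (P × P))} (hU : IsPCP (Nat.card P) 𝒰)
    {U U' : Subgroup (P × P)} (h1 : U ∈ 𝒰) (h2 : U' ∈ 𝒰) {y : W × W} (hy : y ≠ 0)
    (hyU : y ∈ trU E U) (hyU' : y ∈ trU E U') : U = U' := by
  by_contra hne
  have h4 := trU_inf E hU h1 h2 hne
  have h3 : y ∈ trU E U ⊓ trU E U' := ⟨hyU, hyU'⟩
  rw [h4, Submodule.mem_bot] at h3
  exact hy h3

/-- it suffices to bound the number of the non-axis members -/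
lemma T_le_of_nonaxis (E : Ext q P) {w0 : W} (hw0 : w0 ≠ 0) {n : ℕ}
    (h : ∀ 𝒰 : Finset (Subgroup (P × P)), IsPCP (Nat.card P) 𝒰 →
      (∀ U ∈ 𝒰, ((w0, 0) : W × W) ∉ trU E U ∧ ((0, w0) : W × W) ∉ trU E U) → 𝒰.card ≤ n) :
    T (P × P) ≤ n + 2 := by
  classical
  have hp : 1 < p := (Fact.out : p.Prime).one_lt
  have hfP : Finite P := Nat.finite_of_card_ne_zero (by
    rw [card_P E]
    exact pow_ne_zero _ (by omega))
  refine T_prod_le (fun 𝒰 hU => ?_)
  have h1 := card_le_filter_add_two 𝒰 (fun U => ((w0, 0) : W × W) ∈ trU E U)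
    (fun U => ((0, w0) : W × W) ∈ trU E U)
    (fun U hU1 U' hU2 hy hy' => eq_of_mem_trU E hU hU1 hU2
      (fun h0 => hw0 (congrArg Prod.fst h0)) hy hy')
    (fun U hU1 U' hU2 hy hy' => eq_of_mem_trU E hU hU1 hU2
      (fun h0 => hw0 (congrArg Prod.snd h0)) hy hy')
  refine h1.trans (Nat.add_le_add_right (h _ ⟨?_, ?_⟩ ?_) 2)
  · intro U hU1
    exact hU.1 U (Finset.mem_filter.1 hU1).1
  · intro U hU1 U' hU2 hne
    exact hU.2 U (Finset.mem_filter.1 hU1).1 U' (Finset.mem_filter.1 hU2).1 hne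
  · intro U hU1
    exact (Finset.mem_filter.1 hU1).2

/-- the forms vanish on the image -/
lemma forms_zero (E : Ext q P) {om : V →ₗ[ZMod p] V →ₗ[ZMod p] ZMod p}
    {F : V →ₗ[ZMod p] ZMod p} {w0 : W} (h : One q om F w0) {U : Subgroup (P × P)}
    {l1 l2 : ZMod p}
    (hl : ∀ a b : ZMod p, ((a • w0, b • w0) : W × W) ∈ trU E U → l1 * a + l2 * b = 0) :
    (∀ x ∈ imU E U, ∀ y ∈ imU E U, l1 * om x.1 y.1 + l2 * om x.2 y.2 = 0) ∧
      ∀ x ∈ imU E U, l1 * F x.1 + l2 * F x.2 = 0 := by
  constructor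
  · intro x hx y hy
    apply hl
    have h1 := be_mem E U hx hy
    rwa [h.be, h.be] at h1
  · intro x hx
    apply hl
    have h1 := pw_mem E U hx
    rwa [h.pw, h.pw] at h1

end mem

/-- a linear form is represented by a nondegenerate form -/
lemma exists_repr [Finite V] {om : V →ₗ[ZMod p] V →ₗ[ZMod p] ZMod p} (halt : ∀ v, om v v = 0)
    (hnd : Nd om) (F : V →ₗ[ZMod p] ZMod p) : ∃ b : V, ∀ x, F x = om x b := by
  have hfin : Module.Finite (ZMod p) V := Module.Finite.of_finite
  have hinj : Function.Injective om.flip := by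
    rw [injective_iff_map_eq_zero]
    intro b hb
    apply hnd
    intro v
    rw [om_swap halt v b]
    have h1 : om v b = 0 := by
      have h2 := LinearMap.congr_fun hb v
      simpa using h2
    rw [h1, neg_zero]
  have hsurj : Function.Surjective om.flip :=
    (LinearMap.injective_iff_surjective_of_finrank_eq_finrank
      (Subspace.dual_finrank_eq (K := ZMod p) (V := V)).symm).1 hinj
  obtain ⟨b, hb⟩ := hsurj F
  refine ⟨b, fun x => ?_⟩
  rw [← hb]
  rfl

section mem
variable [Finite V] [Finite W] {q : Dat p V W} {P : Type} [Group P]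

/-- ROW U3 -/
theorem upper_U3 (E : Ext q P) {om : V →ₗ[ZMod p] V →ₗ[ZMod p] ZMod p}
    {F : V →ₗ[ZMod p] ZMod p} {w0 : W} (h : One q om F w0) (hnd : Nd om) (hF : F ≠ 0) :
    T (P × P) ≤ 3 := by
  have hfin : Module.Finite (ZMod p) V := Module.Finite.of_finite
  refine T_le_of_nonaxis E h.w0 (n := 1) ?_
  intro 𝒰 hU hna
  rw [Finset.card_le_one]
  intro U hU1 U' hU2
  by_contra hne
  obtain ⟨b, hb⟩ := exists_repr h.alt hnd F
  obtain ⟨l1, l2, hl1, hl2, hl⟩ := exists_lam (trU E U) w0 (hna U hU1).1 (hna U hU1).2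
  obtain ⟨l1', l2', hl1', hl2', hl'⟩ := exists_lam (trU E U') w0 (hna U' hU2).1 (hna U' hU2).2
  obtain ⟨f1, f2⟩ := forms_zero E h hl
  obtain ⟨f1', f2'⟩ := forms_zero E h hl'
  obtain ⟨i1, i2⟩ := iso_le hnd hl1 hl2 (imU E U) f1
  obtain ⟨i1', i2'⟩ := iso_le hnd hl1' hl2' (imU E U') f1'
  have hsup := imU_sup E hU hU1 hU2 hne
  have hdim := Submodule.finrank_sup_add_finrank_inf_eq (imU E U) (imU E U')
  rw [hsup, finrank_top, finrank_prod] at hdim
  have e1 : finrank (ZMod p) (imU E U) = finrank (ZMod p) V := by omega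
  have e2 : finrank (ZMod p) (imU E U') = finrank (ZMod p) V := by omega
  have e3 : finrank (ZMod p) (imU E U ⊓ imU E U' : Submodule (ZMod p) (V × V)) = 0 := by omega
  rw [Submodule.finrank_eq_zero] at e3
  have b1 : ((b, b) : V × V) ∈ imU E U := i2 e1 (b, b) (fun x hx => by
    rw [← hb, ← hb]
    exact f2 x hx)
  have b2 : ((b, b) : V × V) ∈ imU E U' := i2' e2 (b, b) (fun x hx => by
    rw [← hb, ← hb]
    exact f2' x hx)
  have b3 : ((b, b) : V × V) ∈ imU E U ⊓ imU E U' := ⟨b1, b2⟩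
  rw [e3, Submodule.mem_bot] at b3
  have b4 : b = 0 := congrArg Prod.fst b3
  apply hF
  ext x
  rw [hb, b4, map_zero, LinearMap.zero_apply]

end mem

/-- a subspace which is isotropic for the form `l1 om(v1, v1') + l2 om(v2, v2')` and on which
`l1 F(v1) + l2 F(v2)` vanishes -/
lemma iso_le_rad [Finite V] {om : V →ₗ[ZMod p] V →ₗ[ZMod p] ZMod p} {F : V →ₗ[ZMod p] ZMod p}
    (hrad : ∀ v, (∀ v', om v v' = 0) → F v = 0 → v = 0)
    {l1 l2 : ZMod p} (h1 : l1 ≠ 0) (h2 : l2 ≠ 0) (X : Submodule (ZMod p) (V × V))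
    (hX : ∀ x ∈ X, ∀ y ∈ X, l1 * om x.1 y.1 + l2 * om x.2 y.2 = 0)
    (hX2 : ∀ x ∈ X, l1 * F x.1 + l2 * F x.2 = 0) :
    finrank (ZMod p) X ≤ finrank (ZMod p) V := by
  have hfin : Module.Finite (ZMod p) V := Module.Finite.of_finite
  have h3 := LinearMap.BilinForm.finrank_add_finrank_orthogonal' (B := bform om l1 l2) X
  rw [finrank_prod] at h3
  have h4 : X ≤ (bform om l1 l2).orthogonal X := by
    intro x hx y hy
    exact hX y hy x hx
  have h5 := Submodule.finrank_mono h4
  -- the intersection with the radical embeds into the field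
  have h6 : finrank (ZMod p) (X ⊓ (bform om l1 l2).ker : Submodule (ZMod p) (V × V)) ≤ 1 := by
    let g : (X ⊓ (bform om l1 l2).ker : Submodule (ZMod p) (V × V)) →ₗ[ZMod p] ZMod p :=
      F.comp ((LinearMap.fst (ZMod p) V V).comp (Submodule.subtype _))
    have hg : Function.Injective g := by
      rw [injective_iff_map_eq_zero]
      rintro ⟨x, hx, hx'⟩ hgx
      have hFx : F x.1 = 0 := hgx
      have hFx2 : F x.2 = 0 := by
        have h7 := hX2 x hx
        rw [hFx, mul_zero, zero_add] at h7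
        exact (mul_eq_zero.1 h7).resolve_left h2
      have hx'' : bform om l1 l2 x = 0 := hx'
      have h8 : ∀ y : V × V, l1 * om x.1 y.1 + l2 * om x.2 y.2 = 0 := fun y => by
        rw [← bform_apply, hx'']
        rfl
      apply Subtype.ext
      show x = 0
      apply Prod.ext
      · apply hrad _ _ hFx
        intro v
        have h9 := h8 (v, 0)
        simp only [map_zero, mul_zero, add_zero] at h9
        exact (mul_eq_zero.1 h9).resolve_left h1
      · apply hrad _ _ hFx2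
        intro v
        have h9 := h8 (0, v)
        simp only [map_zero, mul_zero, zero_add] at h9
        exact (mul_eq_zero.1 h9).resolve_left h2
    have h10 := LinearMap.finrank_le_finrank_of_injective hg
    rwa [finrank_self] at h10
  omega

/-- an isotropic subspace on which `F` vanishes has dimension at most half of `dim V - 1` -/
lemma iso_half_of_rad [Finite V] {om : V →ₗ[ZMod p] V →ₗ[ZMod p] ZMod p} {F : V →ₗ[ZMod p] ZMod p}
    (halt : ∀ v, om v v = 0) (hrad : ∀ v, (∀ v', om v v' = 0) → F v = 0 → v = 0) {r : V} (hr : ∀ v', om r v' = 0)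
    (hFr : F r ≠ 0) (X : Submodule (ZMod p) V) (hX : ∀ x ∈ X, ∀ y ∈ X, om x y = 0)
    (hX2 : ∀ x ∈ X, F x = 0) : 2 * finrank (ZMod p) X + 1 ≤ finrank (ZMod p) V := by
  have hfin : Module.Finite (ZMod p) V := Module.Finite.of_finite
  have h3 := LinearMap.BilinForm.finrank_add_finrank_orthogonal' (B := om) X
  have h4 : X ≤ LinearMap.BilinForm.orthogonal om X := by
    intro x hx y hy
    exact hX y hy x hx
  have h6 : (X ⊓ om.ker : Submodule (ZMod p) V) = ⊥ := by
    rw [eq_bot_iff]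
    rintro x ⟨hx, hx'⟩
    rw [Submodule.mem_bot]
    refine hrad x (fun v' => ?_) (hX2 x hx)
    have hx'' : om x = 0 := hx'
    rw [hx'']
    rfl
  rw [h6, finrank_bot, add_zero] at h3
  -- `r` is orthogonal to `X` and not in `X`
  have h7 : X < LinearMap.BilinForm.orthogonal om X := by
    refine lt_of_le_of_ne h4 ?_
    intro heq
    have hrX : r ∈ LinearMap.BilinForm.orthogonal om X := by
      intro y hy
      show om y r = 0
      rw [om_swap halt r y, hr, neg_zero]
    rw [← heq] at hrX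
    exact hFr (hX2 r hrX)
  have h8 := Submodule.finrank_lt_finrank_of_lt h7
  omega

section mem
variable [Finite V] [Finite W] {q : Dat p V W} {P : Type} [Group P]

/-- a member whose trace does not meet the plane of `w0` has a small image -/
lemma finrank_imU_lt (E : Ext q P) {om : V →ₗ[ZMod p] V →ₗ[ZMod p] ZMod p}
    {F : V →ₗ[ZMod p] ZMod p} {w0 : W} (h : One q om F w0)
    (hrad : ∀ v, (∀ v', om v v' = 0) → F v = 0 → v = 0)
    {r : V} (hr : ∀ v', om r v' = 0) (hFr : F r ≠ 0) {U : Subgroup (P × P)}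
    (hY : ∀ a b : ZMod p, ((a • w0, b • w0) : W × W) ∈ trU E U → a = 0 ∧ b = 0) :
    finrank (ZMod p) (imU E U) < finrank (ZMod p) V := by
  have hfin : Module.Finite (ZMod p) V := Module.Finite.of_finite
  let X1 := (imU E U).map (LinearMap.fst (ZMod p) V V)
  let X2 := (imU E U).map (LinearMap.snd (ZMod p) V V)
  have k1 : ∀ x ∈ imU E U, ∀ y ∈ imU E U, om x.1 y.1 = 0 ∧ om x.2 y.2 = 0 := by
    intro x hx y hy
    have h1 := be_mem E U hx hy
    rw [h.be, h.be] at h1
    exact hY _ _ h1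
  have k2 : ∀ x ∈ imU E U, F x.1 = 0 ∧ F x.2 = 0 := by
    intro x hx
    have h1 := pw_mem E U hx
    rw [h.pw, h.pw] at h1
    exact hY _ _ h1
  have e1 := iso_half_of_rad h.alt hrad hr hFr X1
    (by rintro _ ⟨x, hx, rfl⟩ _ ⟨y, hy, rfl⟩; exact (k1 x hx y hy).1)
    (by rintro _ ⟨x, hx, rfl⟩; exact (k2 x hx).1)
  have e2 := iso_half_of_rad h.alt hrad hr hFr X2
    (by rintro _ ⟨x, hx, rfl⟩ _ ⟨y, hy, rfl⟩; exact (k1 x hx y hy).2)
    (by rintro _ ⟨x, hx, rfl⟩; exact (k2 x hx).2)
  let g : imU E U →ₗ[ZMod p] X1 × X2 := LinearMap.prod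
    (((LinearMap.fst (ZMod p) V V).comp (imU E U).subtype).codRestrict X1
      (fun x => ⟨x.1, x.2, rfl⟩))
    (((LinearMap.snd (ZMod p) V V).comp (imU E U).subtype).codRestrict X2
      (fun x => ⟨x.1, x.2, rfl⟩))
  have hg : Function.Injective g := by
    intro x y hxy
    apply Subtype.ext
    apply Prod.ext
    · exact congrArg (fun z : X1 × X2 => (z.1 : V)) hxy
    · exact congrArg (fun z : X1 × X2 => (z.2 : V)) hxy
  have e3 := LinearMap.finrank_le_finrank_of_injective hg
  rw [finrank_prod] at e3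
  omega

/-- ROW U4 -/
theorem upper_U4 (_hp2 : p ≠ 2) (E : Ext q P) {om : V →ₗ[ZMod p] V →ₗ[ZMod p] ZMod p}
    {F : V →ₗ[ZMod p] ZMod p} {w0 : W} (h : One q om F w0)
    (hrad : ∀ v, (∀ v', om v v' = 0) → F v = 0 → v = 0)
    {r : V} (hr : ∀ v', om r v' = 0) (hFr : F r ≠ 0) : T (P × P) ≤ p + 1 := by
  classical
  have hfinW : Module.Finite (ZMod p) W := Module.Finite.of_finite
  have hp : 1 < p := (Fact.out : p.Prime).one_lt
  have hpp : p + 1 = (p - 1) + 2 := by omega
  rw [hpp]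
  refine T_le_of_nonaxis E h.w0 ?_
  intro 𝒰 hU hna
  have hY : ∀ U ∈ 𝒰, finrank (ZMod p) W ≤ finrank (ZMod p) (trU E U) := by
    intro U hU1
    obtain ⟨l1, l2, hl1, hl2, hl⟩ := exists_lam (trU E U) w0 (hna U hU1).1 (hna U hU1).2
    obtain ⟨f1, f2⟩ := forms_zero E h hl
    have e1 := iso_le_rad hrad hl1 hl2 (imU E U) f1 f2
    have e2 := dim_add E hU hU1
    omega
  by_cases hex : ∃ U ∈ 𝒰, ∀ a b : ZMod p, ((a • w0, b • w0) : W × W) ∈ trU E U → a = 0 ∧ b = 0
  · obtain ⟨U, hU1, hUab⟩ := hex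
    have e1 := finrank_imU_lt E h hrad hr hFr hUab
    have e2 := dim_add E hU hU1
    have key : ∀ U' ∈ 𝒰, U = U' := by
      intro U' hU2
      by_contra hne
      have e3 := trU_inf E hU hU1 hU2 hne
      have e4 := hY U' hU2
      have e5 := Submodule.finrank_sup_add_finrank_inf_eq (trU E U) (trU E U')
      rw [e3, finrank_bot] at e5
      have e6 := Submodule.finrank_le (trU E U ⊔ trU E U')
      rw [finrank_prod] at e6
      omega
    have e7 : 𝒰.card ≤ 1 := by
      rw [Finset.card_le_one]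
      intro a ha b hb
      rw [← key a ha, ← key b hb]
    omega
  · push Not at hex
    have hs : ∀ U ∈ 𝒰, ∃ μ : ZMod p, μ ≠ 0 ∧ ((w0, μ • w0) : W × W) ∈ trU E U := by
      intro U hU1
      obtain ⟨a, b, hab, hne⟩ := hex U hU1
      have ha : a ≠ 0 := by
        rintro rfl
        have hb : b ≠ 0 := hne rfl
        apply (hna U hU1).2
        have h3 := (trU E U).smul_mem b⁻¹ hab
        rwa [zero_smul, Prod.smul_mk, smul_zero, smul_smul, inv_mul_cancel₀ hb, one_smul] at h3
      have hb : b ≠ 0 := by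
        rintro rfl
        apply (hna U hU1).1
        have h3 := (trU E U).smul_mem a⁻¹ hab
        rwa [zero_smul, Prod.smul_mk, smul_zero, smul_smul, inv_mul_cancel₀ ha, one_smul] at h3
      refine ⟨a⁻¹ * b, mul_ne_zero (inv_ne_zero ha) hb, ?_⟩
      have h3 := (trU E U).smul_mem a⁻¹ hab
      rwa [Prod.smul_mk, smul_smul, smul_smul, inv_mul_cancel₀ ha, one_smul] at h3
    choose! μ hμ using hs
    have hcard : 𝒰.card ≤ ((Finset.univ : Finset (ZMod p)).erase 0).card := by
      apply Finset.card_le_card_of_injOn μ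
      · intro U hU1
        have h4 := (hμ U hU1).1
        simp [h4]
      · intro U hU1 U' hU2 heq
        refine eq_of_mem_trU E hU hU1 hU2 (y := (w0, μ U • w0))
          (fun h0 => h.w0 (congrArg Prod.fst h0)) (hμ U hU1).2 ?_
        rw [heq]
        exact (hμ U' hU2).2
    rw [Finset.card_erase_of_mem (Finset.mem_univ _), Finset.card_univ, ZMod.card] at hcard
    exact hcard

end mem

end Pool.Agent.XV
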