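import Pool.Agent.XV.L0
import Pool.Agent.XV.L2
import Pool.Agent.XV.U12
import Pool.Agent.XV.U34
import Pool.Agent.XV.N1

set_option autoImplicit false

open Module

namespace Pool.Agent.XV

open Pool.Agent.APG Pool.Agent.Helper19.PCP

lemma T_congr_le {P P' : Type} [Group P] [Group P'] [Finite P] [Finite P'] (f : P ≃* P') :
    T (P × P) ≤ T (P' × P') := by
  classical
  refine T_prod_le ?_
  intro 𝒰 hU
  have g : (P × P) ≃* (P' × P') := MulEquiv.prodCongr f f
  have hinj : Function.Injective (fun U : Subgroup (P × P) => U.map g.toMonoidHom) := by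
    intro U U' h
    exact Subgroup.map_injective g.injective h
  rw [← Finset.card_image_of_injective 𝒰 hinj]
  refine le_T_prod _ ⟨?_, ?_⟩
  · intro U hU'
    rw [Finset.mem_image] at hU'
    obtain ⟨U0, h0, rfl⟩ := hU'
    have h1 : Nat.card (U0.map g.toMonoidHom) = Nat.card U0 :=
      Nat.card_congr (U0.equivMapOfInjective g.toMonoidHom g.injective).symm.toEquiv
    rw [h1, hU.1 U0 h0]
    exact Nat.card_congr f.toEquiv
  · intro U hU1 U' hU2 hne
    rw [Finset.mem_image] at hU1 hU2
    obtain ⟨U0, h0, rfl⟩ := hU1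
    obtain ⟨U1, h1, rfl⟩ := hU2
    have hne' : U0 ≠ U1 := by
      rintro rfl
      exact hne rfl
    rw [← Subgroup.map_inf _ _ _ g.injective, hU.2 U0 h0 U1 h1 hne', Subgroup.map_bot]

section

variable {p : ℕ} [Fact p.Prime] {V W : Type} [AddCommGroup V] [AddCommGroup W]
  [Module (ZMod p) V] [Module (ZMod p) W] {q : Dat p V W} {P : Type} [Group P]

/-- a lift of `v` is central if and only if `v` is in the radical -/
lemma center_iff (E : Ext q P) {om : V →ₗ[ZMod p] V →ₗ[ZMod p] ZMod p}
    {F : V →ₗ[ZMod p] ZMod p} {w0 : W} (h : One q om F w0) (x : P) :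
    x ∈ Subgroup.center P ↔ ∀ v', om (E.pr x).toAdd v' = 0 := by
  have key : ∀ y : P, (y * x = x * y ↔ om (E.pr x).toAdd (E.pr y).toAdd = 0) := by
    intro y
    have h1 := E.comm x y
    rw [h.be] at h1
    constructor
    · intro hc
      have h2 : x * y * x⁻¹ * y⁻¹ = 1 := by rw [← hc]; group
      rw [h2] at h1
      have h3 : Multiplicative.ofAdd (om (E.pr x).toAdd (E.pr y).toAdd • w0) = 1 :=
        E.inj (by rw [← h1, map_one])
      have h4 : om (E.pr x).toAdd (E.pr y).toAdd • w0 = 0 := h3
      rcases smul_eq_zero.1 h4 with h5 | h5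
      · exact h5
      · exact absurd h5 h.w0
    · intro h0
      rw [h0, zero_smul, ofAdd_zero, map_one, mul_inv_eq_one, mul_inv_eq_iff_eq_mul] at h1
      exact h1.symm
  rw [Subgroup.mem_center_iff]
  constructor
  · intro hx v'
    obtain ⟨y, hy⟩ := E.surj (Multiplicative.ofAdd v')
    have := (key y).1 (hx y)
    rw [hy] at this
    exact this
  · intro hx y
    exact (key y).2 (hx _)

lemma pow_iff (E : Ext q P) {om : V →ₗ[ZMod p] V →ₗ[ZMod p] ZMod p}
    {F : V →ₗ[ZMod p] ZMod p} {w0 : W} (h : One q om F w0) (x : P) :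
    x ^ p = 1 ↔ F (E.pr x).toAdd = 0 := by
  have h1 := E.pow x
  rw [h.pw] at h1
  constructor
  · intro h2
    rw [h2] at h1
    have h3 : Multiplicative.ofAdd (F (E.pr x).toAdd • w0) = 1 :=
      E.inj (by rw [← h1, map_one])
    have h4 : F (E.pr x).toAdd • w0 = 0 := h3
    rcases smul_eq_zero.1 h4 with h5 | h5
    · exact h5
    · exact absurd h5 h.w0
  · intro h0
    rw [h0, zero_smul, ofAdd_zero, map_one] at h1
    exact h1

lemma card_center (E : Ext q P) [Finite V] [Finite W]
    {om : V →ₗ[ZMod p] V →ₗ[ZMod p] ZMod p}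
    {F : V →ₗ[ZMod p] ZMod p} {w0 : W} (h : One q om F w0) (hnd : Nd om) :
    Nat.card (Subgroup.center P) = p ^ finrank (ZMod p) W := by
  have h1 : Subgroup.center P = E.inc.range := by
    rw [← E.exact]
    ext x
    rw [center_iff E h, MonoidHom.mem_ker]
    constructor
    · intro hx
      have := hnd _ hx
      exact this
    · intro hx v'
      rw [hx]
      show om (0 : V) v' = 0
      rw [map_zero, LinearMap.zero_apply]
  rw [h1]
  have h3 : Nat.card E.inc.range = Nat.card W :=
    Nat.card_congr ((MonoidHom.ofInjective E.inj).symm.toEquiv.trans Multiplicative.toAdd)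
  rw [h3, Module.natCard_eq_pow_finrank (K := ZMod p) (V := W), Nat.card_zmod]

end

/-- ROW Z1 -/
theorem frattini_exact {p : ℕ} [Fact p.Prime] (hp2 : p ≠ 2) (P : Type) [Group P] [Finite P]
    (hP : IsPGroup p P)
    (hna : ∃ a b : P, a * b ≠ b * a) (hF : Nat.card (frattini P) = p) :
    ((∃ z ∈ Subgroup.center P, z ^ p ≠ 1) → T (P × P) = p + 1) ∧
    ((∀ z ∈ Subgroup.center P, z ^ p = 1) → (∃ x : P, x ^ p ≠ 1) → T (P × P) = 3) ∧
    ((∀ x : P, x ^ p = 1) → ∀ m c : ℕ, Nat.card (Subgroup.center P) = p ^ c →
      Nat.card P = p ^ (2 * m + c) → T (P × P) = if c = 1 then p + 1 else if c ≤ m then p ^ c + 2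
        else p ^ m + p + 1) := by
  have hp : p.Prime := Fact.out
  obtain ⟨d, c0, q, om, F, w0, h, hrad, ⟨E⟩⟩ := exists_one hp2 P hP hna hF
  have hnt : Nontrivial P := by
    obtain ⟨a, b, hab⟩ := hna
    exact ⟨⟨a * b, b * a, hab⟩⟩
  have hnd : (∀ z ∈ Subgroup.center P, z ^ p = 1) → Nd om := by
    intro hz v hv
    obtain ⟨z, hz1⟩ := E.surj (Multiplicative.ofAdd v)
    have h1 : z ∈ Subgroup.center P := by
      rw [center_iff E h]
      intro v'
      rw [hz1]
      exact hv v'
    have h2 := (pow_iff E h z).1 (hz z h1)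
    rw [hz1] at h2
    exact hrad v hv h2
  refine ⟨?_, ?_, ?_⟩
  · rintro ⟨z, hz, hzp⟩
    have h1 := (center_iff E h z).1 hz
    have h2 : F (E.pr z).toAdd ≠ 0 := fun h3 => hzp ((pow_iff E h z).2 h3)
    exact le_antisymm (upper_U4 hp2 E h hrad h1 h2)
      (lower_L0 hp2 E h (Or.inr ⟨⟨_, h1, h2⟩, hrad⟩))
  · intro hz hx
    obtain ⟨x, hx⟩ := hx
    have h2 : F ≠ 0 := by
      rintro rfl
      exact hx ((pow_iff E h x).2 rfl)
    exact le_antisymm (upper_U3 E h (hnd hz) h2) three_le_T
  · intro hx m c hc hcard
    have hnd' := hnd (fun z _ => hx z)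
    have hF0 : F = 0 := by
      apply LinearMap.ext
      intro v
      obtain ⟨z, hz1⟩ := E.surj (Multiplicative.ofAdd v)
      have h2 := (pow_iff E h z).1 (hx z)
      rw [hz1] at h2
      exact h2
    subst hF0
    have h1 : c = c0 := by
      rw [card_center E h hnd', Module.finrank_fin_fun] at hc
      exact (Nat.pow_right_injective hp.two_le hc).symm
    have h2 : d = 2 * m := by
      rw [E.card, Module.finrank_fin_fun, Module.finrank_fin_fun] at hcard
      have := Nat.pow_right_injective hp.two_le hcard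
      omega
    have hc1 : 1 ≤ c0 := by
      rcases Nat.eq_zero_or_pos c0 with h3 | h3
      · exfalso
        subst h3
        exact h.w0 (Subsingleton.elim _ _)
      · exact h3
    have hm1 : 1 ≤ m := by
      rcases Nat.eq_zero_or_pos m with h3 | h3
      · exfalso
        obtain ⟨a, b, hab⟩ := hna
        apply hab
        have h4 : b ∈ Subgroup.center P := by
          rw [center_iff E h]
          intro v'
          have h5 : v' = 0 := by
            have : d = 0 := by omega
            subst this
            exact Subsingleton.elim _ _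
          rw [h5, map_zero]
        exact (Subgroup.mem_center_iff.1 h4 a)
      · exact h3
    have hV : finrank (ZMod p) (Fin d → ZMod p) = 2 * m := by rw [Module.finrank_fin_fun, h2]
    have hW : finrank (ZMod p) (Fin c0 → ZMod p) = c := by rw [Module.finrank_fin_fun, h1]
    have hcp : 1 ≤ c := by omega
    have hfm : finrank (ZMod p) (GaloisField p m) = m := GaloisField.finrank p (by omega)
    have hfc : finrank (ZMod p) (GaloisField p c) = c := GaloisField.finrank p (by omega)
    obtain ⟨g⟩ := iso_model (F := GaloisField p m) (K := GaloisField p c) hp2 E h hnd'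
      (by rw [hV, hfm]) (by rw [hW, hfc])
    have hT := T_congr_le g.symm
    split_ifs with h3 h4
    · refine le_antisymm ((upper_U1 E h hnd').2 (by rw [hW, h3])) ?_
      exact lower_L0 hp2 E h (Or.inl ⟨rfl, hnd'⟩)
    · refine le_antisymm ?_ ?_
      · have := (upper_U1 E h hnd').1
        rw [hW] at this
        exact this
      · refine le_trans ?_ hT
        have := lower_L2 (p := p) (F := GaloisField p m) (K := GaloisField p c) hp2
          (by rw [hfc]; omega) (by rw [hfc, hfm]; exact h4)
        rw [GaloisField.card p c (by omega)] at this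
        exact this
    · refine le_antisymm (upper_U2 hp2 E h hnd' hV hm1) ?_
      refine le_trans ?_ hT
      have := lower_L1 (p := p) (F := GaloisField p m) (K := GaloisField p c) hp2
        (by rw [hfc, hfm]; omega)
      rw [GaloisField.card p m (by omega)] at this
      exact this

end Pool.Agent.XV
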