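import Pool.Agent.XV.M1

/-!
# Exact values of `T (P × P)` (MP_47f3f4_co): families of members, shared tools of rows L1 and L2
-/

set_option autoImplicit false

open Module

namespace Pool.Agent.XV

open Pool.Agent.APG Pool.Agent.Helper19.PCP

section gen

variable (p : ℕ) (V W : Type) [AddCommGroup V] [AddCommGroup W]
  [Module (ZMod p) V] [Module (ZMod p) W]

/-- the data of a member -/
structure Mb where
  /-- the image -/
  X : Submodule (ZMod p) (V × V)
  /-- the trace -/
  Y : Submodule (ZMod p) (W × W)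
  /-- the section -/
  s : (V × V) →ₗ[ZMod p] (W × W)

end gen

section gen2

variable {p : ℕ} {V W : Type} [AddCommGroup V] [AddCommGroup W]
  [Module (ZMod p) V] [Module (ZMod p) W]

/-- the two members meet trivially -/
def GP (A B : Mb p V W) : Prop :=
  (∀ y ∈ A.Y, y ∈ B.Y → y = 0) ∧
    ∀ x ∈ A.X, x ∈ B.X → ∀ y ∈ A.Y, ∀ z ∈ B.Y, A.s x - B.s x = y + z → x = 0

lemma GP.symm {A B : Mb p V W} (h : GP A B) : GP B A := by
  refine ⟨fun y h1 h2 => h.1 y h2 h1, fun x h1 h2 y hy z hz he => ?_⟩
  refine h.2 x h2 h1 (-z) (A.Y.neg_mem hz) (-y) (B.Y.neg_mem hy) ?_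
  rw [← neg_sub, he]
  abel

variable [Fact p.Prime]

/-- row M1 for members -/
theorem le_T_of_mb [Finite V] [Finite W] [Nontrivial W] (q : Dat p V W)
    (Th : (W × W) ≃ₗ[ZMod p] (W × W)) {ι : Type} [Fintype ι] (m : ι → Mb p V W)
    (hbe : ∀ i, ∀ x ∈ (m i).X, ∀ x' ∈ (m i).X, Th (q.be x.1 x'.1, q.be x.2 x'.2) ∈ (m i).Y)
    (hdim : ∀ i, finrank (ZMod p) (m i).X + finrank (ZMod p) (m i).Y =
      finrank (ZMod p) V + finrank (ZMod p) W)
    (hGP : ∀ i j, i ≠ j → GP (m i) (m j)) : Fintype.card ι ≤ T (BGrp q × BGrp q) := by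
  refine le_T_of_family q (fun i => (m i).X) (fun i => (m i).Y.comap Th.toLinearMap)
    (fun i => Th.symm.toLinearMap.comp (m i).s) hbe ?_ ?_ ?_
  · intro i
    have h : (m i).Y.comap Th.toLinearMap = (m i).Y.map Th.symm.toLinearMap := by
      ext y
      rw [Submodule.mem_comap, Submodule.mem_map]
      constructor
      · intro hy
        exact ⟨Th y, hy, Th.symm_apply_apply y⟩
      · rintro ⟨z, hz, rfl⟩
        show Th (Th.symm z) ∈ _
        rwa [Th.apply_symm_apply]
    rw [h, LinearEquiv.finrank_map_eq]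
    exact hdim i
  · intro i j hij x hx hx' hs
    rw [Submodule.mem_sup] at hs
    obtain ⟨y, hy, z, hz, hyz⟩ := hs
    refine (hGP i j hij).2 x hx hx' (Th y) hy (Th z) hz ?_
    have h1 := congrArg Th hyz
    rw [map_add, map_sub] at h1
    change Th y + Th z = Th (Th.symm ((m i).s x)) - Th (Th.symm ((m j).s x)) at h1
    rw [Th.apply_symm_apply, Th.apply_symm_apply] at h1
    exact h1.symm
  · intro i j hij
    rw [eq_bot_iff]
    rintro y ⟨h1, h2⟩
    have h3 : Th y = 0 := (hGP i j hij).1 _ h1 h2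
    rw [Submodule.mem_bot]
    exact (LinearEquiv.map_eq_zero_iff Th).1 h3

/-- injective linear maps into larger spaces -/
lemma exists_inj [Finite V] [Finite W] (h : finrank (ZMod p) V ≤ finrank (ZMod p) W) :
    ∃ f : V →ₗ[ZMod p] W, Function.Injective f := by
  have hVf : FiniteDimensional (ZMod p) V := Module.Finite.of_finite
  have hWf : FiniteDimensional (ZMod p) W := Module.Finite.of_finite
  have h1 : ((finrank (ZMod p) V : ℕ) : Cardinal) ≤ Module.rank (ZMod p) W := by
    rw [← finrank_eq_rank]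
    exact_mod_cast h
  rw [le_rank_iff_exists_linearMap] at h1
  obtain ⟨f, hf⟩ := h1
  exact ⟨f.comp (finBasis (ZMod p) V).equivFun.toLinearMap,
    hf.comp (finBasis (ZMod p) V).equivFun.injective⟩

end gen2

section field

variable {p : ℕ} {F K : Type} [Field F] [Field K] [Algebra (ZMod p) F] [Algebra (ZMod p) K]

/-- the image of a member of the first kind -/
def axL (p : ℕ) [Algebra (ZMod p) F] (lam : F) :
    (F × F) →ₗ[ZMod p] ((F × F) × (F × F)) where
  toFun x := ((x.1, lam * x.1), (x.2, lam * x.2))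
  map_add' x y := by
    ext <;> simp [mul_add]
  map_smul' c x := by
    ext <;> simp

/-- the graph of a multiplication -/
def grL (p : ℕ) [Algebra (ZMod p) K] (kap : K) : K →ₗ[ZMod p] (K × K) where
  toFun x := (x, kap * x)
  map_add' x y := by
    ext <;> simp [mul_add]
  map_smul' c x := by
    ext <;> simp

lemma axL_apply (lam : F) (x : F × F) : axL p lam x = ((x.1, lam * x.1), (x.2, lam * x.2)) := rfl

lemma grL_apply (kap : K) (x : K) : grL p kap x = (x, kap * x) := rfl

lemma axL_inj (lam : F) : Function.Injective (axL p lam) := by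
  intro x y h
  rw [axL_apply, axL_apply, Prod.mk.injEq, Prod.mk.injEq, Prod.mk.injEq] at h
  exact Prod.ext h.1.1 h.2.1

lemma grL_inj (kap : K) : Function.Injective (grL p kap) := by
  intro x y h
  exact congrArg Prod.fst h

/-- a member of the first kind -/
def memA (p : ℕ) [Algebra (ZMod p) F] [Algebra (ZMod p) K] (lam : F) (kap : K) :
    Mb p (F × F) K where
  X := LinearMap.range (axL p lam)
  Y := LinearMap.range (grL p kap)
  s := 0

lemma tf_axL [Finite F] [Fact p.Prime] (lam : F) (x x' : F × F) :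
    tf p F (axL p lam x).1 (axL p lam x').1 = 0 ∧ tf p F (axL p lam x).2 (axL p lam x').2 = 0 := by
  constructor
  · rw [tf_apply, axL_apply, axL_apply]
    have : (x.1 * (lam * x'.1) - lam * x.1 * x'.1) = 0 := by ring
    show Algebra.trace (ZMod p) F (x.1 * (lam * x'.1) - lam * x.1 * x'.1) = 0
    rw [this, map_zero]
  · rw [tf_apply, axL_apply, axL_apply]
    have : (x.2 * (lam * x'.2) - lam * x.2 * x'.2) = 0 := by ring
    show Algebra.trace (ZMod p) F (x.2 * (lam * x'.2) - lam * x.2 * x'.2) = 0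
    rw [this, map_zero]

/-- two different members of the first kind -/
lemma GP_AA {lam lam' : F} {kap kap' : K} (h : lam ≠ lam') (h' : kap ≠ kap') :
    GP (memA p lam kap) (memA p lam' kap') := by
  have h1 : lam - lam' ≠ 0 := sub_ne_zero.2 h
  have h1' : kap - kap' ≠ 0 := sub_ne_zero.2 h'
  constructor
  · rintro _ ⟨x, rfl⟩ ⟨y, hy⟩
    rw [grL_apply, grL_apply, Prod.mk.injEq] at hy
    obtain ⟨rfl, h3⟩ := hy
    have h4 : (kap - kap') * y = 0 := by rw [sub_mul, h3, sub_self]
    have h5 := (mul_eq_zero.1 h4).resolve_left h1'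
    rw [h5, map_zero]
  · rintro _ ⟨x, rfl⟩ ⟨x', hx'⟩ y _ z _ _
    rw [axL_apply, axL_apply, Prod.mk.injEq, Prod.mk.injEq, Prod.mk.injEq] at hx'
    obtain ⟨⟨h2, h3⟩, h4, h5⟩ := hx'
    rw [h2] at h3
    rw [h4] at h5
    have h6 : (lam - lam') * x.1 = 0 := by rw [sub_mul, h3, sub_self]
    have h7 : (lam - lam') * x.2 = 0 := by rw [sub_mul, h5, sub_self]
    have h8 := (mul_eq_zero.1 h6).resolve_left h1
    have h9 := (mul_eq_zero.1 h7).resolve_left h1
    have h10 : x = 0 := Prod.ext h8 h9
    rw [h10, map_zero]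

lemma dim_A [Finite F] [Finite K] [Fact p.Prime] (lam : F) (kap : K) :
    finrank (ZMod p) (memA p lam kap).X + finrank (ZMod p) (memA p lam kap).Y =
      finrank (ZMod p) (F × F) + finrank (ZMod p) K := by
  show finrank (ZMod p) (LinearMap.range (axL p lam)) +
    finrank (ZMod p) (LinearMap.range (grL p kap)) = _
  rw [LinearMap.finrank_range_of_inj (axL_inj lam), LinearMap.finrank_range_of_inj (grL_inj kap)]

end field

end Pool.Agent.XV
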