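import Pool.Agent.XV.Defs

/-!
# XV2, row L5: a family of `2 ^ (m - 1) + 3` members (linear algebra)
-/

set_option autoImplicit false

open Module

namespace Pool.Agent.XV

namespace L5

variable {T K S : Type} [AddCommGroup T] [Module (ZMod 2) T] [Field K] [Algebra (ZMod 2) K]

/-- the elements `((t, M t), (t', M t'))` -/
def fS (M : T →ₗ[ZMod 2] T) : (T × T) →ₗ[ZMod 2] ((T × T) × (T × T)) :=
  ((LinearMap.fst _ _ _).prod (M.comp (LinearMap.fst _ _ _))).prod
    ((LinearMap.snd _ _ _).prod (M.comp (LinearMap.snd _ _ _)))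

lemma fS_apply (M : T →ₗ[ZMod 2] T) (x : T × T) : fS M x = ((x.1, M x.1), (x.2, M x.2)) := rfl

/-- the elements `((t, u), (t, u + N t))` -/
def fD (N : T →ₗ[ZMod 2] T) : (T × T) →ₗ[ZMod 2] ((T × T) × (T × T)) :=
  ((LinearMap.fst _ _ _).prod (LinearMap.snd _ _ _)).prod
    ((LinearMap.fst _ _ _).prod (LinearMap.snd _ _ _ + N.comp (LinearMap.fst _ _ _)))

lemma fD_apply (N : T →ₗ[ZMod 2] T) (x : T × T) :
    fD N x = ((x.1, x.2), (x.1, x.2 + N x.1)) := rfl

variable (T) in
/-- the elements `((t, u), (0, u'))` -/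
def fI : (T × T × T) →ₗ[ZMod 2] ((T × T) × (T × T)) :=
  ((LinearMap.fst _ _ _).prod ((LinearMap.fst _ _ _).comp (LinearMap.snd _ _ _))).prod
    ((0 : (T × T × T) →ₗ[ZMod 2] T).prod ((LinearMap.snd _ _ _).comp (LinearMap.snd _ _ _)))

lemma fI_apply (x : T × T × T) : fI T x = ((x.1, x.2.1), (0, x.2.2)) := rfl

variable (T) in
/-- the elements `((0, u'), (t, u))` -/
def fJ : (T × T × T) →ₗ[ZMod 2] ((T × T) × (T × T)) :=
  ((0 : (T × T × T) →ₗ[ZMod 2] T).prod ((LinearMap.snd _ _ _).comp (LinearMap.snd _ _ _))).prod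
    ((LinearMap.fst _ _ _).prod ((LinearMap.fst _ _ _).comp (LinearMap.snd _ _ _)))

lemma fJ_apply (x : T × T × T) : fJ T x = ((0, x.2.2), (x.1, x.2.1)) := rfl

/-- the condition `lam t = lam u'` -/
def lamD (lam : T →ₗ[ZMod 2] ZMod 2) : (T × T × T) →ₗ[ZMod 2] ZMod 2 :=
  lam.comp (LinearMap.fst _ _ _) - lam.comp ((LinearMap.snd _ _ _).comp (LinearMap.snd _ _ _))

lemma lamD_apply (lam : T →ₗ[ZMod 2] ZMod 2) (x : T × T × T) :
    lamD lam x = lam x.1 - lam x.2.2 := rfl

/-- the line of slope `k` -/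
def fY (k : K) : K →ₗ[ZMod 2] (K × K) :=
  LinearMap.prod LinearMap.id (LinearMap.mulLeft (ZMod 2) k)

lemma fY_apply (k x : K) : fY k x = (x, k * x) := rfl

/-- the subspaces `X` -/
def X (M : S → T →ₗ[ZMod 2] T) (N : T →ₗ[ZMod 2] T) (lam : T →ₗ[ZMod 2] ZMod 2) :
    Option (Option (Option S)) → Submodule (ZMod 2) ((T × T) × (T × T))
  | none => (LinearMap.ker (lamD lam)).map (fI T)
  | some none => (LinearMap.ker (lamD lam)).map (fJ T)
  | some (some none) => LinearMap.range (fD N)
  | some (some (some s)) => LinearMap.range (fS (M s))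

/-- the subspaces `Y` -/
def Y (kap : S → K) (X0 : Submodule (ZMod 2) K) :
    Option (Option (Option S)) → Submodule (ZMod 2) (K × K)
  | none => X0.map (LinearMap.inl (ZMod 2) K K)
  | some none => X0.map (LinearMap.inr (ZMod 2) K K)
  | some (some none) => LinearMap.range (fY (1 : K))
  | some (some (some s)) => LinearMap.range (fY (kap s))

/-- the sections -/
def sec (q : S → T → ZMod 2) (qN : T → ZMod 2) (a : T →ₗ[ZMod 2] K) :
    Option (Option (Option S)) → ((T × T) × (T × T)) → (K × K)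
  | none => fun x => (a x.1.1, a x.2.2)
  | some none => fun x => (a x.1.2, a x.2.1)
  | some (some none) => fun x => (0, qN x.1.1 • (1 : K))
  | some (some (some s)) => fun x => (q s x.1.1 • (1 : K), q s x.2.1 • (1 : K))

end L5

open L5 in
/-- ROW L5, linear algebra -/
theorem family5 {T K S : Type} [AddCommGroup T] [Module (ZMod 2) T] [FiniteDimensional (ZMod 2) T]
    [Field K] [Algebra (ZMod 2) K] [Finite K]
    (d : T →ₗ[ZMod 2] T →ₗ[ZMod 2] ZMod 2) (M : S → T →ₗ[ZMod 2] T) (q : S → T → ZMod 2)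
    (hq : ∀ s t t', q s (t + t') = q s t + q s t' + d t (M s t'))
    (hM : ∀ s s', s ≠ s' → ∀ t, M s t = M s' t → t = 0)
    (N : T →ₗ[ZMod 2] T) (hN : ∀ t, N t = 0 → t = 0) (qN : T → ZMod 2)
    (hqN : ∀ t t', qN (t + t') = qN t + qN t' + d t (N t'))
    (kap : S → K) (hk : Function.Injective kap) (hk0 : ∀ s, kap s ≠ 0) (hk1 : ∀ s, kap s ≠ 1)
    (lam : T →ₗ[ZMod 2] ZMod 2) (hlam : lam ≠ 0) (a : T →ₗ[ZMod 2] K)
    (X0 : Submodule (ZMod 2) K) (h1 : (1 : K) ∈ X0)
    (ha : ∀ t, lam t = 0 → a t ∈ X0 → t = 0)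
    (hdim : finrank (ZMod 2) X0 + finrank (ZMod 2) T = finrank (ZMod 2) K + 1) :
    ∃ (X : Option (Option (Option S)) → Submodule (ZMod 2) ((T × T) × (T × T)))
      (Y : Option (Option (Option S)) → Submodule (ZMod 2) (K × K))
      (s : Option (Option (Option S)) → ((T × T) × (T × T)) → (K × K)),
      (∀ i, ∀ x ∈ X i, ∀ x' ∈ X i, s i (x + x') - s i x - s i x' -
        (d x.1.1 x'.1.2 • (1 : K), d x.2.1 x'.2.2 • (1 : K)) ∈ Y i) ∧
      (∀ i, finrank (ZMod 2) (X i) + finrank (ZMod 2) (Y i) =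
        2 * finrank (ZMod 2) T + finrank (ZMod 2) K) ∧
      (∀ i j, i ≠ j → ∀ x ∈ X i, x ∈ X j → s i x - s j x ∈ Y i ⊔ Y j → x = 0) ∧
      (∀ i j, i ≠ j → Y i ⊓ Y j = ⊥) := by
  classical
  have hKf : FiniteDimensional (ZMod 2) K := Module.Finite.of_finite
  have hq0 : ∀ s, q s 0 = 0 := by
    intro s
    have h := hq s 0 0
    rw [add_zero, map_zero, map_zero, LinearMap.zero_apply, add_zero] at h
    have h2 : q s 0 + q s 0 = q s 0 := h.symm
    simpa using h2
  have hqN0 : qN 0 = 0 := by
    have h := hqN 0 0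
    rw [add_zero, map_zero, map_zero, LinearMap.zero_apply, add_zero] at h
    have h2 : qN 0 + qN 0 = qN 0 := h.symm
    simpa using h2
  refine ⟨X M N lam, Y kap X0, sec q qN a, ?_, ?_, ?_, ?_⟩
  · -- closure
    rintro (_ | _ | _ | s) x hx x' hx'
    · obtain ⟨y, hy, rfl⟩ := hx
      obtain ⟨y', hy', rfl⟩ := hx'
      refine ⟨-(d y.1 y'.2.1 • (1 : K)), X0.neg_mem (X0.smul_mem _ h1), ?_⟩
      simp only [sec, fI_apply, LinearMap.inl_apply, Prod.mk_add_mk, Prod.mk_sub_mk, map_add,
        add_zero, map_zero, LinearMap.zero_apply, zero_smul, sub_zero]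
      ext <;> simp
    · obtain ⟨y, hy, rfl⟩ := hx
      obtain ⟨y', hy', rfl⟩ := hx'
      refine ⟨-(d y.1 y'.2.1 • (1 : K)), X0.neg_mem (X0.smul_mem _ h1), ?_⟩
      simp only [sec, fJ_apply, LinearMap.inr_apply, Prod.mk_add_mk, Prod.mk_sub_mk, map_add,
        add_zero, map_zero, LinearMap.zero_apply, zero_smul, sub_zero]
      ext <;> simp
    · obtain ⟨y, rfl⟩ := hx
      obtain ⟨y', rfl⟩ := hx'
      refine ⟨-(d y.1 y'.2 • (1 : K)), ?_⟩
      simp only [sec, fD_apply, fY_apply, Prod.mk_add_mk, Prod.mk_sub_mk, hqN, map_add, add_smul,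
        one_mul]
      ext
      · simp
      · show -(d y.1 y'.2 • (1 : K)) = _
        abel_nf
    · obtain ⟨y, rfl⟩ := hx
      obtain ⟨y', rfl⟩ := hx'
      refine ⟨0, ?_⟩
      simp only [sec, fS_apply, fY_apply, Prod.mk_add_mk, Prod.mk_sub_mk, hq, add_smul, mul_zero]
      ext
      · show (0 : K) = _
        abel_nf
      · show (0 : K) = _
        abel_nf
  · -- dimensions
    have hTT : finrank (ZMod 2) (T × T) = 2 * finrank (ZMod 2) T := by
      rw [finrank_prod, two_mul]
    have hker : finrank (ZMod 2) (LinearMap.ker (lamD lam)) + 1 = 3 * finrank (ZMod 2) T := by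
      have h := (lamD lam).finrank_range_add_finrank_ker
      have h2 : LinearMap.range (lamD lam) = ⊤ := by
        apply LinearMap.range_eq_top.2
        obtain ⟨t, ht⟩ : ∃ t, lam t ≠ 0 := by
          by_contra hcon
          push Not at hcon
          exact hlam (LinearMap.ext hcon)
        have ht1 : lam t = 1 := by
          have h3 : ∀ r : ZMod 2, r ≠ 0 → r = 1 := by decide
          exact h3 _ ht
        intro r
        refine ⟨(r • t, 0, 0), ?_⟩
        rw [lamD_apply]
        simp [ht1]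
      rw [h2, finrank_top, finrank_self, finrank_prod, finrank_prod] at h
      omega
    rintro (_ | _ | _ | s)
    · have e1 : finrank (ZMod 2) ((LinearMap.ker (lamD lam)).map (fI T)) =
          finrank (ZMod 2) (LinearMap.ker (lamD lam)) := by
        refine (Submodule.equivMapOfInjective (fI T) ?_ _).symm.finrank_eq
        rintro ⟨t, u, u'⟩ ⟨t1, u1, u1'⟩ h
        simp only [fI_apply, Prod.mk.injEq] at h
        obtain ⟨⟨rfl, rfl⟩, -, rfl⟩ := h
        rfl
      have e2 : finrank (ZMod 2) (X0.map (LinearMap.inl (ZMod 2) K K)) = finrank (ZMod 2) X0 :=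
        (Submodule.equivMapOfInjective _ LinearMap.inl_injective _).symm.finrank_eq
      show finrank (ZMod 2) ((LinearMap.ker (lamD lam)).map (fI T)) +
        finrank (ZMod 2) (X0.map (LinearMap.inl (ZMod 2) K K)) = _
      rw [e1, e2]
      omega
    · have e1 : finrank (ZMod 2) ((LinearMap.ker (lamD lam)).map (fJ T)) =
          finrank (ZMod 2) (LinearMap.ker (lamD lam)) := by
        refine (Submodule.equivMapOfInjective (fJ T) ?_ _).symm.finrank_eq
        rintro ⟨t, u, u'⟩ ⟨t1, u1, u1'⟩ h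
        simp only [fJ_apply, Prod.mk.injEq] at h
        obtain ⟨⟨-, rfl⟩, rfl, rfl⟩ := h
        rfl
      have e2 : finrank (ZMod 2) (X0.map (LinearMap.inr (ZMod 2) K K)) = finrank (ZMod 2) X0 :=
        (Submodule.equivMapOfInjective _ LinearMap.inr_injective _).symm.finrank_eq
      show finrank (ZMod 2) ((LinearMap.ker (lamD lam)).map (fJ T)) +
        finrank (ZMod 2) (X0.map (LinearMap.inr (ZMod 2) K K)) = _
      rw [e1, e2]
      omega
    · have e1 : finrank (ZMod 2) (LinearMap.range (fD N)) = finrank (ZMod 2) (T × T) := by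
        apply LinearMap.finrank_range_of_inj
        rintro ⟨t, u⟩ ⟨t1, u1⟩ h
        simp only [fD_apply, Prod.mk.injEq] at h
        obtain ⟨⟨rfl, rfl⟩, -⟩ := h
        rfl
      have e2 : finrank (ZMod 2) (LinearMap.range (fY (1 : K))) = finrank (ZMod 2) K := by
        apply LinearMap.finrank_range_of_inj
        intro x y h
        exact congrArg Prod.fst h
      show finrank (ZMod 2) (LinearMap.range (fD N)) +
        finrank (ZMod 2) (LinearMap.range (fY (1 : K))) = _
      rw [e1, e2, hTT]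
    · have e1 : finrank (ZMod 2) (LinearMap.range (fS (M s))) = finrank (ZMod 2) (T × T) := by
        apply LinearMap.finrank_range_of_inj
        rintro ⟨t, u⟩ ⟨t1, u1⟩ h
        simp only [fS_apply, Prod.mk.injEq] at h
        obtain ⟨⟨rfl, -⟩, rfl, -⟩ := h
        rfl
      have e2 : finrank (ZMod 2) (LinearMap.range (fY (kap s))) = finrank (ZMod 2) K := by
        apply LinearMap.finrank_range_of_inj
        intro x y h
        exact congrArg Prod.fst h
      show finrank (ZMod 2) (LinearMap.range (fS (M s))) +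
        finrank (ZMod 2) (LinearMap.range (fY (kap s))) = _
      rw [e1, e2, hTT]
  · -- the intersections in `X`
    have hsymm : ∀ i j : Option (Option (Option S)),
        (∀ x ∈ X M N lam i, x ∈ X M N lam j → sec q qN a i x - sec q qN a j x ∈
          Y kap X0 i ⊔ Y kap X0 j → x = 0) →
        (∀ x ∈ X M N lam j, x ∈ X M N lam i → sec q qN a j x - sec q qN a i x ∈
          Y kap X0 j ⊔ Y kap X0 i → x = 0) := by
      intro i j h x hx hx' hs
      apply h x hx' hx
      rw [sup_comm, ← neg_sub]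
      exact Submodule.neg_mem _ hs
    -- the eight pairs
    have hII : ∀ x ∈ X M N lam (none : Option (Option (Option S))),
        x ∈ X M N lam (some none) → sec q qN a none x - sec q qN a (some none) x ∈
          Y kap X0 none ⊔ Y kap X0 (some none) → x = 0 := by
      rintro x ⟨y, hy, rfl⟩ ⟨z, hz, hyz⟩ hs
      obtain ⟨t, u, u'⟩ := y
      obtain ⟨t1, u1, u1'⟩ := z
      simp only [fI_apply, fJ_apply, Prod.mk.injEq] at hyz
      obtain ⟨⟨rfl, rfl⟩, rfl, rfl⟩ := hyz
      have h3 : lam u1 = 0 := by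
        have h4 : lam (0 : T) - lam u1 = 0 := hy
        rw [map_zero, zero_sub, neg_eq_zero] at h4
        exact h4
      have h4 : lam u1' = 0 := by
        have h5 : lam (0 : T) - lam u1' = 0 := hz
        rw [map_zero, zero_sub, neg_eq_zero] at h5
        exact h5
      obtain ⟨y1, ⟨b, hb, rfl⟩, y2, ⟨b', hb', rfl⟩, h5⟩ := Submodule.mem_sup.1 hs
      simp only [sec, fI_apply, LinearMap.inl_apply, LinearMap.inr_apply, map_zero,
        Prod.mk_add_mk, Prod.mk_sub_mk, Prod.mk.injEq, add_zero, zero_add, zero_sub,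
        sub_zero] at h5
      have h6 : u1 = 0 := ha _ h3 (by rw [← h5.2]; exact hb')
      have h7 : u1' = 0 := ha _ h4 (by
        have h8 : a u1' = -b := by rw [h5.1, neg_neg]
        rw [h8]
        exact X0.neg_mem hb)
      subst h6 h7
      rfl
    have hID : ∀ x ∈ X M N lam (none : Option (Option (Option S))),
        x ∈ X M N lam (some (some none)) →
          sec q qN a none x - sec q qN a (some (some none)) x ∈
          Y kap X0 none ⊔ Y kap X0 (some (some none)) → x = 0 := by
      rintro x ⟨y, hy, rfl⟩ ⟨z, hyz⟩ hs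
      obtain ⟨t, u, u'⟩ := y
      obtain ⟨t1, u1⟩ := z
      simp only [fI_apply, fD_apply, Prod.mk.injEq] at hyz
      obtain ⟨⟨rfl, rfl⟩, rfl, h2⟩ := hyz
      rw [map_zero, add_zero] at h2
      subst h2
      have h3 : lam u1 = 0 := by
        have h4 : lam (0 : T) - lam u1 = 0 := hy
        rw [map_zero, zero_sub, neg_eq_zero] at h4
        exact h4
      obtain ⟨y1, ⟨b, hb, rfl⟩, y2, ⟨b', rfl⟩, h5⟩ := Submodule.mem_sup.1 hs
      simp only [sec, fI_apply, fY_apply, LinearMap.inl_apply, map_zero, hqN0, zero_smul,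
        Prod.mk_add_mk, Prod.mk_sub_mk, Prod.mk.injEq, zero_add, sub_zero,
        one_mul] at h5
      have h6 : u1 = 0 := ha _ h3 (by
        rw [← h5.2]
        have h7 : b' = -b := by
          rw [eq_neg_iff_add_eq_zero, add_comm]
          exact h5.1
        rw [h7]
        exact X0.neg_mem hb)
      subst h6
      rfl
    have hJD : ∀ x ∈ X M N lam (some none : Option (Option (Option S))),
        x ∈ X M N lam (some (some none)) →
          sec q qN a (some none) x - sec q qN a (some (some none)) x ∈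
          Y kap X0 (some none) ⊔ Y kap X0 (some (some none)) → x = 0 := by
      rintro x ⟨y, hy, rfl⟩ ⟨z, hyz⟩ hs
      obtain ⟨t, u, u'⟩ := y
      obtain ⟨t1, u1⟩ := z
      simp only [fJ_apply, fD_apply, Prod.mk.injEq] at hyz
      obtain ⟨⟨rfl, rfl⟩, rfl, h2⟩ := hyz
      rw [map_zero, add_zero] at h2
      subst h2
      have h3 : lam u1 = 0 := by
        have h4 : lam (0 : T) - lam u1 = 0 := hy
        rw [map_zero, zero_sub, neg_eq_zero] at h4
        exact h4
      obtain ⟨y1, ⟨b, hb, rfl⟩, y2, ⟨b', rfl⟩, h5⟩ := Submodule.mem_sup.1 hs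
      simp only [sec, fJ_apply, fY_apply, LinearMap.inr_apply, map_zero, hqN0, zero_smul,
        Prod.mk_add_mk, Prod.mk_sub_mk, Prod.mk.injEq, zero_add, sub_zero,
        one_mul] at h5
      have h6 : u1 = 0 := ha _ h3 (by
        rw [← h5.1]
        have h7 : b' = -b := by
          rw [eq_neg_iff_add_eq_zero, add_comm]
          exact h5.2
        rw [h7]
        exact X0.neg_mem hb)
      subst h6
      rfl
    have hIS : ∀ s : S, ∀ x ∈ X M N lam (none : Option (Option (Option S))),
        x ∈ X M N lam (some (some (some s))) →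
          sec q qN a none x - sec q qN a (some (some (some s))) x ∈
          Y kap X0 none ⊔ Y kap X0 (some (some (some s))) → x = 0 := by
      rintro s x ⟨y, hy, rfl⟩ ⟨z, hyz⟩ hs
      obtain ⟨t, u, u'⟩ := y
      obtain ⟨t1, t2⟩ := z
      simp only [fI_apply, fS_apply, Prod.mk.injEq] at hyz
      obtain ⟨⟨rfl, rfl⟩, rfl, h2⟩ := hyz
      rw [map_zero] at h2
      subst h2
      have h3 : lam t1 = 0 := by
        have h4 : lam t1 - lam (0 : T) = 0 := hy
        rw [map_zero, sub_zero] at h4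
        exact h4
      obtain ⟨y1, ⟨b, hb, rfl⟩, y2, ⟨b', rfl⟩, h5⟩ := Submodule.mem_sup.1 hs
      simp only [sec, fI_apply, fY_apply, LinearMap.inl_apply, map_zero, hq0, zero_smul,
        Prod.mk_add_mk, Prod.mk_sub_mk, Prod.mk.injEq, zero_add, sub_zero,
        mul_eq_zero] at h5
      have h6 : b' = 0 := h5.2.resolve_left (hk0 s)
      subst h6
      have h7 : t1 = 0 := ha _ h3 (by
        have h8 : a t1 = b + q s t1 • (1 : K) := by
          rw [← sub_eq_iff_eq_add, ← h5.1, add_zero]
        rw [h8]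
        exact X0.add_mem hb (X0.smul_mem _ h1))
      subst h7
      rw [map_zero]
      rfl
    have hJS : ∀ s : S, ∀ x ∈ X M N lam (some none : Option (Option (Option S))),
        x ∈ X M N lam (some (some (some s))) →
          sec q qN a (some none) x - sec q qN a (some (some (some s))) x ∈
          Y kap X0 (some none) ⊔ Y kap X0 (some (some (some s))) → x = 0 := by
      rintro s x ⟨y, hy, rfl⟩ ⟨z, hyz⟩ hs
      obtain ⟨t, u, u'⟩ := y
      obtain ⟨t1, t2⟩ := z
      simp only [fJ_apply, fS_apply, Prod.mk.injEq] at hyz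
      obtain ⟨⟨rfl, h2⟩, rfl, rfl⟩ := hyz
      rw [map_zero] at h2
      subst h2
      have h3 : lam t2 = 0 := by
        have h4 : lam t2 - lam (0 : T) = 0 := hy
        rw [map_zero, sub_zero] at h4
        exact h4
      obtain ⟨y1, ⟨b, hb, rfl⟩, y2, ⟨b', rfl⟩, h5⟩ := Submodule.mem_sup.1 hs
      simp only [sec, fJ_apply, fY_apply, LinearMap.inr_apply, map_zero, hq0, zero_smul,
        Prod.mk_add_mk, Prod.mk_sub_mk, Prod.mk.injEq, zero_add, sub_zero] at h5
      obtain ⟨h6, h5⟩ := h5
      subst h6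
      have h7 : t2 = 0 := ha _ h3 (by
        have h8 : a t2 = b + q s t2 • (1 : K) := by
          rw [← sub_eq_iff_eq_add, ← h5, mul_zero, add_zero]
        rw [h8]
        exact X0.add_mem hb (X0.smul_mem _ h1))
      subst h7
      rw [map_zero]
      rfl
    have hDS : ∀ s : S, ∀ x ∈ X M N lam (some (some none) : Option (Option (Option S))),
        x ∈ X M N lam (some (some (some s))) →
          sec q qN a (some (some none)) x - sec q qN a (some (some (some s))) x ∈
          Y kap X0 (some (some none)) ⊔ Y kap X0 (some (some (some s))) → x = 0 := by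
      rintro s x ⟨y, rfl⟩ ⟨z, hyz⟩ -
      obtain ⟨t, u⟩ := y
      obtain ⟨t1, t2⟩ := z
      simp only [fD_apply, fS_apply, Prod.mk.injEq] at hyz
      obtain ⟨⟨rfl, rfl⟩, rfl, h2⟩ := hyz
      have h3 : N t2 = 0 := by
        have h4 := h2.symm
        rwa [add_eq_left] at h4
      have h4 := hN _ h3
      subst h4
      rw [fD_apply]
      simp
    have hSS : ∀ s s' : S, s ≠ s' →
        ∀ x ∈ X M N lam (some (some (some s)) : Option (Option (Option S))),
        x ∈ X M N lam (some (some (some s'))) →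
          sec q qN a (some (some (some s))) x - sec q qN a (some (some (some s'))) x ∈
          Y kap X0 (some (some (some s))) ⊔ Y kap X0 (some (some (some s'))) → x = 0 := by
      rintro s s' hss x ⟨y, rfl⟩ ⟨z, hyz⟩ -
      obtain ⟨t, u⟩ := y
      obtain ⟨t1, t2⟩ := z
      simp only [fS_apply, Prod.mk.injEq] at hyz
      obtain ⟨⟨rfl, h1⟩, rfl, h2⟩ := hyz
      have h3 := hM _ _ hss _ h1.symm
      have h4 := hM _ _ hss _ h2.symm
      subst h3 h4
      rw [fS_apply]
      simp
    rintro (_ | _ | _ | s) (_ | _ | _ | s') hij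
    · exact absurd rfl hij
    · exact hII
    · exact hID
    · exact hIS s'
    · exact hsymm _ _ hII
    · exact absurd rfl hij
    · exact hJD
    · exact hJS s'
    · exact hsymm _ _ hID
    · exact hsymm _ _ hJD
    · exact absurd rfl hij
    · exact hDS s'
    · exact hsymm _ _ (hIS s)
    · exact hsymm _ _ (hJS s)
    · exact hsymm _ _ (hDS s)
    · exact hSS s s' (fun h => hij (by rw [h]))
  · -- the intersections in `Y`
    have hI : ∀ k : K, k ≠ 0 → X0.map (LinearMap.inl (ZMod 2) K K) ⊓ LinearMap.range (fY k) = ⊥ := by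
      intro k hk
      rw [eq_bot_iff]
      rintro _ ⟨⟨b, hb, rfl⟩, ⟨x, hx⟩⟩
      rw [fY_apply, LinearMap.inl_apply, Prod.mk.injEq] at hx
      have h3 : x = 0 := (mul_eq_zero.1 hx.2).resolve_left hk
      rw [LinearMap.inl_apply, ← hx.1, h3]
      exact Submodule.zero_mem _
    have hJ : ∀ k : K, X0.map (LinearMap.inr (ZMod 2) K K) ⊓ LinearMap.range (fY k) = ⊥ := by
      intro k
      rw [eq_bot_iff]
      rintro _ ⟨⟨b, hb, rfl⟩, ⟨x, hx⟩⟩
      rw [fY_apply, LinearMap.inr_apply, Prod.mk.injEq] at hx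
      have h3 : b = 0 := by rw [← hx.2, hx.1, mul_zero]
      rw [h3, map_zero]
      exact Submodule.zero_mem _
    have hIJ : X0.map (LinearMap.inl (ZMod 2) K K) ⊓ X0.map (LinearMap.inr (ZMod 2) K K) = ⊥ := by
      rw [eq_bot_iff]
      rintro _ ⟨⟨b, hb, rfl⟩, ⟨x, hx, hx'⟩⟩
      rw [LinearMap.inl_apply, LinearMap.inr_apply, Prod.mk.injEq] at hx'
      rw [LinearMap.inl_apply, ← hx'.1]
      exact Submodule.zero_mem _
    have hkk : ∀ k k' : K, k ≠ k' → LinearMap.range (fY k) ⊓ LinearMap.range (fY k') = ⊥ := by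
      intro k k' hkk'
      rw [eq_bot_iff]
      rintro _ ⟨⟨x, rfl⟩, ⟨y, hy⟩⟩
      rw [fY_apply, fY_apply, Prod.mk.injEq] at hy
      obtain ⟨rfl, h2⟩ := hy
      have h3 : (k' - k) * y = 0 := by rw [sub_mul, h2, sub_self]
      have h4 : y = 0 := (mul_eq_zero.1 h3).resolve_left (sub_ne_zero.2 (Ne.symm hkk'))
      rw [h4, map_zero]
      exact Submodule.zero_mem _
    rintro (_ | _ | _ | s) (_ | _ | _ | s') hij
    · exact absurd rfl hij
    · exact hIJ
    · exact hI 1 one_ne_zero
    · exact hI _ (hk0 s')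
    · rw [inf_comm]; exact hIJ
    · exact absurd rfl hij
    · exact hJ 1
    · exact hJ _
    · rw [inf_comm]; exact hI 1 one_ne_zero
    · rw [inf_comm]; exact hJ 1
    · exact absurd rfl hij
    · exact hkk _ _ (Ne.symm (hk1 s'))
    · rw [inf_comm]; exact hI _ (hk0 s)
    · rw [inf_comm]; exact hJ _
    · exact hkk _ _ (hk1 s)
    · exact hkk _ _ (fun h => hij (by rw [hk h]))

end Pool.Agent.XV
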