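import Pool.Agent.XV.Defs

/-!
# XV2, row S2: a nondegenerate quadratic form over `F_2` with a totally singular subspace of half
the dimension is hyperbolic
-/

set_option autoImplicit false

open Module

namespace Pool.Agent.XV

variable {V : Type} [AddCommGroup V] [Module (ZMod 2) V] [FiniteDimensional (ZMod 2) V]

/-- a function with additive polar form over `F_2`, on a subspace, is the diagonal of a bilinear
form -/
lemma exists_bilin {C : Type} [AddCommGroup C] [Module (ZMod 2) C] [FiniteDimensional (ZMod 2) C]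
    (om : C →ₗ[ZMod 2] C →ₗ[ZMod 2] ZMod 2) (Q : C → ZMod 2)
    (hQ : ∀ v v', Q (v + v') = Q v + Q v' + om v v') :
    ∃ be : C →ₗ[ZMod 2] C →ₗ[ZMod 2] ZMod 2, ∀ c, be c c = Q c := by
  have h0 : Q 0 = 0 := by
    have h := hQ 0 0
    rw [add_zero, map_zero, add_zero] at h
    have h2 : Q 0 + Q 0 = Q 0 := h.symm
    simpa using h2
  let q : QuadraticMap (ZMod 2) C (ZMod 2) :=
    { toFun := Q
      toFun_smul := by
        intro a x
        have ha : a = 0 ∨ a = 1 := by
          revert a
          decide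
        rcases ha with rfl | rfl
        · rw [zero_smul, h0, mul_zero, zero_smul]
        · rw [one_smul, one_mul, one_smul]
      exists_companion' := ⟨om, hQ⟩ }
  obtain ⟨be, hbe⟩ := LinearMap.BilinMap.toQuadraticMap_surjective q
  refine ⟨be, fun c => ?_⟩
  have h := congrArg (fun f : QuadraticMap (ZMod 2) C (ZMod 2) => f c) hbe
  exact h

/-- ROW S2: hyperbolic coordinates -/
theorem exists_hyp {T : Type} [AddCommGroup T] [Module (ZMod 2) T] [FiniteDimensional (ZMod 2) T]
    (d : T →ₗ[ZMod 2] T →ₗ[ZMod 2] ZMod 2) (hd : Nd d)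
    (om : V →ₗ[ZMod 2] V →ₗ[ZMod 2] ZMod 2) (halt : ∀ v, om v v = 0) (hnd : Nd om)
    (Q : V → ZMod 2) (hQ : ∀ v v', Q (v + v') = Q v + Q v' + om v v')
    (A : Submodule (ZMod 2) V) (hA : ∀ a ∈ A, Q a = 0)
    (hV : finrank (ZMod 2) V = 2 * finrank (ZMod 2) T)
    (hAT : finrank (ZMod 2) A = finrank (ZMod 2) T) :
    ∃ e : V ≃ₗ[ZMod 2] (T × T), ∀ v, Q v = d (e v).1 (e v).2 := by
  classical
  have hsymm : ∀ v w, om v w = om w v := by
    intro v w
    have h := halt (v + w)
    rw [map_add, map_add, LinearMap.add_apply, LinearMap.add_apply, halt, halt, zero_add,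
      add_zero] at h
    have h2 := eq_neg_of_add_eq_zero_right h
    rw [h2, ZMod.neg_eq_self_mod_two]
  have hAA : ∀ a ∈ A, ∀ b ∈ A, om a b = 0 := by
    intro a ha b hb
    have h := hQ a b
    rw [hA _ (A.add_mem ha hb), hA a ha, hA b hb] at h
    simpa using h.symm
  obtain ⟨C, hC⟩ := A.exists_isCompl
  have hCT : finrank (ZMod 2) C = finrank (ZMod 2) T := by
    have h := Submodule.finrank_add_eq_of_isCompl hC
    omega
  -- the pairing of `A` with `C`
  let psi : A →ₗ[ZMod 2] Dual (ZMod 2) C :=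
    { toFun := fun a => (om a).comp C.subtype
      map_add' := fun a b => by
        ext c
        show om (a + b : V) c = om a c + om b c
        rw [map_add, LinearMap.add_apply]
      map_smul' := fun r a => by
        ext c
        show om (r • (a : V)) c = r • om a c
        rw [map_smul, LinearMap.smul_apply] }
  have hpsi_inj : Function.Injective psi := by
    rw [← LinearMap.ker_eq_bot, LinearMap.ker_eq_bot']
    intro a ha
    apply Subtype.ext
    apply hnd
    intro v
    have hv : v ∈ A ⊔ C := by rw [hC.sup_eq_top]; trivial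
    obtain ⟨b, hb, c, hc, rfl⟩ := Submodule.mem_sup.1 hv
    rw [map_add, hAA a a.2 b hb, zero_add]
    exact LinearMap.congr_fun ha ⟨c, hc⟩
  have hdim : finrank (ZMod 2) A = finrank (ZMod 2) (Dual (ZMod 2) C) := by
    rw [Subspace.dual_finrank_eq, hAT, hCT]
  let Psi : A ≃ₗ[ZMod 2] Dual (ZMod 2) C := LinearEquiv.ofInjectiveOfFinrankEq psi hpsi_inj hdim
  have hPsi : ∀ (f : Dual (ZMod 2) C) (c : C), om (Psi.symm f) c = f c := by
    intro f c
    have h : Psi (Psi.symm f) = f := Psi.apply_symm_apply f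
    exact LinearMap.congr_fun h c
  -- the correction
  obtain ⟨be, hbe⟩ := exists_bilin (om.domRestrict₁₂ C C) (fun c => Q c)
    (fun v v' => hQ v v')
  let phi : C →ₗ[ZMod 2] A := Psi.symm.toLinearMap.comp be
  have hphi : ∀ c c' : C, om (phi c) c' = be c c' := fun c c' => hPsi _ _
  have hsing : ∀ c : C, Q ((c : V) + phi c) = 0 := by
    intro c
    rw [hQ, hA _ (phi c).2, hsymm, hphi, hbe, add_zero]
    exact CharTwo.add_self_eq_zero _
  -- coordinates
  let f : T ≃ₗ[ZMod 2] C := LinearEquiv.ofFinrankEq T C hCT.symm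
  let g : T →ₗ[ZMod 2] A := Psi.symm.toLinearMap.comp
    ((LinearMap.lcomp (ZMod 2) (ZMod 2) f.symm.toLinearMap).comp d)
  have hg : ∀ t u, om (g t) (f u) = d t u := by
    intro t u
    have h : om (g t) (f u) = d t (f.symm (f u)) := hPsi _ _
    rw [h, f.symm_apply_apply]
  let E : (T × T) →ₗ[ZMod 2] V :=
    (A.subtype.comp (g.comp (LinearMap.fst _ _ _))) +
      ((C.subtype + A.subtype.comp phi).comp (f.toLinearMap.comp (LinearMap.snd _ _ _)))
  have hE : ∀ x : T × T, E x = (g x.1 : V) + ((f x.2 : V) + phi (f x.2)) := fun x => rfl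
  have hQE : ∀ x : T × T, Q (E x) = d x.1 x.2 := by
    intro x
    rw [hE, hQ, hA _ (g x.1).2, hsing, zero_add, zero_add, map_add, hg,
      hAA _ (g x.1).2 _ (phi (f x.2)).2, add_zero]
  have hEinj : Function.Injective E := by
    rw [← LinearMap.ker_eq_bot, LinearMap.ker_eq_bot']
    rintro ⟨t, u⟩ hx
    rw [hE] at hx
    have h1 : ((f u : V)) ∈ A ⊓ C := by
      refine ⟨?_, (f u).2⟩
      have h : (f u : V) = -((g t : V) + phi (f u)) := by
        rw [eq_neg_iff_add_eq_zero, ← hx]
        abel
      rw [h]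
      exact A.neg_mem (A.add_mem (g t).2 (phi (f u)).2)
    rw [hC.inf_eq_bot, Submodule.mem_bot] at h1
    have h2 : u = 0 := by
      have h3 : f u = 0 := Subtype.ext h1
      exact f.map_eq_zero_iff.1 h3
    subst h2
    have h4 : (g t : V) = 0 := by
      rw [map_zero, map_zero] at hx
      simpa using hx
    have h5 : t = 0 := by
      apply hd
      intro u
      rw [← hg, h4, map_zero]
      rfl
    rw [h5]
    rfl
  have hdim2 : finrank (ZMod 2) (T × T) = finrank (ZMod 2) V := by
    rw [finrank_prod, hV, two_mul]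
  let e : (T × T) ≃ₗ[ZMod 2] V := LinearEquiv.ofInjectiveOfFinrankEq E hEinj hdim2
  refine ⟨e.symm, fun v => ?_⟩
  have h : v = E (e.symm v) := (e.apply_symm_apply v).symm
  conv_lhs => rw [h]
  exact hQE _

end Pool.Agent.XV
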