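import Mathlib

/-!
# Kerdock sets of alternating forms over the field with two elements (MP_47f3f4_co)
-/

set_option autoImplicit false

open Module

namespace Pool.Agent.XV

/-- every alternating form over `F_2` is the polar form of a quadratic map -/
theorem exists_qf {T : Type} [AddCommGroup T] [Module (ZMod 2) T] [Finite T]
    (B : T →ₗ[ZMod 2] T →ₗ[ZMod 2] ZMod 2) (halt : ∀ t, B t t = 0) :
    ∃ q : T → ZMod 2, ∀ t t', q (t + t') = q t + q t' + B t t' := by
  classical
  have hfin : Module.Finite (ZMod 2) T := Module.Finite.of_finite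
  have hsw : ∀ t t', B t t' = B t' t := by
    intro t t'
    have h := halt (t + t')
    rw [map_add, map_add, LinearMap.add_apply, LinearMap.add_apply, halt, halt, zero_add,
      add_zero] at h
    have h2 : B t' t = - B t t' := eq_neg_of_add_eq_zero_left h
    rw [h2, ZMod.neg_eq_self_mod_two]
  let b := finBasis (ZMod 2) T
  let C : T → T → ZMod 2 := fun t t' => ∑ i, ∑ j,
    if i < j then b.repr t i * b.repr t' j * B (b i) (b j) else 0
  have hBe : ∀ t t', B t t' = ∑ i, ∑ j, b.repr t i * b.repr t' j * B (b i) (b j) := by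
    intro t t'
    conv_lhs => rw [← b.sum_repr t, ← b.sum_repr t']
    simp only [map_sum, map_smul, LinearMap.sum_apply, LinearMap.smul_apply, smul_eq_mul,
      Finset.mul_sum, mul_assoc]
    rw [Finset.sum_comm]
    refine Finset.sum_congr rfl (fun i _ => Finset.sum_congr rfl (fun j _ => ?_))
    ring
  have hC : ∀ t t', C t t' + C t' t = B t t' := by
    intro t t'
    rw [hBe]
    show (∑ i, ∑ j, if i < j then b.repr t i * b.repr t' j * B (b i) (b j) else 0) +
      (∑ i, ∑ j, if i < j then b.repr t' i * b.repr t j * B (b i) (b j) else 0) = _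
    rw [Finset.sum_comm (f := fun i j => if i < j then b.repr t' i * b.repr t j * B (b i) (b j)
      else 0), ← Finset.sum_add_distrib]
    refine Finset.sum_congr rfl (fun i _ => ?_)
    rw [← Finset.sum_add_distrib]
    refine Finset.sum_congr rfl (fun j _ => ?_)
    rcases lt_trichotomy i j with h | h | h
    · rw [if_pos h, if_neg h.asymm, add_zero]
    · subst h
      simp only [halt, mul_zero, ite_self, add_zero]
    · rw [if_neg h.asymm, if_pos h, zero_add, hsw (b j) (b i)]
      ring
  refine ⟨fun t => C t t, fun t t' => ?_⟩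
  show C (t + t') (t + t') = C t t + C t' t' + B t t'
  rw [← hC]
  show (∑ i, ∑ j, if i < j then b.repr (t + t') i * b.repr (t + t') j * B (b i) (b j) else 0) =
    (∑ i, ∑ j, if i < j then b.repr t i * b.repr t j * B (b i) (b j) else 0) +
    (∑ i, ∑ j, if i < j then b.repr t' i * b.repr t' j * B (b i) (b j) else 0) +
    ((∑ i, ∑ j, if i < j then b.repr t i * b.repr t' j * B (b i) (b j) else 0) +
      (∑ i, ∑ j, if i < j then b.repr t' i * b.repr t j * B (b i) (b j) else 0))
  simp only [← Finset.sum_add_distrib]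
  refine Finset.sum_congr rfl (fun i _ => Finset.sum_congr rfl (fun j _ => ?_))
  by_cases h : i < j
  · simp only [if_pos h, map_add, Finsupp.add_apply]
    ring
  · simp only [if_neg h, add_zero]

section field

variable {F : Type} [Field F] [Algebra (ZMod 2) F]

/-- the dot form on `F × F_2` -/
noncomputable def dotK (F : Type) [Field F] [Algebra (ZMod 2) F] :
    (F × ZMod 2) →ₗ[ZMod 2] (F × ZMod 2) →ₗ[ZMod 2] ZMod 2 :=
  LinearMap.mk₂ (ZMod 2) (fun a b => Algebra.trace (ZMod 2) F (a.1 * b.1) + a.2 * b.2)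
    (fun a a' b => by
      show Algebra.trace (ZMod 2) F ((a.1 + a'.1) * b.1) + (a.2 + a'.2) * b.2 = _
      rw [add_mul, map_add]
      ring)
    (fun c a b => by
      show Algebra.trace (ZMod 2) F ((c • a.1) * b.1) + (c * a.2) * b.2 = _
      rw [smul_mul_assoc, map_smul, smul_eq_mul, smul_eq_mul]
      ring)
    (fun a b b' => by
      show Algebra.trace (ZMod 2) F (a.1 * (b.1 + b'.1)) + a.2 * (b.2 + b'.2) = _
      rw [mul_add, map_add]
      ring)
    (fun c a b => by
      show Algebra.trace (ZMod 2) F (a.1 * (c • b.1)) + a.2 * (c * b.2) = _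
      rw [mul_smul_comm, map_smul, smul_eq_mul, smul_eq_mul]
      ring)

lemma dotK_apply (a b : F × ZMod 2) :
    dotK F a b = Algebra.trace (ZMod 2) F (a.1 * b.1) + a.2 * b.2 := rfl

lemma dotK_symm (a b : F × ZMod 2) : dotK F a b = dotK F b a := by
  rw [dotK_apply, dotK_apply, mul_comm a.1, mul_comm a.2]

lemma dotK_nd [Finite F] {a : F × ZMod 2} (h : ∀ b, dotK F a b = 0) : a = 0 := by
  have hfin : Module.Finite (ZMod 2) F := Module.Finite.of_finite
  have h2 : a.2 = 0 := by
    have := h (0, 1)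
    rw [dotK_apply, mul_zero, map_zero, zero_add, mul_one] at this
    exact this
  have h1 : a.1 = 0 := by
    have hnd := traceForm_nondegenerate (ZMod 2) F
    apply hnd.1 a.1
    intro b
    have := h (b, 0)
    rw [dotK_apply, mul_zero, add_zero] at this
    exact this
  exact Prod.ext h1 h2

/-- the maps of the Kerdock set -/
noncomputable def kM (s : F) : (F × ZMod 2) →ₗ[ZMod 2] (F × ZMod 2) where
  toFun t := (s ^ 2 * t.1 + (Algebra.trace (ZMod 2) F (s * t.1) + t.2) • s,
    Algebra.trace (ZMod 2) F (s * t.1))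
  map_add' t t' := by
    apply Prod.ext
    · show s ^ 2 * (t.1 + t'.1) + (Algebra.trace (ZMod 2) F (s * (t.1 + t'.1)) + (t.2 + t'.2)) • s =
        (s ^ 2 * t.1 + (Algebra.trace (ZMod 2) F (s * t.1) + t.2) • s) +
        (s ^ 2 * t'.1 + (Algebra.trace (ZMod 2) F (s * t'.1) + t'.2) • s)
      rw [mul_add s, map_add]
      simp only [add_smul]
      ring
    · show Algebra.trace (ZMod 2) F (s * (t.1 + t'.1)) = Algebra.trace (ZMod 2) F (s * t.1) +
        Algebra.trace (ZMod 2) F (s * t'.1)
      rw [mul_add, map_add]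
  map_smul' c t := by
    apply Prod.ext
    · show s ^ 2 * (c • t.1) + (Algebra.trace (ZMod 2) F (s * (c • t.1)) + c * t.2) • s =
        c • (s ^ 2 * t.1 + (Algebra.trace (ZMod 2) F (s * t.1) + t.2) • s)
      rw [mul_smul_comm, mul_smul_comm, map_smul, smul_add, smul_smul, smul_eq_mul, ← mul_add]
    · show Algebra.trace (ZMod 2) F (s * (c • t.1)) = c * Algebra.trace (ZMod 2) F (s * t.1)
      rw [mul_smul_comm, map_smul, smul_eq_mul]

lemma kM_apply (s : F) (t : F × ZMod 2) :
    kM s t = (s ^ 2 * t.1 + (Algebra.trace (ZMod 2) F (s * t.1) + t.2) • s,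
      Algebra.trace (ZMod 2) F (s * t.1)) := rfl

lemma kM_symm (s : F) (t t' : F × ZMod 2) : dotK F t (kM s t') = dotK F t' (kM s t) := by
  rw [dotK_apply, dotK_apply, kM_apply, kM_apply]
  show Algebra.trace (ZMod 2) F (t.1 * (s ^ 2 * t'.1 +
      (Algebra.trace (ZMod 2) F (s * t'.1) + t'.2) • s)) +
      t.2 * Algebra.trace (ZMod 2) F (s * t'.1) =
    Algebra.trace (ZMod 2) F (t'.1 * (s ^ 2 * t.1 +
      (Algebra.trace (ZMod 2) F (s * t.1) + t.2) • s)) +
      t'.2 * Algebra.trace (ZMod 2) F (s * t.1)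
  rw [mul_add t.1, mul_add t'.1, map_add, map_add, mul_smul_comm, mul_smul_comm, map_smul,
    map_smul, smul_eq_mul, smul_eq_mul, mul_comm t.1 s, mul_comm t'.1 s,
    show t.1 * (s ^ 2 * t'.1) = t'.1 * (s ^ 2 * t.1) by ring]
  ring

lemma trace_sq' [Finite F] (x : F) :
    Algebra.trace (ZMod 2) F (x ^ 2) = Algebra.trace (ZMod 2) F x := by
  have hfin : Module.Finite (ZMod 2) F := Module.Finite.of_finite
  have h := Algebra.trace_eq_of_algEquiv (FiniteField.frobeniusAlgEquivOfAlgebraic (ZMod 2) F) x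
  rw [FiniteField.coe_frobeniusAlgEquivOfAlgebraic, ZMod.card] at h
  exact h

lemma two_cases (k : ZMod 2) : k = 0 ∨ k = 1 := by
  fin_cases k
  · exact Or.inl rfl
  · exact Or.inr rfl

lemma kM_alt [Finite F] (s : F) (t : F × ZMod 2) : dotK F t (kM s t) = 0 := by
  rw [dotK_apply, kM_apply]
  show Algebra.trace (ZMod 2) F (t.1 * (s ^ 2 * t.1 +
      (Algebra.trace (ZMod 2) F (s * t.1) + t.2) • s)) +
      t.2 * Algebra.trace (ZMod 2) F (s * t.1) = 0
  rw [mul_add t.1, map_add, mul_smul_comm, map_smul, smul_eq_mul, mul_comm t.1 s,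
    show t.1 * (s ^ 2 * t.1) = (s * t.1) ^ 2 by ring, trace_sq']
  generalize Algebra.trace (ZMod 2) F (s * t.1) = k
  generalize t.2 = a
  revert k a
  decide

/-- differences of the maps of the Kerdock set are injective -/
theorem kM_inj [Finite F] (hodd : finrank (ZMod 2) F % 2 = 1) {s s' : F} (hs : s ≠ s')
    {t : F × ZMod 2} (h : kM s t = kM s' t) : t = 0 := by
  have hch : CharP F 2 := charP_of_injective_algebraMap (algebraMap (ZMod 2) F).injective 2
  have hfin : Module.Finite (ZMod 2) F := Module.Finite.of_finite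
  rw [kM_apply, kM_apply, Prod.mk.injEq] at h
  obtain ⟨h1, h2⟩ := h
  rw [← h2] at h1
  set k := Algebra.trace (ZMod 2) F (s * t.1) with hk
  have hd : s - s' ≠ 0 := sub_ne_zero.2 hs
  have h20 : (2 : F) = 0 := CharTwo.two_eq_zero
  rw [Algebra.smul_def, Algebra.smul_def] at h1
  have h3 : (s - s') * ((s - s') * t.1 + algebraMap (ZMod 2) F (k + t.2)) = 0 := by
    linear_combination h1 + (s' ^ 2 - s * s') * t.1 * h20
  have h4 := (mul_eq_zero.1 h3).resolve_left hd
  have h5 := congrArg (Algebra.trace (ZMod 2) F) h4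
  rw [map_add, sub_mul, map_sub, ← h2, ← hk, sub_self, zero_add, map_zero,
    Algebra.trace_algebraMap, nsmul_eq_mul] at h5
  have h6 : ((finrank (ZMod 2) F : ℕ) : ZMod 2) = 1 := by
    rw [← ZMod.natCast_mod, hodd, Nat.cast_one]
  rw [h6, one_mul] at h5
  rw [h5, map_zero, add_zero] at h4
  have h7 := (mul_eq_zero.1 h4).resolve_left hd
  have h8 : k = 0 := by rw [hk, h7, mul_zero, map_zero]
  rw [h8, zero_add] at h5
  exact Prod.ext h7 h5

/-- the quadratic maps of the Kerdock set -/
theorem exists_kq [Finite F] (s : F) :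
    ∃ q : F × ZMod 2 → ZMod 2, ∀ t t', q (t + t') = q t + q t' + dotK F t (kM s t') :=
  exists_qf ((dotK F).compl₂ (kM s)) (fun t => kM_alt s t)

end field

end Pool.Agent.XV
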