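import Pool.Agent.XV.Lift

/-!
# The lower bound `p + 1`
-/

set_option autoImplicit false

open Module

namespace Pool.Agent.XV

open Pool.Agent.APG Pool.Agent.Helper19.PCP

variable {p : ℕ} [Fact p.Prime]

/-- a skew-adjoint map whose square is a given scalar -/
theorem exists_sq {V : Type} [AddCommGroup V] [Module (ZMod p) V] [Finite V]
    {om : V →ₗ[ZMod p] V →ₗ[ZMod p] ZMod p} (halt : ∀ v, om v v = 0) (hnd : Nd om)
    (d : ZMod p) : ∃ S : V →ₗ[ZMod p] V, (∀ v, S (S v) = d • v) ∧
      ∀ v w, om (S v) w = -om v (S w) := by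
  generalize hn : finrank (ZMod p) V = n
  induction n using Nat.strong_induction_on generalizing V with
  | _ n ih =>
    by_cases h0 : n = 0
    · have hsub : Subsingleton V := finrank_zero_iff.1 (hn.trans h0)
      refine ⟨0, fun v => Subsingleton.elim _ _, fun v w => ?_⟩
      rw [LinearMap.zero_apply, LinearMap.zero_apply, map_zero, map_zero,
        LinearMap.zero_apply, neg_zero]
    · have hV : Nontrivial V := nontrivial_of_finrank_pos (R := ZMod p) (by omega)
      obtain ⟨x, hx⟩ := exists_ne (0 : V)
      obtain ⟨y, hxy⟩ := exists_pair hnd hx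
      have hyx : om y x = -1 := by rw [om_swap' halt x y, hxy]
      have hd := finrank_orth halt hxy
      let om₀ : orth om x y →ₗ[ZMod p] orth om x y →ₗ[ZMod p] ZMod p :=
        om.compl₁₂ (orth om x y).subtype (orth om x y).subtype
      have hor : ∀ u : orth om x y, om (u : V) x = 0 ∧ om (u : V) y = 0 ∧ om x u = 0 ∧
          om y u = 0 := by
        intro u
        have h1 := mem_orth.1 u.2
        refine ⟨h1.1, h1.2, ?_, ?_⟩
        · rw [om_swap' halt u x, h1.1, neg_zero]
        · rw [om_swap' halt u y, h1.2, neg_zero]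
      have hpu : ∀ u : orth om x y, prj om halt hxy u = u := by
        intro u
        apply Subtype.ext
        rw [coe_prj, (hor u).2.1, (hor u).2.2.1, zero_smul, zero_smul, sub_zero, sub_zero]
      have hpx : prj om halt hxy x = 0 := by
        apply Subtype.ext
        rw [coe_prj, hxy, halt, one_smul, zero_smul, sub_self, sub_zero]
        rfl
      have hpy : prj om halt hxy y = 0 := by
        apply Subtype.ext
        rw [coe_prj, hxy, halt, one_smul, zero_smul, sub_zero, sub_self]
        rfl
      have hl : ∀ (u : orth om x y) (v : V), om (u : V) v = om (u : V) (prj om halt hxy v) := by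
        intro u v
        rw [coe_prj, map_sub, map_sub, map_smul, map_smul, (hor u).1, (hor u).2.1, smul_zero,
          smul_zero, sub_zero, sub_zero]
      have hr : ∀ (u : orth om x y) (v : V), om v (u : V) = om (prj om halt hxy v : V) u := by
        intro u v
        rw [om_swap' halt (u : V) v, hl, ← om_swap' halt (u : V) (prj om halt hxy v : V)]
      obtain ⟨S', h1, h2⟩ := ih (finrank (ZMod p) (orth om x y)) (by omega)
        (V := orth om x y) (om := om₀) (fun v => halt v)
        (by
          intro v hv
          apply Subtype.ext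
          apply hnd
          intro w
          rw [hl]
          exact hv (prj om halt hxy w)) rfl
      let S : V →ₗ[ZMod p] V := (om.flip y).smulRight y + (d • om x).smulRight x +
        (orth om x y).subtype ∘ₗ S' ∘ₗ prj om halt hxy
      have hS : ∀ v, S v = om v y • y + (d * om x v) • x + (S' (prj om halt hxy v) : V) :=
        fun v => rfl
      refine ⟨S, fun v => ?_, fun v w => ?_⟩
      · have e1 : om (S v) y = d * om x v := by
          rw [hS]
          simp only [map_add, map_smul, LinearMap.add_apply, LinearMap.smul_apply, halt, hxy,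
            (hor _).2.1, smul_eq_mul]
          ring
        have e2 : om x (S v) = om v y := by
          rw [hS]
          simp only [map_add, map_smul, halt, hxy, (hor _).2.2.1, smul_eq_mul]
          ring
        have e3 : prj om halt hxy (S v) = S' (prj om halt hxy v) := by
          rw [hS, map_add, map_add, map_smul, map_smul, hpx, hpy, smul_zero, smul_zero, zero_add,
            zero_add, hpu]
        have e4 : ((S' (S' (prj om halt hxy v)) : orth om x y) : V) =
            d • (v - om v y • x - om x v • y) := by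
          rw [h1, ← coe_prj halt hxy v]
          rfl
        rw [hS (S v), e1, e2, e3, e4, smul_sub, smul_sub, smul_smul, smul_smul]
        abel
      · have e1 : om (S' (prj om halt hxy v) : V) w =
            -om v (S' (prj om halt hxy w) : V) := by
          rw [hl (S' (prj om halt hxy v)) w, hr (S' (prj om halt hxy w)) v]
          exact h2 (prj om halt hxy v) (prj om halt hxy w)
        rw [hS, hS]
        simp only [map_add, map_smul, LinearMap.add_apply, LinearMap.smul_apply, e1, smul_eq_mul,
          om_swap' halt w y, om_swap' halt x v]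
        ring

/-- `d` is a norm form: `a ^ 2 - d b ^ 2` takes all values -/
lemma exists_norm_zmod (hp2 : p ≠ 2) {d : ZMod p} (hd : ¬IsSquare d) (j : ZMod p) :
    ∃ a b : ZMod p, a ^ 2 - d * b ^ 2 = j := by
  have hd0 : d ≠ 0 := fun h => hd (h ▸ IsSquare.zero)
  have hp := (Fact.out : p.Prime).eq_two_or_odd.resolve_left hp2
  obtain ⟨a, b, hab⟩ := FiniteField.exists_root_sum_quadratic
    (f := (Polynomial.X : Polynomial (ZMod p)) ^ 2)
    (g := Polynomial.C (-d) * Polynomial.X ^ 2 + Polynomial.C 0 * Polynomial.X +
      Polynomial.C (-j)) (Polynomial.degree_X_pow 2)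
    (Polynomial.degree_quadratic (neg_ne_zero.2 hd0)) (by rw [ZMod.card]; exact hp)
  refine ⟨a, b, ?_⟩
  simp only [Polynomial.eval_add, Polynomial.eval_mul, Polynomial.eval_pow, Polynomial.eval_X,
    Polynomial.eval_C] at hab
  linear_combination hab

lemma norm_ne {d : ZMod p} (hd : ¬IsSquare d) {a b : ZMod p} (h : a ≠ 0 ∨ b ≠ 0) :
    a ^ 2 - d * b ^ 2 ≠ 0 := by
  intro h0
  by_cases hb : b = 0
  · rw [hb] at h0
    have ha : a = 0 := by
      have h1 : a ^ 2 = 0 := by linear_combination h0
      exact pow_eq_zero_iff two_ne_zero |>.1 h1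
    rcases h with h | h
    · exact h ha
    · exact h hb
  · apply hd
    refine ⟨a / b, ?_⟩
    field_simp
    linear_combination -h0

/-- the maps `A_j`, nondegenerate case -/
theorem exists_fam {V : Type} [AddCommGroup V] [Module (ZMod p) V] [Finite V] (hp2 : p ≠ 2)
    {om : V →ₗ[ZMod p] V →ₗ[ZMod p] ZMod p} (halt : ∀ v, om v v = 0) (hnd : Nd om) :
    ∃ A : (ZMod p)ˣ → (V →ₗ[ZMod p] V), (∀ j v w, om (A j v) (A j w) = j * om v w) ∧
      (∀ i j, i ≠ j → ∀ v, A i v = A j v → v = 0) ∧ ∀ j v, A j v = 0 → v = 0 := by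
  obtain ⟨d, hd⟩ := FiniteField.exists_nonsquare (F := ZMod p) (by rwa [ZMod.ringChar_zmod_n])
  obtain ⟨S, h1, h2⟩ := exists_sq halt hnd d
  have key : ∀ a b : ZMod p, a ≠ 0 ∨ b ≠ 0 → ∀ v, a • v + b • S v = 0 → v = 0 := by
    intro a b hab v hv
    have h3 : S (a • v + b • S v) = 0 := by rw [hv, map_zero]
    rw [map_add, map_smul, map_smul, h1] at h3
    have h4 : (a ^ 2 - d * b ^ 2) • v = 0 := by
      have h5 : (a ^ 2 - d * b ^ 2) • v = a • (a • v + b • S v) - b • (a • S v + b • d • v) := by
        simp only [smul_add, smul_smul, sub_smul]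
        rw [show a * b = b * a by ring, show b * (b * d) = d * b ^ 2 by ring, sq a]
        abel
      rw [h5, hv, h3, smul_zero, smul_zero, sub_zero]
    exact (smul_eq_zero.1 h4).resolve_left (norm_ne hd hab)
  choose a b hab using fun j : (ZMod p)ˣ => exists_norm_zmod hp2 hd (j : ZMod p)
  refine ⟨fun j => a j • LinearMap.id + b j • S, ?_, ?_, ?_⟩
  · intro j v w
    have e1 : om (S v) (S w) = -(d * om v w) := by
      rw [h2, h1, map_smul, smul_eq_mul]
    show om (a j • v + b j • S v) (a j • w + b j • S w) = j * om v w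
    simp only [map_add, map_smul, LinearMap.add_apply, LinearMap.smul_apply, smul_eq_mul, e1,
      h2 v w]
    rw [← hab j]
    ring
  · intro i j hij v hv
    have hv' : a i • v + b i • S v = a j • v + b j • S v := hv
    apply key (a i - a j) (b i - b j)
    · by_contra hcon
      push Not at hcon
      apply hij
      apply Units.ext
      rw [← hab i, ← hab j, sub_eq_zero.1 hcon.1, sub_eq_zero.1 hcon.2]
    · rw [sub_smul, sub_smul]
      have h3 := sub_eq_zero.2 hv'
      rw [← h3]
      abel
  · intro j v hv
    apply key (a j) (b j) _ v hv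
    by_contra hcon
    push Not at hcon
    apply j.ne_zero
    rw [← hab j, hcon.1, hcon.2]
    ring

/-- the maps `A_j`, general case -/
theorem exists_famF {V : Type} [AddCommGroup V] [Module (ZMod p) V] [Finite V] (hp2 : p ≠ 2)
    {om : V →ₗ[ZMod p] V →ₗ[ZMod p] ZMod p} (halt : ∀ v, om v v = 0)
    {F : V →ₗ[ZMod p] ZMod p}
    (hF : (F = 0 ∧ Nd om) ∨ ((∃ r, (∀ v', om r v' = 0) ∧ F r ≠ 0) ∧
      ∀ v, (∀ v', om v v' = 0) → F v = 0 → v = 0)) :
    ∃ A : (ZMod p)ˣ → (V →ₗ[ZMod p] V), (∀ j v w, om (A j v) (A j w) = j * om v w) ∧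
      (∀ j v, F (A j v) = j * F v) ∧
      (∀ i j, i ≠ j → ∀ v, A i v = A j v → v = 0) ∧ ∀ j v, A j v = 0 → v = 0 := by
  rcases hF with ⟨h1, h2⟩ | ⟨⟨r, hr, hFr⟩, hrad⟩
  · obtain ⟨A, e1, e2, e3⟩ := exists_fam hp2 halt h2
    refine ⟨A, e1, ?_, e2, e3⟩
    intro j v
    rw [h1, LinearMap.zero_apply, LinearMap.zero_apply, mul_zero]
  · have hr' : ∀ v, om v r = 0 := by
      intro v
      rw [om_swap' halt r v, hr, neg_zero]
    -- the projection to the kernel of `F`
    let π : V →ₗ[ZMod p] LinearMap.ker F :=
      LinearMap.codRestrict (LinearMap.ker F) (LinearMap.id - ((F r)⁻¹ • F).smulRight r) (by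
        intro v
        rw [LinearMap.mem_ker]
        show F (v - ((F r)⁻¹ * F v) • r) = 0
        rw [map_sub, map_smul, smul_eq_mul]
        field_simp
        ring)
    have hπ : ∀ v, (π v : V) = v - ((F r)⁻¹ * F v) • r := fun v => rfl
    let om₀ : LinearMap.ker F →ₗ[ZMod p] LinearMap.ker F →ₗ[ZMod p] ZMod p :=
      om.compl₁₂ (LinearMap.ker F).subtype (LinearMap.ker F).subtype
    have hom : ∀ v w, om (π v : V) (π w : V) = om v w := by
      intro v w
      rw [hπ, hπ]
      simp only [map_sub, map_smul, LinearMap.sub_apply, LinearMap.smul_apply, hr, hr',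
        smul_zero, sub_zero]
    have hnd₀ : Nd om₀ := by
      intro v hv
      apply Subtype.ext
      apply hrad _ _ v.2
      intro w
      have h1 := hv (π w)
      have h2 : om (v : V) (π w : V) = om (v : V) w := by
        rw [hπ, map_sub, map_smul, hr', smul_zero, sub_zero]
      rw [← h2]
      exact h1
    obtain ⟨A, e1, e2, e3⟩ := exists_fam hp2 (om := om₀) (fun v => halt v) hnd₀
    have hF0 : ∀ u : LinearMap.ker F, F (u : V) = 0 := fun u => u.2
    let B : (ZMod p)ˣ → (V →ₗ[ZMod p] V) := fun j =>
      (LinearMap.ker F).subtype ∘ₗ A j ∘ₗ π + (((j : ZMod p) * (F r)⁻¹) • F).smulRight r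
    have hB : ∀ j v, B j v = (A j (π v) : V) + ((j : ZMod p) * (F r)⁻¹ * F v) • r :=
      fun j v => rfl
    have hFB : ∀ j v, F (B j v) = j * F v := by
      intro j v
      rw [hB, map_add, map_smul, hF0, smul_eq_mul, zero_add]
      field_simp
    refine ⟨B, ?_, hFB, ?_, ?_⟩
    · intro j v w
      rw [hB, hB]
      simp only [map_add, map_smul, LinearMap.add_apply, LinearMap.smul_apply, hr, hr',
        smul_zero, add_zero]
      have h1 := e1 j (π v) (π w)
      have h2 : om (A j (π v) : V) (A j (π w) : V) = j * om (π v : V) (π w : V) := h1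
      rw [h2, hom]
    · intro i j hij v hv
      have h1 := congrArg F hv
      rw [hFB, hFB] at h1
      have h2 : F v = 0 := by
        have h3 : ((i : ZMod p) - j) * F v = 0 := by
          rw [sub_mul, h1, sub_self]
        exact (mul_eq_zero.1 h3).resolve_left
          (sub_ne_zero.2 fun h4 => hij (Units.ext h4))
      have h3 : (π v : V) = v := by
        rw [hπ, h2, mul_zero, zero_smul, sub_zero]
      rw [hB, hB, h2, mul_zero, mul_zero, zero_smul, add_zero, add_zero] at hv
      have h4 := e2 i j hij (π v) (Subtype.ext hv)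
      rw [← h3, h4]
      rfl
    · intro j v hv
      have h1 := congrArg F hv
      rw [hFB, map_zero] at h1
      have h2 : F v = 0 := (mul_eq_zero.1 h1).resolve_left j.ne_zero
      have h3 : (π v : V) = v := by
        rw [hπ, h2, mul_zero, zero_smul, sub_zero]
      rw [hB, h2, mul_zero, zero_smul, add_zero] at hv
      have h4 := e3 j (π v) (Subtype.ext hv)
      rw [← h3, h4]
      rfl

/-- ROW L0b -/
theorem lower_L0 {V W : Type} [AddCommGroup V] [AddCommGroup W] [Module (ZMod p) V]
    [Module (ZMod p) W] [Finite V] [Finite W] {q : Dat p V W} {P : Type} [Group P]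
    (hp2 : p ≠ 2) (E : Ext q P) {om : V →ₗ[ZMod p] V →ₗ[ZMod p] ZMod p}
    {F : V →ₗ[ZMod p] ZMod p} {w0 : W} (h : One q om F w0)
    (hF : (F = 0 ∧ Nd om) ∨ ((∃ r, (∀ v', om r v' = 0) ∧ F r ≠ 0) ∧
      ∀ v, (∀ v', om v v' = 0) → F v = 0 → v = 0)) : p + 1 ≤ T (P × P) := by
  classical
  have hpp : p.Prime := Fact.out
  have hfin : Finite P := Nat.finite_of_card_ne_zero (by
    rw [E.card]
    exact pow_ne_zero _ hpp.ne_zero)
  have hnt : Nontrivial P := by
    refine ⟨⟨E.inc (Multiplicative.ofAdd w0), 1, fun h1 => h.w0 ?_⟩⟩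
    rw [← map_one E.inc] at h1
    exact Multiplicative.ofAdd.injective (E.inj h1)
  obtain ⟨A, e1, e2, e3, e4⟩ := exists_famF hp2 h.alt hF
  have hlift : ∀ j : (ZMod p)ˣ, ∃ φ : P →* P,
      (∀ x, (E.pr (φ x)).toAdd = A j (E.pr x).toAdd) ∧
      ∀ w : W, φ (E.inc (Multiplicative.ofAdd w)) =
        E.inc (Multiplicative.ofAdd ((j : ZMod p) • w)) := by
    intro j
    let γ1 : V ≃ₗ[ZMod p] V := LinearEquiv.ofInjectiveEndo (A j) (by
      rw [injective_iff_map_eq_zero]
      exact e4 j)
    let γ2 : W ≃ₗ[ZMod p] W := LinearEquiv.smulOfNeZero (ZMod p) W (j : ZMod p) j.ne_zero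
    have hγ : ((γ1, γ2) : Gam p V W) • q = q := by
      rw [smul_eq_iff]
      constructor
      · intro v v'
        show q.be (A j v) (A j v') = (j : ZMod p) • q.be v v'
        rw [h.be, h.be, e1, mul_smul]
      · intro v
        show q.pw (A j v) = (j : ZMod p) • q.pw v
        rw [h.pw, h.pw, e2, mul_smul]
    obtain ⟨φ, f1, f2⟩ := exists_lift E _ hγ
    exact ⟨φ, f1, f2⟩
  choose φ f1 f2 using hlift
  have hcard := card_add_one_le_T (P := P) (ι := Option (ZMod p)ˣ)
    (fun o => match o with
      | none => 1
      | some j => φ j) (by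
      have hker : ∀ (x : P) (c c' : ZMod p), c ≠ c' → E.pr x = 1 →
          (∀ w : W, E.inc (Multiplicative.ofAdd w) = x →
            E.inc (Multiplicative.ofAdd (c • w)) = E.inc (Multiplicative.ofAdd (c' • w))) →
          x = 1 := by
        intro x c c' hcc hx hw
        obtain ⟨w, rfl⟩ := E.exists_inc hx
        have h1 := hw w.toAdd rfl
        have h2 : c • w.toAdd = c' • w.toAdd := Multiplicative.ofAdd.injective (E.inj h1)
        have h3 : (c - c') • w.toAdd = 0 := by rw [sub_smul, h2, sub_self]
        have h4 := (smul_eq_zero.1 h3).resolve_left (sub_ne_zero.2 hcc)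
        have h5 : w = 1 := h4
        rw [h5, map_one]
      have hone : ∀ (j : (ZMod p)ˣ) (x : P), φ j x = 1 → x = 1 := by
        intro j x hx
        have h1 : E.pr x = 1 := by
          apply Multiplicative.toAdd.injective
          apply e4 j
          rw [← f1, hx, map_one]
          rfl
        apply hker x j 0 j.ne_zero h1
        intro w hw
        rw [← f2, hw, hx, zero_smul, ofAdd_zero, map_one]
      intro i j hij x hx
      match i, j with
      | none, none => exact absurd rfl hij
      | none, some j => exact hone j x hx.symm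
      | some i, none => exact hone i x hx
      | some i, some j =>
        have hij' : i ≠ j := fun h => hij (congrArg some h)
        have hx' : φ i x = φ j x := hx
        have h1 : E.pr x = 1 := by
          apply Multiplicative.toAdd.injective
          apply e3 i j hij'
          rw [← f1, ← f1, hx']
        apply hker x i j (fun h => hij' (Units.ext h)) h1
        intro w hw
        rw [← f2, ← f2, hw, hx'])
  rw [Fintype.card_option, ZMod.card_units] at hcard
  have := hpp.two_le
  omega

end Pool.Agent.XV
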