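import Pool.Agent.XV.M1

/-!
# Exact values of `T (P × P)` (MP_47f3f4_co): row L1, a family of similitudes
-/

set_option autoImplicit false

open Module

namespace Pool.Agent.XV

open Pool.Agent.APG Pool.Agent.Helper19.PCP

variable {p : ℕ} [Fact p.Prime] {F : Type} [Field F] [Algebra (ZMod p) F] [Finite F]

/-- the characteristic is not two -/
lemma two_ne (hp2 : p ≠ 2) : (2 : F) ≠ 0 := by
  have hch : CharP F p := charP_of_injective_algebraMap (algebraMap (ZMod p) F).injective p
  intro h
  have h1 : ((2 : ℕ) : F) = 0 := by exact_mod_cast h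
  rw [CharP.cast_eq_zero_iff F p] at h1
  have := (Nat.prime_dvd_prime_iff_eq Fact.out Nat.prime_two).1 h1
  exact hp2 this

/-- a nonsquare -/
lemma exists_nsq (hp2 : p ≠ 2) : ∃ d : F, ¬ IsSquare d := by
  have : Fintype F := Fintype.ofFinite F
  have hch : CharP F p := charP_of_injective_algebraMap (algebraMap (ZMod p) F).injective p
  apply FiniteField.exists_nonsquare
  rw [ringChar.eq F p]
  exact hp2

/-- the norm form is anisotropic -/
lemma aniso_field {d : F} (hd : ¬ IsSquare d) {r s : F} (h : r ^ 2 - d * s ^ 2 = 0) :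
    r = 0 ∧ s = 0 := by
  have hs : s = 0 := by
    by_contra hs
    apply hd
    refine ⟨r / s, ?_⟩
    field_simp
    linear_combination -h
  refine ⟨?_, hs⟩
  rw [hs] at h
  have : r ^ 2 = 0 := by linear_combination h
  exact pow_eq_zero_iff (two_ne_zero) |>.1 this

/-- the norm form represents everything -/
lemma exists_norm (hp2 : p ≠ 2) {d : F} (hd : ¬ IsSquare d) (j : F) :
    ∃ r s : F, r ^ 2 - d * s ^ 2 = j := by
  have : Fintype F := Fintype.ofFinite F
  have hch : CharP F p := charP_of_injective_algebraMap (algebraMap (ZMod p) F).injective p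
  have hd0 : d ≠ 0 := by
    rintro rfl
    exact hd ⟨0, by simp⟩
  have hodd : Fintype.card F % 2 = 1 := by
    apply FiniteField.odd_card_of_char_ne_two
    rw [ringChar.eq F p]
    exact hp2
  obtain ⟨a, b, hab⟩ := FiniteField.exists_root_sum_quadratic
    (f := Polynomial.X ^ 2 - Polynomial.C j) (g := Polynomial.C (-d) * Polynomial.X ^ 2)
    (Polynomial.degree_X_pow_sub_C (by norm_num) j)
    (by rw [Polynomial.degree_C_mul_X_pow 2 (neg_ne_zero.2 hd0)]; rfl) hodd
  refine ⟨a, b, ?_⟩
  simp only [Polynomial.eval_sub, Polynomial.eval_pow, Polynomial.eval_X, Polynomial.eval_C,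
    Polynomial.eval_mul] at hab
  linear_combination hab

/-- the parameters of one similitude -/
lemma exists_rs (hp2 : p ≠ 2) {d : F} (hd : ¬ IsSquare d) {j : F} (hj : j ≠ 0) :
    ∃ r s : F, r ^ 2 - d * s ^ 2 = j ∧ s ≠ 0 ∧ 1 + j - 2 * r + d * s ≠ 0 := by
  have h2 : (2 : F) ≠ 0 := two_ne hp2
  have hd0 : d ≠ 0 := by
    rintro rfl
    exact hd ⟨0, by simp⟩
  have hd1 : (1 : F) - d ≠ 0 := by
    intro h
    apply hd
    rw [← sub_eq_zero.1 h]
    exact ⟨1, by simp⟩
  -- a representation with `s ≠ 0`
  have h1 : ∃ r s : F, r ^ 2 - d * s ^ 2 = j ∧ s ≠ 0 := by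
    obtain ⟨r, s, hrs⟩ := exists_norm hp2 hd j
    by_cases hs : s = 0
    · have hr : r ≠ 0 := by
        rintro rfl
        apply hj
        rw [← hrs, hs]
        ring
      refine ⟨r * (1 + d) / (1 - d), 2 * r / (1 - d), ?_, ?_⟩
      · have hj2 : j = r ^ 2 := by rw [← hrs, hs]; ring
        rw [hj2]
        field_simp
        ring
      · exact div_ne_zero (mul_ne_zero h2 hr) hd1
    · exact ⟨r, s, hrs, hs⟩
  obtain ⟨r, s, hrs, hs⟩ := h1
  by_cases h3 : 1 + j - 2 * r + d * s = 0
  · refine ⟨r, -s, by rw [neg_sq]; exact hrs, neg_ne_zero.2 hs, ?_⟩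
    intro h4
    have h5 : 2 * (d * s) = 0 := by linear_combination h3 - h4
    exact mul_ne_zero h2 (mul_ne_zero hd0 hs) h5
  · exact ⟨r, s, hrs, hs, h3⟩

/-- the similitudes -/
theorem exists_quad (hp2 : p ≠ 2) : ∃ al be ga de : (ZMod p)ˣ → F,
    (∀ j, al j * de j - be j * ga j = algebraMap (ZMod p) F (j : ZMod p)) ∧
    (∀ j lam, be j * lam ^ 2 + (al j - de j) * lam - ga j ≠ 0) ∧
    (∀ j j', j ≠ j' → (al j - al j') * (de j - de j') - (be j - be j') * (ga j - ga j') ≠ 0) ∧
    be 1 = 0 := by
  classical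
  obtain ⟨d, hd⟩ := exists_nsq (F := F) hp2
  have hj0 : ∀ j : (ZMod p)ˣ, algebraMap (ZMod p) F (j : ZMod p) ≠ 0 := by
    intro j h
    rw [map_eq_zero] at h
    exact j.ne_zero h
  choose r s h1 h2 h3 using fun j : (ZMod p)ˣ => exists_rs hp2 hd (hj0 j)
  refine ⟨fun j => if j = 1 then 1 else r j, fun j => if j = 1 then 0 else d * s j,
    fun j => if j = 1 then 1 else s j, fun j => if j = 1 then 1 else r j, ?_, ?_, ?_, ?_⟩
  · intro j
    by_cases hj : j = 1
    · subst hj
      simp
    · simp only [if_neg hj]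
      rw [← h1 j]
      ring
  · intro j lam
    by_cases hj : j = 1
    · subst hj
      simp
    · simp only [if_neg hj]
      intro h4
      have h5 : s j * (d * lam ^ 2 - 1) = 0 := by linear_combination h4
      have h6 := (mul_eq_zero.1 h5).resolve_left (h2 j)
      have hl : lam ≠ 0 := by
        rintro rfl
        norm_num at h6
      apply hd
      refine ⟨1 / lam, ?_⟩
      field_simp
      linear_combination h6
  · intro j j' hjj
    have hone : algebraMap (ZMod p) F ((1 : (ZMod p)ˣ) : ZMod p) = 1 := by simp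
    by_cases hj : j = 1
    · by_cases hj' : j' = 1
      · exact absurd (hj.trans hj'.symm) hjj
      · simp only [if_pos hj, if_neg hj']
        intro h4
        apply h3 j'
        rw [← h1 j']
        linear_combination h4
    · by_cases hj' : j' = 1
      · simp only [if_neg hj, if_pos hj']
        intro h4
        apply h3 j
        rw [← h1 j]
        linear_combination h4
      · simp only [if_neg hj, if_neg hj']
        intro h4
        have h5 : (r j - r j') ^ 2 - d * (s j - s j') ^ 2 = 0 := by linear_combination h4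
        obtain ⟨h6, h7⟩ := aniso_field hd h5
        have h8 : algebraMap (ZMod p) F (j : ZMod p) = algebraMap (ZMod p) F (j' : ZMod p) := by
          rw [← h1 j, ← h1 j', sub_eq_zero.1 h6, sub_eq_zero.1 h7]
        exact hjj (Units.ext ((algebraMap (ZMod p) F).injective h8))
  · simp

end Pool.Agent.XV
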