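import Pool.Agent.XV.Fam
import Pool.Agent.XV.Quad

/-!
# Exact values of `T (P × P)` (MP_47f3f4_co): row L1
-/

set_option autoImplicit false

open Module

namespace Pool.Agent.XV

open Pool.Agent.APG Pool.Agent.Helper19.PCP

variable {p : ℕ} {F K : Type} [Field F] [Field K] [Algebra (ZMod p) F] [Algebra (ZMod p) K]

/-- the graph of a linear map of `F × F` -/
def gvL (p : ℕ) [Algebra (ZMod p) F] (al be ga de : F) :
    (F × F) →ₗ[ZMod p] ((F × F) × (F × F)) where
  toFun x := (x, (al * x.1 + be * x.2, ga * x.1 + de * x.2))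
  map_add' x y := by
    ext <;> simp <;> ring
  map_smul' c x := by
    ext <;> simp [smul_add]

lemma gvL_apply (al be ga de : F) (x : F × F) :
    gvL p al be ga de x = (x, (al * x.1 + be * x.2, ga * x.1 + de * x.2)) := rfl

lemma gvL_inj (al be ga de : F) : Function.Injective (gvL p al be ga de) := by
  intro x y h
  exact congrArg Prod.fst h

/-- a member of the second kind -/
def memB (al be ga de : F) (kap : K) : Mb p (F × F) K where
  X := LinearMap.range (gvL p al be ga de)
  Y := LinearMap.range (grL p kap)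
  s := 0

/-- `t' = 0` -/
def cL (p : ℕ) [Algebra (ZMod p) F] : ((F × F) × F) →ₗ[ZMod p] ((F × F) × (F × F)) where
  toFun x := (x.1, (0, x.2))
  map_add' x y := by
    ext <;> simp
  map_smul' c x := by
    ext <;> simp

/-- `t = 0` -/
def dL (p : ℕ) [Algebra (ZMod p) F] : (F × (F × F)) →ₗ[ZMod p] ((F × F) × (F × F)) where
  toFun x := ((0, x.1), x.2)
  map_add' x y := by
    ext <;> simp
  map_smul' c x := by
    ext <;> simp

lemma cL_apply (x : (F × F) × F) : cL p x = (x.1, (0, x.2)) := rfl
lemma dL_apply (x : F × (F × F)) : dL p x = ((0, x.1), x.2) := rfl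

lemma cL_inj : Function.Injective (cL p (F := F)) := by
  intro x y h
  have h1 : x.1 = y.1 := congrArg (fun z => z.1) h
  have h2 : x.2 = y.2 := congrArg (fun z => z.2.2) h
  exact Prod.ext h1 h2

lemma dL_inj : Function.Injective (dL p (F := F)) := by
  intro x y h
  have h1 : x.1 = y.1 := congrArg (fun z => z.1.2) h
  have h2 : x.2 = y.2 := congrArg (fun z => z.2) h
  exact Prod.ext h1 h2

/-- the section of the third member -/
def scL (a : F →ₗ[ZMod p] K) (e : F) : ((F × F) × (F × F)) →ₗ[ZMod p] (K × K) where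
  toFun x := (a x.1.1, a (e * x.2.2))
  map_add' x y := by
    ext <;> simp [mul_add]
  map_smul' c x := by
    ext <;> simp

/-- the section of the fourth member -/
def sdL (a : F →ₗ[ZMod p] K) (f : F) : ((F × F) × (F × F)) →ₗ[ZMod p] (K × K) where
  toFun x := (a (f * x.1.2), a x.2.1)
  map_add' x y := by
    ext <;> simp [mul_add]
  map_smul' c x := by
    ext <;> simp

/-- the third member -/
def memC (a : F →ₗ[ZMod p] K) (X0 : Submodule (ZMod p) K) (e : F) : Mb p (F × F) K where
  X := LinearMap.range (cL p)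
  Y := LinearMap.range ((LinearMap.inl (ZMod p) K K).comp X0.subtype)
  s := scL a e

/-- the fourth member -/
def memD (a : F →ₗ[ZMod p] K) (X0 : Submodule (ZMod p) K) (f : F) : Mb p (F × F) K where
  X := LinearMap.range (dL p)
  Y := LinearMap.range ((LinearMap.inr (ZMod p) K K).comp X0.subtype)
  s := sdL a f

lemma scL_apply (a : F →ₗ[ZMod p] K) (e : F) (x : (F × F) × (F × F)) :
    scL a e x = (a x.1.1, a (e * x.2.2)) := rfl
lemma sdL_apply (a : F →ₗ[ZMod p] K) (f : F) (x : (F × F) × (F × F)) :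
    sdL a f x = (a (f * x.1.2), a x.2.1) := rfl
lemma inl_apply (X0 : Submodule (ZMod p) K) (x : X0) :
    ((LinearMap.inl (ZMod p) K K).comp X0.subtype) x = ((x : K), 0) := rfl
lemma inr_apply (X0 : Submodule (ZMod p) K) (x : X0) :
    ((LinearMap.inr (ZMod p) K K).comp X0.subtype) x = (0, (x : K)) := rfl

lemma inl_inj (X0 : Submodule (ZMod p) K) :
    Function.Injective ((LinearMap.inl (ZMod p) K K).comp X0.subtype) := by
  intro x y h
  exact Subtype.ext (congrArg Prod.fst h)

lemma inr_inj (X0 : Submodule (ZMod p) K) :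
    Function.Injective ((LinearMap.inr (ZMod p) K K).comp X0.subtype) := by
  intro x y h
  exact Subtype.ext (congrArg Prod.snd h)

/-- traces of different slopes -/
lemma gr_meet {kap kap' : K} (h : kap ≠ kap') :
    ∀ y ∈ LinearMap.range (grL p kap), y ∈ LinearMap.range (grL p kap') → y = 0 := by
  rintro _ ⟨x, rfl⟩ ⟨y, hy⟩
  have h1' : kap - kap' ≠ 0 := sub_ne_zero.2 h
  rw [grL_apply, grL_apply, Prod.mk.injEq] at hy
  obtain ⟨rfl, h3⟩ := hy
  have h4 : (kap - kap') * y = 0 := by rw [sub_mul, h3, sub_self]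
  have h5 := (mul_eq_zero.1 h4).resolve_left h1'
  rw [h5, map_zero]

/-- first and second kind -/
lemma GP_AB {lam al be ga de : F} {kap kap' : K} (h : be * lam ^ 2 + (al - de) * lam - ga ≠ 0)
    (h' : kap ≠ kap') : GP (memA p lam kap) (memB al be ga de kap') := by
  refine ⟨gr_meet h', ?_⟩
  rintro _ ⟨x, rfl⟩ ⟨x', hx'⟩ y _ z _ _
  have h2 : x'.1 = x.1 := congrArg (fun z => z.1.1) hx'
  have h2' : x'.2 = lam * x.1 := congrArg (fun z => z.1.2) hx'
  have h3 : al * x'.1 + be * x'.2 = x.2 := congrArg (fun z => z.2.1) hx'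
  have h4 : ga * x'.1 + de * x'.2 = lam * x.2 := congrArg (fun z => z.2.2) hx'
  rw [h2, h2'] at h3 h4
  have h5 : (be * lam ^ 2 + (al - de) * lam - ga) * x.1 = 0 := by
    linear_combination lam * h3 - h4
  have h6 := (mul_eq_zero.1 h5).resolve_left h
  have h7 : x.2 = 0 := by
    rw [← h3, h6]
    simp
  have h8 : x = 0 := Prod.ext h6 h7
  rw [h8, map_zero]

/-- two members of the second kind -/
lemma GP_BB {al be ga de al' be' ga' de' : F} {kap kap' : K}
    (h : (al - al') * (de - de') - (be - be') * (ga - ga') ≠ 0)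
    (h' : kap ≠ kap') : GP (memB (p := p) al be ga de kap) (memB al' be' ga' de' kap') := by
  refine ⟨gr_meet h', ?_⟩
  rintro _ ⟨x, rfl⟩ ⟨x', hx'⟩ y _ z _ _
  obtain rfl : x' = x := congrArg Prod.fst hx'
  have h3 : al' * x'.1 + be' * x'.2 = al * x'.1 + be * x'.2 := congrArg (fun z => z.2.1) hx'
  have h4 : ga' * x'.1 + de' * x'.2 = ga * x'.1 + de * x'.2 := congrArg (fun z => z.2.2) hx'
  have h5 : ((al - al') * (de - de') - (be - be') * (ga - ga')) * x'.1 = 0 := by
    linear_combination (be - be') * h4 - (de - de') * h3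
  have h6 : ((al - al') * (de - de') - (be - be') * (ga - ga')) * x'.2 = 0 := by
    linear_combination (ga - ga') * h3 - (al - al') * h4
  have h8 : x' = 0 := Prod.ext ((mul_eq_zero.1 h5).resolve_left h)
    ((mul_eq_zero.1 h6).resolve_left h)
  rw [h8, map_zero]

variable {a : F →ₗ[ZMod p] K} {X0 : Submodule (ZMod p) K}

/-- first and third kind -/
lemma GP_AC (ha : ∀ t, a t ∈ X0 → t = 0) {lam e : F} {kap : K} (hk : kap ≠ 0) :
    GP (memA p lam kap) (memC a X0 e) := by
  constructor
  · rintro _ ⟨x, rfl⟩ ⟨y, hy⟩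
    rw [grL_apply, inl_apply, Prod.mk.injEq] at hy
    have h1 := (mul_eq_zero.1 hy.2.symm).resolve_left hk
    rw [h1, map_zero]
  · rintro _ ⟨x, rfl⟩ ⟨x', hx'⟩ _ ⟨y, rfl⟩ _ ⟨z, rfl⟩ hs
    have h3 : 0 = x.2 := congrArg (fun z => z.2.1) hx'
    rw [axL_apply, grL_apply, inl_apply] at hs
    have h5 : (0 : K) - a x.1 = y + z := congrArg Prod.fst hs
    have h6 : (0 : K) - a (e * (lam * x.2)) = kap * y + 0 := congrArg Prod.snd hs
    rw [← h3, mul_zero, mul_zero, map_zero, sub_zero, add_zero] at h6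
    have h7 : y = 0 := (mul_eq_zero.1 h6.symm).resolve_left hk
    rw [h7, zero_add, zero_sub] at h5
    have h8 : x.1 = 0 := by
      apply ha
      rw [← neg_neg (a x.1), h5]
      exact X0.neg_mem z.2
    have h9 : x = 0 := Prod.ext h8 h3.symm
    rw [h9, map_zero]

/-- first and fourth kind -/
lemma GP_AD (ha : ∀ t, a t ∈ X0 → t = 0) {lam f : F} {kap : K} :
    GP (memA p lam kap) (memD a X0 f) := by
  constructor
  · rintro _ ⟨x, rfl⟩ ⟨y, hy⟩
    rw [grL_apply, inr_apply, Prod.mk.injEq] at hy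
    rw [← hy.1, map_zero]
  · rintro _ ⟨x, rfl⟩ ⟨x', hx'⟩ _ ⟨y, rfl⟩ _ ⟨z, rfl⟩ hs
    have h2 : 0 = x.1 := congrArg (fun z => z.1.1) hx'
    rw [axL_apply, grL_apply, inr_apply] at hs
    have h5 : (0 : K) - a (f * (lam * x.1)) = y + 0 := congrArg Prod.fst hs
    have h6 : (0 : K) - a x.2 = kap * y + z := congrArg Prod.snd hs
    rw [← h2, mul_zero, mul_zero, map_zero, sub_zero, add_zero] at h5
    rw [← h5, mul_zero, zero_add, zero_sub] at h6
    have h8 : x.2 = 0 := by
      apply ha
      rw [← neg_neg (a x.2), h6]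
      exact X0.neg_mem z.2
    have h9 : x = 0 := Prod.ext h2.symm h8
    rw [h9, map_zero]

/-- third and fourth kind -/
lemma GP_CD (ha : ∀ t, a t ∈ X0 → t = 0) {e f : F} (he : e ≠ 0) (hf : f ≠ 0) :
    GP (memC a X0 e) (memD a X0 f) := by
  constructor
  · rintro _ ⟨x, rfl⟩ ⟨y, hy⟩
    rw [inl_apply, inr_apply, Prod.mk.injEq] at hy
    rw [inl_apply, ← hy.1]
    rfl
  · rintro _ ⟨x, rfl⟩ ⟨x', hx'⟩ _ ⟨y, rfl⟩ _ ⟨z, rfl⟩ hs
    have h4 : x.1.1 = 0 := (congrArg (fun z => z.1.1) hx').symm
    have h3 : x'.2.1 = 0 := congrArg (fun z => z.2.1) hx'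
    rw [cL_apply, inl_apply, inr_apply] at hs
    have h5 : a x.1.1 - a (f * x.1.2) = y + 0 := congrArg Prod.fst hs
    have h6 : a (e * x.2) - a 0 = 0 + z := congrArg Prod.snd hs
    rw [h4, map_zero, zero_sub, add_zero] at h5
    rw [map_zero, sub_zero, zero_add] at h6
    have h7 : f * x.1.2 = 0 := by
      apply ha
      rw [← neg_neg (a _), h5]
      exact X0.neg_mem y.2
    have h8 : e * x.2 = 0 := by
      apply ha
      rw [h6]
      exact z.2
    have h9 : x = 0 := Prod.ext (Prod.ext h4 ((mul_eq_zero.1 h7).resolve_left hf))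
      ((mul_eq_zero.1 h8).resolve_left he)
    rw [h9, map_zero]

/-- second and third kind -/
lemma GP_BC (ha : ∀ t, a t ∈ X0 → t = 0) {al be ga de e : F} {j : (ZMod p)ˣ}
    (hj : al * de - be * ga = algebraMap (ZMod p) F j) (hbe : e ≠ - be)
    (hj0 : algebraMap (ZMod p) F j ≠ 0) (hj1 : algebraMap (ZMod p) K j ≠ 0) :
    GP (memB al be ga de (algebraMap (ZMod p) K j)) (memC a X0 e) := by
  constructor
  · rintro _ ⟨x, rfl⟩ ⟨y, hy⟩
    rw [grL_apply, inl_apply, Prod.mk.injEq] at hy
    have h1 := (mul_eq_zero.1 hy.2.symm).resolve_left hj1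
    rw [h1, map_zero]
  · rintro _ ⟨x, rfl⟩ ⟨x', hx'⟩ _ ⟨y, rfl⟩ _ ⟨z, rfl⟩ hs
    have h3 : 0 = al * x.1 + be * x.2 := congrArg (fun z => z.2.1) hx'
    rw [gvL_apply, grL_apply, inl_apply] at hs
    have h5 : (0 : K) - a x.1 = y + z := congrArg Prod.fst hs
    have h6 : (0 : K) - a (e * (ga * x.1 + de * x.2)) = algebraMap (ZMod p) K j * y + 0 :=
      congrArg Prod.snd hs
    have h7 : algebraMap (ZMod p) F j * x.1 - e * (ga * x.1 + de * x.2) = 0 := by
      apply ha
      have h8 : a (algebraMap (ZMod p) F j * x.1 - e * (ga * x.1 + de * x.2)) =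
          (j : ZMod p) • (-(z : K)) := by
        rw [map_sub, ← Algebra.smul_def, map_smul, Algebra.smul_def, Algebra.smul_def]
        linear_combination h6 - algebraMap (ZMod p) K (j : ZMod p) * h5
      rw [h8]
      exact X0.smul_mem _ (X0.neg_mem z.2)
    have h9 : al * x.1 + be * x.2 = 0 := h3.symm
    have hd : (algebraMap (ZMod p) F j) * (e + be) ≠ 0 := by
      apply mul_ne_zero hj0
      intro h
      exact hbe (eq_neg_of_add_eq_zero_left h)
    have h10 : (algebraMap (ZMod p) F j) * (e + be) * x.1 = 0 := by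
      linear_combination be * h7 + e * de * h9 - e * x.1 * hj
    have h11 : (algebraMap (ZMod p) F j) * (e + be) * x.2 = 0 := by
      linear_combination (algebraMap (ZMod p) F j - e * ga) * h9 - al * h7 - e * x.2 * hj
    have h12 : x = 0 := Prod.ext ((mul_eq_zero.1 h10).resolve_left hd)
      ((mul_eq_zero.1 h11).resolve_left hd)
    rw [h12, map_zero]

/-- second and fourth kind -/
lemma GP_BD (ha : ∀ t, a t ∈ X0 → t = 0) {al be ga de f : F} {j : (ZMod p)ˣ}
    (hbe : algebraMap (ZMod p) F j * f ≠ be) :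
    GP (memB al be ga de (algebraMap (ZMod p) K j)) (memD a X0 f) := by
  constructor
  · rintro _ ⟨x, rfl⟩ ⟨y, hy⟩
    rw [grL_apply, inr_apply, Prod.mk.injEq] at hy
    rw [← hy.1, map_zero]
  · rintro _ ⟨x, rfl⟩ ⟨x', hx'⟩ _ ⟨y, rfl⟩ _ ⟨z, rfl⟩ hs
    have h4 : x.1 = 0 := (congrArg (fun z => z.1.1) hx').symm
    rw [gvL_apply, grL_apply, inr_apply] at hs
    have h5 : (0 : K) - a (f * x.2) = y + 0 := congrArg Prod.fst hs
    have h6 : (0 : K) - a (al * x.1 + be * x.2) = algebraMap (ZMod p) K j * y + z :=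
      congrArg Prod.snd hs
    rw [h4, mul_zero, zero_add] at h6
    have h7 : algebraMap (ZMod p) F j * (f * x.2) - be * x.2 = 0 := by
      apply ha
      have h8 : a (algebraMap (ZMod p) F j * (f * x.2) - be * x.2) = z := by
        rw [map_sub, ← Algebra.smul_def, map_smul, Algebra.smul_def]
        linear_combination h6 - algebraMap (ZMod p) K (j : ZMod p) * h5
      rw [h8]
      exact z.2
    have h8 : (algebraMap (ZMod p) F j * f - be) * x.2 = 0 := by linear_combination h7
    have h9 : x.2 = 0 := (mul_eq_zero.1 h8).resolve_left (sub_ne_zero.2 hbe)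
    have h10 : x = 0 := Prod.ext h4 h9
    rw [h10, map_zero]

/-- the decomposition of `K` -/
lemma exists_dec [Fact p.Prime] [Finite F] [Finite K]
    (h : finrank (ZMod p) F < finrank (ZMod p) K) :
    ∃ (a : F →ₗ[ZMod p] K) (X0 : Submodule (ZMod p) K), (1 : K) ∈ X0 ∧
      (∀ t, a t ∈ X0 → t = 0) ∧
      finrank (ZMod p) F + finrank (ZMod p) X0 = finrank (ZMod p) K := by
  have hFf : FiniteDimensional (ZMod p) F := Module.Finite.of_finite
  have hKf : FiniteDimensional (ZMod p) K := Module.Finite.of_finite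
  let S : Submodule (ZMod p) K := Submodule.span (ZMod p) {1}
  have hS : finrank (ZMod p) S = 1 := finrank_span_singleton one_ne_zero
  have hq : finrank (ZMod p) (K ⧸ S) + finrank (ZMod p) S = finrank (ZMod p) K :=
    Submodule.finrank_quotient_add_finrank S
  have hfin : Finite (K ⧸ S) := Finite.of_surjective _ (Submodule.mkQ_surjective S)
  obtain ⟨f, hf⟩ := exists_inj (p := p) (V := F) (W := K ⧸ S) (by omega)
  obtain ⟨g, hg⟩ := LinearMap.exists_rightInverse_of_surjective S.mkQ
    (LinearMap.range_eq_top.2 (Submodule.mkQ_surjective S))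
  have hag : ∀ t, g (f t) ∈ S → t = 0 := by
    intro t ht
    have h1 : S.mkQ (g (f t)) = f t := LinearMap.congr_fun hg (f t)
    have h2 : S.mkQ (g (f t)) = 0 := by
      rw [Submodule.mkQ_apply, Submodule.Quotient.mk_eq_zero]
      exact ht
    rw [h2] at h1
    apply hf
    rw [← h1, map_zero]
  have hd : Disjoint S (LinearMap.range (g.comp f)) := by
    rw [Submodule.disjoint_def]
    rintro _ hx ⟨t, rfl⟩
    have h1 : t = 0 := hag t hx
    rw [h1, map_zero]
  obtain ⟨X0, hSX, hX0⟩ := hd.exists_isCompl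
  refine ⟨g.comp f, X0, hSX (Submodule.mem_span_singleton_self 1), ?_, ?_⟩
  · intro t ht
    have h1 : (g.comp f) t = 0 := by
      have h2 : (g.comp f) t ∈ X0 ⊓ LinearMap.range (g.comp f) := ⟨ht, ⟨t, rfl⟩⟩
      rw [hX0.inf_eq_bot] at h2
      exact h2
    apply hag t
    have h3 : g (f t) = 0 := h1
    rw [h3]
    exact S.zero_mem
  · have h1 : Function.Injective (g.comp f) := by
      rw [← LinearMap.ker_eq_bot, LinearMap.ker_eq_bot']
      intro t ht
      apply hag t
      have h3 : g (f t) = 0 := ht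
      rw [h3]
      exact S.zero_mem
    have h2 := Submodule.finrank_add_eq_of_isCompl hX0
    rw [LinearMap.finrank_range_of_inj h1] at h2
    omega

/-- many scalars outside the prime field -/
lemma exists_kap [Fact p.Prime] [Finite F] [Finite K]
    (h : finrank (ZMod p) F < finrank (ZMod p) K) :
    ∃ kap : F → K, Function.Injective kap ∧ ∀ lam, kap lam ∉ Set.range (algebraMap (ZMod p) K) := by
  classical
  have hFf : FiniteDimensional (ZMod p) F := Module.Finite.of_finite
  have hKf : FiniteDimensional (ZMod p) K := Module.Finite.of_finite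
  have hp : 2 ≤ p := (Fact.out : p.Prime).two_le
  have : Fintype F := Fintype.ofFinite F
  have : Fintype K := Fintype.ofFinite K
  let A : Type := {x : K // x ∉ Set.range (algebraMap (ZMod p) K)}
  have hA : Nat.card A + p = Nat.card K := by
    have h1 : Nat.card (Set.range (algebraMap (ZMod p) K)) = p := by
      rw [Nat.card_range_of_injective (algebraMap (ZMod p) K).injective, Nat.card_zmod]
    have h2 := Nat.card_congr (Equiv.sumCompl (fun x : K => x ∈ Set.range (algebraMap (ZMod p) K)))
    rw [Nat.card_sum] at h2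
    have h3 : Nat.card {x : K // x ∈ Set.range (algebraMap (ZMod p) K)} = p := h1
    rw [h3] at h2
    have h4 : Nat.card A = Nat.card {x : K // ¬ x ∈ Set.range (algebraMap (ZMod p) K)} := rfl
    omega
  have hle : Nat.card F ≤ Nat.card A := by
    have h1 : Nat.card F = p ^ finrank (ZMod p) F := by
      rw [Module.natCard_eq_pow_finrank (K := ZMod p) (V := F), Nat.card_zmod]
    have h2 : Nat.card K = p ^ finrank (ZMod p) K := by
      rw [Module.natCard_eq_pow_finrank (K := ZMod p) (V := K), Nat.card_zmod]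
    have h3 : p ^ (finrank (ZMod p) F + 1) ≤ p ^ finrank (ZMod p) K :=
      Nat.pow_le_pow_right (by omega) h
    have h4 : 0 < finrank (ZMod p) F := finrank_pos
    have h5 : p ^ 1 ≤ p ^ finrank (ZMod p) F := Nat.pow_le_pow_right (by omega) h4
    rw [pow_succ] at h3
    rw [pow_one] at h5
    have h6 : p ^ finrank (ZMod p) F * 2 ≤ p ^ finrank (ZMod p) F * p := Nat.mul_le_mul_left _ hp
    omega
  rw [Nat.card_eq_fintype_card, Nat.card_eq_fintype_card] at hle
  obtain ⟨f⟩ := Function.Embedding.nonempty_of_card_le hle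
  exact ⟨fun x => (f x).1, fun x y hxy => f.injective (Subtype.ext hxy), fun x => (f x).2⟩

/-- an element outside a family of `p - 1` elements -/
lemma exists_out [Fact p.Prime] [Finite F] (φ : (ZMod p)ˣ → F) : ∃ e : F, ∀ j, e ≠ φ j := by
  classical
  have : Fintype F := Fintype.ofFinite F
  by_contra hc
  push Not at hc
  have h1 : Function.Surjective φ := by
    intro e
    obtain ⟨j, hj⟩ := hc e
    exact ⟨j, hj.symm⟩
  have h2 := Nat.card_le_card_of_surjective φ h1
  rw [Nat.card_eq_fintype_card (α := (ZMod p)ˣ), ZMod.card_units] at h2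
  have h3 : Nat.card (ZMod p) ≤ Nat.card F :=
    Nat.card_le_card_of_injective _ (algebraMap (ZMod p) F).injective
  rw [Nat.card_zmod] at h3
  have hp : 2 ≤ p := (Fact.out : p.Prime).two_le
  omega

/-- ROW L1 -/
theorem lower_L1 [Fact p.Prime] [Finite F] [Finite K] (hp2 : p ≠ 2)
    (h : finrank (ZMod p) F < finrank (ZMod p) K) :
    Nat.card F + p + 1 ≤ T (BGrp (mdat hp2 (tf p F) (tf_alt p F) (1 : K)) ×
      BGrp (mdat hp2 (tf p F) (tf_alt p F) (1 : K))) := by
  classical
  have hFf : FiniteDimensional (ZMod p) F := Module.Finite.of_finite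
  have hKf : FiniteDimensional (ZMod p) K := Module.Finite.of_finite
  have : Fintype F := Fintype.ofFinite F
  obtain ⟨al, be, ga, de, hq1, hq2, hq3, hq4⟩ := exists_quad (p := p) (F := F) hp2
  obtain ⟨a, X0, h1X, ha, hdX⟩ := exists_dec (p := p) (F := F) (K := K) h
  obtain ⟨kap, hkap, hkap'⟩ := exists_kap (p := p) (F := F) (K := K) h
  have hj0 : ∀ j : (ZMod p)ˣ, algebraMap (ZMod p) F (j : ZMod p) ≠ 0 := by
    intro j h
    rw [map_eq_zero] at h
    exact j.ne_zero h
  have hj1 : ∀ j : (ZMod p)ˣ, algebraMap (ZMod p) K (j : ZMod p) ≠ 0 := by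
    intro j h
    rw [map_eq_zero] at h
    exact j.ne_zero h
  obtain ⟨e, he⟩ := exists_out (p := p) (F := F) (fun j => - be j)
  obtain ⟨f, hf⟩ := exists_out (p := p) (F := F) (fun j => be j / algebraMap (ZMod p) F (j : ZMod p))
  have he0 : e ≠ 0 := by
    have := he 1
    rwa [hq4, neg_zero] at this
  have hf0 : f ≠ 0 := by
    have := hf 1
    simp only [hq4, zero_div] at this
    exact this
  let m : F ⊕ (ZMod p)ˣ ⊕ Bool → Mb p (F × F) K := fun i => match i with
    | Sum.inl lam => memA p lam (kap lam)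
    | Sum.inr (Sum.inl j) =>
        memB (al j) (be j) (ga j) (de j) (algebraMap (ZMod p) K (j : ZMod p))
    | Sum.inr (Sum.inr true) => memC a X0 e
    | Sum.inr (Sum.inr false) => memD a X0 f
  have hcard : Fintype.card (F ⊕ (ZMod p)ˣ ⊕ Bool) = Nat.card F + p + 1 := by
    rw [Fintype.card_sum, Fintype.card_sum, ZMod.card_units, Fintype.card_bool,
      Nat.card_eq_fintype_card]
    have hp : 2 ≤ p := (Fact.out : p.Prime).two_le
    omega
  rw [← hcard]
  refine le_T_of_mb _ (LinearEquiv.refl (ZMod p) (K × K)) m ?_ ?_ ?_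
  · -- closure
    rintro (lam | j | b)
    · rintro _ ⟨x, rfl⟩ _ ⟨x', rfl⟩
      refine ⟨0, ?_⟩
      obtain ⟨h1, h2⟩ := tf_axL (p := p) lam x x'
      show grL p (kap lam) 0 = (tf p F (axL p lam x).1 (axL p lam x').1 • (1 : K),
        tf p F (axL p lam x).2 (axL p lam x').2 • (1 : K))
      rw [h1, h2, map_zero, zero_smul]
      rfl
    · rintro _ ⟨x, rfl⟩ _ ⟨x', rfl⟩
      refine ⟨tf p F x x' • (1 : K), ?_⟩
      show (tf p F x x' • (1 : K), algebraMap (ZMod p) K (j : ZMod p) * (tf p F x x' • (1 : K))) =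
        (tf p F x x' • (1 : K),
          tf p F (al j * x.1 + be j * x.2, ga j * x.1 + de j * x.2)
            (al j * x'.1 + be j * x'.2, ga j * x'.1 + de j * x'.2) • (1 : K))
      have h1 : tf p F (al j * x.1 + be j * x.2, ga j * x.1 + de j * x.2)
            (al j * x'.1 + be j * x'.2, ga j * x'.1 + de j * x'.2) = j * tf p F x x' := by
        have h2 : ((al j * x.1 + be j * x.2) * (ga j * x'.1 + de j * x'.2) -
            (ga j * x.1 + de j * x.2) * (al j * x'.1 + be j * x'.2)) =
            (j : ZMod p) • (x.1 * x'.2 - x.2 * x'.1) := by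
          rw [Algebra.smul_def, ← hq1 j]
          ring
        rw [tf_apply, tf_apply]
        show Algebra.trace (ZMod p) F ((al j * x.1 + be j * x.2) * (ga j * x'.1 + de j * x'.2) -
            (ga j * x.1 + de j * x.2) * (al j * x'.1 + be j * x'.2)) = _
        rw [h2, map_smul, smul_eq_mul]
      rw [h1, mul_smul, ← Algebra.smul_def]
    · rcases b with _ | _
      · rintro _ ⟨x, rfl⟩ _ ⟨x', rfl⟩
        refine ⟨⟨tf p F x.2 x'.2 • (1 : K), X0.smul_mem _ h1X⟩, ?_⟩
        show ((0 : K), tf p F x.2 x'.2 • (1 : K)) =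
          (tf p F (0, x.1) (0, x'.1) • (1 : K), tf p F x.2 x'.2 • (1 : K))
        have h1 : tf p F (0, x.1) (0, x'.1) = 0 := by
          rw [tf_apply]
          have : ((0 : F) * x'.1 - x.1 * 0) = 0 := by ring
          show Algebra.trace (ZMod p) F ((0 : F) * x'.1 - x.1 * 0) = 0
          rw [this, map_zero]
        rw [h1, zero_smul]
      · rintro _ ⟨x, rfl⟩ _ ⟨x', rfl⟩
        refine ⟨⟨tf p F x.1 x'.1 • (1 : K), X0.smul_mem _ h1X⟩, ?_⟩
        show (tf p F x.1 x'.1 • (1 : K), (0 : K)) =
          (tf p F x.1 x'.1 • (1 : K), tf p F (0, x.2) (0, x'.2) • (1 : K))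
        have h1 : tf p F (0, x.2) (0, x'.2) = 0 := by
          rw [tf_apply]
          have : ((0 : F) * x'.2 - x.2 * 0) = 0 := by ring
          show Algebra.trace (ZMod p) F ((0 : F) * x'.2 - x.2 * 0) = 0
          rw [this, map_zero]
        rw [h1, zero_smul]
  · -- dimensions
    rintro (lam | j | b)
    · exact dim_A lam (kap lam)
    · show finrank (ZMod p) (LinearMap.range (gvL p (al j) (be j) (ga j) (de j))) +
        finrank (ZMod p) (LinearMap.range (grL p (algebraMap (ZMod p) K (j : ZMod p)))) = _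
      rw [LinearMap.finrank_range_of_inj (gvL_inj _ _ _ _),
        LinearMap.finrank_range_of_inj (grL_inj _)]
    · rcases b with _ | _
      · show finrank (ZMod p) (LinearMap.range (dL p (F := F))) +
          finrank (ZMod p) (LinearMap.range ((LinearMap.inr (ZMod p) K K).comp X0.subtype)) = _
        rw [LinearMap.finrank_range_of_inj dL_inj, LinearMap.finrank_range_of_inj (inr_inj X0),
          Module.finrank_prod, Module.finrank_prod]
        omega
      · show finrank (ZMod p) (LinearMap.range (cL p (F := F))) +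
          finrank (ZMod p) (LinearMap.range ((LinearMap.inl (ZMod p) K K).comp X0.subtype)) = _
        rw [LinearMap.finrank_range_of_inj cL_inj, LinearMap.finrank_range_of_inj (inl_inj X0),
          Module.finrank_prod, Module.finrank_prod]
        omega
  · -- trivial intersections
    have hAB : ∀ lam j, GP (m (Sum.inl lam)) (m (Sum.inr (Sum.inl j))) := by
      intro lam j
      exact GP_AB (hq2 j lam) (fun hh => hkap' lam ⟨_, hh.symm⟩)
    have hAC : ∀ lam, GP (m (Sum.inl lam)) (m (Sum.inr (Sum.inr true))) := by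
      intro lam
      refine GP_AC ha (fun hh => hkap' lam ⟨0, ?_⟩)
      rw [hh, map_zero]
    have hAD : ∀ lam, GP (m (Sum.inl lam)) (m (Sum.inr (Sum.inr false))) := by
      intro lam
      exact GP_AD ha
    have hBC : ∀ j, GP (m (Sum.inr (Sum.inl j))) (m (Sum.inr (Sum.inr true))) := by
      intro j
      exact GP_BC ha (hq1 j) (he j) (hj0 j) (hj1 j)
    have hBD : ∀ j, GP (m (Sum.inr (Sum.inl j))) (m (Sum.inr (Sum.inr false))) := by
      intro j
      refine GP_BD ha (fun hh => hf j ?_)
      rw [eq_div_iff (hj0 j), mul_comm]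
      exact hh
    have hCD : GP (m (Sum.inr (Sum.inr true))) (m (Sum.inr (Sum.inr false))) := GP_CD ha he0 hf0
    rintro (lam | j | b) (lam' | j' | b') hij
    · have h1 : lam ≠ lam' := fun hh => hij (by rw [hh])
      exact GP_AA h1 (fun hh => h1 (hkap hh))
    · exact hAB lam j'
    · rcases b' with _ | _
      · exact hAD lam
      · exact hAC lam
    · exact (hAB lam' j).symm
    · have h1 : j ≠ j' := fun hh => hij (by rw [hh])
      exact GP_BB (hq3 j j' h1) (fun hh => h1 (Units.ext ((algebraMap (ZMod p) K).injective hh)))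
    · rcases b' with _ | _
      · exact hBD j
      · exact hBC j
    · rcases b with _ | _
      · exact (hAD lam').symm
      · exact (hAC lam').symm
    · rcases b with _ | _
      · exact (hBD j').symm
      · exact (hBC j').symm
    · rcases b with _ | _ <;> rcases b' with _ | _
      · exact absurd rfl hij
      · exact hCD.symm
      · exact hCD
      · exact absurd rfl hij

end Pool.Agent.XV
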