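import Pool.Agent.XV.Cg
import Pool.Agent.XV.Fam

/-!
# `|Φ(P)| = 2` (MP_47f3f4_co): four members, row L3
-/

set_option autoImplicit false

open Module

namespace Pool.Agent.XV

open Pool.Agent.APG Pool.Agent.Helper19.PCP

namespace L3

variable {S K : Type} [AddCommGroup S] [Module (ZMod 2) S] [Field K] [Algebra (ZMod 2) K]

/-- `u1 = u2 = 0` -/
def x0 (S : Type) [AddCommGroup S] [Module (ZMod 2) S] :
    (S × S) →ₗ[ZMod 2] ((S × S) × (S × S)) where
  toFun x := ((x.1, 0), (x.2, 0))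
  map_add' x y := by
    ext <;> simp
  map_smul' c x := by
    ext <;> simp

/-- `t1 = u2`, `t2 = u1` -/
def xd (S : Type) [AddCommGroup S] [Module (ZMod 2) S] :
    (S × S) →ₗ[ZMod 2] ((S × S) × (S × S)) where
  toFun x := ((x.2, x.1), (x.1, x.2))
  map_add' x y := by
    ext <;> simp
  map_smul' c x := by
    ext <;> simp

/-- `t2 = 0` and `t1 + u1` is a multiple of `e` -/
def x1 (e : S) : ((S × S) × ZMod 2) →ₗ[ZMod 2] ((S × S) × (S × S)) where
  toFun x := ((x.1.1 + x.2 • e, x.1.1), (0, x.1.2))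
  map_add' x y := by
    ext <;> simp [add_smul]
    abel
  map_smul' c x := by
    ext <;> simp [mul_smul]

/-- `t1 = 0` and `t2 + u2` is a multiple of `e` -/
def x2 (e : S) : ((S × S) × ZMod 2) →ₗ[ZMod 2] ((S × S) × (S × S)) where
  toFun x := ((0, x.1.1), (x.1.2 + x.2 • e, x.1.2))
  map_add' x y := by
    ext <;> simp [add_smul]
    abel
  map_smul' c x := by
    ext <;> simp [mul_smul]

lemma x0_apply (x : S × S) : x0 S x = ((x.1, 0), (x.2, 0)) := rfl
lemma xd_apply (x : S × S) : xd S x = ((x.2, x.1), (x.1, x.2)) := rfl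
lemma x1_apply (e : S) (x : (S × S) × ZMod 2) :
    x1 e x = ((x.1.1 + x.2 • e, x.1.1), (0, x.1.2)) := rfl
lemma x2_apply (e : S) (x : (S × S) × ZMod 2) :
    x2 e x = ((0, x.1.1), (x.1.2 + x.2 • e, x.1.2)) := rfl

lemma x0_inj : Function.Injective (x0 S) := by
  intro x y h
  have h1 : x.1 = y.1 := congrArg (fun z => z.1.1) h
  have h2 : x.2 = y.2 := congrArg (fun z => z.2.1) h
  exact Prod.ext h1 h2

lemma xd_inj : Function.Injective (xd S) := by
  intro x y h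
  have h1 : x.1 = y.1 := congrArg (fun z => z.2.1) h
  have h2 : x.2 = y.2 := congrArg (fun z => z.2.2) h
  exact Prod.ext h1 h2

lemma smul_e {e : S} (he : e ≠ 0) {a b : ZMod 2} (h : a • e = b • e) : a = b := by
  have h1 : (a - b) • e = 0 := by rw [sub_smul, h, sub_self]
  rcases smul_eq_zero.1 h1 with h2 | h2
  · exact sub_eq_zero.1 h2
  · exact absurd h2 he

lemma x1_inj {e : S} (he : e ≠ 0) : Function.Injective (x1 e) := by
  intro x y h
  have h1 : x.1.1 = y.1.1 := congrArg (fun z => z.1.2) h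
  have h2 : x.1.2 = y.1.2 := congrArg (fun z => z.2.2) h
  have h3 : x.1.1 + x.2 • e = y.1.1 + y.2 • e := congrArg (fun z => z.1.1) h
  rw [h1] at h3
  exact Prod.ext (Prod.ext h1 h2) (smul_e he (add_left_cancel h3))

lemma x2_inj {e : S} (he : e ≠ 0) : Function.Injective (x2 e) := by
  intro x y h
  have h1 : x.1.1 = y.1.1 := congrArg (fun z => z.1.2) h
  have h2 : x.1.2 = y.1.2 := congrArg (fun z => z.2.2) h
  have h3 : x.1.2 + x.2 • e = y.1.2 + y.2 • e := congrArg (fun z => z.2.1) h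
  rw [h2] at h3
  exact Prod.ext (Prod.ext h1 h2) (smul_e he (add_left_cancel h3))

/-- `Y = H × 0` -/
def yl (H : Submodule (ZMod 2) K) : H →ₗ[ZMod 2] (K × K) :=
  (LinearMap.inl (ZMod 2) K K).comp H.subtype

/-- `Y = 0 × H` -/
def yr (H : Submodule (ZMod 2) K) : H →ₗ[ZMod 2] (K × K) :=
  (LinearMap.inr (ZMod 2) K K).comp H.subtype

lemma yl_apply (H : Submodule (ZMod 2) K) (x : H) : yl H x = ((x : K), 0) := rfl
lemma yr_apply (H : Submodule (ZMod 2) K) (x : H) : yr H x = (0, (x : K)) := rfl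

lemma yl_inj (H : Submodule (ZMod 2) K) : Function.Injective (yl H) := fun _ _ h =>
  Subtype.ext (congrArg Prod.fst h)

lemma yr_inj (H : Submodule (ZMod 2) K) : Function.Injective (yr H) := fun _ _ h =>
  Subtype.ext (congrArg Prod.snd h)

/-- the first member -/
def m0 (S : Type) [AddCommGroup S] [Module (ZMod 2) S] (kap : K) : Mb2 S K where
  X := LinearMap.range (x0 S)
  Y := LinearMap.range (grL 2 kap)
  s := fun _ => 0

/-- the second member -/
def md (d : S →ₗ[ZMod 2] S →ₗ[ZMod 2] ZMod 2) (w0 : K) : Mb2 S K where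
  X := LinearMap.range (xd S)
  Y := LinearMap.range (grL 2 (1 : K))
  s := fun x => (d x.1.2 x.2.2 • w0, 0)

/-- the third member -/
def m1 (e : S) (l : S →ₗ[ZMod 2] ZMod 2) (H : Submodule (ZMod 2) K) (g : K) : Mb2 S K where
  X := LinearMap.range (x1 e)
  Y := LinearMap.range (yl H)
  s := fun x => (l (x.1.1 + x.1.2) • g, 0)

/-- the fourth member -/
def m2 (e : S) (l : S →ₗ[ZMod 2] ZMod 2) (H : Submodule (ZMod 2) K) (g : K) : Mb2 S K where
  X := LinearMap.range (x2 e)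
  Y := LinearMap.range (yr H)
  s := fun x => (0, l (x.2.1 + x.2.2) • g)

variable {d : S →ₗ[ZMod 2] S →ₗ[ZMod 2] ZMod 2} {w0 : K} {kap : K} {e : S}
  {l : S →ₗ[ZMod 2] ZMod 2} {H : Submodule (ZMod 2) K} {g : K}

lemma clo0 : Clo2 d w0 (m0 S kap) := by
  rintro _ ⟨x, rfl⟩ _ ⟨x', rfl⟩
  have h : ((0 : K × K) - 0 - 0 - ((d x.1 (0 : S) • w0, d x.2 (0 : S) • w0) : K × K)) = 0 := by
    rw [map_zero, map_zero, zero_smul]
    simp
  show (0 : K × K) - 0 - 0 - ((d x.1 (0 : S) • w0, d x.2 (0 : S) • w0) : K × K) ∈ _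
  rw [h]
  exact Submodule.zero_mem _

lemma add_self_K (x : K) : x + x = 0 := by
  rw [← two_smul (ZMod 2) x]
  have : (2 : ZMod 2) = 0 := rfl
  rw [this, zero_smul]

lemma add_self_S (x : S) : x + x = 0 := by
  rw [← two_smul (ZMod 2) x]
  have : (2 : ZMod 2) = 0 := rfl
  rw [this, zero_smul]

lemma clod (hd : ∀ t u, d t u = d u t) : Clo2 d w0 (md d w0) := by
  rintro _ ⟨x, rfl⟩ _ ⟨x', rfl⟩
  refine ⟨d x.1 x'.2 • w0, ?_⟩
  rw [grL_apply, one_mul]
  show _ = ((d (x.1 + x'.1) (x.2 + x'.2) • w0, 0) : K × K) - (d x.1 x.2 • w0, 0) -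
    (d x'.1 x'.2 • w0, 0) - (d x.2 x'.1 • w0, d x.1 x'.2 • w0)
  rw [map_add, map_add, LinearMap.add_apply, LinearMap.add_apply, hd x.2 x'.1]
  apply Prod.ext
  · show _ = (d x.1 x.2 + d x'.1 x.2 + (d x.1 x'.2 + d x'.1 x'.2)) • w0 - d x.1 x.2 • w0 -
      d x'.1 x'.2 • w0 - d x'.1 x.2 • w0
    rw [add_smul, add_smul, add_smul]
    abel
  · show d x.1 x'.2 • w0 = (0 : K) - 0 - 0 - d x.1 x'.2 • w0
    rw [sub_zero, sub_zero, zero_sub]
    exact eq_neg_of_add_eq_zero_left (add_self_K _)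

lemma clo1 (hw : w0 ∈ H) : Clo2 d w0 (m1 e l H g) := by
  rintro _ ⟨x, rfl⟩ _ ⟨x', rfl⟩
  refine ⟨-(d (x.1.1 + x.2 • e) x'.1.1 • ⟨w0, hw⟩), ?_⟩
  rw [yl_apply]
  show _ = ((l ((x.1.1 + x.2 • e + (x'.1.1 + x'.2 • e)) + (x.1.1 + x'.1.1)) • g, 0) : K × K) -
    (l (x.1.1 + x.2 • e + x.1.1) • g, 0) - (l (x'.1.1 + x'.2 • e + x'.1.1) • g, 0) -
    (d (x.1.1 + x.2 • e) x'.1.1 • w0, d (0 : S) x'.1.2 • w0)
  have h1 : (x.1.1 + x.2 • e + (x'.1.1 + x'.2 • e)) + (x.1.1 + x'.1.1) =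
    (x.1.1 + x.2 • e + x.1.1) + (x'.1.1 + x'.2 • e + x'.1.1) := by abel
  rw [h1, map_add l, map_zero, LinearMap.zero_apply, zero_smul, add_smul]
  apply Prod.ext
  · show -(d (x.1.1 + x.2 • e) x'.1.1 • w0) = _ + _ - _ - _ - _
    abel
  · show (0 : K) = 0 - 0 - 0 - 0
    simp

lemma clo2 (hw : w0 ∈ H) : Clo2 d w0 (m2 e l H g) := by
  rintro _ ⟨x, rfl⟩ _ ⟨x', rfl⟩
  refine ⟨-(d (x.1.2 + x.2 • e) x'.1.2 • ⟨w0, hw⟩), ?_⟩
  rw [yr_apply]
  show _ = ((0, l ((x.1.2 + x.2 • e + (x'.1.2 + x'.2 • e)) + (x.1.2 + x'.1.2)) • g) : K × K) -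
    (0, l (x.1.2 + x.2 • e + x.1.2) • g) - (0, l (x'.1.2 + x'.2 • e + x'.1.2) • g) -
    (d (0 : S) x'.1.1 • w0, d (x.1.2 + x.2 • e) x'.1.2 • w0)
  have h1 : (x.1.2 + x.2 • e + (x'.1.2 + x'.2 • e)) + (x.1.2 + x'.1.2) =
    (x.1.2 + x.2 • e + x.1.2) + (x'.1.2 + x'.2 • e + x'.1.2) := by abel
  rw [h1, map_add l, map_zero, LinearMap.zero_apply, zero_smul, add_smul]
  apply Prod.ext
  · show (0 : K) = 0 - 0 - 0 - 0
    simp
  · show -(d (x.1.2 + x.2 • e) x'.1.2 • w0) = _ + _ - _ - _ - _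
    abel

lemma g0d (hk : kap ≠ 1) : GP2 (m0 S kap) (md d w0) := by
  have hk' : kap - 1 ≠ 0 := sub_ne_zero.2 hk
  constructor
  · rintro _ ⟨x, rfl⟩ ⟨y, hy⟩
    rw [grL_apply, grL_apply, Prod.mk.injEq] at hy
    obtain ⟨rfl, h3⟩ := hy
    have h4 : (kap - 1) * y = 0 := by rw [sub_mul, h3, sub_self]
    have h5 := (mul_eq_zero.1 h4).resolve_left hk'
    rw [h5, map_zero]
  · rintro _ ⟨x, rfl⟩ ⟨x', hx'⟩ _ _ _ _ _
    have h1 : x'.2 = x.1 := congrArg (fun z => z.1.1) hx'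
    have h2 : x'.1 = 0 := congrArg (fun z => z.1.2) hx'
    have h3 : x'.1 = x.2 := congrArg (fun z => z.2.1) hx'
    have h4 : x'.2 = 0 := congrArg (fun z => z.2.2) hx'
    have h5 : x = 0 := Prod.ext (by rw [← h1, h4]; rfl) (by rw [← h3, h2]; rfl)
    rw [h5, map_zero]

lemma g01 (hk : kap ≠ 0) (hl : l e = 1) (hg : g ∉ H) : GP2 (m0 S kap) (m1 e l H g) := by
  constructor
  · rintro _ ⟨x, rfl⟩ ⟨y, hy⟩
    rw [grL_apply, yl_apply, Prod.mk.injEq] at hy
    have h5 := (mul_eq_zero.1 hy.2.symm).resolve_left hk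
    rw [h5, map_zero]
  · rintro _ ⟨x, rfl⟩ ⟨x', hx'⟩ _ ⟨y, rfl⟩ _ ⟨z, rfl⟩ hs
    have h1 : x'.1.1 + x'.2 • e = x.1 := congrArg (fun z => z.1.1) hx'
    have h2 : x'.1.1 = 0 := congrArg (fun z => z.1.2) hx'
    have h3 : 0 = x.2 := congrArg (fun z => z.2.1) hx'
    rw [h2, zero_add] at h1
    rw [grL_apply, yl_apply] at hs
    change (0 : K × K) - (l (x.1 + 0) • g, 0) = _ at hs
    have h5 : (0 : K) - l (x.1 + 0) • g = y + z := congrArg Prod.fst hs
    have h6 : (0 : K) - 0 = kap * y + 0 := congrArg Prod.snd hs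
    rw [sub_zero, add_zero] at h6
    have h7 := (mul_eq_zero.1 h6.symm).resolve_left hk
    rw [h7, zero_add, ← h1, add_zero, map_smul, hl, smul_eq_mul, mul_one, zero_sub] at h5
    have h8 : x'.2 = 0 := by
      by_contra h
      apply hg
      have h9 : x'.2 = 1 := by
        have : ∀ a : ZMod 2, a ≠ 0 → a = 1 := by decide
        exact this _ h
      rw [h9, one_smul] at h5
      rw [← neg_neg g, h5]
      exact H.neg_mem z.2
    have h5 : x = 0 := Prod.ext (by rw [← h1, h8, zero_smul]; rfl) h3.symm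
    rw [h5, map_zero]

lemma g02 (hl : l e = 1) (hg : g ∉ H) : GP2 (m0 S kap) (m2 e l H g) := by
  constructor
  · rintro _ ⟨x, rfl⟩ ⟨y, hy⟩
    rw [grL_apply, yr_apply, Prod.mk.injEq] at hy
    rw [← hy.1, map_zero]
  · rintro _ ⟨x, rfl⟩ ⟨x', hx'⟩ _ ⟨y, rfl⟩ _ ⟨z, rfl⟩ hs
    have h1 : x'.1.2 + x'.2 • e = x.2 := congrArg (fun z => z.2.1) hx'
    have h2 : x'.1.2 = 0 := congrArg (fun z => z.2.2) hx'
    have h3 : 0 = x.1 := congrArg (fun z => z.1.1) hx'
    rw [h2, zero_add] at h1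
    rw [grL_apply, yr_apply] at hs
    change (0 : K × K) - (0, l (x.2 + 0) • g) = _ at hs
    have h5 : (0 : K) - l (x.2 + 0) • g = kap * y + z := congrArg Prod.snd hs
    have h6 : (0 : K) - 0 = y + 0 := congrArg Prod.fst hs
    rw [sub_zero, add_zero] at h6
    rw [← h6, mul_zero, zero_add, ← h1, add_zero, map_smul, hl, smul_eq_mul, mul_one,
      zero_sub] at h5
    have h8 : x'.2 = 0 := by
      by_contra h
      apply hg
      have h9 : x'.2 = 1 := by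
        have : ∀ a : ZMod 2, a ≠ 0 → a = 1 := by decide
        exact this _ h
      rw [h9, one_smul] at h5
      rw [← neg_neg g, h5]
      exact H.neg_mem z.2
    have h5 : x = 0 := Prod.ext h3.symm (by rw [← h1, h8, zero_smul]; rfl)
    rw [h5, map_zero]

lemma gd1 (hl : l e = 1) (hg : g ∉ H) : GP2 (md d w0) (m1 e l H g) := by
  constructor
  · rintro _ ⟨x, rfl⟩ ⟨y, hy⟩
    rw [grL_apply, yl_apply, Prod.mk.injEq, one_mul] at hy
    rw [← hy.2, map_zero]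
  · rintro _ ⟨x, rfl⟩ ⟨x', hx'⟩ _ ⟨y, rfl⟩ _ ⟨z, rfl⟩ hs
    have h1 : x'.1.1 + x'.2 • e = x.2 := congrArg (fun z => z.1.1) hx'
    have h2 : x'.1.1 = x.1 := congrArg (fun z => z.1.2) hx'
    have h3 : 0 = x.1 := congrArg (fun z => z.2.1) hx'
    rw [h2, ← h3, zero_add] at h1
    rw [grL_apply, yl_apply, one_mul] at hs
    change ((d x.1 x.2 • w0, 0) : K × K) - (l (x.2 + x.1) • g, 0) = _ at hs
    have h5 : d x.1 x.2 • w0 - l (x.2 + x.1) • g = y + z := congrArg Prod.fst hs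
    have h6 : (0 : K) - 0 = y + 0 := congrArg Prod.snd hs
    rw [sub_zero, add_zero] at h6
    rw [← h6, ← h3, map_zero, LinearMap.zero_apply, zero_smul, zero_add, ← h1, add_zero, map_smul,
      hl, smul_eq_mul, mul_one, zero_sub] at h5
    have h8 : x'.2 = 0 := by
      by_contra h
      apply hg
      have h9 : x'.2 = 1 := by
        have : ∀ a : ZMod 2, a ≠ 0 → a = 1 := by decide
        exact this _ h
      rw [h9, one_smul] at h5
      rw [← neg_neg g, h5]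
      exact H.neg_mem z.2
    have h5 : x = 0 := Prod.ext h3.symm (by rw [← h1, h8, zero_smul]; rfl)
    rw [h5, map_zero]

lemma gd2 (hl : l e = 1) (hg : g ∉ H) : GP2 (md d w0) (m2 e l H g) := by
  constructor
  · rintro _ ⟨x, rfl⟩ ⟨y, hy⟩
    rw [grL_apply, yr_apply, Prod.mk.injEq] at hy
    rw [← hy.1, map_zero]
  · rintro _ ⟨x, rfl⟩ ⟨x', hx'⟩ _ ⟨y, rfl⟩ _ ⟨z, rfl⟩ hs
    have h1 : x'.1.2 + x'.2 • e = x.1 := congrArg (fun z => z.2.1) hx'
    have h2 : x'.1.2 = x.2 := congrArg (fun z => z.2.2) hx'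
    have h3 : 0 = x.2 := congrArg (fun z => z.1.1) hx'
    rw [h2, ← h3, zero_add] at h1
    rw [grL_apply, yr_apply, one_mul] at hs
    change ((d x.1 x.2 • w0, 0) : K × K) - (0, l (x.1 + x.2) • g) = _ at hs
    have h5 : (0 : K) - l (x.1 + x.2) • g = y + z := congrArg Prod.snd hs
    have h6 : d x.1 x.2 • w0 - 0 = y + 0 := congrArg Prod.fst hs
    rw [← h3, map_zero, zero_smul, sub_zero, add_zero] at h6
    rw [← h6, ← h3, zero_add, ← h1, add_zero, map_smul, hl, smul_eq_mul, mul_one, zero_sub] at h5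
    have h8 : x'.2 = 0 := by
      by_contra h
      apply hg
      have h9 : x'.2 = 1 := by
        have : ∀ a : ZMod 2, a ≠ 0 → a = 1 := by decide
        exact this _ h
      rw [h9, one_smul] at h5
      rw [← neg_neg g, h5]
      exact H.neg_mem z.2
    have h5 : x = 0 := Prod.ext (by rw [← h1, h8, zero_smul]; rfl) h3.symm
    rw [h5, map_zero]

lemma g12 (hl : l e = 1) (hg : g ∉ H) : GP2 (m1 e l H g) (m2 e l H g) := by
  have key : ∀ (a : ZMod 2) (z : H), a • g = z → a = 0 := by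
    intro a z h5
    by_contra h
    apply hg
    have h9 : a = 1 := by
      have : ∀ a : ZMod 2, a ≠ 0 → a = 1 := by decide
      exact this _ h
    rw [h9, one_smul] at h5
    rw [h5]
    exact z.2
  constructor
  · rintro _ ⟨x, rfl⟩ ⟨y, hy⟩
    rw [yl_apply, yr_apply, Prod.mk.injEq] at hy
    rw [yl_apply, ← hy.1]
    rfl
  · rintro _ ⟨x, rfl⟩ ⟨x', hx'⟩ _ ⟨y, rfl⟩ _ ⟨z, rfl⟩ hs
    have h1 : 0 = x.1.1 + x.2 • e := congrArg (fun z => z.1.1) hx'
    have h2 : x'.1.1 = x.1.1 := congrArg (fun z => z.1.2) hx'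
    have h3 : x'.1.2 + x'.2 • e = 0 := congrArg (fun z => z.2.1) hx'
    have h4 : x'.1.2 = x.1.2 := congrArg (fun z => z.2.2) hx'
    have h3' : x.1.2 = - (x'.2 • e) := by
      rw [← h4]
      exact eq_neg_of_add_eq_zero_left h3
    have h1' : x.1.1 = - (x.2 • e) := eq_neg_of_add_eq_zero_left h1.symm
    rw [yl_apply, yr_apply] at hs
    change ((l (x.1.1 + x.2 • e + x.1.1) • g, 0) : K × K) - (0, l (0 + x.1.2) • g) = _ at hs
    have h5 : l (x.1.1 + x.2 • e + x.1.1) • g - 0 = y + 0 := congrArg Prod.fst hs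
    have h6 : (0 : K) - l (0 + x.1.2) • g = 0 + z := congrArg Prod.snd hs
    rw [← h1, zero_add, sub_zero, add_zero, h1', map_neg, map_smul, hl, smul_eq_mul, mul_one,
      ZMod.neg_eq_self_mod_two] at h5
    rw [zero_add, zero_add, h3', map_neg, map_smul, hl, smul_eq_mul, mul_one, neg_smul,
      zero_sub, neg_neg] at h6
    have h7 := key _ _ h5
    have h8 := key _ _ h6
    have h9 : x = 0 := by
      refine Prod.ext (Prod.ext ?_ ?_) h7
      · rw [h1', h7, zero_smul, neg_zero]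
        rfl
      · rw [h3', h8, zero_smul, neg_zero]
        rfl
    rw [h9, map_zero]

end L3

end Pool.Agent.XV
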