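import Pool.Agent.XV.M2

/-!
# Automorphisms of the data lift to the group
-/

set_option autoImplicit false

open Module

namespace Pool.Agent.XV

open Pool.Agent.APG Pool.Agent.Helper19.PCP

variable {p : ℕ} [Fact p.Prime] {V W : Type} [AddCommGroup V] [AddCommGroup W]
  [Module (ZMod p) V] [Module (ZMod p) W]

/-- two extensions with the same data are isomorphic, compatibly with the projections and the
inclusions -/
theorem exists_hom {q : Dat p V W} {P P' : Type} [Group P] [Group P'] (E : Ext q P)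
    (E' : Ext q P') : ∃ φ : P →* P', (∀ x, E'.pr (φ x) = E.pr x) ∧
      ∀ w, φ (E.inc w) = E'.inc w := by
  obtain ⟨θ, hθ, hgr⟩ := exists_theta E E'
  let f : θ.ker →* P := ((MonoidHom.fst P P').comp (fib E E').subtype).comp θ.ker.subtype
  let f' : θ.ker →* P' := ((MonoidHom.snd P P').comp (fib E E').subtype).comp θ.ker.subtype
  have hf : Function.Bijective f := by
    constructor
    · rw [injective_iff_map_eq_one]
      intro x hx
      have h1 : x.1.1.1 = 1 := hx
      have h2 : E'.pr x.1.1.2 = 1 := by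
        have h3 : E.pr x.1.1.1 = E'.pr x.1.1.2 := x.1.2
        rw [← h3, h1, map_one]
      obtain ⟨w, hw⟩ := E'.exists_inc h2
      have h4 := hθ x.1 w h1 hw
      have h5 : θ x.1 = 1 := x.2
      rw [h5] at h4
      apply Subtype.ext
      apply Subtype.ext
      apply Prod.ext
      · exact h1
      · show x.1.1.2 = 1
        rw [← hw, ← h4, map_one]
    · intro x
      obtain ⟨x', hx'⟩ := E'.surj (E.pr x)
      let z : fib E E' := ⟨(x, x'), hx'.symm⟩
      let y : fib E E' := ⟨(1, E'.inc (θ z)⁻¹), by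
        show E.pr 1 = E'.pr (E'.inc _)
        rw [map_one, E'.pr_inc]⟩
      have h1 : θ (z * y) = 1 := by
        rw [map_mul, hθ y (θ z)⁻¹ rfl rfl, mul_inv_cancel]
      refine ⟨⟨z * y, h1⟩, ?_⟩
      show x * 1 = x
      rw [mul_one]
  let g := (MulEquiv.ofBijective f hf).symm
  have hg : ∀ z : θ.ker, g (f z) = z := fun z => (MulEquiv.ofBijective f hf).symm_apply_apply z
  have hg' : ∀ x : P, f (g x) = x := fun x => (MulEquiv.ofBijective f hf).apply_symm_apply x
  refine ⟨f'.comp g.toMonoidHom, ?_, ?_⟩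
  · intro x
    have h1 : E.pr (g x).1.1.1 = E'.pr (g x).1.1.2 := (g x).1.2
    have h2 : (g x).1.1.1 = x := hg' x
    rw [h2] at h1
    exact h1.symm
  · intro w
    let z : fib E E' := ⟨(E.inc w, E'.inc w), by
      show E.pr (E.inc w) = E'.pr (E'.inc w)
      rw [E.pr_inc, E'.pr_inc]⟩
    have hz : θ z = 1 := hgr z ⟨w, rfl, rfl⟩
    have h1 := hg ⟨z, hz⟩
    have h2 : f ⟨z, hz⟩ = E.inc w := rfl
    rw [h2] at h1
    show f' (g (E.inc w)) = E'.inc w
    rw [h1]
    rfl

/-- ROW L0a: an automorphism of the data lifts to an endomorphism of the group -/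
theorem exists_lift {q : Dat p V W} {P : Type} [Group P] (E : Ext q P) (γ : Gam p V W)
    (hγ : γ • q = q) :
    ∃ φ : P →* P, (∀ x, (E.pr (φ x)).toAdd = γ.1 (E.pr x).toAdd) ∧
      ∀ w : W, φ (E.inc (Multiplicative.ofAdd w)) = E.inc (Multiplicative.ofAdd (γ.2 w)) := by
  obtain ⟨h1, h2⟩ := (smul_eq_iff γ q).1 hγ
  obtain ⟨φ, h3, h4⟩ := exists_hom (Ext.transport E γ.1 γ.2 h1 h2) E
  refine ⟨φ, fun x => congrArg Multiplicative.toAdd (h3 x), fun w => ?_⟩
  have h5 := h4 (Multiplicative.ofAdd (γ.2 w))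
  have h6 : (Ext.transport E γ.1 γ.2 h1 h2).inc (Multiplicative.ofAdd (γ.2 w)) =
      E.inc (Multiplicative.ofAdd (γ.2.symm (γ.2 w))) := rfl
  rw [h6, LinearEquiv.symm_apply_apply] at h5
  exact h5

end Pool.Agent.XV
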