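import Pool.Agent.XV.Defs
import Pool.Agent.APG.PcpB2

/-!
# Exact values of `T (P × P)` (MP_47f3f4_co): row M1, partial congruence partitions from families
of pairs of subspaces
-/

set_option autoImplicit false

open Module

namespace Pool.Agent.XV

open Pool.Agent.APG Pool.Agent.Helper19.PCP

variable {p : ℕ} [Fact p.Prime] {V W : Type} [AddCommGroup V] [AddCommGroup W]
  [Module (ZMod p) V] [Module (ZMod p) W]

/-- the subgroup given by the subspaces `X` and `Y` and the linear map `s` -/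
def fsub (q : Dat p V W) (X : Submodule (ZMod p) (V × V)) (Y : Submodule (ZMod p) (W × W))
    (s : (V × V) →ₗ[ZMod p] (W × W))
    (hbe : ∀ x ∈ X, ∀ x' ∈ X, (q.be x.1 x'.1, q.be x.2 x'.2) ∈ Y) : Subgroup (BGrp q × BGrp q) where
  carrier := {g | (g.1.v, g.2.v) ∈ X ∧ ((g.1.w, g.2.w) : W × W) - s (g.1.v, g.2.v) ∈ Y}
  one_mem' := by
    constructor
    · exact X.zero_mem
    · have h : ((((1 : BGrp q × BGrp q)).1.w, ((1 : BGrp q × BGrp q)).2.w) : W × W) -
          s (((1 : BGrp q × BGrp q)).1.v, ((1 : BGrp q × BGrp q)).2.v) = 0 := by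
        show (0 : W × W) - s (0 : V × V) = 0
        rw [map_zero, sub_zero]
      rw [h]
      exact Y.zero_mem
  mul_mem' := by
    rintro g g' ⟨h1, h2⟩ ⟨h1', h2'⟩
    constructor
    · exact X.add_mem h1 h1'
    · have h : (((g * g').1.w, (g * g').2.w) : W × W) - s ((g * g').1.v, (g * g').2.v) =
          (((g.1.w, g.2.w) : W × W) - s (g.1.v, g.2.v)) +
          (((g'.1.w, g'.2.w) : W × W) - s (g'.1.v, g'.2.v)) +
          (2⁻¹ : ZMod p) • ((q.be g.1.v g'.1.v, q.be g.2.v g'.2.v) : W × W) := by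
        have e1 : (((g * g').1.v, (g * g').2.v) : V × V) = (g.1.v, g.2.v) + (g'.1.v, g'.2.v) := rfl
        have e2 : (((g * g').1.w, (g * g').2.w) : W × W) = (g.1.w, g.2.w) + (g'.1.w, g'.2.w) +
          (2⁻¹ : ZMod p) • ((q.be g.1.v g'.1.v, q.be g.2.v g'.2.v) : W × W) := rfl
        rw [e1, e2, map_add]
        abel
      show (((g * g').1.w, (g * g').2.w) : W × W) - s ((g * g').1.v, (g * g').2.v) ∈ Y
      rw [h]
      exact Y.add_mem (Y.add_mem h2 h2') (Y.smul_mem _ (hbe _ h1 _ h1'))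
  inv_mem' := by
    rintro g ⟨h1, h2⟩
    constructor
    · exact X.neg_mem h1
    · have h : (((g⁻¹).1.w, (g⁻¹).2.w) : W × W) - s ((g⁻¹).1.v, (g⁻¹).2.v) =
          -(((g.1.w, g.2.w) : W × W) - s (g.1.v, g.2.v)) := by
        have e1 : (((g⁻¹).1.v, (g⁻¹).2.v) : V × V) = -(g.1.v, g.2.v) := rfl
        have e2 : (((g⁻¹).1.w, (g⁻¹).2.w) : W × W) = -(g.1.w, g.2.w) := rfl
        rw [e1, e2, map_neg]
        abel
      show (((g⁻¹).1.w, (g⁻¹).2.w) : W × W) - s ((g⁻¹).1.v, (g⁻¹).2.v) ∈ Y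
      rw [h]
      exact Y.neg_mem h2

variable {q : Dat p V W} {X : Submodule (ZMod p) (V × V)} {Y : Submodule (ZMod p) (W × W)}
    {s : (V × V) →ₗ[ZMod p] (W × W)}
    {hbe : ∀ x ∈ X, ∀ x' ∈ X, (q.be x.1 x'.1, q.be x.2 x'.2) ∈ Y}

lemma mem_fsub (g : BGrp q × BGrp q) : g ∈ fsub q X Y s hbe ↔
    (g.1.v, g.2.v) ∈ X ∧ ((g.1.w, g.2.w) : W × W) - s (g.1.v, g.2.v) ∈ Y := Iff.rfl

/-- the order of the subgroup -/
lemma card_fsub : Nat.card (fsub q X Y s hbe) = Nat.card X * Nat.card Y := by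
  rw [← Nat.card_prod]
  refine Nat.card_congr
    { toFun := fun g => (⟨(g.1.1.v, g.1.2.v), g.2.1⟩, ⟨_, g.2.2⟩)
      invFun := fun z => ⟨(⟨z.1.1.1, (z.2.1 + s z.1.1).1⟩, ⟨z.1.1.2, (z.2.1 + s z.1.1).2⟩), ?_⟩
      left_inv := ?_
      right_inv := ?_ }
  · constructor
    · exact z.1.2
    · have h : ((((z.2.1 + s z.1.1).1, (z.2.1 + s z.1.1).2) : W × W)) - s (z.1.1.1, z.1.1.2) =
          z.2.1 := by
        show (z.2.1 + s z.1.1) - s z.1.1 = z.2.1
        rw [add_sub_cancel_right]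
      show ((((z.2.1 + s z.1.1).1, (z.2.1 + s z.1.1).2) : W × W)) - s (z.1.1.1, z.1.1.2) ∈ Y
      rw [h]
      exact z.2.2
  · rintro ⟨⟨⟨v, w⟩, ⟨v', w'⟩⟩, h1, h2⟩
    apply Subtype.ext
    have h : ((w, w') : W × W) - s (v, v') + s (v, v') = (w, w') := sub_add_cancel _ _
    apply Prod.ext
    · apply BGrp.ext
      · rfl
      · exact congrArg Prod.fst h
    · apply BGrp.ext
      · rfl
      · exact congrArg Prod.snd h
  · rintro ⟨⟨x, hx⟩, ⟨y, hy⟩⟩
    apply Prod.ext
    · rfl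
    · apply Subtype.ext
      show (y + s x) - s x = y
      rw [add_sub_cancel_right]

lemma card_BGrp (q : Dat p V W) : Nat.card (BGrp q) = Nat.card V * Nat.card W := by
  rw [← Nat.card_prod]
  exact Nat.card_congr
    { toFun := fun g => (g.v, g.w)
      invFun := fun z => ⟨z.1, z.2⟩
      left_inv := fun _ => rfl
      right_inv := fun _ => rfl }

/-- ROW M1 -/
theorem le_T_of_family [Finite V] [Finite W] [Nontrivial W] (q : Dat p V W) {ι : Type} [Fintype ι]
    (X : ι → Submodule (ZMod p) (V × V)) (Y : ι → Submodule (ZMod p) (W × W))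
    (s : ι → (V × V) →ₗ[ZMod p] (W × W))
    (hbe : ∀ i, ∀ x ∈ X i, ∀ x' ∈ X i, (q.be x.1 x'.1, q.be x.2 x'.2) ∈ Y i)
    (hdim : ∀ i, finrank (ZMod p) (X i) + finrank (ZMod p) (Y i) =
      finrank (ZMod p) V + finrank (ZMod p) W)
    (hX : ∀ i j, i ≠ j → ∀ x ∈ X i, x ∈ X j → s i x - s j x ∈ Y i ⊔ Y j → x = 0)
    (hY : ∀ i j, i ≠ j → Y i ⊓ Y j = ⊥) :
    Fintype.card ι ≤ T (BGrp q × BGrp q) := by
  classical
  have hVf : FiniteDimensional (ZMod p) V := Module.Finite.of_finite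
  have hWf : FiniteDimensional (ZMod p) W := Module.Finite.of_finite
  let U : ι → Subgroup (BGrp q × BGrp q) := fun i => fsub q (X i) (Y i) (s i) (hbe i)
  have hcard : ∀ i, Nat.card (U i) = Nat.card (BGrp q) := by
    intro i
    show Nat.card (fsub q (X i) (Y i) (s i) (hbe i)) = _
    rw [card_fsub, card_BGrp, Module.natCard_eq_pow_finrank (K := ZMod p) (V := X i),
      Module.natCard_eq_pow_finrank (K := ZMod p) (V := Y i),
      Module.natCard_eq_pow_finrank (K := ZMod p) (V := V),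
      Module.natCard_eq_pow_finrank (K := ZMod p) (V := W), ← pow_add, ← pow_add, hdim]
  have hmeet : ∀ i j, i ≠ j → U i ⊓ U j = ⊥ := by
    intro i j hij
    rw [eq_bot_iff]
    rintro g hg
    rw [Subgroup.mem_inf] at hg
    obtain ⟨⟨h1, h2⟩, ⟨h3, h4⟩⟩ := hg
    have h5 : ((g.1.v, g.2.v) : V × V) = 0 := by
      apply hX i j hij _ h1 h3
      have e : s i (g.1.v, g.2.v) - s j (g.1.v, g.2.v) =
          -(((g.1.w, g.2.w) : W × W) - s i (g.1.v, g.2.v)) +
          (((g.1.w, g.2.w) : W × W) - s j (g.1.v, g.2.v)) := by abel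
      rw [e]
      exact Submodule.add_mem_sup ((Y i).neg_mem h2) h4
    have h6 : ((g.1.w, g.2.w) : W × W) = 0 := by
      rw [h5, map_zero, sub_zero] at h2 h4
      have : ((g.1.w, g.2.w) : W × W) ∈ Y i ⊓ Y j := ⟨h2, h4⟩
      rw [hY i j hij] at this
      exact this
    rw [Subgroup.mem_bot]
    apply Prod.ext
    · apply BGrp.ext
      · exact congrArg Prod.fst h5
      · exact congrArg Prod.fst h6
    · apply BGrp.ext
      · exact congrArg Prod.snd h5
      · exact congrArg Prod.snd h6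
  have hone : 1 < Nat.card (BGrp q) := by
    obtain ⟨w, hw⟩ := exists_ne (0 : W)
    have : Nontrivial (BGrp q) := ⟨⟨0, w⟩, 1, fun h => hw (congrArg BGrp.w h)⟩
    exact Finite.one_lt_card
  have hinj : Function.Injective U := by
    intro i j h
    by_contra hij
    have h1 := hmeet i j hij
    rw [h, inf_idem] at h1
    have h2 := hcard j
    rw [h1, Subgroup.card_bot] at h2
    omega
  have h := le_T_prod (Finset.univ.image U) (by
    constructor
    · intro A hA
      rw [Finset.mem_image] at hA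
      obtain ⟨i, -, rfl⟩ := hA
      exact hcard i
    · intro A hA B hB hAB
      rw [Finset.mem_image] at hA hB
      obtain ⟨i, -, rfl⟩ := hA
      obtain ⟨j, -, rfl⟩ := hB
      exact hmeet i j (fun h => hAB (by rw [h])))
  rwa [Finset.card_image_of_injective _ hinj, Finset.card_univ] at h

end Pool.Agent.XV
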