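import Pool.Agent.XV.Defs

/-!
# The members of a partial congruence partition: images and traces
-/

set_option autoImplicit false

open Module

namespace Pool.Agent.XV

open Pool.Agent.APG Pool.Agent.Helper19.PCP

variable {p : ℕ} [Fact p.Prime] {V W : Type} [AddCommGroup V] [AddCommGroup W]
  [Module (ZMod p) V] [Module (ZMod p) W]

section mem
variable [Finite V] [Finite W] {q : Dat p V W} {P : Type} [Group P]

/-- ROW U0 -/
theorem dim_add (E : Ext q P) {𝒰 : Finset (Subgroup (P × P))} (hU : IsPCP (Nat.card P) 𝒰)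
    {U : Subgroup (P × P)} (h1 : U ∈ 𝒰) :
    finrank (ZMod p) (imU E U) + finrank (ZMod p) (trU E U) =
      finrank (ZMod p) V + finrank (ZMod p) W := by
  have e1 := card_U E U
  rw [hU.1 U h1, card_P E] at e1
  exact (Nat.pow_right_injective (Fact.out : p.Prime).one_lt e1).symm

/-- ROW U0 -/
theorem imU_sup (E : Ext q P) {𝒰 : Finset (Subgroup (P × P))} (hU : IsPCP (Nat.card P) 𝒰)
    {U U' : Subgroup (P × P)} (h1 : U ∈ 𝒰) (h2 : U' ∈ 𝒰) (hne : U ≠ U') :
    imU E U ⊔ imU E U' = ⊤ := by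
  have hp : 1 < p := (Fact.out : p.Prime).one_lt
  have hfP : Finite P := Nat.finite_of_card_ne_zero (by
    rw [card_P E]
    exact pow_ne_zero _ (by omega))
  have e1 : Subgroup.IsComplement' U U' := by
    apply Subgroup.isComplement'_of_card_mul_and_disjoint
    · rw [hU.1 U h1, hU.1 U' h2, Nat.card_prod]
    · rw [disjoint_iff]
      exact hU.2 U h1 U' h2 hne
  rw [eq_top_iff]
  rintro v -
  obtain ⟨x, hx⟩ := pr2_surj E (Multiplicative.ofAdd v)
  obtain ⟨⟨a, b⟩, hab⟩ := e1.2 x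
  have hab' : (a : P × P) * (b : P × P) = x := hab
  rw [Submodule.mem_sup]
  refine ⟨((E.pr a.1.1).toAdd, (E.pr a.1.2).toAdd), ?_,
    ((E.pr b.1.1).toAdd, (E.pr b.1.2).toAdd), ?_, ?_⟩
  · rw [mem_imU]
    exact ⟨a.1, a.2, rfl, rfl⟩
  · rw [mem_imU]
    exact ⟨b.1, b.2, rfl, rfl⟩
  · have e3 : ((E.pr x.1).toAdd, (E.pr x.2).toAdd) = v := Multiplicative.ofAdd.injective hx
    rw [← e3, ← hab']
    ext
    · simp
    · simp

/-- ROW U0 -/
theorem trU_inf (E : Ext q P) {𝒰 : Finset (Subgroup (P × P))} (hU : IsPCP (Nat.card P) 𝒰)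
    {U U' : Subgroup (P × P)} (h1 : U ∈ 𝒰) (h2 : U' ∈ 𝒰) (hne : U ≠ U') :
    trU E U ⊓ trU E U' = ⊥ := by
  rw [eq_bot_iff]
  rintro w ⟨hw, hw'⟩
  have e1 : U ⊓ U' = ⊥ := hU.2 U h1 U' h2 hne
  have e3 : inc2 E (Multiplicative.ofAdd w) ∈ U ⊓ U' := ⟨hw, hw'⟩
  rw [e1, Subgroup.mem_bot] at e3
  have e4 : (Multiplicative.ofAdd w) = 1 := inc2_inj E (by rw [e3, map_one])
  rw [Submodule.mem_bot]
  exact Multiplicative.ofAdd.injective e4

omit [Finite W] in
/-- the dimension of a subspace of `V × V` is at most `2 dim V` and so on -/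
theorem finrank_sup_le {E : Type} [AddCommGroup E] [Module (ZMod p) E] [Finite E]
    (X X' : Submodule (ZMod p) E) (h : X ⊔ X' = ⊤) :
    finrank (ZMod p) E ≤ finrank (ZMod p) X + finrank (ZMod p) X' := by
  have e3 := Submodule.finrank_add_le_finrank_add_finrank X X'
  rwa [h, finrank_top] at e3

end mem

/-- ROW U0: the linear form which kills the trace of a non-axis member -/
theorem exists_lam (Y : Submodule (ZMod p) (W × W)) (w0 : W) (h1 : ((w0, 0) : W × W) ∉ Y)
    (h2 : ((0, w0) : W × W) ∉ Y) : ∃ l1 l2 : ZMod p, l1 ≠ 0 ∧ l2 ≠ 0 ∧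
      ∀ a b : ZMod p, ((a • w0, b • w0) : W × W) ∈ Y → l1 * a + l2 * b = 0 := by
  by_cases h : ∃ a b : ZMod p, ((a • w0, b • w0) : W × W) ∈ Y ∧ (a ≠ 0 ∨ b ≠ 0)
  · obtain ⟨a, b, hab, hne⟩ := h
    have ha : a ≠ 0 := by
      rintro rfl
      have hb : b ≠ 0 := by simpa using hne
      apply h2
      have h3 := Y.smul_mem b⁻¹ hab
      have h4 : b⁻¹ • (((0 : ZMod p) • w0, b • w0) : W × W) = (0, w0) := by
        rw [zero_smul, Prod.smul_mk, smul_zero, smul_smul, inv_mul_cancel₀ hb, one_smul]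
      rwa [h4] at h3
    have hb : b ≠ 0 := by
      rintro rfl
      apply h1
      have h3 := Y.smul_mem a⁻¹ hab
      have h4 : a⁻¹ • ((a • w0, (0 : ZMod p) • w0) : W × W) = (w0, 0) := by
        rw [zero_smul, Prod.smul_mk, smul_zero, smul_smul, inv_mul_cancel₀ ha, one_smul]
      rwa [h4] at h3
    refine ⟨b, -a, hb, neg_ne_zero.2 ha, ?_⟩
    intro a' b' hab'
    by_contra hne'
    -- `b' a - a' b ≠ 0` : then `(0, w0) ∈ Y`
    apply h2
    have h3 := Y.sub_mem (Y.smul_mem a hab') (Y.smul_mem a' hab)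
    have h4 : a • ((a' • w0, b' • w0) : W × W) - a' • ((a • w0, b • w0) : W × W) =
        (0, (a * b' - a' * b) • w0) := by
      rw [Prod.smul_mk, Prod.smul_mk, Prod.mk_sub_mk, smul_smul, smul_smul, smul_smul, smul_smul,
        mul_comm a a', sub_self, ← sub_smul]
    rw [h4] at h3
    have h5 : a * b' - a' * b ≠ 0 := by
      intro h6
      apply hne'
      linear_combination -h6
    have h6 := Y.smul_mem (a * b' - a' * b)⁻¹ h3
    rwa [Prod.smul_mk, smul_zero, smul_smul, inv_mul_cancel₀ h5, one_smul] at h6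
  · push Not at h
    refine ⟨1, 1, one_ne_zero, one_ne_zero, ?_⟩
    intro a b hab
    obtain ⟨h3, h4⟩ := h a b hab
    rw [h3, h4]
    ring

lemma om_swap {om : V →ₗ[ZMod p] V →ₗ[ZMod p] ZMod p} (halt : ∀ v, om v v = 0) (v w : V) :
    om w v = - om v w := by
  have h := halt (v + w)
  rw [map_add, map_add, LinearMap.add_apply, LinearMap.add_apply, halt, halt, zero_add,
    add_zero] at h
  exact eq_neg_of_add_eq_zero_left h

/-- the form `l1 om(v1, v1') + l2 om(v2, v2')` on `V × V` -/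
def bform (om : V →ₗ[ZMod p] V →ₗ[ZMod p] ZMod p) (l1 l2 : ZMod p) :
    LinearMap.BilinForm (ZMod p) (V × V) :=
  l1 • om.compl₁₂ (LinearMap.fst (ZMod p) V V) (LinearMap.fst (ZMod p) V V) +
    l2 • om.compl₁₂ (LinearMap.snd (ZMod p) V V) (LinearMap.snd (ZMod p) V V)

lemma bform_apply (om : V →ₗ[ZMod p] V →ₗ[ZMod p] ZMod p) (l1 l2 : ZMod p) (x y : V × V) :
    bform om l1 l2 x y = l1 * om x.1 y.1 + l2 * om x.2 y.2 := rfl

/-- ROW U0: isotropic subspaces -/
theorem iso_le [Finite V] {om : V →ₗ[ZMod p] V →ₗ[ZMod p] ZMod p}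
    (hnd : Nd om) {l1 l2 : ZMod p} (h1 : l1 ≠ 0) (h2 : l2 ≠ 0) (X : Submodule (ZMod p) (V × V))
    (hX : ∀ x ∈ X, ∀ y ∈ X, l1 * om x.1 y.1 + l2 * om x.2 y.2 = 0) :
    finrank (ZMod p) X ≤ finrank (ZMod p) V ∧ (finrank (ZMod p) X = finrank (ZMod p) V →
      ∀ z : V × V, (∀ x ∈ X, l1 * om x.1 z.1 + l2 * om x.2 z.2 = 0) → z ∈ X) := by
  have hfin : Module.Finite (ZMod p) V := Module.Finite.of_finite
  have hker : (bform om l1 l2).ker = ⊥ := by
    rw [eq_bot_iff]
    intro x hx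
    rw [LinearMap.mem_ker] at hx
    have h3 : ∀ y : V × V, l1 * om x.1 y.1 + l2 * om x.2 y.2 = 0 := fun y => by
      rw [← bform_apply, hx]
      rfl
    rw [Submodule.mem_bot]
    apply Prod.ext
    · apply hnd
      intro v
      have h4 := h3 (v, 0)
      simp only [map_zero, mul_zero, add_zero] at h4
      exact (mul_eq_zero.1 h4).resolve_left h1
    · apply hnd
      intro v
      have h4 := h3 (0, v)
      simp only [map_zero, mul_zero, zero_add] at h4
      exact (mul_eq_zero.1 h4).resolve_left h2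
  have h3 := LinearMap.BilinForm.finrank_add_finrank_orthogonal' (B := bform om l1 l2) X
  rw [hker, inf_bot_eq, finrank_bot, add_zero, finrank_prod] at h3
  have h4 : X ≤ (bform om l1 l2).orthogonal X := by
    intro x hx y hy
    exact hX y hy x hx
  have h5 := Submodule.finrank_mono h4
  refine ⟨by omega, ?_⟩
  intro h6 z hz
  have h7 : X = (bform om l1 l2).orthogonal X :=
    Submodule.eq_of_le_of_finrank_le h4 (by omega)
  rw [h7]
  intro x hx
  exact hz x hx

end Pool.Agent.XV
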