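import Pool.Agent.XV.Defs

/-!
# The pairing lemma
-/

set_option autoImplicit false

open Module

namespace Pool.Agent.XV

open Pool.Agent.APG Pool.Agent.Helper19.PCP
open scoped commutatorElement

section A

/-- the number of linear characters of a finite group is at most its order -/
lemma card_char_le (H : Type) [Group H] [Finite H] :
    Finite (H →* ℂˣ) ∧ Nat.card (H →* ℂˣ) ≤ Nat.card H := by
  classical
  have : Fintype H := Fintype.ofFinite H
  have hli := linearIndependent_monoidHom H ℂ
  have hinj : Function.Injective (fun f : H →* ℂˣ => (Units.coeHom ℂ).comp f) := by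
    intro f g h
    ext x
    have h1 := DFunLike.congr_fun h x
    exact h1
  have h2 : LinearIndependent ℂ (fun f : H →* ℂˣ => ((Units.coeHom ℂ).comp f : H → ℂ)) :=
    hli.comp _ hinj
  have h4 : Finite (H →* ℂˣ) := h2.finite
  have : Fintype (H →* ℂˣ) := Fintype.ofFinite _
  have h3 := h2.fintype_card_le_finrank
  rw [Module.finrank_fintype_fun_eq_card] at h3
  refine ⟨h4, ?_⟩
  rwa [Nat.card_eq_fintype_card, Nat.card_eq_fintype_card]

variable {G : Type} [Group G]

/-- the pairing lemma -/
theorem perp_card [Finite G] (hc : ∀ x y z : G, Commute ⁅x, y⁆ z)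
    (lam : Subgroup.center G →* ℂˣ)
    (hnd : ∀ g : G, (∀ x : G, lam (cz hc g x) = 1) → g ∈ Subgroup.center G) (U : Subgroup G) :
    Nat.card (perp hc lam U) * Nat.card U ≤
      Nat.card G * Nat.card (U ⊓ Subgroup.center G : Subgroup G) := by
  classical
  have hnor : (perp hc lam U).Normal := by
    constructor
    intro n hn g u hu
    have h1 : cz hc (g * n * g⁻¹) u = cz hc n u := by
      rw [cz_mul_left, cz_mul_left, cz_inv_left, cen_comm (cz hc g u), mul_assoc, mul_inv_cancel,
        mul_one]
    rw [h1]
    exact hn u hu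
  -- the homomorphism `U → Hom(G / U', ℂˣ)`
  let f : U →* ((G ⧸ perp hc lam U) →* ℂˣ) :=
    { toFun := fun u => QuotientGroup.lift (perp hc lam U)
        { toFun := fun g => lam (cz hc g u)
          map_one' := by rw [cz_one_left, map_one]
          map_mul' := fun a b => by rw [cz_mul_left, map_mul] }
        (fun g hg => hg u u.2)
      map_one' := by
        ext g
        show ((lam (cz hc g (1 : G)) : ℂˣ) : ℂ) = _
        rw [cz_one_right, map_one]
        rfl
      map_mul' := fun a b => by
        ext g
        show ((lam (cz hc g (a * b : G)) : ℂˣ) : ℂ) = _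
        rw [cz_mul_right, map_mul]
        rfl }
  have hf : ∀ (u : U) (g : G), f u (QuotientGroup.mk g) = lam (cz hc g u) := fun u g => rfl
  have hker : ∀ u : U, u ∈ f.ker → (u : G) ∈ Subgroup.center G := by
    intro u hu
    apply hnd
    intro x
    have h1 : f u (QuotientGroup.mk x) = 1 := by
      rw [MonoidHom.mem_ker] at hu
      rw [hu]
      rfl
    rw [hf] at h1
    rw [cz_swap, map_inv, h1, inv_one]
  obtain ⟨hfin, hcard⟩ := card_char_le (G ⧸ perp hc lam U)
  have h1 : Nat.card f.range ≤ Nat.card (G ⧸ perp hc lam U) :=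
    (Nat.card_le_card_of_injective _ Subtype.val_injective).trans hcard
  have h2 : Nat.card f.ker ≤ Nat.card (U ⊓ Subgroup.center G : Subgroup G) :=
    Nat.card_le_card_of_injective
      (fun u : f.ker => (⟨u.1.1, u.1.2, hker u.1 u.2⟩ : (U ⊓ Subgroup.center G : Subgroup G)))
      (by
        intro a b hab
        apply Subtype.ext
        apply Subtype.ext
        exact congrArg (fun x => x.1) hab)
  have h3 : Nat.card f.ker * Nat.card f.range = Nat.card U := by
    rw [← Subgroup.index_ker]
    exact Subgroup.card_mul_index _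
  have h4 : Nat.card (G ⧸ perp hc lam U) * Nat.card (perp hc lam U) = Nat.card G :=
    (Subgroup.card_eq_card_quotient_mul_card_subgroup _).symm
  calc Nat.card (perp hc lam U) * Nat.card U
      = Nat.card (perp hc lam U) * (Nat.card f.ker * Nat.card f.range) := by rw [h3]
    _ ≤ Nat.card (perp hc lam U) * (Nat.card (U ⊓ Subgroup.center G : Subgroup G) *
        Nat.card (G ⧸ perp hc lam U)) :=
          Nat.mul_le_mul_left _ (Nat.mul_le_mul h2 h1)
    _ = Nat.card G * Nat.card (U ⊓ Subgroup.center G : Subgroup G) := by
          rw [← h4]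
          ring

end A

end Pool.Agent.XV
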