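import Pool.Agent.XV.Defs

/-!
# Symplectic spaces (rows S1, S2)
-/

set_option autoImplicit false

open Module

namespace Pool.Agent.XV

open Pool.Agent.APG Pool.Agent.Helper19.PCP

section tf

variable (p : ℕ) [Fact p.Prime] (F : Type) [Field F] [Algebra (ZMod p) F]

/-- ROW S2 -/
theorem tf_nd [Finite F] : Nd (tf p F) := by
  have hnd : ∀ a : F, (∀ b : F, Algebra.trace (ZMod p) F (a * b) = 0) → a = 0 := by
    intro a ha
    have h1 := traceForm_nondegenerate (ZMod p) F
    exact h1.1 a fun b => by
      rw [Algebra.traceForm_apply]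
      exact ha b
  intro v hv
  have h1 : v.1 = 0 := hnd v.1 fun b => by
    have h2 := hv (0, b)
    rw [tf_apply] at h2
    simpa using h2
  have h3 : v.2 = 0 := hnd v.2 fun b => by
    have h2 := hv (b, 0)
    rw [tf_apply] at h2
    simpa using h2
  exact Prod.ext h1 h3

end tf

section sym

variable {p : ℕ} [Fact p.Prime]

/-- the orthogonal space of two vectors -/
def orth {V : Type} [AddCommGroup V] [Module (ZMod p) V]
    (om : V →ₗ[ZMod p] V →ₗ[ZMod p] ZMod p) (x y : V) : Submodule (ZMod p) V :=
  LinearMap.ker ((om.flip x).prod (om.flip y))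

variable {V : Type} [AddCommGroup V] [Module (ZMod p) V]
    {om : V →ₗ[ZMod p] V →ₗ[ZMod p] ZMod p}

lemma mem_orth {x y v : V} : v ∈ orth om x y ↔ om v x = 0 ∧ om v y = 0 := by
  rw [orth, LinearMap.mem_ker]
  exact Prod.mk_eq_zero

lemma om_swap' (halt : ∀ v, om v v = 0) (x y : V) : om y x = - om x y := by
  have h := halt (x + y)
  simp only [map_add, LinearMap.add_apply, halt, zero_add, add_zero] at h
  exact eq_neg_of_add_eq_zero_left h

/-- a hyperbolic pair -/
lemma exists_pair (hnd : Nd om) {x : V} (hx : x ≠ 0) : ∃ y, om x y = 1 := by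
  have h : ¬ ∀ v', om x v' = 0 := fun h => hx (hnd x h)
  push Not at h
  obtain ⟨y, hy⟩ := h
  exact ⟨(om x y)⁻¹ • y, by rw [map_smul, smul_eq_mul, inv_mul_cancel₀ hy]⟩

lemma finrank_orth [Finite V] (halt : ∀ v, om v v = 0) {x y : V} (hxy : om x y = 1) :
    finrank (ZMod p) (orth om x y) + 2 = finrank (ZMod p) V := by
  have h1 := LinearMap.finrank_range_add_finrank_ker ((om.flip x).prod (om.flip y))
  have h2 : LinearMap.range ((om.flip x).prod (om.flip y)) = ⊤ := by
    rw [LinearMap.range_eq_top]
    rintro ⟨a, b⟩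
    refine ⟨b • x - a • y, ?_⟩
    show (om (b • x - a • y) x, om (b • x - a • y) y) = (a, b)
    simp only [map_sub, map_smul, LinearMap.sub_apply, LinearMap.smul_apply, halt,
      om_swap' halt x y, hxy, smul_eq_mul]
    ext <;> simp
  rw [h2, finrank_top, finrank_prod, finrank_self] at h1
  unfold orth
  omega

/-- the projection -/
noncomputable def prj (om : V →ₗ[ZMod p] V →ₗ[ZMod p] ZMod p) (halt : ∀ v, om v v = 0) {x y : V}
    (hxy : om x y = 1) : V →ₗ[ZMod p] orth om x y :=
  LinearMap.codRestrict (orth om x y)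
    (LinearMap.id - (om.flip y).smulRight x - (om x).smulRight y) (by
      intro v
      rw [mem_orth]
      simp only [LinearMap.sub_apply, LinearMap.id_apply, LinearMap.smulRight_apply, map_sub,
        map_smul, LinearMap.smul_apply, halt, om_swap' halt x y, hxy, LinearMap.flip_apply,
        smul_eq_mul, om_swap' halt x v]
      constructor <;> ring)

lemma coe_prj (halt : ∀ v, om v v = 0) {x y : V} (hxy : om x y = 1) (v : V) :
    (prj om halt hxy v : V) = v - om v y • x - om x v • y := rfl

lemma om_prj (halt : ∀ v, om v v = 0) {x y : V} (hxy : om x y = 1) (v w : V) :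
    om (prj om halt hxy v : V) (prj om halt hxy w) = om v w - om v y * om x w +
      om x v * om w y := by
  rw [coe_prj, coe_prj]
  simp only [map_sub, map_smul, LinearMap.sub_apply, LinearMap.smul_apply, smul_eq_mul, halt,
    om_swap' halt x y, hxy, om_swap' halt x v, om_swap' halt w y]
  ring

/-- ROW S1 -/
theorem exists_isometry {V V' : Type} [AddCommGroup V] [AddCommGroup V'] [Module (ZMod p) V]
    [Module (ZMod p) V'] [Finite V] [Finite V'] {om : V →ₗ[ZMod p] V →ₗ[ZMod p] ZMod p}
    {om' : V' →ₗ[ZMod p] V' →ₗ[ZMod p] ZMod p} (halt : ∀ v, om v v = 0) (hnd : Nd om)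
    (halt' : ∀ v, om' v v = 0) (hnd' : Nd om') (h : finrank (ZMod p) V = finrank (ZMod p) V') :
    ∃ e : V ≃ₗ[ZMod p] V', ∀ x y, om' (e x) (e y) = om x y := by
  -- it is enough to find an isometric linear map
  have key : ∀ n : ℕ, ∀ (V V' : Type) [AddCommGroup V] [AddCommGroup V'] [Module (ZMod p) V]
      [Module (ZMod p) V'] [Finite V] [Finite V'] (om : V →ₗ[ZMod p] V →ₗ[ZMod p] ZMod p)
      (om' : V' →ₗ[ZMod p] V' →ₗ[ZMod p] ZMod p), (∀ v, om v v = 0) → Nd om →
      (∀ v, om' v v = 0) → Nd om' → finrank (ZMod p) V = n → finrank (ZMod p) V' = n →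
      ∃ e : V →ₗ[ZMod p] V', ∀ x y, om' (e x) (e y) = om x y := by
    intro n
    induction n using Nat.strong_induction_on with
    | _ n ih =>
      intro V V' _ _ _ _ _ _ om om' halt hnd halt' hnd' h h'
      rcases Nat.eq_zero_or_pos n with hn | hn
      · refine ⟨0, fun x y => ?_⟩
        have : Subsingleton V := finrank_zero_iff.1 (h.trans hn)
        rw [Subsingleton.elim x 0]
        simp
      · have hV : Nontrivial V := nontrivial_of_finrank_pos (R := ZMod p) (by omega)
        have hV' : Nontrivial V' := nontrivial_of_finrank_pos (R := ZMod p) (by omega)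
        obtain ⟨x, hx⟩ := exists_ne (0 : V)
        obtain ⟨x', hx'⟩ := exists_ne (0 : V')
        obtain ⟨y, hxy⟩ := exists_pair hnd hx
        obtain ⟨y', hxy'⟩ := exists_pair hnd' hx'
        have h1 := finrank_orth halt hxy
        have h1' := finrank_orth halt' hxy'
        have nd : ∀ (V : Type) [AddCommGroup V] [Module (ZMod p) V]
            (om : V →ₗ[ZMod p] V →ₗ[ZMod p] ZMod p) (halt : ∀ v, om v v = 0) (_ : Nd om)
            {x y : V} (hxy : om x y = 1),
            Nd (om.domRestrict₁₂ (orth om x y) (orth om x y)) := by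
          intro V _ _ om halt hnd x y hxy v hv
          apply Subtype.ext
          apply hnd
          intro w
          have h2 := hv (prj om halt hxy w)
          rw [LinearMap.domRestrict₁₂_apply, coe_prj, map_sub, map_sub, map_smul, map_smul,
            (mem_orth.1 v.2).1, (mem_orth.1 v.2).2, smul_zero, smul_zero, sub_zero,
            sub_zero] at h2
          exact h2
        obtain ⟨e, he⟩ := ih (n - 2) (by omega) (orth om x y) (orth om' x' y')
          (om.domRestrict₁₂ (orth om x y) (orth om x y))
          (om'.domRestrict₁₂ (orth om' x' y') (orth om' x' y'))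
          (fun v => halt v) (nd V om halt hnd hxy) (fun v => halt' v) (nd V' om' halt' hnd' hxy')
          (by omega) (by omega)
        refine ⟨(om.flip y).smulRight x' + (om x).smulRight y' +
          (orth om' x' y').subtype ∘ₗ e ∘ₗ prj om halt hxy, fun v w => ?_⟩
        have h2 := he (prj om halt hxy v) (prj om halt hxy w)
        rw [LinearMap.domRestrict₁₂_apply, LinearMap.domRestrict₁₂_apply, om_prj] at h2
        have h3 := mem_orth.1 (e (prj om halt hxy v)).2
        have h4 := mem_orth.1 (e (prj om halt hxy w)).2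
        have h5 : om' x' (e (prj om halt hxy w) : V') = 0 := by
          rw [om_swap' halt', h4.1, neg_zero]
        have h6 : om' y' (e (prj om halt hxy w) : V') = 0 := by
          rw [om_swap' halt', h4.2, neg_zero]
        simp only [LinearMap.add_apply, LinearMap.smulRight_apply, LinearMap.flip_apply,
          LinearMap.comp_apply, Submodule.subtype_apply, map_add, map_smul, LinearMap.smul_apply,
          smul_eq_mul, halt', hxy', om_swap' halt' x' y', h2, h3.1, h3.2, h5, h6]
        ring
  obtain ⟨e, he⟩ := key _ V V' om om' halt hnd halt' hnd' h rfl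
  have hinj : Function.Injective e := by
    rw [← LinearMap.ker_eq_bot, LinearMap.ker_eq_bot']
    intro v hv
    apply hnd
    intro w
    rw [← he, hv, map_zero, LinearMap.zero_apply]
  have : FiniteDimensional (ZMod p) V := inferInstance
  refine ⟨LinearEquiv.ofInjectiveOfFinrankEq e hinj h, fun x y => ?_⟩
  exact he x y

end sym

end Pool.Agent.XV
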